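import Pool.Agent.Work.MP_bf98aa_gt.Cp.Stmt

/-!
Named parts of the final statement.
-/

set_option autoImplicit false

open scoped Manifold ContDiff

namespace Pool.Agent.Work.MP_bf98aa_gt.Kg

open Pool.Agent.Work.MP_bf98aa_gt.Th Pool.Agent.Work.MP_bf98aa_gt.Cp

section
variable {E : Type} [NormedAddCommGroup E] [NormedSpace ℝ E] {M : Type} [TopologicalSpace M]
  [ChartedSpace E M]

/-- The form `w` is invariant under `J`. -/
def JInv (w : Form E M 2) (J : Endo E M) : Prop := ∀ x u v, w x ![J x u, J x v] = w x ![u, v]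

/-- The form `w` is invariant under `J` and seminegative. -/
def SemiNeg (w : Form E M 2) (J : Endo E M) : Prop := JInv w J ∧ ∀ x v, w x ![v, J x v] ≤ 0

/-- `J` is the same constant complex structure in all charts (so the charts are holomorphic), and
`w` is a Kaehler form for `J`. -/
def Kaehler (w : Form E M 2) (J : Endo E M) : Prop :=
  w.Closed ∧ Tamed w J ∧ JInv w J ∧ ∃ J₀, ∀ p, ∀ y ∈ (chartAt E p).target, J.loc p y = J₀

/-- `ρ` is cohomologous to the sum of the products `a (k, 0) ∧ a (k, 1)` of closed 1-forms. -/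
def Splits (ρ : Form E M 2) (a : Fin 3 × Fin 2 → Form E M 1) : Prop :=
  (∀ i, (a i).Closed) ∧ ∃ σ : Form E M 2, (ρ.sub σ).Exact ∧ ∀ x u v, σ x ![u, v] =
    ∑ k, (a (k, 0) x ![u] * a (k, 1) x ![v] - a (k, 0) x ![v] * a (k, 1) x ![u])

end

/-- `w` is symplectic and `ρ` represents its first Chern class. -/
def SympC1 {n : ℕ} {M : Type} [TopologicalSpace M] [ChartedSpace (Sp (Fin (n + 1))) M]
    (w ρ : Form (Sp (Fin (n + 1))) M 2) : Prop :=
  w.Closed ∧ w.Nondeg ∧ ∃ J, Tamed w J ∧ RepC1 J ρ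

/-- The integral of `a ∧ b ∧ c` for the orientation given by `o ^ 3` is `r`. -/
def Int3 {M : Type} [TopologicalSpace M] [ChartedSpace (Sp (Fin 3)) M]
    (o a b c : Form (Sp (Fin 3)) M 2) (r : ℝ) : Prop := Integral o (coef2 ![a, b, c]) r

end Pool.Agent.Work.MP_bf98aa_gt.Kg
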