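import Pool.Agent.Work.MP_bf98aa_gt.Cp.Stmt
import Pool.Agent.Work.MP_bf98aa_gt.Th.IPf

-- merged part: Pool.Agent.Work.MP_bf98aa_gt.Cp.PForm
section
-- merged part: Pool.Agent.Work.MP_bf98aa_gt.Cp.PDef
section
/-!
Working definitions: a manifold presented by charts `W i` in a vector space and an equivalence
relation `r` which is locally the graph of smooth maps. See the team-store file
`h8_bf98aa_c1pos.md` for the mathematics.
-/

set_option autoImplicit false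

open scoped ContDiff Topology
open Set Filter MeasureTheory

namespace Pool.Agent.Work.MP_bf98aa_gt.Cp

open Pool.Agent.Work.MP_bf98aa_gt.Th

abbrev F2 : Type := ℂ × ℂ

abbrev E3 : Type := ℂ × ℂ × ℂ

/-- Charts and gluing relation. -/
structure Pres (V : Type) : Type 1 where
  ι : Type
  W : ι → Set V
  r : ι → V → ι → V → Prop

/-- The part of a relation between the charts `i` and `j`. -/
def sl {ι ι' V V' : Type} (R : ι → V → ι' → V' → Prop) (i : ι) (j : ι') : V → V' → Prop :=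
  fun x x' => R i x j x'

section
variable {V V' : Type} [NormedAddCommGroup V] [NormedSpace ℝ V] [NormedAddCommGroup V']
  [NormedSpace ℝ V'] {k : ℕ}

/-- Near `y` the graph of the smooth map `γ` lies in the relation. -/
def Lift (R : V → V' → Prop) (y : V) (γ : V → V') : Prop :=
  ContDiffAt ℝ ∞ γ y ∧ ∀ᶠ x in 𝓝 y, R x (γ x)

structure Pres.Good (P : Pres V) : Prop where
  fin : Finite P.ι
  opn : ∀ i, IsOpen (P.W i)
  mem : ∀ {i y j z}, P.r i y j z → y ∈ P.W i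
  refl : ∀ {i y}, y ∈ P.W i → P.r i y i y
  symm : ∀ {i y j z}, P.r i y j z → P.r j z i y
  trans : ∀ {i y j z l x}, P.r i y j z → P.r j z l x → P.r i y l x
  loc : ∀ {i y j z}, P.r i y j z → ∃ γ, γ y = z ∧ Lift (sl P.r i j) y γ
  inj : ∀ {i y}, y ∈ P.W i → ∀ᶠ p in 𝓝 (y, y), P.r i p.1 i p.2 → p.1 = p.2
  clo : ∀ {i y j z}, y ∈ P.W i → z ∈ P.W j → ¬ P.r i y j z →
    ∀ᶠ p in 𝓝 (y, z), ¬ P.r i p.1 j p.2

/-- The compact sets `K i` meet every class. -/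
def Pres.CptBy (P : Pres V) (K : P.ι → Set V) : Prop :=
  (∀ i, IsCompact (K i) ∧ K i ⊆ P.W i) ∧ ∀ i, ∀ y ∈ P.W i, ∃ j, ∃ z ∈ K j, P.r i y j z

def Pres.Cpt (P : Pres V) : Prop := ∃ K, P.CptBy K

/-- The quotient is connected. -/
def Pres.Conn (P : Pres V) : Prop :=
  (∃ i y, y ∈ P.W i) ∧ ∀ Z : P.ι → Set V, (∀ i, IsOpen (P.W i ∩ Z i)) → (∀ i, IsOpen (P.W i \ Z i)) →
    (∀ i y j z, P.r i y j z → y ∈ Z i → z ∈ Z j) →
    ∀ i j, ∀ y ∈ P.W i, ∀ z ∈ P.W j, y ∈ Z i → z ∈ Z j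

/-- A smooth map between the quotients, given by its graph. -/
structure SMap (P : Pres V) (Q : Pres V') (R : P.ι → V → Q.ι → V' → Prop) : Prop where
  mem : ∀ {i y j z}, R i y j z → y ∈ P.W i ∧ z ∈ Q.W j
  tot : ∀ {i y}, y ∈ P.W i → ∃ j z, R i y j z
  loc : ∀ {i y j z}, R i y j z → ∃ γ, γ y = z ∧ Lift (sl R i j) y γ
  uniq : ∀ {i y j z j' z'}, R i y j z → R i y j' z' → Q.r j z j' z'
  left : ∀ {i' y' i y j z}, P.r i' y' i y → R i y j z → R i' y' j z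
  right : ∀ {i y j z j' z'}, R i y j z → Q.r j z j' z' → R i y j' z'

/-- Invariant functions. -/
def Pres.InvF {X : Type} (P : Pres V) (f : P.ι → V → X) : Prop :=
  ∀ i y j z, P.r i y j z → f i y = f j z

/-- `a` is the pull-back of `b` along the relation. -/
def Pulls {ι ι' : Type} (R : ι → V → ι' → V' → Prop) (a : ι → Fm V k) (b : ι' → Fm V' k) : Prop :=
  ∀ i j y γ, Lift (sl R i j) y γ → a i y = pb γ (b j) y

/-- A smooth form on the quotient. -/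
def Pres.GS (P : Pres V) (a : P.ι → Fm V k) : Prop := (∀ i, Sm (a i) (P.W i)) ∧ Pulls P.r a a

/-- A closed form on the quotient. -/
def Pres.GC (P : Pres V) (a : P.ι → Fm V k) : Prop := (∀ i, Cl (a i) (P.W i)) ∧ Pulls P.r a a

/-- A continuous density on the quotient. -/
def Pres.Dn (P : Pres V) (f : P.ι → V → ℝ) : Prop :=
  (∀ i, ContinuousOn (f i) (P.W i)) ∧
    ∀ i j y γ, Lift (sl P.r i j) y γ → f i y = |(fderiv ℝ γ y).det| * f j (γ y)

/-- The gluing maps preserve the orientation. -/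
def Pres.Ori (P : Pres V) : Prop := ∀ i j y γ, Lift (sl P.r i j) y γ → 0 < (fderiv ℝ γ y).det

/-- The product of two presentations. -/
def Pres.prod (P : Pres V) (Q : Pres V') : Pres (V × V') where
  ι := P.ι × Q.ι
  W i := P.W i.1 ×ˢ Q.W i.2
  r i y j z := P.r i.1 y.1 j.1 z.1 ∧ Q.r i.2 y.2 j.2 z.2

/-- A finite continuous partition of unity subordinate to charts. -/
structure Part (P : Pres V) : Type 1 where
  κ : Type
  s : Finset κ
  i : κ → P.ι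
  O : κ → Set V
  C : κ → Set V
  ρ : κ → P.ι → V → ℝ
  opn : ∀ k, IsOpen (O k)
  sub : ∀ k, O k ⊆ P.W (i k)
  inj : ∀ k, ∀ y ∈ O k, ∀ y' ∈ O k, P.r (i k) y (i k) y' → y = y'
  cpt : ∀ k, IsCompact (C k) ∧ C k ⊆ O k
  cont : ∀ k j, ContinuousOn (ρ k j) (P.W j)
  inv : ∀ k, P.InvF (ρ k)
  supp : ∀ k j, ∀ z ∈ P.W j, ρ k j z ≠ 0 → ∃ y ∈ C k, P.r j z (i k) y
  sum : ∀ j, ∀ z ∈ P.W j, ∑ k ∈ s, ρ k j z = 1

/-- Smooth and nonnegative. -/
def Part.Nice {P : Pres V} (T : Part P) : Prop :=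
  ∀ k j, ContDiffOn ℝ ∞ (T.ρ k j) (P.W j) ∧ ∀ z ∈ P.W j, 0 ≤ T.ρ k j z

noncomputable def Part.int [MeasureSpace V] {P : Pres V} (T : Part P) (f : P.ι → V → ℝ) : ℝ :=
  ∑ k ∈ T.s, ∫ y in T.O k, T.ρ k (T.i k) y * f (T.i k) y

/-- The integral of the density `f` over the quotient is `c`. -/
def Pres.HasI [MeasureSpace V] (P : Pres V) (f : P.ι → V → ℝ) (c : ℝ) : Prop :=
  ∀ T : Part P, T.int f = c

/-- A manifold (first factor `N`) mapping to `A` by `Ψ`, bijectively and locally diffeomorphically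
onto an open set off the zero set of the radius function `R`, which is proper onto `[0, 4)`. -/
structure Tube (A N : Pres V) (Ψ : N.ι → V → A.ι → V → Prop) (R : N.ι → V → ℝ) : Prop where
  map : SMap N A Ψ
  cont : ∀ k, ContinuousOn (R k) (N.W k)
  nonneg : ∀ k, ∀ n ∈ N.W k, 0 ≤ R k n
  lt : ∀ k, ∀ n ∈ N.W k, R k n < 4
  rinv : ∀ {k n k' n' i y}, Ψ k n i y → Ψ k' n' i y → R k n = R k' n'
  inj : ∀ {k n k' n' i y}, Ψ k n i y → Ψ k' n' i y → R k n ≠ 0 → N.r k n k' n'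
  back : ∀ {k n i y}, Ψ k n i y → R k n ≠ 0 →
    ∃ γ, γ y = n ∧ Lift (fun x x' => Ψ k x' i x) y γ
  opn : ∀ {k n i y c}, Ψ k n i y → R k n < c → ∀ᶠ x in 𝓝 y, ∃ k' n', Ψ k' n' i x ∧ R k' n' < c
  cpt : ∀ c < 4, ∃ K : N.ι → Set V, (∀ k, IsCompact (K k) ∧ K k ⊆ N.W k ∧ ∀ n ∈ K k, R k n ≤ c) ∧
    ∀ k, ∀ n ∈ N.W k, R k n ≤ c → ∃ k', ∃ n' ∈ K k', N.r k n k' n'

/-- The points of the chart `i` of `A` outside the closed tube of radius `c`. -/
def outer (A N : Pres V) (Ψ : N.ι → V → A.ι → V → Prop) (R : N.ι → V → ℝ) (c : ℝ) (i : A.ι) :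
    Set V := {y | y ∈ A.W i ∧ ∀ k n, Ψ k n i y → c < R k n}

/-- Remove the core of the tube from `A` and glue in `N`. -/
def surg (A N : Pres V) (Ψ : N.ι → V → A.ι → V → Prop) (R : N.ι → V → ℝ) : Pres V where
  ι := A.ι ⊕ N.ι
  W := Sum.elim (outer A N Ψ R 0) N.W
  r a y b z := match a, b with
    | .inl i, .inl j => y ∈ outer A N Ψ R 0 i ∧ A.r i y j z
    | .inl i, .inr k => Ψ k z i y ∧ R k z ≠ 0
    | .inr k, .inl i => Ψ k y i z ∧ R k y ≠ 0
    | .inr k, .inr k' => N.r k y k' z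

end

section
variable {V : Type} [NormedAddCommGroup V] [NormedSpace ℝ V] [NormedSpace ℂ V]
  [IsScalarTower ℝ ℂ V]

/-- Multiplication by `i`. -/
noncomputable def mulI (V : Type) [NormedAddCommGroup V] [NormedSpace ℝ V] [NormedSpace ℂ V]
    [IsScalarTower ℝ ℂ V] : V →L[ℝ] V :=
  (Complex.I • ContinuousLinearMap.id ℂ V).restrictScalars ℝ

/-- The complex structure which makes the frame `F` complex linear. -/
noncomputable def Jof (F : V →L[ℝ] V) : V →L[ℝ] V := F.inverse.comp ((mulI V).comp F)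

/-- Near `y` the map `γ` carries the complex frame `F` with connection form `A` to `F'`, `A'`. -/
def Cmp (γ : V → V) (F : V → V →L[ℝ] V) (A : Fm V 1) (F' : V → V →L[ℝ] V) (A' : Fm V 1) (y : V) :
    Prop :=
  ∃ l : V → ℂ, ContDiffAt ℝ ∞ l y ∧ ∀ᶠ x in 𝓝 y,
    (∃ U : V →L[ℂ] V, (∀ v, F' (γ x) (fderiv ℝ γ x v) = U (F x v)) ∧ U.det = l x) ∧ l x ≠ 0 ∧
      ∀ v, A' (γ x) ![fderiv ℝ γ x v] - A x ![v] = (fderiv ℝ l x v / l x).im

/-- A family of complex frames with connection forms on open parts of charts. -/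
structure Fam (P : Pres V) : Type 1 where
  κ : Type
  i : κ → P.ι
  O : κ → Set V
  F : κ → V → V →L[ℝ] V
  A : κ → Fm V 1

/-- One frame on every chart. -/
def Fam.whole (P : Pres V) (F : P.ι → V → V →L[ℝ] V) (A : P.ι → Fm V 1) : Fam P :=
  ⟨P.ι, id, P.W, F, A⟩

/-- The family defines an almost complex structure tamed by `w` and a connection on the canonical
bundle with curvature form `ρ`. -/
structure Fam.Ok {P : Pres V} (T : Fam P) (w ρ : P.ι → Fm V 2) : Prop where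
  opn : ∀ k, IsOpen (T.O k)
  sub : ∀ k, T.O k ⊆ P.W (T.i k)
  cov : ∀ j, ∀ z ∈ P.W j, ∃ k, ∃ y ∈ T.O k, P.r j z (T.i k) y
  smF : ∀ k, ContDiffOn ℝ ∞ (T.F k) (T.O k)
  inv : ∀ k, ∀ y ∈ T.O k, (T.F k y).IsInvertible
  dA : ∀ k, IsD (T.A k) (fun y => (2 * Real.pi) • ρ (T.i k) y) (T.O k)
  tame : ∀ k, ∀ y ∈ T.O k, ∀ v, v ≠ 0 → 0 < w (T.i k) y ![v, Jof (T.F k y) v]
  cmp : ∀ k l, ∀ y ∈ T.O k, ∀ γ, γ y ∈ T.O l → Lift (sl P.r (T.i k) (T.i l)) y γ →
    Cmp γ (T.F k) (T.A k) (T.F l) (T.A l) y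

end

/-- Real coordinates. -/
noncomputable def LL : E3 ≃L[ℝ] Sp (Fin 3) :=
  LinearEquiv.toContinuousLinearEquiv
    { toFun := fun x p => ![(![x.1, x.2.1, x.2.2] p.1).re, (![x.1, x.2.1, x.2.2] p.1).im] p.2
      invFun := fun y => (⟨y (0, 0), y (0, 1)⟩, ⟨y (1, 0), y (1, 1)⟩, ⟨y (2, 0), y (2, 1)⟩)
      map_add' := fun x y => by
        funext p
        obtain ⟨s, j⟩ := p
        fin_cases s <;> fin_cases j <;> simp
      map_smul' := fun c x => by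
        funext p
        obtain ⟨s, j⟩ := p
        fin_cases s <;> fin_cases j <;> simp
      left_inv := fun x => by simp
      right_inv := fun y => by
        funext p
        obtain ⟨s, j⟩ := p
        fin_cases s <;> fin_cases j <;> simp }

/-- The coefficient of the product of three 2-forms. -/
noncomputable def Pf (a b c : Alt E3 2) : ℝ :=
  pf (fun s => (![a, b, c] s).compContinuousLinearMap (LL.symm : Sp (Fin 3) →L[ℝ] E3)) / 8

/-- The coefficient of the product of six 1-forms. -/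
noncomputable def Dt (a : Fin 3 × Fin 2 → Alt E3 1) : ℝ :=
  Matrix.det (Matrix.of fun i j => a i ![LL.symm (Pi.single j 1)])

/-- The area form of the plane. -/
noncomputable def ar : Alt ℂ 2 := wedge Complex.reCLM Complex.imCLM

/-- The sum of a form on the first factor and a form on the second factor. -/
noncomputable def plus {V V' : Type} [NormedAddCommGroup V] [NormedSpace ℝ V] [NormedAddCommGroup V']
    [NormedSpace ℝ V'] {k : ℕ} (a : Alt V k) (b : Alt V' k) : Alt (V × V') k :=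
  a.compContinuousLinearMap (ContinuousLinearMap.fst ℝ V V') +
    b.compContinuousLinearMap (ContinuousLinearMap.snd ℝ V V')

/-- The coefficient of the product of two 2-forms in dimension four. -/
noncomputable def pf2 (a b : Alt F2 2) : ℝ :=
  a ![(1, 0), (Complex.I, 0)] * b ![(0, 1), (0, Complex.I)] -
    a ![(1, 0), (0, 1)] * b ![(Complex.I, 0), (0, Complex.I)] +
    a ![(1, 0), (0, Complex.I)] * b ![(Complex.I, 0), (0, 1)] +
    (b ![(1, 0), (Complex.I, 0)] * a ![(0, 1), (0, Complex.I)] -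
    b ![(1, 0), (0, 1)] * a ![(Complex.I, 0), (0, Complex.I)] +
    b ![(1, 0), (0, Complex.I)] * a ![(Complex.I, 0), (0, 1)])

/-- The manifold of a presentation. -/
structure Man (P : Pres E3) (M : Type) [TopologicalSpace M] [ChartedSpace (Sp (Fin 3)) M] where
  q : P.ι → E3 → M
  i : M → P.ι
  O : M → Set E3
  opn : ∀ m, IsOpen (O m)
  sub : ∀ m, O m ⊆ P.W (i m)
  inj : ∀ m, ∀ y ∈ O m, ∀ y' ∈ O m, P.r (i m) y (i m) y' → y = y'
  q_eq : ∀ {a y b z}, y ∈ P.W a → z ∈ P.W b → (q a y = q b z ↔ P.r a y b z)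
  cont : ∀ a, ContinuousOn (q a) (P.W a)
  opnmap : ∀ a U, IsOpen U → U ⊆ P.W a → IsOpen (q a '' U)
  src : ∀ m, (chartAt (Sp (Fin 3)) m).source = q (i m) '' O m
  tgt : ∀ m, (chartAt (Sp (Fin 3)) m).target = LL '' O m
  symm : ∀ m, ∀ y ∈ O m, (chartAt (Sp (Fin 3)) m).symm (LL y) = q (i m) y

end Pool.Agent.Work.MP_bf98aa_gt.Cp
end

-- merged part: Pool.Agent.Work.MP_bf98aa_gt.Cp.PBas
section
/-!
Local lifts of relations.

PLAN. `lift_eq`: near `y` both values are related (`uniq`) and close to `γ y`, so equal by `Good.inj`. `lift_ev`: for `x` near `y` (use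
`eventually_eventually_nhds` and continuity of `γ` near `y` from `ContDiffAt.eventually` in order 1) take a lift `γ'` at `x` from `loc`; it agrees with `γ`
near `x` by the same argument. `factor`: `δ` from `Good.loc` for the pair `γ y, γ' y`, then `lift_eq` for `δ ∘ γ` and `γ'`. `back`: inverse function theorem
(`ContDiffAt.toOpenPartialHomeomorph`, `ContDiffAt.to_localInverse`). `closed_im`: `IsCompact.eventually_forall_of_forall_eventually`, for `y ∈ K` a lift at `y` and `Good.clo`.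
-/

set_option autoImplicit false

open scoped ContDiff Topology
open Set Filter MeasureTheory

namespace Pool.Agent.Work.MP_bf98aa_gt.Cp

open Pool.Agent.Work.MP_bf98aa_gt.Th

variable {V V' V'' : Type} [NormedAddCommGroup V] [NormedSpace ℝ V] [NormedAddCommGroup V']
  [NormedSpace ℝ V'] [NormedAddCommGroup V''] [NormedSpace ℝ V''] {k : ℕ}

theorem Lift.self {R : V → V' → Prop} {y : V} {γ : V → V'} (h : Lift R y γ) : R y (γ y) :=
  h.2.self_of_nhds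

theorem Lift.congr {R : V → V' → Prop} {y : V} {γ γ' : V → V'} (h : Lift R y γ)
    (e : γ =ᶠ[𝓝 y] γ') : Lift R y γ' := by
  refine ⟨h.1.congr_of_eventuallyEq e.symm, ?_⟩
  filter_upwards [h.2, e] with x hx he
  rwa [← he]

theorem Lift.mono {R R' : V → V' → Prop} {y : V} {γ : V → V'} (h : Lift R y γ)
    (hR : ∀ᶠ x in 𝓝 y, R x (γ x) → R' x (γ x)) : Lift R' y γ := by
  refine ⟨h.1, ?_⟩
  filter_upwards [h.2, hR] with x hx he using he hx

theorem Lift.comp {R : V → V' → Prop} {R' : V' → V'' → Prop} {R'' : V → V'' → Prop} {y : V}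
    {γ : V → V'} {γ' : V' → V''} (h : Lift R y γ) (h' : Lift R' (γ y) γ')
    (hR : ∀ x x' x'', R x x' → R' x' x'' → R'' x x'') : Lift R'' y fun x => γ' (γ x) := by
  refine ⟨h'.1.comp y h.1, ?_⟩
  filter_upwards [h.2, h.1.continuousAt.tendsto.eventually h'.2] with x hx hx'
    using hR _ _ _ hx hx'

theorem Lift.diff {R : V → V' → Prop} {y : V} {γ : V → V'} (h : Lift R y γ) :
    ∀ᶠ x in 𝓝 y, DifferentiableAt ℝ γ x := by
  have h1 : ContDiffAt ℝ 1 γ y := h.1.of_le (by exact_mod_cast le_top)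
  filter_upwards [h1.eventually (by simp)] with x hx using hx.differentiableAt one_ne_zero

variable {P : Pres V} {Q : Pres V'} {R : P.ι → V → Q.ι → V' → Prop}

theorem Pres.Good.mem' (hP : P.Good) {i j : P.ι} {y z : V} (h : P.r i y j z) : z ∈ P.W j :=
  hP.mem (hP.symm h)

theorem Pres.Good.smap (hP : P.Good) : SMap P P P.r := by
  exact ⟨fun h => ⟨hP.mem h, hP.mem' h⟩, fun {i y} hy => ⟨i, y, hP.refl hy⟩, hP.loc,
    fun h h' => hP.trans (hP.symm h) h', hP.trans, hP.trans⟩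

theorem Pres.Good.lift_id (hP : P.Good) {i : P.ι} {y : V} (hy : y ∈ P.W i) :
    Lift (sl P.r i i) y fun x => x := by
  refine ⟨contDiffAt_id, ?_⟩
  filter_upwards [(hP.opn i).mem_nhds hy] with x hx using hP.refl hx

theorem PBas_eq (h : SMap P Q R) (hQ : Q.Good) {i : P.ι} {j : Q.ι} {y : V} {γ γ' : V → V'}
    (c1 : ContinuousAt γ y) (c2 : ContinuousAt γ' y) (h1 : ∀ᶠ x in 𝓝 y, R i x j (γ x))
    (h2 : ∀ᶠ x in 𝓝 y, R i x j (γ' x)) (e : γ y = γ' y) : γ =ᶠ[𝓝 y] γ' := by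
  have ht : Tendsto (fun x => (γ x, γ' x)) (𝓝 y) (𝓝 (γ y, γ y)) :=
    c1.tendsto.prodMk_nhds (e ▸ c2.tendsto)
  filter_upwards [h1, h2, ht.eventually (hQ.inj (h.mem h1.self_of_nhds).2)] with x a b c
    using c (h.uniq a b)

theorem SMap.lift_eq (h : SMap P Q R) (hQ : Q.Good) {i : P.ι} {j : Q.ι} {y : V} {γ γ' : V → V'}
    (h1 : Lift (sl R i j) y γ) (h2 : Lift (sl R i j) y γ') (e : γ y = γ' y) : γ =ᶠ[𝓝 y] γ' := by
  exact PBas_eq h hQ h1.1.continuousAt h2.1.continuousAt h1.2 h2.2 e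

theorem SMap.lift_ev (h : SMap P Q R) (hQ : Q.Good) {i : P.ι} {j : Q.ι} {y : V} {γ : V → V'}
    (h1 : Lift (sl R i j) y γ) : ∀ᶠ x in 𝓝 y, Lift (sl R i j) x γ := by
  filter_upwards [h1.diff, h1.2.eventually_nhds] with x hd hx
  obtain ⟨γ', e, h'⟩ := h.loc (i := i) (j := j) hx.self_of_nhds
  exact h'.congr (PBas_eq h hQ h'.1.continuousAt hd.continuousAt h'.2 hx e)

theorem SMap.factor (h : SMap P Q R) (hQ : Q.Good) {i : P.ι} {j j' : Q.ι} {y : V} {γ γ' : V → V'}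
    (h1 : Lift (sl R i j) y γ) (h2 : Lift (sl R i j') y γ') :
    ∃ δ, Lift (sl Q.r j j') (γ y) δ ∧ γ' =ᶠ[𝓝 y] fun x => δ (γ x) := by
  obtain ⟨δ, e, hδ⟩ := hQ.loc (h.uniq (i := i) (j := j) (j' := j') h1.self h2.self)
  refine ⟨δ, hδ, h.lift_eq hQ h2 (h1.comp hδ fun _ _ _ a b => h.right a b) e.symm⟩

theorem Pres.Good.lift_inv (hP : P.Good) {i j : P.ι} {y : V} {γ : V → V}
    (h1 : Lift (sl P.r i j) y γ) : ∃ δ, Lift (sl P.r j i) (γ y) δ ∧ δ (γ y) = y ∧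
      (∀ᶠ x in 𝓝 y, δ (γ x) = x) ∧ ∀ᶠ x in 𝓝 (γ y), γ (δ x) = x := by
  have hr : P.r i y j (γ y) := h1.self
  obtain ⟨δ, e, hδ⟩ := hP.loc (hP.symm hr)
  have h1' : Lift (sl P.r i j) (δ (γ y)) γ := by rwa [e]
  refine ⟨δ, hδ, e, ?_, ?_⟩
  · exact hP.smap.lift_eq hP (h1.comp hδ fun _ _ _ a b => hP.trans a b)
      (hP.lift_id (hP.mem hr)) e
  · exact hP.smap.lift_eq hP (hδ.comp h1' fun _ _ _ a b => hP.trans a b)
      (hP.lift_id (hP.mem' hr)) (congrArg γ e)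

theorem Pres.Good.lift_isInv (hP : P.Good) {i j : P.ι} {y : V} {γ : V → V}
    (h1 : Lift (sl P.r i j) y γ) : (fderiv ℝ γ y).IsInvertible := by
  obtain ⟨δ, hδ, e, a, b⟩ := hP.lift_inv h1
  have d1 : HasFDerivAt γ (fderiv ℝ γ y) y := h1.diff.self_of_nhds.hasFDerivAt
  have d2 : HasFDerivAt δ (fderiv ℝ δ (γ y)) (γ y) := hδ.diff.self_of_nhds.hasFDerivAt
  have d1' : HasFDerivAt γ (fderiv ℝ γ y) (δ (γ y)) := by rwa [e]
  have a' : (fun x => x) =ᶠ[𝓝 y] δ ∘ γ := a.mono fun x hx => hx.symm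
  have b' : (fun x => x) =ᶠ[𝓝 (γ y)] γ ∘ δ := b.mono fun x hx => hx.symm
  exact ContinuousLinearMap.IsInvertible.of_inverse
    (((d1'.comp _ d2).congr_of_eventuallyEq b').unique (hasFDerivAt_id _))
    (((d2.comp _ d1).congr_of_eventuallyEq a').unique (hasFDerivAt_id _))

theorem Pulls.of_exists (h : SMap P Q R) (hQ : Q.Good) {a : P.ι → Fm V k} {b : Q.ι → Fm V' k}
    (H : ∀ i y j z, R i y j z → ∃ γ, γ y = z ∧ Lift (sl R i j) y γ ∧ a i y = pb γ (b j) y) :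
    Pulls R a b := by
  intro i j y γ hγ
  obtain ⟨γ', e, h', ha⟩ := H i y j (γ y) hγ.self
  rw [ha]
  exact pb_congr _ (h.lift_eq hQ h' hγ e)

theorem Pulls.of_one (h : SMap P Q R) (hQ : Q.Good) {a : P.ι → Fm V k} {b : Q.ι → Fm V' k}
    (hb : Pulls Q.r b b)
    (H : ∀ i, ∀ y ∈ P.W i, ∃ j γ, Lift (sl R i j) y γ ∧ a i y = pb γ (b j) y) : Pulls R a b := by
  intro i j' y γ' h2
  obtain ⟨j, γ, h1, ha⟩ := H i y (h.mem (i := i) (j := j') h2.self).1
  obtain ⟨δ, hδ, e⟩ := h.factor hQ h1 h2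
  rw [ha, pb_congr _ e, pb_comp _ h1.diff.self_of_nhds hδ.diff.self_of_nhds]
  exact pb_congr' (hb _ _ _ _ hδ)

theorem SMap.back [FiniteDimensional ℝ V] (h : SMap P Q R) (hQ : Q.Good)
    (hinv : ∀ i j y γ, Lift (sl R i j) y γ → (fderiv ℝ γ y).IsInvertible) {i : P.ι} {j : Q.ι}
    {y : V} {z : V'} (hr : R i y j z) : ∃ δ, δ z = y ∧ Lift (fun x x' => R i x' j x) z δ := by
  have : CompleteSpace V := FiniteDimensional.complete ℝ V
  obtain ⟨γ, rfl, hγ⟩ := h.loc hr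
  obtain ⟨e, he⟩ := hinv i j y γ hγ
  have hd : HasFDerivAt γ (e : V →L[ℝ] V') y := he ▸ hγ.diff.self_of_nhds.hasFDerivAt
  have hn : (∞ : WithTop ℕ∞) ≠ 0 := by simp
  have e0 := hγ.1.localInverse_apply_image hd hn
  have c0 := hγ.1.to_localInverse hd hn
  refine ⟨hγ.1.localInverse hd hn, e0, c0, ?_⟩
  have ht := c0.continuousAt.tendsto
  rw [e0] at ht
  filter_upwards [ht.eventually hγ.2, (hγ.1.hasStrictFDerivAt' hd hn).eventually_right_inverse]
    with x a b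
  have b' : γ (hγ.1.localInverse hd hn x) = x := b
  rw [b'] at a
  exact a

theorem SMap.closed_im (h : SMap P Q R) (hQ : Q.Good) {i : P.ι} {j : Q.ι} {K : Set V}
    (hK : IsCompact K) (hKW : K ⊆ P.W i) {z : V'} (hz : z ∈ Q.W j) (hn : ∀ y ∈ K, ¬ R i y j z) :
    ∀ᶠ x in 𝓝 z, ∀ y ∈ K, ¬ R i y j x := by
  refine hK.eventually_forall_of_forall_eventually (P := fun x y => ¬ R i y j x) fun y hy => ?_
  obtain ⟨j', z', hr⟩ := h.tot (hKW hy)
  obtain ⟨γ, rfl, hγ⟩ := h.loc hr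
  have hc := hQ.clo (h.mem hr).2 hz fun a => hn y hy (h.right hr a)
  have t2 : Tendsto (fun p : V' × V => p.2) (𝓝 (z, y)) (𝓝 y) := continuous_snd.continuousAt
  have ht : Tendsto (fun p : V' × V => (γ p.2, p.1)) (𝓝 (z, y)) (𝓝 (γ y, z)) :=
    (hγ.1.continuousAt.tendsto.comp t2).prodMk_nhds continuous_fst.continuousAt
  filter_upwards [ht.eventually hc, t2.eventually hγ.2] with p a b c using a (h.uniq b c)

/-- Small injective neighbourhoods. -/
theorem Pres.Good.exists_inj (hP : P.Good) {i : P.ι} {y : V} (hy : y ∈ P.W i) :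
    ∃ O, IsOpen O ∧ y ∈ O ∧ O ⊆ P.W i ∧ ∀ x ∈ O, ∀ x' ∈ O, P.r i x i x' → x = x' := by
  have h := hP.inj hy
  rw [nhds_prod_eq] at h
  obtain ⟨t, ht, h⟩ := (eventually_prod_self_iff (r := fun x x' => P.r i x i x' → x = x')).1 h
  exact ⟨interior t ∩ P.W i, isOpen_interior.inter (hP.opn i), ⟨mem_interior_iff_mem_nhds.2 ht, hy⟩,
    inter_subset_right, fun x a x' b => h x (interior_subset a.1) x' (interior_subset b.1)⟩

/-- The saturation of an open set is open. -/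
theorem Pres.Good.isOpen_sat (hP : P.Good) {i : P.ι} {O : Set V} (hO : IsOpen O) (j : P.ι) :
    IsOpen {z | ∃ y ∈ O, P.r j z i y} := by
  refine isOpen_iff_mem_nhds.2 ?_
  rintro z ⟨y, hy, hr⟩
  obtain ⟨γ, rfl, hγ⟩ := hP.loc hr
  filter_upwards [hγ.2, hγ.1.continuousAt.tendsto.eventually (hO.mem_nhds hy)] with x a b
    using ⟨γ x, b, a⟩

theorem conn_of (hP : P.Good) (s : Set P.ι) {i₀ : P.ι} (hne : (P.W i₀).Nonempty)
    (h1 : ∀ i ∈ s, IsPreconnected (P.W i)) (h2 : ∀ j, ∀ z ∈ P.W j, ∃ i ∈ s, ∃ y, P.r j z i y)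
    (h3 : ∀ i ∈ s, Relation.ReflTransGen (fun a b => a ∈ s ∧ b ∈ s ∧ ∃ y z, P.r a y b z) i₀ i) :
    P.Conn := by
  obtain ⟨y₀, hy₀⟩ := hne
  refine ⟨⟨i₀, y₀, hy₀⟩, fun Z o1 o2 hZ => ?_⟩
  have full : ∀ i ∈ s, ∀ y ∈ P.W i, y ∈ Z i → P.W i ⊆ Z i := by
    intro i hi y hy hz
    rcases (h1 i hi).subset_or_subset (o1 i) (o2 i)
      (disjoint_left.2 fun x a b => b.2 a.2) (inter_union_sdiff (P.W i) (Z i)).ge with a | a
    · exact fun x hx => (a hx).2
    · exact absurd hz (a hy).2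
  have step : ∀ a b, Relation.ReflTransGen (fun a b => a ∈ s ∧ b ∈ s ∧ ∃ y z, P.r a y b z) a b →
      (P.W a ⊆ Z a ↔ P.W b ⊆ Z b) := by
    intro a b hab
    induction hab with
    | refl => rfl
    | tail _ hbc ih =>
      obtain ⟨hb, hc, y, z, hr⟩ := hbc
      exact ih.trans ⟨fun f => full _ hc z (hP.mem' hr) (hZ _ _ _ _ hr (f (hP.mem hr))),
        fun f => full _ hb y (hP.mem hr) (hZ _ _ _ _ (hP.symm hr) (f (hP.mem' hr)))⟩
  intro i j y hy z hz hyZ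
  obtain ⟨i', hi', y', hr⟩ := h2 i y hy
  obtain ⟨j', hj', z', hr'⟩ := h2 j z hz
  have f1 := full i' hi' y' (hP.mem' hr) (hZ _ _ _ _ hr hyZ)
  have f2 := (step _ _ (h3 j' hj')).1 ((step _ _ (h3 i' hi')).2 f1)
  exact hZ _ _ _ _ (hP.symm hr') (f2 (hP.mem' hr'))

end Pool.Agent.Work.MP_bf98aa_gt.Cp
end

-- merged part: Pool.Agent.Work.MP_bf98aa_gt.Cp.PForm
section
/-!
Forms on a presentation: algebra, exterior derivative, pull-back, descent.

PLAN. Use `Th/FBasic` (`pb_comp`, `pb_congr`, `extDeriv_pb`, `Sm.pb`, `ContDiffAt.alt_comp`). `Pulls.d`: by `lift_ev` the identity `a i = pb γ (b j)` holds near `y`.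
`exists_pull`, `descent`: define the form at `(i, y)` by a chosen lift at `y`; it equals `pb γ (b j)` near `y` for every lift `γ` at `y` (`lift_ev`, `factor`), so it is smooth.
-/

set_option autoImplicit false

open scoped ContDiff Topology
open Set Filter MeasureTheory

namespace Pool.Agent.Work.MP_bf98aa_gt.Cp

open Pool.Agent.Work.MP_bf98aa_gt.Th

variable {V V' : Type} [NormedAddCommGroup V] [NormedSpace ℝ V] [FiniteDimensional ℝ V]
  [NormedAddCommGroup V'] [NormedSpace ℝ V'] [FiniteDimensional ℝ V'] {k : ℕ}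
  {P : Pres V} {Q : Pres V'} {R : P.ι → V → Q.ι → V' → Prop}

theorem PForm_at {γ : V → V'} {b : Fm V' k} {y : V} (hγ : ContDiffAt ℝ ∞ γ y)
    (hb : ContDiffAt ℝ ∞ b (γ y)) : ContDiffAt ℝ ∞ (pb γ b) y :=
  ContDiffAt.alt_comp (hb.comp y hγ) (hγ.fderiv_right le_rfl)

omit [FiniteDimensional ℝ V] [FiniteDimensional ℝ V'] in
theorem PForm_lift (h : SMap P Q R) {i : P.ι} {y : V} (hy : y ∈ P.W i) :
    ∃ j γ, Lift (sl R i j) y γ := by
  obtain ⟨j, z, hr⟩ := h.tot hy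
  obtain ⟨γ, -, h1⟩ := h.loc hr
  exact ⟨j, γ, h1⟩

omit [FiniteDimensional ℝ V] [FiniteDimensional ℝ V'] in
theorem PForm_comp {S : V → V → Prop} {S' : V → V' → Prop} {y : V} {γ : V → V} {δ : V → V'}
    (b : Fm V' k) (h1 : Lift S y γ) (h2 : Lift S' (γ y) δ) :
    pb (fun x => δ (γ x)) b y = pb γ (pb δ b) y :=
  pb_comp b h1.diff.self_of_nhds h2.diff.self_of_nhds

theorem Pres.GC.gs {a : P.ι → Fm V k} (h : P.GC a) : P.GS a := ⟨fun i => (h.1 i).1, h.2⟩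

theorem Pres.GS.zero : P.GS fun _ => (0 : Fm V k) := by
  exact ⟨fun _ => contDiffOn_const, fun _ _ _ _ _ => rfl⟩

theorem Pres.GS.add {a b : P.ι → Fm V k} (ha : P.GS a) (hb : P.GS b) :
    P.GS fun i y => a i y + b i y := by
  refine ⟨fun i => ContDiffOn.add (ha.1 i) (hb.1 i), fun i j y γ h => ?_⟩
  exact congrArg₂ (· + ·) (ha.2 i j y γ h) (hb.2 i j y γ h)

theorem Pres.GS.smul {a : P.ι → Fm V k} (ha : P.GS a) (c : ℝ) : P.GS fun i y => c • a i y := by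
  exact ⟨fun i => ContDiffOn.const_smul c (ha.1 i), fun i j y γ h =>
    congrArg (c • ·) (ha.2 i j y γ h)⟩

theorem Pres.GS.fsmul {a : P.ι → Fm V k} (ha : P.GS a) {f : P.ι → V → ℝ} (hf : P.InvF f)
    (hs : ∀ i, ContDiffOn ℝ ∞ (f i) (P.W i)) : P.GS fun i y => f i y • a i y := by
  refine ⟨fun i => ContDiffOn.smul (hs i) (ha.1 i), fun i j y γ h => ?_⟩
  exact congrArg₂ (· • ·) (hf i y j _ h.self) (ha.2 i j y γ h)

theorem Pres.GC.add (hP : P.Good) {a b : P.ι → Fm V k} (ha : P.GC a) (hb : P.GC b) :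
    P.GC fun i y => a i y + b i y := by
  refine ⟨fun i => ⟨(ha.gs.add hb.gs).1 i, fun x hx => ?_⟩, (ha.gs.add hb.gs).2⟩
  rw [extDeriv_fun_add ((ha.1 i).1.diffAt (hP.opn i) hx) ((hb.1 i).1.diffAt (hP.opn i) hx),
    (ha.1 i).2 x hx, (hb.1 i).2 x hx, add_zero]

theorem Pres.GC.smul (hP : P.Good) {a : P.ι → Fm V k} (ha : P.GC a) (c : ℝ) :
    P.GC fun i y => c • a i y := by
  refine ⟨fun i => ⟨(ha.gs.smul c).1 i, fun x hx => ?_⟩, (ha.gs.smul c).2⟩
  refine (extDeriv_smul c (a i)).trans ?_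
  rw [(ha.1 i).2 x hx, smul_zero]

theorem Pulls.ev (h : SMap P Q R) (hQ : Q.Good) {a : P.ι → Fm V k} {b : Q.ι → Fm V' k}
    (hab : Pulls R a b) {i : P.ι} {j : Q.ι} {y : V} {γ : V → V'} (h1 : Lift (sl R i j) y γ) :
    a i =ᶠ[𝓝 y] pb γ (b j) := by
  exact (h.lift_ev hQ h1).mono fun x hx => hab i j x γ hx

theorem Pulls.d (h : SMap P Q R) (hQ : Q.Good) {a : P.ι → Fm V k} {b : Q.ι → Fm V' k}
    (hb : Q.GS b) (hab : Pulls R a b) :
    Pulls R (fun i => extDeriv (a i)) fun j => extDeriv (b j) := by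
  intro i j y γ h1
  exact (Pulls.ev h hQ hab h1).extDeriv_eq.trans
    (extDeriv_pb ((hb.1 j).diffAt (hQ.opn j) (h.mem h1.self).2) h1.1)

theorem Pres.GS.d (hP : P.Good) {a : P.ι → Fm V k} (ha : P.GS a) :
    P.GC fun i => extDeriv (a i) := by
  exact ⟨fun i => IsD.cl ⟨ha.1 i, fun _ _ => rfl⟩ (hP.opn i), Pulls.d hP.smap hP ha ha.2⟩

theorem Pulls.gs (h : SMap P Q R) (hP : P.Good) (hQ : Q.Good) {a : P.ι → Fm V k}
    {b : Q.ι → Fm V' k} (hb : Q.GS b) (hab : Pulls R a b) : P.GS a := by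
  refine ⟨fun i y hy => ?_, fun i i' y γ h1 => ?_⟩
  · obtain ⟨j, γ, h1⟩ := PForm_lift h hy
    exact ((PForm_at h1.1 ((hb.1 j).at (hQ.opn j) (h.mem h1.self).2)).congr_of_eventuallyEq
      (Pulls.ev h hQ hab h1)).contDiffWithinAt
  · obtain ⟨j, δ, h2⟩ := PForm_lift h (hP.mem' h1.self)
    rw [hab i j y _ (h1.comp h2 fun _ _ _ => h.left), PForm_comp _ h1 h2,
      pb_congr' (hab i' j _ δ h2)]

theorem Pulls.gc (h : SMap P Q R) (hP : P.Good) (hQ : Q.Good) {a : P.ι → Fm V k}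
    {b : Q.ι → Fm V' k} (hb : Q.GC b) (hab : Pulls R a b) : P.GC a := by
  have hs := Pulls.gs h hP hQ hb.gs hab
  refine ⟨fun i => ⟨hs.1 i, fun y hy => ?_⟩, hs.2⟩
  obtain ⟨j, γ, h1⟩ := PForm_lift h hy
  exact (Pulls.d h hQ hb.gs hab i j y γ h1).trans
    (pb_congr' (β := 0) ((hb.1 j).2 _ (h.mem h1.self).2))

theorem exists_pull (h : SMap P Q R) (hQ : Q.Good) {b : Q.ι → Fm V' k} (hb : Q.GS b) :
    ∃ a : P.ι → Fm V k, Pulls R a b := by
  have H : ∀ i y, ∃ w : Alt V k, y ∈ P.W i →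
      ∃ j γ, Lift (sl R i j) y γ ∧ w = pb γ (b j) y := fun i y => by
    by_cases hy : y ∈ P.W i
    · obtain ⟨j, γ, h1⟩ := PForm_lift h hy
      exact ⟨_, fun _ => ⟨j, γ, h1, rfl⟩⟩
    · exact ⟨0, fun h' => absurd h' hy⟩
  choose a ha using H
  exact ⟨a, Pulls.of_one h hQ hb.2 ha⟩

/-- Two invariant forms which agree at a point agree at all related points. -/
theorem Pulls.eq_at (hP : P.Good) {a b : P.ι → Fm V k} (ha : Pulls P.r a a) (hb : Pulls P.r b b)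
    {i j : P.ι} {y z : V} (hr : P.r i y j z) (e : a j z = b j z) : a i y = b i y := by
  obtain ⟨γ, rfl, h1⟩ := hP.loc hr
  rw [ha i j y γ h1, hb i j y γ h1, pb_congr' e]

theorem descent (hP : P.Good) {κ : Type} (i : κ → P.ι) (O : κ → Set V) (a : κ → Fm V k)
    (opn : ∀ l, IsOpen (O l)) (sub : ∀ l, O l ⊆ P.W (i l))
    (cov : ∀ j, ∀ z ∈ P.W j, ∃ l, ∃ y ∈ O l, P.r j z (i l) y) (sm : ∀ l, Sm (a l) (O l))
    (cmp : ∀ l l', ∀ y ∈ O l, ∀ γ, γ y ∈ O l' → Lift (sl P.r (i l) (i l')) y γ →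
      a l y = pb γ (a l') y) :
    ∃ b : P.ι → Fm V k, P.GS b ∧ ∀ l, ∀ y ∈ O l, b (i l) y = a l y := by
  have ex : ∀ j, ∀ z ∈ P.W j, ∃ l γ, γ z ∈ O l ∧ Lift (sl P.r j (i l)) z γ := fun j z hz => by
    obtain ⟨l, y, hy, hr⟩ := cov j z hz
    obtain ⟨γ, rfl, h1⟩ := hP.loc hr
    exact ⟨l, γ, hy, h1⟩
  have H : ∀ j z, ∃ w : Alt V k, ∀ l γ, γ z ∈ O l → Lift (sl P.r j (i l)) z γ →
      w = pb γ (a l) z := fun j z => by
    by_cases hz : z ∈ P.W j
    · obtain ⟨l, γ, hy, h1⟩ := ex j z hz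
      refine ⟨pb γ (a l) z, fun l' γ' hy' h2 => ?_⟩
      obtain ⟨δ, h3, e⟩ := hP.smap.factor hP h1 h2
      rw [pb_congr _ e, PForm_comp _ h1 h3]
      exact pb_congr' (cmp l l' _ hy δ (mem_of_eq_of_mem e.self_of_nhds.symm hy') h3)
    · exact ⟨0, fun l γ _ h1 => absurd (hP.mem h1.self) hz⟩
  choose b hb using H
  refine ⟨b, ⟨fun j z hz => ?_, fun j j' z ε h1 => ?_⟩, fun l y hy => ?_⟩
  · obtain ⟨l, γ, hy, h1⟩ := ex j z hz
    refine ((PForm_at h1.1 ((sm l).at (opn l) hy)).congr_of_eventuallyEq ?_).contDiffWithinAt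
    filter_upwards [hP.smap.lift_ev hP h1, h1.1.continuousAt ((opn l).mem_nhds hy)] with x h2 h3
    exact hb j x l γ h3 h2
  · obtain ⟨l, γ, hy, h2⟩ := ex j' _ (hP.mem' h1.self)
    rw [hb j z l _ hy (h1.comp h2 fun _ _ _ => hP.trans), PForm_comp _ h1 h2,
      pb_congr' (hb j' _ l γ hy h2)]
  · rw [hb _ y l _ hy (hP.lift_id (sub l hy)), pb_id]

theorem Pres.GS.gc_of_cover (hP : P.Good) {b : P.ι → Fm V k} (hb : P.GS b)
    (H : ∀ j, ∀ z ∈ P.W j, ∃ i y, P.r j z i y ∧ extDeriv (b i) y = 0) : P.GC b := by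
  refine ⟨fun j => ⟨hb.1 j, fun z hz => ?_⟩, hb.2⟩
  obtain ⟨i, y, hr, e⟩ := H j z hz
  obtain ⟨γ, rfl, h1⟩ := hP.loc hr
  exact ((hb.d hP).2 j i z γ h1).trans (pb_congr' (β := 0) e)

/-- The compatibility condition is symmetric. -/
theorem pb_symm (hP : P.Good) {i j : P.ι} {O O' : Set V} {a a' : Fm V k}
    (H : ∀ y ∈ O, ∀ γ, γ y ∈ O' → Lift (sl P.r i j) y γ → a y = pb γ a' y) :
    ∀ y ∈ O', ∀ γ, γ y ∈ O → Lift (sl P.r j i) y γ → a' y = pb γ a y := by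
  intro y hy γ hγ h1
  obtain ⟨δ, h2, e, e', -⟩ := hP.lift_inv h1
  rw [pb_congr' (H _ hγ δ (e.symm ▸ hy) h2), ← PForm_comp _ h1 h2,
    pb_congr (g := fun x => x) _ e', pb_id]

end Pool.Agent.Work.MP_bf98aa_gt.Cp
end
end

-- merged part: Pool.Agent.Work.MP_bf98aa_gt.Kg.BProf
section
-- merged part: Pool.Agent.Work.MP_bf98aa_gt.Kg.Stmt
section
/-!
The statement: a path of symplectic forms on a closed 6-manifold, starting at a Kaehler form of a
complex structure with nef and big canonical class, along which the first Chern class times the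
square of the form changes sign.
-/

set_option autoImplicit false

open scoped Manifold ContDiff

namespace Pool.Agent.Work.MP_bf98aa_gt.Kg

open Pool.Agent.Work.MP_bf98aa_gt.Th Pool.Agent.Work.MP_bf98aa_gt.Cp

/-- The statement of the theorem. -/
def Goal : Prop :=
  ∃ (M : Type) (_ : TopologicalSpace M) (_ : T2Space M) (_ : CompactSpace M)
    (_ : ConnectedSpace M) (_ : ChartedSpace (Sp (Fin 3)) M) (_ : IsManifold 𝓘(ℝ, Sp (Fin 3)) ∞ M)
    (η : Fin 3 → Form (Sp (Fin 3)) M 2) (w : ℝ → Form (Sp (Fin 3)) M 2)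
    (J : Endo (Sp (Fin 3)) M) (ρ σ : Form (Sp (Fin 3)) M 2)
    (a : Fin 3 × Fin 2 → Form (Sp (Fin 3)) M 1),
    (∀ i, (η i).Closed) ∧ (∀ s, w s = comb η ![1, s ^ 2, s]) ∧
    (∀ s ∈ Set.Icc (0 : ℝ) 1, (w s).Closed ∧ (w s).Nondeg) ∧
    Tamed (w 0) J ∧ (∀ x u v, w 0 x ![J x u, J x v] = w 0 x ![u, v]) ∧
    (∃ J₀, ∀ p, ∀ y ∈ (chartAt (Sp (Fin 3)) p).target, J.loc p y = J₀) ∧
    RepC1 J ρ ∧ (∀ x v, ρ x ![v, J x v] ≤ 0) ∧ (∀ x u v, ρ x ![J x u, J x v] = ρ x ![u, v]) ∧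
    (∀ i, (a i).Closed) ∧
    (∀ x u v, σ x ![u, v] =
      ∑ k, (a (k, 0) x ![u] * a (k, 1) x ![v] - a (k, 0) x ![v] * a (k, 1) x ![u])) ∧
    (ρ.sub σ).Exact ∧ (∃ c ≠ 0, Integral (w 0) (coef1 a) c) ∧
    (∃ c < 0, Integral (w 0) (coef2 ![ρ, ρ, ρ]) c) ∧
    (∃ c < 0, Integral (w 0) (coef2 ![ρ, w 0, w 0]) c) ∧
    (∃ c > 0, Integral (w 1) (coef2 ![ρ, w 1, w 1]) c) ∧
    ∀ s ∈ Set.Icc (0 : ℝ) 1, ∃ c > 0, Integral (w s) (coef2 ![ρ, ρ, w s]) c

end Pool.Agent.Work.MP_bf98aa_gt.Kg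
end

-- merged part: Pool.Agent.Work.MP_bf98aa_gt.Kg.ADef
section
/-!
The abstract data from which the theorem follows. See the team-store file `h86_bf98aa_infl.md`.
-/

set_option autoImplicit false

open scoped ContDiff Topology
open Set Filter

namespace Pool.Agent.Work.MP_bf98aa_gt.Kg

open Pool.Agent.Work.MP_bf98aa_gt.Th Pool.Agent.Work.MP_bf98aa_gt.Cp

section
variable {V : Type} [NormedAddCommGroup V] [NormedSpace ℝ V] [NormedSpace ℂ V]
  [IsScalarTower ℝ ℂ V]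

/-- Invariant under multiplication by `i`. -/
def Inv11 (D : Alt V 2) : Prop := ∀ u v, D ![Complex.I • u, Complex.I • v] = D ![u, v]

/-- The associated quadratic form. -/
noncomputable def Qf (D : Alt V 2) (v : V) : ℝ := D ![v, Complex.I • v]

/-- The pull-back of the area form by a complex linear form. -/
noncomputable def arC (α : V →L[ℂ] ℂ) : Alt V 2 :=
  ar.compContinuousLinearMap (α.restrictScalars ℝ)

/-- The form `l ∧ (- l ∘ i)`. -/
noncomputable def sqF (l : V →L[ℝ] ℝ) : Alt V 2 := wedge l (-(l.comp (mulI V)))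

end

/-- The cross product of two complex linear forms, a vector of their common kernel. -/
noncomputable def crs (α β : E3 →L[ℂ] ℂ) : E3 :=
  (α (0, 1, 0) * β (0, 0, 1) - α (0, 0, 1) * β (0, 1, 0),
    α (0, 0, 1) * β (1, 0, 0) - α (1, 0, 0) * β (0, 0, 1),
    α (1, 0, 0) * β (0, 1, 0) - α (0, 1, 0) * β (1, 0, 0))

/-- The data on a presentation. -/
structure Dat (P : Pres E3) where
  α : P.ι → E3 → E3 →L[ℂ] ℂ
  β : P.ι → E3 → E3 →L[ℂ] ℂ
  δ : P.ι → E3 → E3 →L[ℂ] ℂ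
  b : Fin 4 → P.ι → Fm E3 1
  a : Fin 3 × Fin 2 → P.ι → Fm E3 1
  ξ : P.ι → Fm E3 1
  A : P.ι → Fm E3 1
  σ : P.ι → Fm E3 2
  τ : P.ι → Fm E3 2
  ρ : P.ι → Fm E3 2
  Θ : P.ι → Fm E3 2
  f : P.ι → E3 → ℝ
  f' : P.ι → E3 → ℝ
  f'' : P.ι → E3 → ℝ
  g : P.ι → E3 → ℝ
  g' : P.ι → E3 → ℝ
  l : P.ι → E3 → E3 →L[ℝ] ℝ

structure Dat.Ok {P : Pres E3} (D : Dat P) : Prop where
  bGC : ∀ s, P.GC (D.b s)
  b0 : ∀ i, ∀ y ∈ P.W i, ∀ v, D.b 0 i y ![v] = (D.α i y v).re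
  b1 : ∀ i, ∀ y ∈ P.W i, ∀ v, D.b 1 i y ![v] = (D.α i y v).im
  b2 : ∀ i, ∀ y ∈ P.W i, ∀ v, D.b 2 i y ![v] = (D.β i y v).re
  b3 : ∀ i, ∀ y ∈ P.W i, ∀ v, D.b 3 i y ![v] = (D.β i y v).im
  aGC : ∀ s, P.GC (D.a s)
  ξGS : P.GS D.ξ
  dξ : ∀ i, ∀ y ∈ P.W i, ∀ u v, extDeriv (D.ξ i) y ![u, v] = D.ρ i y ![u, v] -
    ∑ k, (D.a (k, 0) i y ![u] * D.a (k, 1) i y ![v] - D.a (k, 0) i y ![v] * D.a (k, 1) i y ![u])
  dA : ∀ i, IsD (D.A i) (fun y => (2 * Real.pi) • D.ρ i y) (P.W i)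
  cmp : ∀ i j y γ, Lift (sl P.r i j) y γ →
    Cmp γ (fun _ => ContinuousLinearMap.id ℝ E3) (D.A i) (fun _ => ContinuousLinearMap.id ℝ E3)
      (D.A j) y
  σGC : P.GC D.σ
  τGC : P.GC D.τ
  ρGC : P.GC D.ρ
  ΘGC : P.GC D.Θ
  σinv : ∀ i, ∀ y ∈ P.W i, Inv11 (D.σ i y)
  τinv : ∀ i, ∀ y ∈ P.W i, Inv11 (D.τ i y)
  σge : ∀ i, ∀ y ∈ P.W i, ∀ v, ‖D.β i y v‖ ^ 2 ≤ Qf (D.σ i y) v
  τpos : ∀ i, ∀ y ∈ P.W i, ∀ v, v ≠ 0 → Qf (D.σ i y) v = 0 → 0 < Qf (D.τ i y) v
  ρeq : ∀ i, ∀ y ∈ P.W i, D.ρ i y =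
    D.f i y • arC (D.α i y) + D.f' i y • arC (D.β i y) + D.f'' i y • arC (D.δ i y)
  fle : ∀ i, ∀ y ∈ P.W i, D.f i y ≤ 0 ∧ D.f' i y ≤ 0 ∧ D.f'' i y ≤ 0
  Θeq : ∀ i, ∀ y ∈ P.W i, D.Θ i y = D.g i y • sqF (D.l i y) + D.g' i y • D.ρ i y
  gge : ∀ i, ∀ y ∈ P.W i, 0 ≤ D.g i y ∧ 0 ≤ D.g' i y
  dis : ∀ i, ∀ y ∈ P.W i, D.f'' i y = 0 ∨ (D.g i y = 0 ∧ D.g' i y = 0)
  Θloc : ∀ i, ∀ y ∈ P.W i, (∀ᶠ x in 𝓝 y, D.g i x = 0) ∨ (ContinuousAt (D.g' i) y ∧
    ContinuousAt (D.l i) y ∧ ∃ z : ℂ, D.l i y (z • crs (D.α i y) (D.β i y)) ≠ 0)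
  Θzero : ∀ i, ∀ y ∈ P.W i, crs (D.α i y) (D.β i y) = 0 → ∀ᶠ x in 𝓝 y, D.Θ i x = 0
  pt : ∃ i, ∃ y ∈ P.W i, D.f i y < 0 ∧ D.f' i y < 0 ∧ 0 < D.g i y ∧ 0 < D.g' i y ∧
    D.l i y (crs (D.α i y) (D.β i y)) ≠ 0
  pt' : ∃ i, ∃ y ∈ P.W i, D.f i y < 0 ∧ D.f' i y < 0 ∧ D.f'' i y < 0 ∧
    D.δ i y (crs (D.α i y) (D.β i y)) ≠ 0

end Pool.Agent.Work.MP_bf98aa_gt.Kg
end

-- merged part: Pool.Agent.Work.MP_bf98aa_gt.Kg.BDef
section
/-!
Definitions for the manifold: factors, toric charts, forms. See the team-store file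
`h86_bf98aa_infl.md`, part B.
-/

set_option autoImplicit false

noncomputable section

open scoped ContDiff Topology
open Set Filter

namespace Pool.Agent.Work.MP_bf98aa_gt.Kg

open Pool.Agent.Work.MP_bf98aa_gt.Th Pool.Agent.Work.MP_bf98aa_gt.Cp

/-- Gaussian integers. -/
def La (z : ℂ) : Prop := ∃ m n : ℤ, z = m + n * Complex.I

abbrev Ix : Type := Bool × Bool

/-- A curve presented by charts on which an involution reads `x ↦ -x`. -/
structure Fac (W : Ix → Set ℂ) (r : Ix → ℂ → Ix → ℂ → Prop) : Prop where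
  opn : ∀ i, IsOpen (W i)
  mem : ∀ {i x j z}, r i x j z → x ∈ W i
  refl : ∀ {i x}, x ∈ W i → r i x i x
  symm : ∀ {i x j z}, r i x j z → r j z i x
  trans : ∀ {i x j z l y}, r i x j z → r j z l y → r i x l y
  inj : ∀ {i x}, x ∈ W i → ∀ᶠ p in 𝓝 (x, x), r i p.1 i p.2 → p.1 = p.2
  clo : ∀ {i x j z}, x ∈ W i → z ∈ W j → ¬ r i x j z → ∀ᶠ p in 𝓝 (x, z), ¬ r i p.1 j p.2
  neg : ∀ {i x j z}, r i x j z → r i (-x) j (-z)
  hol : ∀ {i x j z}, r i x j z →
    ∃ g : ℂ → ℂ, AnalyticAt ℂ g x ∧ g x = z ∧ ∀ᶠ t in 𝓝 x, r i t j (g t)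
  fix : ∀ {i x}, r i x i (-x) → x = 0
  small : ∀ {i x j z}, r i x j z → ‖x‖ ≤ 1 / 10 → j = i ∧ z = x
  cpt : ∃ K : Ix → Set ℂ, (∀ i, IsCompact (K i) ∧ K i ⊆ W i) ∧
    ∀ i, ∀ x ∈ W i, ∃ j, ∃ z ∈ K j, r i x j z

/-- The squares of the points of a chart. -/
def Dm (W : Ix → Set ℂ) (i : Ix) : Set ℂ := {P | ∃ x ∈ W i, x ^ 2 = P}

/-- The multiplier relation. -/
def RR (r : Ix → ℂ → Ix → ℂ → Prop) (i : Ix) (P : ℂ) (j : Ix) (m : ℂ) : Prop :=
  ∃ x, x ^ 2 = P ∧ m ≠ 0 ∧ (x = 0 → m = 1) ∧ r i x j (m * x)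

def sg (b : Bool) : ℂ := if b then -1 else 1

def Yf (P : ℂ) : ℂ := (1 + P) / (10 * (1 - P))

/-- The derivative of `Yf`. -/
def Yd (P : ℂ) : ℂ := 1 / (5 * (1 - P) ^ 2)

/-- The inverse of `Yf`. -/
def Yi (y : ℂ) : ℂ := (10 * y - 1) / (10 * y + 1)

def DC : Set ℂ := {P | P ≠ 1 ∧ ‖Yf P‖ < 4 / 5 ∧ -(1 / 20) < (Yf P).re}

def WC (i : Ix) : Set ℂ := {x | i.2 = false ∧ x ^ 2 ∈ DC}

/-- The genus two curve. -/
def rC (i : Ix) (x : ℂ) (j : Ix) (z : ℂ) : Prop :=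
  x ∈ WC i ∧ z ∈ WC j ∧ La (sg i.1 * Yf (x ^ 2) - sg j.1 * Yf (z ^ 2)) ∧
    ((i = j ∧ z = x) ∨ (i ≠ j ∧ x * z = 1) ∨ 0 < x.re * z.re)

def Wk (_ : Fin 3) : Ix → Set ℂ := WC

def rk (_ : Fin 3) : Ix → ℂ → Ix → ℂ → Prop := rC

/-- The squares of the coordinates in the four toric charts. -/
def tP (T : Fin 4) (p : E3) (k : Fin 3) : ℂ :=
  ![![p.1 ^ 2 * p.2.1 * p.2.2, p.2.1, p.2.2], ![p.1, p.2.1 ^ 2 * p.1 * p.2.2, p.2.2],
    ![p.1, p.2.1, p.2.2 ^ 2 * p.1 * p.2.1], ![p.2.1 * p.2.2, p.1 * p.2.2, p.1 * p.2.1]] T k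

def tu (T : Fin 4) (p : E3) (k : Fin 3) : ℂ :=
  ![![p.1, 1, 1], ![1, p.2.1, 1], ![1, 1, p.2.2], ![1, 1, 1]] T k

def tv (T : Fin 4) (p : E3) (k : Fin 3) : ℂ :=
  ![![1, p.1 * p.2.2, p.1 * p.2.1], ![p.2.1 * p.2.2, 1, p.2.1 * p.1],
    ![p.2.2 * p.2.1, p.2.2 * p.1, 1], ![p.1, p.2.1, p.2.2]] T k

def t0 (p : E3) : ℂ := p.1 * p.2.1 * p.2.2

/-- The coordinates of a point of the toric variety in the chart `T`. -/
def ex (T : Fin 4) (P u v : Fin 3 → ℂ) : E3 :=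
  ![(u 0 / v 0, P 1, P 2), (P 0, u 1 / v 1, P 2), (P 0, P 1, u 2 / v 2),
    (v 0 / u 0, v 1 / u 1, v 2 / u 2)] T

/-- The point lies in the chart `T`. -/
def Den (T : Fin 4) (u v : Fin 3 → ℂ) : Prop :=
  ![v 0 ≠ 0, v 1 ≠ 0, v 2 ≠ 0, u 0 ≠ 0 ∧ u 1 ≠ 0 ∧ u 2 ≠ 0] T

/-- The torus element `m` moves the point `p` of the chart `T` to the point `q` of the chart `S`. -/
def TR (m : Fin 3 → ℂ) (T : Fin 4) (p : E3) (S : Fin 4) (q : E3) : Prop :=
  ∀ k, tP S q k = m k ^ 2 * tP T p k ∧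
    m k * tu T p k * tv S q k = m (k + 1) * m (k + 2) * tv T p k * tu S q k

def act (m : Fin 3 → ℂ) (T S : Fin 4) (p : E3) : E3 :=
  ex S (fun k => m k ^ 2 * tP T p k) (fun k => m k * tu T p k)
    fun k => m (k + 1) * m (k + 2) * tv T p k

def DenA (m : Fin 3 → ℂ) (T S : Fin 4) (p : E3) : Prop :=
  Den S (fun k => m k * tu T p k) fun k => m (k + 1) * m (k + 2) * tv T p k

abbrev Jx : Type := (Fin 3 → Ix) × Fin 4

/-- The multipliers `m` relate the two points. -/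
def Rm (m : Fin 3 → ℂ) (i : Jx) (p : E3) (j : Jx) (q : E3) : Prop :=
  (∀ k, RR (rk k) (i.1 k) (tP i.2 p k) (j.1 k) (m k)) ∧ TR m i.2 p j.2 q

/-- The manifold. -/
def PM : Pres E3 where
  ι := Jx
  W i := {p | ∀ k, tP i.2 p k ∈ Dm (Wk k) (i.1 k)}
  r i p j q := ∃ m, Rm m i p j q

/-- A holomorphic lift with holomorphic multipliers. -/
def HL (i j : Jx) (p : E3) (γ : E3 → E3) (μ : Fin 3 → ℂ → ℂ) : Prop :=
  AnalyticAt ℂ γ p ∧ (∀ k, AnalyticAt ℂ (μ k) (tP i.2 p k)) ∧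
    (∀ k, ∀ᶠ Q in 𝓝 (tP i.2 p k), RR (rk k) (i.1 k) Q (j.1 k) (μ k Q)) ∧
    ∀ᶠ x in 𝓝 p, Rm (fun k => μ k (tP i.2 x k)) i x j (γ x)

section
variable {V : Type} [NormedAddCommGroup V] [NormedSpace ℝ V] [NormedSpace ℂ V]
  [IsScalarTower ℝ ℂ V]

def dc (f : V → ℝ) : Fm V 1 := fun x => alt1 (-((fderiv ℝ f x).comp (mulI V)))

def ddc (f : V → ℝ) : Fm V 2 := extDeriv (dc f)

end

def psi (t : ℝ) : ℝ := Real.smoothTransition (20000 * t - 1)

def kk (r : ℝ) : ℝ := ∫ t in (0 : ℝ)..r, psi t / t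

def c0 : ℝ := kk (1 / 10000) - Real.log (1 / 10000)

def lw (P : ℂ) : ℝ := -(kk (‖P‖ ^ 2) / 2)

def wt (P : ℂ) : ℝ := Real.exp (lw P)

def lH (a b : ℝ) : ℝ := if b = 0 then Real.log a + c0 else Real.log b + kk (a / b)

/-- The coordinates of the base torus. -/
def yk (k : Fin 3) (i : Jx) (p : E3) : ℂ := sg (i.1 k).1 * Yf (tP i.2 p k)

def dP (k : Fin 3) (i : Jx) (p : E3) : E3 →L[ℂ] ℂ := fderiv ℂ (fun x => tP i.2 x k) p

def dy (k : Fin 3) (i : Jx) (p : E3) : E3 →L[ℂ] ℂ := fderiv ℂ (yk k i) p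

def lam (k : Fin 3) (i : Jx) : Fm E3 2 := ddc fun p => lw (tP i.2 p k)

def fA (i : Jx) (p : E3) : ℝ :=
  lw (tP i.2 p 0) - Real.log (‖Yd (tP i.2 p 0)‖ ^ 2) +
    (lw (tP i.2 p 1) - Real.log (‖Yd (tP i.2 p 1)‖ ^ 2)) +
    (lw (tP i.2 p 2) - Real.log (‖Yd (tP i.2 p 2)‖ ^ 2))

def AA (i : Jx) : Fm E3 1 := fun p => (1 / 2 : ℝ) • dc (fA i) p

def rho (i : Jx) : Fm E3 2 := fun p => (1 / (4 * Real.pi)) • (lam 0 i p + lam 1 i p + lam 2 i p)

/-- The density of the curvature. -/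
def fd (P : ℂ) : ℝ := -(deriv psi (‖P‖ ^ 2) / (2 * Real.pi * ‖Yd P‖ ^ 2))

def sig (i : Jx) : Fm E3 2 := fun p => arC (dy 0 i p) + arC (dy 1 i p) + arC (dy 2 i p)

def Na (k : Fin 3) (i : Jx) (p : E3) : ℝ := ‖tu i.2 p k‖ ^ 2 * wt (tP i.2 p k)

def Nb (k : Fin 3) (i : Jx) (p : E3) : ℝ :=
  ‖tv i.2 p k‖ ^ 2 * (wt (tP i.2 p (k + 1)) * wt (tP i.2 p (k + 2)))

def tauk (k : Fin 3) (i : Jx) : Fm E3 2 := ddc fun p => Real.log (Na k i p + Nb k i p)

def ta (i : Jx) : Fm E3 2 := fun p => tauk 0 i p + tauk 1 i p + tauk 2 i p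

def The (i : Jx) : Fm E3 2 := fun p => ddc (fun x => lH (Na 2 i x) (Nb 2 i x)) p - lam 2 i p

def rr (i : Jx) (p : E3) : ℝ := Na 2 i p / Nb 2 i p

def gg (i : Jx) (p : E3) : ℝ := if Nb 2 i p = 0 then 0 else deriv psi (rr i p) / rr i p

def gg' (i : Jx) (p : E3) : ℝ := if Nb 2 i p = 0 then 0 else 4 * Real.pi * (1 - psi (rr i p))

/-- A form on the plane which descends to the torus from the disc of radius `4 / 5`. -/
def Per {n : ℕ} (w : Fm ℂ n) : Prop :=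
  ContDiff ℝ ∞ w ∧ ∀ y z, La (y - z) → ‖y‖ < 4 / 5 → ‖z‖ < 4 / 5 → w y = w z

/-- The density of the curvature on the base curve. -/
def FF (y : ℂ) : ℝ := fd (Yi y) + fd (Yi (-y))

end Pool.Agent.Work.MP_bf98aa_gt.Kg
end
end

-- merged part: Pool.Agent.Work.MP_bf98aa_gt.Kg.BLa
section
/-!
Gaussian integers, the Moebius maps.

PLAN. `La_small`: `m ^ 2 + n ^ 2 < 1`. `La_ev`: a continuous function with values in `La` near a point is locally constant
(`La_small` for the difference). `La_closed`: the complement is open (real and imaginary parts, `Int.isClosedEmbedding_coe_real`,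
or round). `La_round`: `m = round z.re`, `n = round z.im`, `abs_sub_round`.
`DC_path`: the image under `Yi` of a segment.
-/

set_option autoImplicit false

noncomputable section

open scoped ContDiff Topology
open Set Filter

namespace Pool.Agent.Work.MP_bf98aa_gt.Kg

open Pool.Agent.Work.MP_bf98aa_gt.Th Pool.Agent.Work.MP_bf98aa_gt.Cp

theorem La_zero : La 0 := by
  exact ⟨0, 0, by simp⟩

theorem La.add {z w : ℂ} (h : La z) (h' : La w) : La (z + w) := by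
  obtain ⟨m, n, rfl⟩ := h
  obtain ⟨m', n', rfl⟩ := h'
  exact ⟨m + m', n + n', by push_cast; ring⟩

theorem La.neg {z : ℂ} (h : La z) : La (-z) := by
  obtain ⟨m, n, rfl⟩ := h
  exact ⟨-m, -n, by push_cast; ring⟩

theorem La.sub {z w : ℂ} (h : La z) (h' : La w) : La (z - w) := by
  rw [sub_eq_add_neg]
  exact h.add h'.neg

theorem La_small {z : ℂ} (h : La z) (h1 : ‖z‖ < 1) : z = 0 := by
  obtain ⟨m, n, rfl⟩ := h
  have h2 := (Complex.abs_re_le_norm _).trans_lt h1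
  have h3 := (Complex.abs_im_le_norm _).trans_lt h1
  simp only [Complex.add_re, Complex.intCast_re, Complex.mul_re, Complex.I_re, mul_zero,
    Complex.intCast_im, Complex.I_im, mul_one, sub_zero, add_zero, Complex.add_im,
    Complex.mul_im, zero_add] at h2 h3
  have h4 : |m| < 1 := by exact_mod_cast h2
  have h5 : |n| < 1 := by exact_mod_cast h3
  rw [Int.abs_lt_one_iff.1 h4, Int.abs_lt_one_iff.1 h5]
  simp

theorem La_closed : IsClosed {z | La z} := by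
  have e : {z | La z} = Complex.re ⁻¹' range ((↑) : ℤ → ℝ) ∩ Complex.im ⁻¹' range ((↑) : ℤ → ℝ) := by
    ext z
    constructor
    · rintro ⟨m, n, rfl⟩
      exact ⟨⟨m, by simp⟩, n, by simp⟩
    · rintro ⟨⟨m, hm⟩, n, hn⟩
      exact ⟨m, n, Complex.ext (by simp [hm]) (by simp [hn])⟩
  rw [e]
  exact (Int.isClosedEmbedding_coe_real.isClosed_range.preimage Complex.continuous_re).inter
    (Int.isClosedEmbedding_coe_real.isClosed_range.preimage Complex.continuous_im)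

theorem BLa_ev {X : Type} [TopologicalSpace X] {f : X → ℂ} {x : X} (hf : ContinuousAt f x)
    (h : La (f x)) : ∀ᶠ y in 𝓝 x, La (f y) → f y = f x := by
  filter_upwards [hf.eventually (Metric.ball_mem_nhds (f x) one_pos)] with y hy hl
  exact sub_eq_zero.1 (La_small (hl.sub h) (mem_ball_iff_norm.1 hy))



theorem La_ev {X : Type} [TopologicalSpace X] {f : X → ℂ} {x : X} (hf : ContinuousAt f x)
    (h : ∀ᶠ y in 𝓝 x, La (f y)) : ∀ᶠ y in 𝓝 x, f y = f x := by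
  filter_upwards [h, BLa_ev hf h.self_of_nhds] with y h1 h2
  exact h2 h1

theorem La_ev' {X : Type} [TopologicalSpace X] {f : X → ℂ} {x : X} (hf : ContinuousAt f x)
    (h : La (f x)) : ∀ᶠ y in 𝓝 x, La (f y) → f y = f x := by
  exact BLa_ev hf h

theorem La_round (z : ℂ) : ∃ w, La w ∧ |(z - w).re| ≤ 1 / 2 ∧ |(z - w).im| ≤ 1 / 2 := by
  refine ⟨_, ⟨round z.re, round z.im, rfl⟩, ?_, ?_⟩
  · simpa using abs_sub_round z.re
  · simpa using abs_sub_round z.im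

theorem sg_sq (b : Bool) : sg b * sg b = 1 := by
  cases b <;> simp [sg]

theorem norm_sg (b : Bool) : ‖sg b‖ = 1 := by
  cases b <;> simp [sg]

theorem Yi_Yf {P : ℂ} (h : P ≠ 1) : Yi (Yf P) = P := by
  have h1 : 1 - P ≠ 0 := sub_ne_zero.2 h.symm
  have e1 : 10 * Yf P + 1 = 2 / (1 - P) := by
    unfold Yf
    field_simp
    ring
  have e2 : 10 * Yf P - 1 = 2 * P / (1 - P) := by
    unfold Yf
    field_simp
    ring
  rw [Yi, e1, e2]
  field_simp

theorem Yf_Yi {y : ℂ} (h : 10 * y + 1 ≠ 0) : Yi y ≠ 1 ∧ Yf (Yi y) = y := by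
  have e1 : 1 - Yi y = 2 / (10 * y + 1) := by
    unfold Yi
    field_simp
    ring
  have e2 : 1 + Yi y = 20 * y / (10 * y + 1) := by
    unfold Yi
    field_simp
    ring
  refine ⟨fun h1 => ?_, ?_⟩
  · rw [h1, sub_self] at e1
    exact div_ne_zero two_ne_zero h e1.symm
  · rw [Yf, e1, e2]
    generalize 10 * y + 1 = d at h
    field_simp
    ring

theorem Yf_inv {P : ℂ} (h0 : P ≠ 0) (h : P ≠ 1) : Yf P⁻¹ = -Yf P := by
  have h1 : 1 - P ≠ 0 := sub_ne_zero.2 h.symm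
  have e1 : 1 - P⁻¹ = -(1 - P) / P := by
    field_simp
    ring
  have e2 : 1 + P⁻¹ = (1 + P) / P := by
    field_simp
    ring
  rw [Yf, Yf, e1, e2]
  field_simp

theorem Yi_neg (y : ℂ) : Yi (-y) = (Yi y)⁻¹ := by
  rw [Yi, Yi, inv_div, ← neg_div_neg_eq]
  congr 1 <;> ring

theorem hasDerivAt_Yf {P : ℂ} (h : P ≠ 1) : HasDerivAt Yf (Yd P) P := by
  have h1 : 1 - P ≠ 0 := sub_ne_zero.2 h.symm
  have h2 := ((hasDerivAt_id P).const_add 1).div (((hasDerivAt_id P).const_sub 1).const_mul 10)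
    (mul_ne_zero (by norm_num) h1)
  refine h2.congr_deriv ?_
  simp only [Yd, id]
  field_simp
  ring

theorem analyticAt_Yf {P : ℂ} (h : P ≠ 1) : AnalyticAt ℂ Yf P := by
  exact (analyticAt_const.add analyticAt_id).div
    (analyticAt_const.mul (analyticAt_const.sub analyticAt_id))
    (mul_ne_zero (by norm_num) (sub_ne_zero.2 h.symm))

theorem analyticAt_Yd {P : ℂ} (h : P ≠ 1) : AnalyticAt ℂ Yd P := by
  exact analyticAt_const.div (analyticAt_const.mul ((analyticAt_const.sub analyticAt_id).pow 2))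
    (mul_ne_zero (by norm_num) (pow_ne_zero 2 (sub_ne_zero.2 h.symm)))

theorem Yd_ne {P : ℂ} (h : P ≠ 1) : Yd P ≠ 0 := by
  exact one_div_ne_zero (mul_ne_zero (by norm_num) (pow_ne_zero 2 (sub_ne_zero.2 h.symm)))

theorem isOpen_DC : IsOpen DC := by
  refine isOpen_iff_mem_nhds.2 fun P hP => ?_
  have hc := (analyticAt_Yf hP.1).continuousAt
  filter_upwards [isOpen_ne.mem_nhds hP.1, hc.norm.eventually_lt_const hP.2.1,
    (Complex.continuous_re.continuousAt.comp hc).eventually_const_lt hP.2.2] with Q h1 h2 h3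
  exact ⟨h1, h2, h3⟩

theorem BLa_den {y : ℂ} (h : -(1 / 20) < y.re) : 1 / 2 < ‖10 * y + 1‖ := by
  refine lt_of_lt_of_le ?_ (Complex.re_le_norm _)
  simp only [Complex.add_re, Complex.mul_re, Complex.re_ofNat, Complex.im_ofNat, zero_mul,
    sub_zero, Complex.one_re]
  linarith



theorem DC_norm {P : ℂ} (h : P ∈ DC) : ‖P‖ < 18 := by
  have h1 := BLa_den h.2.2
  have h2 : ‖10 * Yf P - 1‖ < 9 := by
    refine (norm_sub_le _ _).trans_lt ?_
    rw [norm_mul, norm_one, Complex.norm_ofNat]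
    linarith [h.2.1]
  rw [← Yi_Yf h.1, Yi, norm_div, div_lt_iff₀ (by linarith)]
  linarith

theorem DC_pre : IsPreconnected DC := by
  have hn : ∀ y : ℂ, -(1 / 20) < y.re → 10 * y + 1 ≠ 0 := fun y hy =>
    norm_pos_iff.1 (lt_trans (by norm_num) (BLa_den hy))
  have e : DC = Yi '' (Metric.ball 0 (4 / 5) ∩ {y : ℂ | -(1 / 20) < y.re}) := by
    ext P
    constructor
    · intro h
      exact ⟨Yf P, ⟨mem_ball_zero_iff.2 h.2.1, h.2.2⟩, Yi_Yf h.1⟩
    · rintro ⟨y, ⟨h1, h2⟩, rfl⟩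
      obtain ⟨h3, h4⟩ := Yf_Yi (hn y h2)
      refine ⟨h3, ?_, ?_⟩ <;> rw [h4]
      · exact mem_ball_zero_iff.1 h1
      · exact h2
  rw [e]
  refine ((convex_ball _ _).inter (convex_halfSpace_re_gt _)).isPreconnected.image _ ?_
  exact ContinuousOn.div (by fun_prop) (by fun_prop) fun y hy => hn y hy.2

theorem DC_small {P : ℂ} (h : ‖P‖ ≤ 1 / 100) : P ∈ DC ∧ ‖Yf P‖ < 1 / 5 ∧ 1 / 20 < (Yf P).re := by
  have h0 : 99 / 100 ≤ ‖1 - P‖ := by
    have := norm_sub_norm_le (1 : ℂ) P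
    rw [norm_one] at this
    linarith
  have h1 : 1 - P ≠ 0 := norm_pos_iff.1 (by linarith)
  have e : Yf P = 1 / 10 + P / (5 * (1 - P)) := by
    unfold Yf
    field_simp
    ring
  have h2 : ‖P / (5 * (1 - P))‖ ≤ 1 / 100 := by
    rw [norm_div, norm_mul, Complex.norm_ofNat, div_le_iff₀ (by linarith)]
    linarith
  have h3 : ‖Yf P‖ < 1 / 5 := by
    rw [e]
    refine (norm_add_le _ _).trans_lt ?_
    rw [norm_div, norm_one, Complex.norm_ofNat]
    linarith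
  have h4 : 1 / 20 < (Yf P).re := by
    have h5 := (abs_le.1 ((Complex.abs_re_le_norm _).trans h2)).1
    have h6 : (1 / 10 : ℂ).re = 1 / 10 := by norm_num
    rw [e, Complex.add_re, h6]
    linarith
  exact ⟨⟨(sub_ne_zero.1 h1).symm, by linarith, by linarith⟩, h3, h4⟩

theorem DC_re {P : ℂ} (h : P ≠ 1) (h1 : 1 / 5 < ‖Yf P‖) : 0 < P.re := by
  have h2 : 0 < ‖1 - P‖ := norm_pos_iff.2 (sub_ne_zero.2 h.symm)
  rw [Yf, norm_div, norm_mul, Complex.norm_ofNat, lt_div_iff₀ (by linarith)] at h1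
  have h3 : ‖1 - P‖ ^ 2 < ‖1 + P‖ ^ 2 := by nlinarith
  rw [Complex.sq_norm, Complex.sq_norm, Complex.normSq_apply, Complex.normSq_apply] at h3
  simp only [Complex.sub_re, Complex.one_re, Complex.sub_im, Complex.one_im, Complex.add_re,
    Complex.add_im] at h3
  nlinarith

theorem DC_path {P : ℂ} (h : P ∈ DC) : ∃ c : ℝ → ℂ, ContinuousOn c (Icc 0 1) ∧ c 0 = 0 ∧ c 1 = 1 ∧
    ∀ s ∈ Icc (0 : ℝ) 1, c s ^ 2 * P ∈ DC := by
  obtain ⟨y, rfl, h1, h2⟩ : ∃ y, Yi y = P ∧ ‖y‖ < 4 / 5 ∧ -(1 / 20) < y.re :=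
    ⟨Yf P, Yi_Yf h.1, h.2⟩
  have hn : ∀ y : ℂ, -(1 / 20) < y.re → 10 * y + 1 ∈ Complex.slitPlane := fun y hy =>
    Or.inl (by simp; linarith)
  have sq : ∀ y : ℂ, ((10 * y + 1) ^ (2⁻¹ : ℂ)) ^ 2 = 10 * y + 1 := fun y =>
    Complex.cpow_ofNat_inv_pow _ 2
  obtain ⟨Y, hY⟩ : ∃ Y : ℝ → ℂ, Y = fun s => (1 - s ^ 2) • (1 / 10 : ℂ) + s ^ 2 • y := ⟨_, rfl⟩
  have m : ∀ s ∈ Icc (0 : ℝ) 1, Y s ∈ Metric.ball (0 : ℂ) (4 / 5) ∩ {y : ℂ | -(1 / 20) < y.re} :=
    fun s hs => hY ▸ (convex_ball _ _).inter (convex_halfSpace_re_gt _)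
      ⟨mem_ball_zero_iff.2 (by norm_num), by norm_num⟩ ⟨mem_ball_zero_iff.2 h1, h2⟩
      (sub_nonneg.2 (pow_le_one₀ hs.1 hs.2)) (sq_nonneg s) (sub_add_cancel _ _)
  have n : ∀ y : ℂ, -(1 / 20) < y.re → (10 * y + 1) ^ (2⁻¹ : ℂ) ≠ 0 := fun y hy e =>
    Complex.slitPlane_ne_zero (hn y hy) (by rw [← sq, e]; norm_num)
  refine ⟨fun s => s * (10 * y + 1) ^ (2⁻¹ : ℂ) / (10 * Y s + 1) ^ (2⁻¹ : ℂ), ?_, by simp, ?_,
    fun s hs => ?_⟩
  · refine ContinuousOn.div (by fun_prop) (ContinuousOn.cpow_const ?_ fun s hs => hn _ (m s hs).2)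
      fun s hs => n _ (m s hs).2
    rw [hY]
    fun_prop
  · simp [hY, n y h2]
  · have n1 := Complex.slitPlane_ne_zero (hn y h2)
    have n2 := Complex.slitPlane_ne_zero (hn _ (m s hs).2)
    have e : ((s : ℂ) * (10 * y + 1) ^ (2⁻¹ : ℂ) / (10 * Y s + 1) ^ (2⁻¹ : ℂ)) ^ 2 * Yi y =
        Yi (Y s) := by
      rw [div_pow, mul_pow, sq, sq, Yi, Yi, div_mul_div_comm, div_eq_div_iff (mul_ne_zero n2 n1) n2]
      simp only [hY, Complex.real_smul]
      push_cast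
      ring
    obtain ⟨h3, h4⟩ := Yf_Yi n2
    rw [e]
    refine ⟨h3, ?_, ?_⟩ <;> rw [h4]
    exacts [mem_ball_zero_iff.1 (m s hs).1, (m s hs).2]

end Pool.Agent.Work.MP_bf98aa_gt.Kg
end
end

-- merged part: Pool.Agent.Work.MP_bf98aa_gt.Kg.BFacC
section
/-!
The genus two factor.

PLAN. Write `l = sg i.1 * Yf (x ^ 2) - sg j.1 * Yf (z ^ 2)`. If `l = 0`: for `i = j` get `z ^ 2 = x ^ 2` (`Yi_Yf`), for `i ≠ j` (second components are
`false`, so `sg j.1 = - sg i.1`) get `(x z) ^ 2 = 1` (`Yi_neg`); with the third alternative `0 < x.re * z.re` this gives `z = x`, resp. `x z = 1`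
(`rC_zero`). If `l ≠ 0` both `Yf` have norm above `1 / 5` (`La_small`), so `x ^ 2`, `z ^ 2` have positive real part (`DC_re`) and
`x.re ≠ 0`, `z.re ≠ 0`. `trans`: nine cases; `x z = 1` gives `z.re * normSq x = x.re`. `clo`: `La_closed`, `La_ev'`, then the cases `l ≠ 0` (the product of the real
parts is negative near the point), `l = 0`. `hol`: identity, inversion, or `g t = z * exp (log (G t / G x) / 2)` with `G t = Yi (sg j.1 * (sg i.1 * Yf (t ^ 2) - l))`.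
`cpt`: `K i = {x | i.2 = false, ‖x‖ ≤ 1, 2 * ‖1 + x ^ 2‖ ≤ 15 * ‖1 - x ^ 2‖}`; reduce `y = sg i.1 * Yf (x ^ 2)` by `La_round`, choose `j` with
`0 ≤ (sg j.1 * y').re`, a square root `z` of `Yi (sg j.1 * y')` and its sign. `lnkC`: `x = z = I` or `x = I`, `z = -I`.
-/

set_option autoImplicit false

noncomputable section

open scoped ContDiff Topology
open Set Filter

namespace Pool.Agent.Work.MP_bf98aa_gt.Kg

open Pool.Agent.Work.MP_bf98aa_gt.Th Pool.Agent.Work.MP_bf98aa_gt.Cp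

theorem BFacC_re {x z : ℂ} {c : ℝ} (h : x * z = c) : z.re * Complex.normSq x = c * x.re := by
  have h1 := congrArg Complex.re h
  have h2 := congrArg Complex.im h
  simp only [Complex.mul_re, Complex.mul_im, Complex.ofReal_re, Complex.ofReal_im] at h1 h2
  rw [Complex.normSq_apply]
  linear_combination x.re * h1 + x.im * h2

theorem BFacC_sg {i j : Ix} (hi : i.2 = false) (hj : j.2 = false) (h : i ≠ j) :
    sg j.1 = -sg i.1 := by
  obtain ⟨a, b⟩ := i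
  obtain ⟨c, d⟩ := j
  obtain rfl : b = false := hi
  obtain rfl : d = false := hj
  cases a <;> cases c <;> simp [sg] at h ⊢

theorem BFacC_ne (b : Bool) : sg b ≠ 0 := left_ne_zero_of_mul_eq_one (sg_sq b)

theorem BFacC_norm (i j : Ix) (a b : ℂ) : ‖sg i.1 * a - sg j.1 * b‖ ≤ ‖a‖ + ‖b‖ := by
  simpa only [norm_mul, norm_sg, one_mul] using norm_sub_le (sg i.1 * a) (sg j.1 * b)

theorem rC_zero {i j : Ix} {x z : ℂ} (h : rC i x j z)
    (h0 : sg i.1 * Yf (x ^ 2) = sg j.1 * Yf (z ^ 2)) : (i = j ∧ z = x) ∨ (i ≠ j ∧ x * z = 1) := by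
  obtain ⟨hx, hz, -, a | a | a⟩ := h
  · exact Or.inl a
  · exact Or.inr a
  by_cases c : i = j
  · subst c
    have e := congrArg Yi (mul_left_cancel₀ (BFacC_ne _) h0)
    rw [Yi_Yf hx.2.1, Yi_Yf hz.2.1] at e
    rcases sq_eq_sq_iff_eq_or_eq_neg.1 e.symm with k | k
    · exact Or.inl ⟨rfl, k⟩
    · rw [k, Complex.neg_re] at a
      nlinarith [sq_nonneg x.re]
  · rw [BFacC_sg hx.1 hz.1 c, neg_mul, ← mul_neg] at h0
    have e := congrArg Yi (mul_left_cancel₀ (BFacC_ne _) h0)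
    rw [Yi_neg, Yi_Yf hx.2.1, Yi_Yf hz.2.1] at e
    have z0 : z ≠ 0 := fun k => by simp [k] at a
    have e1 : (x * z) ^ 2 = 1 ^ 2 := by rw [mul_pow, e, inv_mul_cancel₀ (pow_ne_zero _ z0), one_pow]
    rcases sq_eq_sq_iff_eq_or_eq_neg.1 e1 with k | k
    · exact Or.inr ⟨c, k⟩
    · have b := BFacC_re (c := -1) (k.trans (by simp))
      have x0 : x.re ≠ 0 := left_ne_zero_of_mul a.ne'
      have f := mul_nonneg a.le (Complex.normSq_nonneg x)
      rw [mul_assoc, b] at f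
      linarith [mul_self_pos.2 x0]

theorem rC_ne {i j : Ix} {x z : ℂ} (hx : x ∈ WC i) (hz : z ∈ WC j)
    (h : La (sg i.1 * Yf (x ^ 2) - sg j.1 * Yf (z ^ 2)))
    (h0 : sg i.1 * Yf (x ^ 2) ≠ sg j.1 * Yf (z ^ 2)) : x.re ≠ 0 ∧ z.re ≠ 0 := by
  have a := (not_lt.1 (mt (La_small h) (sub_ne_zero.2 h0))).trans (BFacC_norm i j _ _)
  have k : ∀ w : ℂ, 0 < (w ^ 2).re → w.re ≠ 0 := fun w hw e => by
    rw [sq, Complex.mul_re, e] at hw
    nlinarith [sq_nonneg w.im]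
  exact ⟨k x (DC_re hx.2.1 (by linarith [hz.2.2.1])), k z (DC_re hz.2.1 (by linarith [hx.2.2.1]))⟩

theorem isOpen_WC (i : Ix) : IsOpen (WC i) := by
  exact isOpen_const.and (isOpen_DC.preimage (continuous_pow 2))

theorem BFacC_pos {x z y : ℂ} (h : x * z = 1) (h' : 0 < z.re * y.re) : 0 < x.re * y.re := by
  have b := BFacC_re (c := 1) h
  have c := mul_pos h' (Complex.normSq_pos.2 (left_ne_zero_of_mul_eq_one h))
  rwa [mul_right_comm, b, one_mul] at c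

theorem rC_trans {i j l : Ix} {x z y : ℂ} (h : rC i x j z) (h' : rC j z l y) : rC i x l y := by
  have e := h.2.2.1.add h'.2.2.1
  rw [sub_add_sub_cancel] at e
  rcases h.2.2.2 with ⟨rfl, rfl⟩ | a
  · exact h'
  rcases h'.2.2.2 with ⟨rfl, rfl⟩ | b
  · exact h
  refine ⟨h.1, h'.2.1, e, ?_⟩
  rcases a with a | a <;> rcases b with b | b
  · refine Or.inl ⟨by_contra fun c => ?_, by rw [← one_mul y, ← a.2, mul_assoc, b.2, mul_one]⟩
    have e1 := BFacC_sg h.1.1 h.2.1.1 a.1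
    have e2 := BFacC_sg h.2.1.1 h'.2.1.1 b.1
    rw [e1, neg_neg, BFacC_sg h.1.1 h'.2.1.1 c] at e2
    exact BFacC_ne _ (CharZero.neg_eq_self_iff.1 e2)
  · exact Or.inr (Or.inr (BFacC_pos a.2 b))
  · exact Or.inr (Or.inr (mul_comm y.re _ ▸ BFacC_pos ((mul_comm _ _).trans b.2) (mul_comm x.re _ ▸ a)))
  · refine Or.inr (Or.inr (not_le.1 fun c => ?_))
    nlinarith [mul_pos a b, mul_nonneg (neg_nonneg.2 c) (sq_nonneg z.re)]

theorem rC_inj {i : Ix} {x : ℂ} (hx : x ∈ WC i) :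
    ∀ᶠ p in 𝓝 (x, x), rC i p.1 i p.2 → p.1 = p.2 := by
  have c : ContinuousAt (fun t : ℂ => sg i.1 * Yf (t ^ 2)) x := continuousAt_const.mul
    ((analyticAt_Yf hx.2.1).continuousAt.comp (f := (· ^ 2)) (continuous_pow 2).continuousAt)
  have e := La_ev' (x := (x, x)) ((c.comp continuousAt_fst).sub (c.comp continuousAt_snd))
    (by simpa using La_zero)
  filter_upwards [e] with p hp h
  rcases rC_zero h (sub_eq_zero.1 ((hp h.2.2.1).trans (sub_self _))) with k | k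
  exacts [k.2.symm, absurd rfl k.1]

theorem rC_small {i j : Ix} {x z : ℂ} (h : rC i x j z) (hx : ‖x‖ ≤ 1 / 10) : j = i ∧ z = x := by
  obtain ⟨-, a, b⟩ := DC_small (P := x ^ 2) (by
    rw [norm_pow]
    nlinarith [norm_nonneg x])
  have e := sub_eq_zero.1 (La_small h.2.2.1
    ((BFacC_norm i j _ _).trans_lt (by linarith [h.2.1.2.2.1])))
  rcases rC_zero h e with k | k
  · exact ⟨k.1.symm, k.2⟩
  · rw [BFacC_sg h.1.1 h.2.1.1 k.1, neg_mul, ← mul_neg] at e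
    have c := h.2.1.2.2.2
    rw [mul_left_cancel₀ (BFacC_ne _) e, Complex.neg_re] at b
    linarith

theorem BFacC_an {i : Ix} {x : ℂ} (hx : x ∈ WC i) :
    AnalyticAt ℂ (fun t => sg i.1 * Yf (t ^ 2)) x :=
  analyticAt_const.mul ((analyticAt_Yf hx.2.1).comp (f := fun t => t ^ 2) (analyticAt_id.pow 2))

theorem BFacC_nn {i j : Ix} {x z : ℂ} (h : rC i x j z) : 0 ≤ x.re * z.re := by
  rcases h.2.2.2 with ⟨-, rfl⟩ | ⟨-, e⟩ | e
  · exact mul_self_nonneg _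
  · rw [eq_inv_of_mul_eq_one_right e, Complex.inv_re, ← mul_div_assoc]
    exact div_nonneg (mul_self_nonneg _) (Complex.normSq_nonneg _)
  · exact e.le

theorem BFacC_den {y : ℂ} (h : -(1 / 20) < y.re) : 10 * y + 1 ≠ 0 := fun e => by
  have := congrArg Complex.re e
  simp at this
  linarith

theorem rC_clo {i j : Ix} {x z : ℂ} (hx : x ∈ WC i) (hz : z ∈ WC j) (h : ¬ rC i x j z) :
    ∀ᶠ p in 𝓝 (x, z), ¬ rC i p.1 j p.2 := by
  have c : ContinuousAt (fun p : ℂ × ℂ => sg i.1 * Yf (p.1 ^ 2) - sg j.1 * Yf (p.2 ^ 2)) (x, z) :=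
    ((BFacC_an hx).continuousAt.comp (f := Prod.fst) (x := (x, z)) continuousAt_fst).sub
      ((BFacC_an hz).continuousAt.comp (f := Prod.snd) (x := (x, z)) continuousAt_snd)
  by_cases l : La (sg i.1 * Yf (x ^ 2) - sg j.1 * Yf (z ^ 2))
  swap
  · exact (c.eventually (La_closed.isOpen_compl.mem_nhds l)).mono fun p hp k => hp k.2.2.1
  have h' : ¬ _ := fun k => h ⟨hx, hz, l, k⟩
  simp only [not_or, not_and] at h'
  by_cases e : sg i.1 * Yf (x ^ 2) = sg j.1 * Yf (z ^ 2)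
  · have k := La_ev' c l
    simp only [e, sub_self, sub_eq_zero] at k
    by_cases ij : i = j
    · filter_upwards [k, (continuousAt_snd.ne_iff_eventually_ne continuousAt_fst).1 (h'.1 ij)]
        with p h1 h2 r
      exact (rC_zero r (h1 r.2.2.1)).elim (fun q => h2 q.2) fun q => q.1 ij
    · filter_upwards [k, ((continuousAt_fst.mul continuousAt_snd).ne_iff_eventually_ne
        continuousAt_const).1 (h'.2.1 ij)] with p h1 h2 r
      exact (rC_zero r (h1 r.2.2.1)).elim (fun q => ij q.1) fun q => h2 q.2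
  · obtain ⟨h1, h2⟩ := rC_ne hx hz l e
    have c' : Continuous fun p : ℂ × ℂ => p.1.re * p.2.re := by fun_prop
    exact (c'.continuousAt.eventually (gt_mem_nhds ((not_lt.1 h'.2.2).lt_of_ne
      (mul_ne_zero h1 h2)))).mono fun p hp r => hp.not_ge (BFacC_nn r)

theorem rC_hol {i j : Ix} {x z : ℂ} (h : rC i x j z) :
    ∃ g : ℂ → ℂ, AnalyticAt ℂ g x ∧ g x = z ∧ ∀ᶠ t in 𝓝 x, rC i t j (g t) := by
  have o : ∀ᶠ t in 𝓝 x, t ∈ WC i := (isOpen_WC i).mem_nhds h.1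
  have o' : ∀ {g : ℂ → ℂ}, AnalyticAt ℂ g x → g x = z → ∀ᶠ t in 𝓝 x, g t ∈ WC j := fun a e =>
    a.continuousAt.eventually ((isOpen_WC j).mem_nhds (e ▸ h.2.1))
  by_cases e : sg i.1 * Yf (x ^ 2) = sg j.1 * Yf (z ^ 2)
  · rcases rC_zero h e with ⟨rfl, rfl⟩ | ⟨ij, q⟩
    · exact ⟨id, analyticAt_id, rfl, o.mono fun t ht =>
        ⟨ht, ht, by rw [id, sub_self]; exact La_zero, Or.inl ⟨rfl, rfl⟩⟩⟩
    · have x0 := left_ne_zero_of_mul_eq_one q
      have a : AnalyticAt ℂ (fun t : ℂ => t⁻¹) x := analyticAt_id.inv x0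
      have e' := (eq_inv_of_mul_eq_one_right q).symm
      refine ⟨_, a, e', ?_⟩
      filter_upwards [o, o' a e', isOpen_ne.mem_nhds x0] with t h1 h2 h3
      refine ⟨h1, h2, ?_, Or.inr (Or.inl ⟨ij, mul_inv_cancel₀ h3⟩)⟩
      rw [inv_pow, Yf_inv (pow_ne_zero 2 h3) h1.2.1, BFacC_sg h1.1 h2.1 ij, neg_mul_neg, sub_self]
      exact La_zero
  obtain ⟨h1, h2⟩ := rC_ne h.1 h.2.1 h.2.2.1 e
  have z0 : z ^ 2 ≠ 0 := pow_ne_zero 2 fun k => h2 (by rw [k, Complex.zero_re])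
  obtain ⟨l, hl⟩ : ∃ l, l = sg i.1 * Yf (x ^ 2) - sg j.1 * Yf (z ^ 2) := ⟨_, rfl⟩
  obtain ⟨w, hw⟩ : ∃ w : ℂ → ℂ, w = fun t => sg j.1 * (sg i.1 * Yf (t ^ 2) - l) := ⟨_, rfl⟩
  have aw : AnalyticAt ℂ w x := hw ▸ analyticAt_const.mul ((BFacC_an h.1).sub analyticAt_const)
  have wx : w x = Yf (z ^ 2) := by
    rw [hw, hl]
    linear_combination Yf (z ^ 2) * sg_sq j.1
  have d : 10 * w x + 1 ≠ 0 := wx ▸ BFacC_den h.2.1.2.2.2
  have ad : AnalyticAt ℂ (fun t => 10 * w t + 1) x := by fun_prop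
  have aG : AnalyticAt ℂ (fun t => Yi (w t) / z ^ 2) x :=
    (AnalyticAt.div (by fun_prop) ad d).div analyticAt_const z0
  have Gx : Yi (w x) / z ^ 2 = 1 := by rw [wx, Yi_Yf h.2.1.2.1, div_self z0]
  have a : AnalyticAt ℂ (fun t => z * Complex.exp (Complex.log (Yi (w t) / z ^ 2) / 2)) x :=
    analyticAt_const.mul ((aG.clog (Gx ▸ Complex.one_mem_slitPlane)).div_const).cexp'
  have e' : z * Complex.exp (Complex.log (Yi (w x) / z ^ 2) / 2) = z := by simp [Gx]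
  refine ⟨_, a, e', ?_⟩
  have c := ((Complex.continuous_re.continuousAt (x := x)).mul
    (Complex.continuous_re.continuousAt.comp a.continuousAt)).eventually (lt_mem_nhds (a := 0) (by
      rw [Pi.mul_apply, Function.comp_apply, e']
      exact (BFacC_nn h).lt_of_ne' (mul_ne_zero h1 h2)))
  filter_upwards [o, o' a e', c, ad.continuousAt.eventually_ne d,
    aG.continuousAt.eventually_ne (Gx.trans_ne one_ne_zero)] with t k1 k2 k3 k4 k5
  refine ⟨k1, k2, ?_, Or.inr (Or.inr k3)⟩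
  rw [mul_pow, ← Complex.exp_nat_mul, Nat.cast_ofNat, mul_div_cancel₀ _ two_ne_zero,
    Complex.exp_log k5, mul_div_cancel₀ _ z0, (Yf_Yi k4).2, hw, ← mul_assoc, sg_sq, one_mul,
    sub_sub_cancel, hl]
  exact h.2.2.1

theorem BFacC_K {P : ℂ} (h : ‖P‖ ≤ 1) (h' : 2 * ‖1 + P‖ ≤ 15 * ‖1 - P‖) : P ∈ DC := by
  have p1 : P ≠ 1 := fun e => by norm_num [e] at h'
  have p2 : 0 < ‖1 - P‖ := norm_pos_iff.2 (sub_ne_zero.2 p1.symm)
  refine ⟨p1, ?_, lt_of_lt_of_le (b := 0) (by norm_num) ?_⟩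
  · rw [Yf, norm_div, norm_mul, Complex.norm_ofNat, div_lt_iff₀ (by positivity)]
    linarith
  · have := Complex.sq_norm P
    rw [Yf, Complex.div_re, ← add_div]
    refine div_nonneg ?_ (Complex.normSq_nonneg _)
    simp only [Complex.normSq_apply] at this
    simp
    nlinarith [norm_nonneg P]

theorem rC_cpt : ∃ K : Ix → Set ℂ, (∀ i, IsCompact (K i) ∧ K i ⊆ WC i) ∧
    ∀ i, ∀ x ∈ WC i, ∃ j, ∃ z ∈ K j, rC i x j z := by
  have sub : ∀ (i : Ix) (x : ℂ), i.2 = false ∧ ‖x‖ ≤ 1 ∧ 2 * ‖1 + x ^ 2‖ ≤ 15 * ‖1 - x ^ 2‖ →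
      x ∈ WC i := fun i x h =>
    ⟨h.1, BFacC_K (by rw [norm_pow]; exact pow_le_one₀ (norm_nonneg _) h.2.1) h.2.2⟩
  refine ⟨fun i => {x | i.2 = false ∧ ‖x‖ ≤ 1 ∧ 2 * ‖1 + x ^ 2‖ ≤ 15 * ‖1 - x ^ 2‖},
    fun i => ⟨(isCompact_closedBall 0 1).of_isClosed_subset (isClosed_const.inter
      ((isClosed_le continuous_norm continuous_const).inter (isClosed_le
        (f := fun x : ℂ => 2 * ‖1 + x ^ 2‖) (g := fun x => 15 * ‖1 - x ^ 2‖) (by fun_prop)
        (by fun_prop)))) fun x hx => mem_closedBall_zero_iff.2 hx.2.1, sub i⟩, fun i x hx => ?_⟩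
  obtain ⟨w, lw, h1, h2⟩ := La_round (sg i.1 * Yf (x ^ 2))
  obtain ⟨y, hy⟩ : ∃ y, y = sg i.1 * Yf (x ^ 2) - w := ⟨_, rfl⟩
  rw [← hy] at h1 h2
  obtain ⟨b, hb⟩ : ∃ b, 0 ≤ (sg b * y).re := by
    rcases le_total 0 y.re with k | k
    exacts [⟨false, by simpa [sg] using k⟩, ⟨true, by simpa [sg] using k⟩]
  obtain ⟨u, hu⟩ : ∃ u, u = sg b * y := ⟨_, rfl⟩
  rw [← hu] at hb
  have d := BFacC_den (y := u) (by linarith)
  obtain ⟨p1, p2⟩ := Yf_Yi d
  have nu : ‖u‖ ≤ 3 / 4 := by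
    rw [hu, norm_mul, norm_sg, one_mul]
    refine (pow_le_pow_iff_left₀ (norm_nonneg _) (by norm_num) two_ne_zero).1 ?_
    rw [Complex.sq_norm, Complex.normSq_apply]
    nlinarith [abs_le.1 h1, abs_le.1 h2]
  have nP : ‖Yi u‖ ≤ 1 := by
    rw [Yi, norm_div]
    refine div_le_one_of_le₀ ((pow_le_pow_iff_left₀ (norm_nonneg _) (norm_nonneg _)
      two_ne_zero).1 ?_) (norm_nonneg _)
    simp only [Complex.sq_norm, Complex.normSq_apply]
    simp
    nlinarith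
  have key : ∀ z, z ^ 2 = Yi u → (false = false ∧ ‖z‖ ≤ 1 ∧
      2 * ‖1 + z ^ 2‖ ≤ 15 * ‖1 - z ^ 2‖) ∧ sg i.1 * Yf (x ^ 2) - sg b * Yf (z ^ 2) = w :=
    fun z e => ⟨⟨rfl, (pow_le_one_iff_of_nonneg (norm_nonneg _) two_ne_zero).1
      (by rwa [← norm_pow, e]), by
        have p3 : 0 < ‖1 - Yi u‖ := norm_pos_iff.2 (sub_ne_zero.2 p1.symm)
        rw [← p2, Yf, norm_div, norm_mul, Complex.norm_ofNat, div_le_iff₀ (by positivity)] at nu
        rw [e]
        linarith⟩, by rw [e, p2, hu, ← mul_assoc, sg_sq, one_mul, hy, sub_sub_cancel]⟩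
  suffices k : ∃ z, z ^ 2 = Yi u ∧
      ((i = (b, false) ∧ z = x) ∨ (i ≠ (b, false) ∧ x * z = 1) ∨ 0 < x.re * z.re) by
    obtain ⟨z, e, k⟩ := k
    exact ⟨(b, false), z, (key z e).1, hx, sub _ z (key z e).1, (key z e).2 ▸ lw, k⟩
  rcases eq_or_ne w 0 with rfl | w0
  · rw [sub_zero] at hy
    by_cases ij : i = (b, false)
    · refine ⟨x, ?_, Or.inl ⟨ij, rfl⟩⟩
      rw [hu, hy, ij, ← mul_assoc, sg_sq, one_mul, Yi_Yf hx.2.1]
    · have e : u = -Yf (x ^ 2) := by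
        rw [hu, hy, show sg b = _ from BFacC_sg hx.1 rfl ij]
        linear_combination -Yf (x ^ 2) * sg_sq i.1
      refine ⟨x⁻¹, by rw [e, Yi_neg, Yi_Yf hx.2.1, inv_pow],
        Or.inr (Or.inl ⟨ij, mul_inv_cancel₀ fun x0 => ?_⟩)⟩
      norm_num [e, x0, Yf] at hb
  · obtain ⟨z, e⟩ := IsAlgClosed.exists_pow_nat_eq (Yi u) two_pos
    obtain ⟨k1, k2⟩ := rC_ne hx (sub (b, false) z (key z e).1) ((key z e).2 ▸ lw)
      (sub_ne_zero.1 ((key z e).2 ▸ w0))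
    rcases lt_or_gt_of_ne (mul_ne_zero k1 k2) with k | k
    · exact ⟨-z, by rwa [neg_sq], Or.inr (Or.inr (by simpa using k))⟩
    · exact ⟨z, e, Or.inr (Or.inr k)⟩

theorem facC : Fac WC rC := by
  refine ⟨isOpen_WC, fun h => h.1, fun h => ⟨h, h, ?_, Or.inl ⟨rfl, rfl⟩⟩,
    fun h => ⟨h.2.1, h.1, ?_, ?_⟩, rC_trans, rC_inj, rC_clo, fun h => ?_, rC_hol, fun h => ?_,
    rC_small, rC_cpt⟩
  · rw [sub_self]
    exact La_zero
  · rw [← neg_sub]
    exact h.2.2.1.neg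
  · exact h.2.2.2.imp (fun k => ⟨k.1.symm, k.2.symm⟩) (Or.imp
      (fun k => ⟨k.1.symm, (mul_comm _ _).trans k.2⟩) fun k => k.trans_eq (mul_comm _ _))
  · simpa only [rC, WC, mem_ofPred_eq, neg_sq, neg_inj, neg_mul_neg, Complex.neg_re] using h
  · rcases h.2.2.2 with k | k | k
    · exact CharZero.neg_eq_self_iff.1 k.2
    · exact absurd rfl k.1
    · rw [Complex.neg_re, mul_neg, neg_pos] at k
      exact absurd (mul_self_nonneg _) k.not_ge

theorem lnkC {i j : Ix} (hi : i.2 = false) (hj : j.2 = false) : ∃ x z, x ≠ 0 ∧ rC i x j z := by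
  have y : Yf (-1) = 0 := by simp [Yf]
  have d : (-1 : ℂ) ∈ DC := ⟨by norm_num, by rw [y]; norm_num, by rw [y]; norm_num⟩
  have e : (-Complex.I) ^ 2 = -1 := by rw [neg_sq, Complex.I_sq]
  by_cases c : i = j
  · subst c
    exact ⟨_, _, Complex.I_ne_zero, facC.refl ⟨hi, Complex.I_sq ▸ d⟩⟩
  · refine ⟨_, -Complex.I, Complex.I_ne_zero, ⟨hi, Complex.I_sq ▸ d⟩, ⟨hj, e ▸ d⟩, ?_,
      Or.inr (Or.inl ⟨c, by simp⟩)⟩
    rw [e, Complex.I_sq, y, mul_zero, mul_zero, sub_zero]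
    exact La_zero

theorem DmC (i : Ix) : Dm WC i = {P | i.2 = false ∧ P ∈ DC} := by
  ext P
  refine ⟨?_, fun h => ?_⟩
  · rintro ⟨x, hx, rfl⟩
    exact hx
  · obtain ⟨x, rfl⟩ := IsAlgClosed.exists_pow_nat_eq P two_pos
    exact ⟨x, h, rfl⟩

theorem fack (k : Fin 3) : Fac (Wk k) (rk k) := facC

end Pool.Agent.Work.MP_bf98aa_gt.Kg
end
end

-- merged part: Pool.Agent.Work.MP_bf98aa_gt.Kg.BRR
section
/-!
The multiplier relation of a factor.

PLAN. `W i` is symmetric (`refl`, `neg`, `mem`). `RR.root`: both square roots serve (`neg`, `sq_eq_sq'`/`sq_eq_sq_iff_eq_or_eq_neg`). `exists_root`: for `x ≠ 0`,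
`s Q = x * exp (log (Q / x ^ 2) / 2)`. `root_near`: all square roots of `Q` near `x ^ 2` are near `x` or `-x` (`‖t - x‖ * ‖t + x‖ = ‖t ^ 2 - x ^ 2‖`).
`isOpen_Dm`: `root_near`. `RR.loc`: if `x = 0` take `μ = 1` (`small`, `refl`), else `μ Q = g (s Q) / s Q`. `RR.uniq`: `m' x = ± m x`, `fix`.
`RR_clo`: let `x ∈ W i`, `z ∈ W j` be roots of `P`, `P'`. Nearby related roots can be taken near `x` (`RR.root`, `root_near`) and near `z` or `-z`; by `clo`
one of `r i x j z`, `r i x j (-z)` holds; if `x ≠ 0` the multiplier is near `z / x` resp. `-z / x`, which lies in `U`; if `x = 0` use `small`. `RR_inj`: `inj`, `clo`, `fix`, `small`.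
-/

set_option autoImplicit false

noncomputable section

open scoped ContDiff Topology
open Set Filter

namespace Pool.Agent.Work.MP_bf98aa_gt.Kg

open Pool.Agent.Work.MP_bf98aa_gt.Th Pool.Agent.Work.MP_bf98aa_gt.Cp

variable {W : Ix → Set ℂ} {r : Ix → ℂ → Ix → ℂ → Prop} {i j l : Ix} {P P' m m' : ℂ}

theorem exists_root {x : ℂ} (hx : x ≠ 0) :
    ∃ s : ℂ → ℂ, AnalyticAt ℂ s (x ^ 2) ∧ s (x ^ 2) = x ∧ ∀ᶠ Q in 𝓝 (x ^ 2), s Q ^ 2 = Q := by
  have h2 : x ^ 2 ≠ 0 := pow_ne_zero 2 hx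
  refine ⟨fun Q => x * Complex.exp (Complex.log (Q / x ^ 2) / 2), ?_, ?_, ?_⟩
  · have h1 : AnalyticAt ℂ (fun Q : ℂ => Complex.log (Q / x ^ 2)) (x ^ 2) :=
      (analyticAt_id.div_const (c := x ^ 2)).clog (by simp [div_self h2])
    exact analyticAt_const.mul (h1.div_const (c := 2)).cexp'
  · simp [div_self h2]
  · filter_upwards [isOpen_ne.mem_nhds h2] with Q hQ
    rw [mul_pow, ← Complex.exp_nat_mul, Nat.cast_ofNat, mul_div_cancel₀ _ two_ne_zero,
      Complex.exp_log (div_ne_zero hQ h2), mul_div_cancel₀ _ h2]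

theorem root_near (x : ℂ) {U : Set ℂ} (hU : U ∈ 𝓝 x) :
    ∀ᶠ Q in 𝓝 (x ^ 2), ∀ t, t ^ 2 = Q → t ∈ U ∨ -t ∈ U := by
  obtain ⟨ε, hε, hb⟩ := Metric.mem_nhds_iff.1 hU
  filter_upwards [Metric.ball_mem_nhds (x ^ 2) (mul_pos hε hε)] with Q hQ t ht
  by_contra hn
  rw [not_or] at hn
  have h1 : ε ≤ ‖t - x‖ := not_lt.1 fun a => hn.1 (hb (mem_ball_iff_norm.2 a))
  have h2 : ε ≤ ‖-t - x‖ := not_lt.1 fun a => hn.2 (hb (mem_ball_iff_norm.2 a))
  have h3 : ‖t - x‖ * ‖-t - x‖ = ‖Q - x ^ 2‖ := by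
    rw [← norm_mul, ← ht, ← norm_neg]
    ring_nf
  have h4 := mem_ball_iff_norm.1 hQ
  exact absurd (mul_le_mul h1 h2 hε.le (norm_nonneg _)) (by rw [h3]; exact not_le.2 h4)

theorem isOpen_Dm (h : Fac W r) (i : Ix) : IsOpen (Dm W i) := by
  refine isOpen_iff_mem_nhds.2 ?_
  rintro _ ⟨x, hx, rfl⟩
  filter_upwards [root_near x ((h.opn i).mem_nhds hx)] with Q hQ
  obtain ⟨t, ht⟩ := IsAlgClosed.exists_pow_nat_eq Q two_pos
  rcases hQ t ht with a | a
  · exact ⟨t, a, ht⟩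
  · exact ⟨-t, a, by rw [neg_sq, ht]⟩

theorem RR.root (h : Fac W r) (hr : RR r i P j m) {x : ℂ} (hx : x ^ 2 = P) : r i x j (m * x) := by
  obtain ⟨y, hy, -, -, hr⟩ := hr
  rcases sq_eq_sq_iff_eq_or_eq_neg.1 (hx.trans hy.symm) with rfl | rfl
  · exact hr
  · rw [mul_neg]
    exact h.neg hr

theorem RR.ne (hr : RR r i P j m) : m ≠ 0 := by
  obtain ⟨_, -, hm, -⟩ := hr
  exact hm

theorem RR.mem (h : Fac W r) (hr : RR r i P j m) : P ∈ Dm W i ∧ m ^ 2 * P ∈ Dm W j := by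
  obtain ⟨x, hx, -, -, hr⟩ := hr
  exact ⟨⟨x, h.mem hr, hx⟩, m * x, h.mem (h.symm hr), by rw [mul_pow, hx]⟩

theorem RR_refl (h : Fac W r) (hP : P ∈ Dm W i) : RR r i P i 1 := by
  obtain ⟨x, hx, e⟩ := hP
  exact ⟨x, e, one_ne_zero, fun _ => rfl, by rw [one_mul]; exact h.refl hx⟩

theorem RR.symm (h : Fac W r) (hr : RR r i P j m) : RR r j (m ^ 2 * P) i m⁻¹ := by
  obtain ⟨x, hx, hm, h0, hr⟩ := hr
  refine ⟨m * x, by rw [mul_pow, hx], inv_ne_zero hm, fun a => ?_, ?_⟩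
  · rw [h0 ((mul_eq_zero.1 a).resolve_left hm), inv_one]
  · rw [inv_mul_cancel_left₀ hm]
    exact h.symm hr

theorem BRR_zero (hr : RR r i P j m) (hP : P = 0) : m = 1 := by
  obtain ⟨x, hx, -, h0, -⟩ := hr
  exact h0 (pow_eq_zero_iff two_ne_zero |>.1 (hx.trans hP))

theorem RR.trans (h : Fac W r) (hr : RR r i P j m) (hr' : RR r j (m ^ 2 * P) l m') :
    RR r i P l (m' * m) := by
  obtain ⟨x, hx, hm, h0, hr⟩ := hr
  refine ⟨x, hx, mul_ne_zero hr'.ne hm, fun a => ?_, ?_⟩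
  · rw [h0 a, BRR_zero hr' (by rw [← hx, a]; simp), one_mul]
  · rw [mul_assoc]
    exact h.trans hr (hr'.root h (by rw [mul_pow, hx]))

theorem RR_of (h : Fac W r) {x z : ℂ} (hr : r i x j z) : ∃ m, RR r i (x ^ 2) j m ∧ z = m * x := by
  by_cases hx : x = 0
  · have e : z = 1 * x := by rw [(h.small hr (by rw [hx]; norm_num)).2, one_mul]
    exact ⟨1, ⟨x, rfl, one_ne_zero, fun _ => rfl, e ▸ hr⟩, e⟩
  · have hz : z ≠ 0 := fun a => hx (((h.small (h.symm hr) (by rw [a]; norm_num)).2).trans a)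
    have e : z = z / x * x := (div_mul_cancel₀ z hx).symm
    exact ⟨z / x, ⟨x, rfl, div_ne_zero hz hx, fun a => absurd a hx, e ▸ hr⟩, e⟩

theorem RR.small (h : Fac W r) (hr : RR r i P j m)
    (hs : ‖P‖ ≤ 1 / 100 ∨ ‖m ^ 2 * P‖ ≤ 1 / 100) : j = i ∧ m = 1 := by
  obtain ⟨x, hx, -, h0, hr⟩ := hr
  have key : ∀ y : ℂ, ‖y ^ 2‖ ≤ 1 / 100 → ‖y‖ ≤ 1 / 10 := fun y a => by
    rw [norm_pow] at a
    nlinarith [norm_nonneg y]
  have e : j = i ∧ m * x = x := by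
    rcases hs with a | a
    · exact h.small hr (key x (by rwa [hx]))
    · have b := h.small (h.symm hr) (key _ (by rwa [mul_pow, hx]))
      exact ⟨b.1.symm, b.2.symm⟩
  refine ⟨e.1, ?_⟩
  by_cases a : x = 0
  · exact h0 a
  · exact mul_right_cancel₀ a (by rw [e.2, one_mul])

theorem RR.loc (h : Fac W r) (hr : RR r i P j m) :
    ∃ μ : ℂ → ℂ, AnalyticAt ℂ μ P ∧ μ P = m ∧ ∀ᶠ Q in 𝓝 P, RR r i Q j (μ Q) := by
  by_cases hP : P = 0
  · obtain ⟨rfl, rfl⟩ := hr.small h (Or.inl (by rw [hP]; norm_num))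
    refine ⟨fun _ => 1, analyticAt_const, rfl, ?_⟩
    filter_upwards [(isOpen_Dm h j).mem_nhds (hr.mem h).1] with Q hQ using RR_refl h hQ
  obtain ⟨x, rfl, hm, -, hr⟩ := hr
  have hx : x ≠ 0 := fun a => hP (by rw [a]; simp)
  obtain ⟨s, hs, e, h2⟩ := exists_root hx
  obtain ⟨g, hg, e', h3⟩ := h.hol hr
  have hg' : AnalyticAt ℂ (fun Q => g (s Q)) (x ^ 2) := AnalyticAt.comp_of_eq' hg hs e
  have ht : Tendsto s (𝓝 (x ^ 2)) (𝓝 x) := by simpa only [e] using hs.continuousAt.tendsto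
  refine ⟨fun Q => g (s Q) / s Q, hg'.div hs (by rwa [e]), ?_, ?_⟩
  · simp only [e, e', mul_div_cancel_right₀ _ hx]
  · filter_upwards [h2, ht.eventually h3, ht.eventually_ne hx,
      hg'.continuousAt.eventually_ne (y := 0) (by simpa only [e, e'] using mul_ne_zero hm hx)]
      with Q a b c d
    exact ⟨s Q, a, div_ne_zero d c, fun k => absurd k c, by rwa [div_mul_cancel₀ _ c]⟩

theorem RR.uniq (h : Fac W r) (hr : RR r i P j m) (hr' : RR r i P j m')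
    (e : m ^ 2 * P = m' ^ 2 * P) : m = m' := by
  by_cases hP : P = 0
  · rw [BRR_zero hr hP, BRR_zero hr' hP]
  obtain ⟨x, rfl, hm, -, hr⟩ := hr
  have hx : x ≠ 0 := fun a => hP (by rw [a]; simp)
  have h1 := h.trans (h.symm hr) (hr'.root h rfl)
  rcases sq_eq_sq_iff_eq_or_eq_neg.1 (mul_right_cancel₀ hP e).symm with a | a
  · exact a.symm
  · rw [a, neg_mul] at h1
    exact absurd (h.fix h1) (mul_ne_zero hm hx)

theorem BRR_neg (h : Fac W r) {x : ℂ} (hx : x ∈ W i) : -x ∈ W i := h.mem (h.neg (h.refl hx))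

theorem BRR_near (h : Fac W r) {x z : ℂ} {Q : ℂ × ℂ → Prop} (h1 : ∀ᶠ p in 𝓝 (x, z), Q p)
    (h2 : ∀ᶠ p in 𝓝 (x, -z), Q p) : ∀ᶠ q in 𝓝 (x ^ 2, z ^ 2), ∀ m, RR r i q.1 j m →
      q.2 = m ^ 2 * q.1 → ∃ a, a ^ 2 = q.1 ∧ r i a j (m * a) ∧ Q (a, m * a) := by
  have c : Tendsto (fun p : ℂ × ℂ => (p.1, -p.2)) (𝓝 (x, z)) (𝓝 (x, -z)) :=
    (continuous_fst.prodMk continuous_snd.neg).tendsto (x, z)
  obtain ⟨A, hA, B, hB, k⟩ := mem_nhds_prod_iff.1 (h1.and (c.eventually h2))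
  filter_upwards [(root_near x hA).prodMk_nhds (root_near z hB)] with q ⟨k1, k2⟩ m hm e
  obtain ⟨a, ha, a2⟩ : ∃ a ∈ A, a ^ 2 = q.1 := by
    obtain ⟨t, ht, -⟩ := hm
    rcases k1 t ht with u | u
    exacts [⟨t, u, ht⟩, ⟨-t, u, by rw [neg_sq, ht]⟩]
  refine ⟨a, a2, hm.root h a2, ?_⟩
  rcases k2 (m * a) (by rw [mul_pow, a2, e]) with u | u
  · exact (k (mk_mem_prod ha u)).1
  · simpa only [neg_neg] using (k (mk_mem_prod ha u)).2

theorem BRR_small (P' : ℂ) : ∀ᶠ q : ℂ × ℂ in 𝓝 (0, P'), ‖q.1‖ ≤ 1 / 100 :=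
  (continuous_fst.norm.continuousAt.eventually_lt continuousAt_const (by norm_num)).mono
    fun _ => le_of_lt

theorem RR_clo (h : Fac W r) (hP : P ∈ Dm W i) (hP' : P' ∈ Dm W j) {U : Set ℂ} (hU : IsOpen U)
    (hm : ∀ m, RR r i P j m → P' = m ^ 2 * P → m ∈ U) :
    ∀ᶠ q in 𝓝 (P, P'), ∀ m, RR r i q.1 j m → q.2 = m ^ 2 * q.1 → m ∈ U := by
  obtain ⟨x, hx, rfl⟩ := id hP
  obtain ⟨z, hz, rfl⟩ := hP'
  by_cases h0 : x = 0
  · rw [h0, zero_pow two_ne_zero] at hP hm ⊢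
    by_cases e : z ^ 2 = 0
    · filter_upwards [BRR_small (z ^ 2)] with q k m hr _
      obtain ⟨rfl, rfl⟩ := hr.small h (Or.inl k)
      exact hm 1 (RR_refl h hP) (by rw [e, mul_zero])
    · filter_upwards [BRR_small (z ^ 2), (isOpen_ne_fun continuous_snd continuous_fst).mem_nhds e]
        with q k k' m hr e'
      rw [(hr.small h (Or.inl k)).2, one_pow, one_mul] at e'
      exact (k' e').elim
  · have key : ∀ w ∈ W j, w ^ 2 = z ^ 2 → ∀ᶠ p : ℂ × ℂ in 𝓝 (x, w),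
        p.1 ≠ 0 ∧ (r i p.1 j p.2 → p.2 / p.1 ∈ U) := fun w hw e => by
      refine (continuous_fst.continuousAt.eventually_ne h0).and ?_
      by_cases k : r i x j w
      · obtain ⟨m, k1, k2⟩ := RR_of h k
        have k3 : w / x ∈ U := by
          rw [k2, mul_div_cancel_right₀ _ h0]
          exact hm m k1 (by rw [← e, k2, mul_pow])
        exact (((continuousAt_snd (p := (x, w))).div continuousAt_fst h0).eventually
          (hU.mem_nhds k3)).mono fun _ u _ => u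
      · exact (h.clo hx hw k).mono fun _ u v => (u v).elim
    filter_upwards [BRR_near (i := i) (j := j) h (key z hz rfl) (key _ (BRR_neg h hz) (neg_sq z))]
      with q k m hr e
    obtain ⟨a, -, k1, k2, k3⟩ := k m hr e
    simpa only [mul_div_cancel_right₀ _ k2] using k3 k1

theorem RR_inj (h : Fac W r) (hP : P ∈ Dm W i) :
    ∀ᶠ q in 𝓝 (P, P), ∀ m, RR r i q.1 i m → q.2 = m ^ 2 * q.1 → m = 1 := by
  obtain ⟨x, hx, rfl⟩ := hP
  by_cases h0 : x = 0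
  · rw [h0, zero_pow two_ne_zero]
    filter_upwards [BRR_small 0] with q k m hr _
    exact (hr.small h (Or.inl k)).2
  · have n : ∀ w, ∀ᶠ p : ℂ × ℂ in 𝓝 (x, w), p.1 ≠ 0 := fun w =>
      continuous_fst.continuousAt.eventually_ne h0
    filter_upwards [BRR_near (i := i) (j := i) h ((n x).and (h.inj hx)) ((n (-x)).and
      ((h.clo hx (BRR_neg h hx) fun k => h0 (h.fix k)).mono fun _ u v => (u v).elim))]
      with q k m hr e
    obtain ⟨a, -, k1, k2, k3⟩ := k m hr e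
    exact (mul_eq_right₀ k2).1 (k3 k1).symm

theorem RR_cpt (h : Fac W r) : ∃ K : Ix → Set ℂ, (∀ i, IsCompact (K i) ∧ K i ⊆ Dm W i) ∧
    ∀ i, ∀ P ∈ Dm W i, ∃ j m, RR r i P j m ∧ m ^ 2 * P ∈ K j := by
  obtain ⟨K, h1, h2⟩ := h.cpt
  refine ⟨fun i => (fun x => x ^ 2) '' K i, fun i => ⟨(h1 i).1.image (continuous_pow 2),
    image_mono (h1 i).2⟩, ?_⟩
  rintro i _ ⟨x, hx, rfl⟩
  obtain ⟨j, z, hz, k⟩ := h2 i x hx
  obtain ⟨m, k1, k2⟩ := RR_of h k
  exact ⟨j, m, k1, z, hz, k2 ▸ mul_pow m x 2⟩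

end Pool.Agent.Work.MP_bf98aa_gt.Kg
end
end

-- merged part: Pool.Agent.Work.MP_bf98aa_gt.Kg.BTor
section
/-!
The toric charts: algebra.

PLAN. Everything by `fin_cases` on the charts and on `k`, `simp [tP, tu, tv, ...]`, `field_simp`, `linear_combination`. It pays to prove once, for data `(P, u, v)` with
`u k ≠ 0 ∨ v k ≠ 0` and `v (k+1) * v (k+2) = u (k+1) * u (k+2) * P k` for all `k` (these hold for the data of a chart and are kept by the torus action), that `Den S u v` implies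
`tP S (ex S P u v) = P` and `u k * tv S (ex S P u v) k = v k * tu S (ex S P u v) k` (four cases). `TR.trans`: cross products, the middle vector `(tu, tv)` is not zero.
`exists_den`: if `‖u k‖ ≤ ‖v k‖` for some `k` take the corner `k`, else the centre.
-/

set_option autoImplicit false

noncomputable section

open scoped ContDiff Topology
open Set Filter

namespace Pool.Agent.Work.MP_bf98aa_gt.Kg

open Pool.Agent.Work.MP_bf98aa_gt.Th Pool.Agent.Work.MP_bf98aa_gt.Cp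

variable {m m' : Fin 3 → ℂ} {T S R : Fin 4} {p q x : E3}

theorem tuv_ne (T : Fin 4) (p : E3) (k : Fin 3) : tu T p k ≠ 0 ∨ tv T p k ≠ 0 := by
  fin_cases T <;> fin_cases k <;> simp [tu, tv]

theorem tv_mul (T : Fin 4) (p : E3) (k : Fin 3) :
    tv T p (k + 1) * tv T p (k + 2) = tu T p (k + 1) * tu T p (k + 2) * tP T p k := by
  fin_cases T <;> fin_cases k <;> simp [tP, tu, tv] <;> ring

theorem tu_sq (T : Fin 4) (p : E3) :
    tu T p 2 ^ 2 * (tP T p 0 * tP T p 1) = tv T p 2 ^ 2 * tP T p 2 := by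
  fin_cases T <;> simp [tP, tu, tv] <;> ring

theorem tv_ne (T : Fin 4) (h : t0 p ≠ 0) : tv T p 2 ≠ 0 := by
  have h1 : p.1 ≠ 0 := fun e => h (by simp [t0, e])
  have h2 : p.2.1 ≠ 0 := fun e => h (by simp [t0, e])
  have h3 : p.2.2 ≠ 0 := fun e => h (by simp [t0, e])
  fin_cases T <;> simp [tv, h1, h2, h3]

theorem dense_t0 : Dense {p : E3 | t0 p ≠ 0} := by
  have h := dense_compl_singleton (0 : ℂ)
  refine (h.prod (h.prod h)).mono fun p hp => ?_
  exact mul_ne_zero (mul_ne_zero hp.1 hp.2.1) hp.2.2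

theorem TR_refl (T : Fin 4) (p : E3) : TR (fun _ => 1) T p T p := by
  intro k
  constructor <;> ring

theorem TR.symm (h : TR m T p S q) (hm : ∀ k, m k ≠ 0) : TR (fun k => (m k)⁻¹) S q T p := by
  intro k
  have h0 := hm k
  have h1 := hm (k + 1)
  have h2 := hm (k + 2)
  refine ⟨?_, ?_⟩
  · rw [(h k).1]
    field_simp
  · field_simp
    linear_combination -(h k).2

theorem TR.trans (h : TR m T p S q) (h' : TR m' S q R x) : TR (fun k => m' k * m k) T p R x := by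
  intro k
  refine ⟨by rw [(h' k).1, (h k).1]; ring, ?_⟩
  rcases tuv_ne S q k with h0 | h0
  · refine mul_left_cancel₀ h0 ?_
    linear_combination m k * tu T p k * (h' k).2 + m' (k + 1) * m' (k + 2) * tu R x k * (h k).2
  · refine mul_left_cancel₀ h0 ?_
    linear_combination m' k * tv R x k * (h k).2 + m (k + 1) * m (k + 2) * tv T p k * (h' k).2

theorem BTor_ne (hm : ∀ k, m k ≠ 0) (T : Fin 4) (p : E3) (k : Fin 3) :
    m k * tu T p k ≠ 0 ∨ m (k + 1) * m (k + 2) * tv T p k ≠ 0 :=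
  (tuv_ne T p k).imp (mul_ne_zero (hm k)) (mul_ne_zero (mul_ne_zero (hm _) (hm _)))

theorem BTor_one {u v a : ℂ} (h : u ≠ 0 ∨ v ≠ 0) (e : u * 1 = v * a) : v ≠ 0 ∧ a = u / v := by
  have hv : v ≠ 0 := fun hv => by simp_all
  exact ⟨hv, by rw [eq_div_iff hv, mul_comm, ← e, mul_one]⟩

theorem BTor_ex {P u v : Fin 3 → ℂ} (h1 : ∀ k, u k ≠ 0 ∨ v k ≠ 0)
    (h : ∀ k, tP S q k = P k ∧ u k * tv S q k = v k * tu S q k) :
    Den S u v ∧ q = ex S P u v := by
  obtain ⟨a, b, c⟩ := q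
  fin_cases S
  · obtain ⟨e1, e2⟩ := BTor_one (h1 0) (h 0).2
    exact ⟨e1, Prod.ext e2 (Prod.ext (h 1).1 (h 2).1)⟩
  · obtain ⟨e1, e2⟩ := BTor_one (h1 1) (h 1).2
    exact ⟨e1, Prod.ext (h 0).1 (Prod.ext e2 (h 2).1)⟩
  · obtain ⟨e1, e2⟩ := BTor_one (h1 2) (h 2).2
    exact ⟨e1, Prod.ext (h 0).1 (Prod.ext (h 1).1 e2)⟩
  · obtain ⟨e0, f0⟩ := BTor_one (h1 0).symm (h 0).2.symm
    obtain ⟨e1, f1⟩ := BTor_one (h1 1).symm (h 1).2.symm
    obtain ⟨e2, f2⟩ := BTor_one (h1 2).symm (h 2).2.symm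
    exact ⟨⟨e0, e1, e2⟩, Prod.ext f0 (Prod.ext f1 f2)⟩

theorem TR.eq_act (h : TR m T p S q) (hm : ∀ k, m k ≠ 0) : DenA m T S p ∧ q = act m T S p := by
  exact BTor_ex (BTor_ne hm T p) h

theorem BTor_corner {u0 u1 u2 v0 v1 v2 P0 P1 P2 : ℂ} (h1 : u1 ≠ 0 ∨ v1 ≠ 0)
    (h2 : u2 ≠ 0 ∨ v2 ≠ 0) (e0 : v1 * v2 = u1 * u2 * P0) (e1 : v2 * v0 = u2 * u0 * P1)
    (e2 : v0 * v1 = u0 * u1 * P2) (h : v0 ≠ 0) :
    (u0 / v0) ^ 2 * P1 * P2 = P0 ∧ u0 * 1 = v0 * (u0 / v0) ∧ u1 * (u0 / v0 * P2) = v1 * 1 ∧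
      u2 * (u0 / v0 * P1) = v2 * 1 := by
  have a1 : u1 ≠ 0 := fun a => by simp_all
  have a2 : u2 ≠ 0 := fun a => by simp_all
  refine ⟨mul_left_cancel₀ (mul_ne_zero a1 a2) ?_, ?_, ?_, ?_⟩ <;> field_simp
  · apply mul_left_cancel₀ (mul_ne_zero a1 a2)
    linear_combination v0 ^ 2 * e0 - v0 * v1 * e1 - u2 * u0 * P1 * e2
  · linear_combination -e2
  · linear_combination -e1

theorem BTor_act {P u v : Fin 3 → ℂ} (h1 : ∀ k, u k ≠ 0 ∨ v k ≠ 0)
    (h2 : ∀ k, v (k + 1) * v (k + 2) = u (k + 1) * u (k + 2) * P k) (h : Den S u v) (k : Fin 3) :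
    tP S (ex S P u v) k = P k ∧ u k * tv S (ex S P u v) k = v k * tu S (ex S P u v) k := by
  have e0 : v 1 * v 2 = u 1 * u 2 * P 0 := h2 0
  have e1 : v 2 * v 0 = u 2 * u 0 * P 1 := h2 1
  have e2 : v 0 * v 1 = u 0 * u 1 * P 2 := h2 2
  fin_cases S
  · obtain ⟨a, b, c, d⟩ := BTor_corner (h1 1) (h1 2) e0 e1 e2 h
    fin_cases k
    exacts [⟨a, b⟩, ⟨rfl, c⟩, ⟨rfl, d⟩]
  · obtain ⟨a, b, c, d⟩ := BTor_corner (h1 2) (h1 0) e1 e2 e0 h
    fin_cases k
    exacts [⟨rfl, d⟩, ⟨(mul_right_comm _ _ _).trans a, b⟩, ⟨rfl, c⟩]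
  · obtain ⟨a, b, c, d⟩ := BTor_corner (h1 0) (h1 1) e2 e0 e1 h
    fin_cases k
    exacts [⟨rfl, c⟩, ⟨rfl, d⟩, ⟨a, b⟩]
  · obtain ⟨a, b, c⟩ : u 0 ≠ 0 ∧ u 1 ≠ 0 ∧ u 2 ≠ 0 := h
    fin_cases k
    · refine ⟨show v 1 / u 1 * (v 2 / u 2) = P 0 from ?_, show u 0 * (v 0 / u 0) = v 0 * 1 from ?_⟩
        <;> field_simp
      exact e0
    · refine ⟨show v 0 / u 0 * (v 2 / u 2) = P 1 from ?_, show u 1 * (v 1 / u 1) = v 1 * 1 from ?_⟩
        <;> field_simp
      linear_combination e1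
    · refine ⟨show v 0 / u 0 * (v 1 / u 1) = P 2 from ?_, show u 2 * (v 2 / u 2) = v 2 * 1 from ?_⟩
        <;> field_simp
      exact e2

theorem TR_act (hm : ∀ k, m k ≠ 0) (h : DenA m T S p) : TR m T p S (act m T S p) := by
  refine BTor_act (BTor_ne hm T p) (fun k => ?_) h
  have e := tv_mul T p k
  have e1 : k + 1 + 1 = k + 2 := by fin_cases k <;> rfl
  have e2 : k + 1 + 2 = k := by fin_cases k <;> rfl
  have e3 : k + 2 + 1 = k := by fin_cases k <;> rfl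
  have e4 : k + 2 + 2 = k + 1 := by fin_cases k <;> rfl
  simp only [e1, e2, e3, e4]
  linear_combination m k ^ 2 * m (k + 1) * m (k + 2) * e

theorem TR.inj (h : TR (fun _ => 1) T p T q) : p = q := by
  rw [(h.eq_act fun _ => one_ne_zero).2, ← ((TR_refl T p).eq_act fun _ => one_ne_zero).2]

theorem BTor_par {a b x y : ℂ} (h : a ≠ 0 ∨ b ≠ 0) (h' : x ≠ 0 ∨ y ≠ 0) (e : a * y = b * x) :
    ∃ c, c ≠ 0 ∧ x = c * a ∧ y = c * b := by
  rcases h with h | h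
  · have hx : x ≠ 0 := fun hx => by simp_all
    refine ⟨x / a, div_ne_zero hx h, ?_, ?_⟩ <;> field_simp
    linear_combination e
  · have hy : y ≠ 0 := fun hy => by simp_all
    refine ⟨y / b, div_ne_zero hy h, ?_, ?_⟩ <;> field_simp
    linear_combination -e

theorem BTor_t0 (T : Fin 4) (p : E3) :
    t0 p * tu T p 0 = tv T p 0 * tP T p 0 ∧
      t0 p * tv T p 0 = tu T p 0 * (tP T p 1 * tP T p 2) := by
  fin_cases T <;> constructor <;> simp [Kg.t0, tu, tv, tP] <;> ring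

theorem TR.t0 (h : TR m T p S q) (hm : ∀ k, m k ≠ 0) : t0 q = m 0 * m 1 * m 2 * t0 p := by
  obtain ⟨c, hc, e1, e2⟩ := BTor_par (BTor_ne hm T p 0) (tuv_ne S q 0) (h 0).2
  obtain ⟨a1, a2⟩ := BTor_t0 T p
  obtain ⟨b1, b2⟩ := BTor_t0 S q
  rw [e1, e2, (h 0).1] at b1
  rw [e1, e2, (h 1).1, (h 2).1] at b2
  have e3 : (0 : Fin 3) + 1 = 1 := rfl
  have e4 : (0 : Fin 3) + 2 = 2 := rfl
  rw [e3, e4] at b1 b2
  rcases tuv_ne T p 0 with h0 | h0
  · apply mul_left_cancel₀ (mul_ne_zero hc (mul_ne_zero (hm 0) h0))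
    linear_combination b1 - c * m 0 ^ 2 * m 1 * m 2 * a1
  · apply mul_left_cancel₀ (mul_ne_zero hc (mul_ne_zero (mul_ne_zero (hm 1) (hm 2)) h0))
    linear_combination b2 - c * m 0 * m 1 ^ 2 * m 2 ^ 2 * a2

theorem TR.scal (h : TR m T p S q) (hm : ∀ k, m k ≠ 0) (k : Fin 3) : ∃ c, c ≠ 0 ∧
    tu S q k = c * (m k * tu T p k) ∧ tv S q k = c * (m (k + 1) * m (k + 2) * tv T p k) := by
  exact BTor_par (BTor_ne hm T p k) (tuv_ne S q k) (h k).2

theorem BTor_den {P u v : Fin 3 → ℂ} (h : ∀ k, u k ≠ 0 ∨ v k ≠ 0) {B : ℝ} (h1 : 1 ≤ B)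
    (hB : ∀ k, ‖P k‖ ≤ B) : ∃ S, Den S u v ∧ ‖ex S P u v‖ ≤ B := by
  have key : ∀ a b : ℂ, ‖a‖ ≤ ‖b‖ → ‖a / b‖ ≤ B := fun a b e => by
    rw [norm_div]
    exact (div_le_one_of_le₀ e (norm_nonneg _)).trans h1
  have hv : ∀ k, ‖u k‖ ≤ ‖v k‖ → v k ≠ 0 := fun k e h0 => by
    rw [h0, norm_zero, norm_le_zero_iff] at e
    exact (h k).elim (fun a => a e) fun a => a h0
  have n3 : ∀ a b c : ℂ, ‖a‖ ≤ B → ‖b‖ ≤ B → ‖c‖ ≤ B → ‖((a, b, c) : E3)‖ ≤ B :=
    fun a b c ha hb hc => max_le ha (max_le hb hc)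
  by_cases e0 : ‖u 0‖ ≤ ‖v 0‖
  · exact ⟨0, hv 0 e0, n3 _ _ _ (key _ _ e0) (hB 1) (hB 2)⟩
  by_cases e1 : ‖u 1‖ ≤ ‖v 1‖
  · exact ⟨1, hv 1 e1, n3 _ _ _ (hB 0) (key _ _ e1) (hB 2)⟩
  by_cases e2 : ‖u 2‖ ≤ ‖v 2‖
  · exact ⟨2, hv 2 e2, n3 _ _ _ (hB 0) (hB 1) (key _ _ e2)⟩
  have hu : ∀ k, ¬ ‖u k‖ ≤ ‖v k‖ → u k ≠ 0 := fun k e h0 => e (by
    rw [h0, norm_zero]
    exact norm_nonneg _)
  exact ⟨3, ⟨hu 0 e0, hu 1 e1, hu 2 e2⟩, n3 _ _ _ (key _ _ (not_le.1 e0).le)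
    (key _ _ (not_le.1 e1).le) (key _ _ (not_le.1 e2).le)⟩

theorem exists_den (hm : ∀ k, m k ≠ 0) (T : Fin 4) (p : E3) {B : ℝ} (h1 : 1 ≤ B)
    (hB : ∀ k, ‖m k ^ 2 * tP T p k‖ ≤ B) : ∃ S, DenA m T S p ∧ ‖act m T S p‖ ≤ B := by
  exact BTor_den (fun k => (tuv_ne T p k).imp (mul_ne_zero (hm k))
    (mul_ne_zero (mul_ne_zero (hm _) (hm _)))) h1 hB

theorem denA_two (hm : ∀ k, m k ≠ 0) (h : tv T p 2 ≠ 0) : DenA m T 2 p := by
  exact mul_ne_zero (mul_ne_zero (hm (2 + 1)) (hm (2 + 2))) h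

end Pool.Agent.Work.MP_bf98aa_gt.Kg
end
end

-- merged part: Pool.Agent.Work.MP_bf98aa_gt.Kg.BTor2
section
/-!
The toric charts: analysis.

PLAN. `fin_cases`; `fun_prop` or `AnalyticAt.mul`, `analyticAt_fst`, `analyticAt_snd`. Derivatives: give `HasFDerivAt` over `ℂ` explicitly chart by chart
(`hasFDerivAt_fst`, `.mul`, `.pow`), or prove one lemma computing `fderiv ℂ (fun x => tP T x k) p e` and the same for `tu`, `tv` as explicit vectors in `p, e`.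
`det_tP`: `LinearMap.det_toLin`/`LinearMap.det_toMatrix` with the basis of `ℂ × ℂ × ℂ`, `Matrix.det_fin_three`. `tor_imm`: in a corner chart two coordinates are `tP`, the third is `tu` with `tv = 1`;
in the centre `tu = 1` and `tv` are the coordinates. `tor_crs`: compute one component of `crs`.
-/

set_option autoImplicit false

noncomputable section

open scoped ContDiff Topology
open Set Filter

namespace Pool.Agent.Work.MP_bf98aa_gt.Kg

open Pool.Agent.Work.MP_bf98aa_gt.Th Pool.Agent.Work.MP_bf98aa_gt.Cp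

/-- A monomial. -/
def BTor2_m (n : ℕ × ℕ × ℕ) (x : E3) : ℂ := x.1 ^ n.1 * x.2.1 ^ n.2.1 * x.2.2 ^ n.2.2

def BTor2_eP : Fin 4 → Fin 3 → ℕ × ℕ × ℕ :=
  ![![(2, 1, 1), (0, 1, 0), (0, 0, 1)], ![(1, 0, 0), (1, 2, 1), (0, 0, 1)],
    ![(1, 0, 0), (0, 1, 0), (1, 1, 2)], ![(0, 1, 1), (1, 0, 1), (1, 1, 0)]]

def BTor2_eu : Fin 4 → Fin 3 → ℕ × ℕ × ℕ :=
  ![![(1, 0, 0), (0, 0, 0), (0, 0, 0)], ![(0, 0, 0), (0, 1, 0), (0, 0, 0)],
    ![(0, 0, 0), (0, 0, 0), (0, 0, 1)], ![(0, 0, 0), (0, 0, 0), (0, 0, 0)]]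

def BTor2_ev : Fin 4 → Fin 3 → ℕ × ℕ × ℕ :=
  ![![(0, 0, 0), (1, 0, 1), (1, 1, 0)], ![(0, 1, 1), (0, 0, 0), (1, 1, 0)],
    ![(0, 1, 1), (1, 0, 1), (0, 0, 0)], ![(1, 0, 0), (0, 1, 0), (0, 0, 1)]]

theorem BTor2_P (T : Fin 4) (k : Fin 3) : (fun x => tP T x k) = BTor2_m (BTor2_eP T k) := by
  funext x
  fin_cases T <;> fin_cases k <;> simp [tP, BTor2_m, BTor2_eP, mul_comm, mul_left_comm, mul_assoc]

theorem BTor2_u (T : Fin 4) (k : Fin 3) : (fun x => tu T x k) = BTor2_m (BTor2_eu T k) := by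
  funext x
  fin_cases T <;> fin_cases k <;> simp [tu, BTor2_m, BTor2_eu]

theorem BTor2_v (T : Fin 4) (k : Fin 3) : (fun x => tv T x k) = BTor2_m (BTor2_ev T k) := by
  funext x
  fin_cases T <;> fin_cases k <;> simp [tv, BTor2_m, BTor2_ev, mul_comm]

theorem BTor2_an (n : ℕ × ℕ × ℕ) (p : E3) : AnalyticAt ℂ (BTor2_m n) p :=
  ((analyticAt_fst.pow _).mul ((analyticAt_fst.comp analyticAt_snd).pow _)).mul
    ((analyticAt_snd.comp analyticAt_snd).pow _)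

theorem BTor2_fd (n : ℕ × ℕ × ℕ) (p e : E3) : fderiv ℂ (BTor2_m n) p e =
    n.1 * p.1 ^ (n.1 - 1) * p.2.1 ^ n.2.1 * p.2.2 ^ n.2.2 * e.1 +
      n.2.1 * p.1 ^ n.1 * p.2.1 ^ (n.2.1 - 1) * p.2.2 ^ n.2.2 * e.2.1 +
      n.2.2 * p.1 ^ n.1 * p.2.1 ^ n.2.1 * p.2.2 ^ (n.2.2 - 1) * e.2.2 := by
  have h : HasFDerivAt (𝕜 := ℂ) (BTor2_m n) _ p :=
    ((hasFDerivAt_fst.pow n.1).mul ((hasFDerivAt_fst.comp p hasFDerivAt_snd).pow n.2.1)).mul
      ((hasFDerivAt_snd.comp p hasFDerivAt_snd).pow n.2.2)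
  rw [h.fderiv]
  simp
  ring

theorem analyticAt_tP (T : Fin 4) (k : Fin 3) (p : E3) : AnalyticAt ℂ (fun x => tP T x k) p := by
  rw [BTor2_P]
  exact BTor2_an _ p

theorem analyticAt_tu (T : Fin 4) (k : Fin 3) (p : E3) : AnalyticAt ℂ (fun x => tu T x k) p := by
  rw [BTor2_u]
  exact BTor2_an _ p

theorem analyticAt_tv (T : Fin 4) (k : Fin 3) (p : E3) : AnalyticAt ℂ (fun x => tv T x k) p := by
  rw [BTor2_v]
  exact BTor2_an _ p

theorem BTor2_ex {P u v : E3 → Fin 3 → ℂ} {S : Fin 4} {p : E3}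
    (hP : ∀ k, AnalyticAt ℂ (fun x => P x k) p) (hu : ∀ k, AnalyticAt ℂ (fun x => u x k) p)
    (hv : ∀ k, AnalyticAt ℂ (fun x => v x k) p) (h : Den S (u p) (v p)) :
    AnalyticAt ℂ (fun x => ex S (P x) (u x) (v x)) p ∧ ∀ᶠ x in 𝓝 p, Den S (u x) (v x) := by
  fin_cases S
  · exact ⟨((hu 0).div (hv 0) h).prod ((hP 1).prod (hP 2)), (hv 0).continuousAt.eventually_ne h⟩
  · exact ⟨(hP 0).prod (((hu 1).div (hv 1) h).prod (hP 2)), (hv 1).continuousAt.eventually_ne h⟩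
  · exact ⟨(hP 0).prod ((hP 1).prod ((hu 2).div (hv 2) h)), (hv 2).continuousAt.eventually_ne h⟩
  · exact ⟨((hv 0).div (hu 0) h.1).prod (((hv 1).div (hu 1) h.2.1).prod ((hv 2).div (hu 2) h.2.2)),
      ((hu 0).continuousAt.eventually_ne h.1).and (((hu 1).continuousAt.eventually_ne h.2.1).and
        ((hu 2).continuousAt.eventually_ne h.2.2))⟩

theorem act_an {μ : E3 → Fin 3 → ℂ} {T S : Fin 4} {p : E3}
    (hμ : ∀ k, AnalyticAt ℂ (fun x => μ x k) p) (h : DenA (μ p) T S p) :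
    AnalyticAt ℂ (fun x => act (μ x) T S x) p ∧ ∀ᶠ x in 𝓝 p, DenA (μ x) T S x := by
  exact BTor2_ex (fun k => ((hμ k).pow 2).mul (analyticAt_tP T k p))
    (fun k => (hμ k).mul (analyticAt_tu T k p))
    (fun k => ((hμ (k + 1)).mul (hμ (k + 2))).mul (analyticAt_tv T k p)) h

theorem BTor2_det (L : E3 →L[ℂ] E3) : L.det =
    (L (1, 0, 0)).1 * (L (0, 1, 0)).2.1 * (L (0, 0, 1)).2.2 -
      (L (1, 0, 0)).1 * (L (0, 0, 1)).2.1 * (L (0, 1, 0)).2.2 -
      (L (0, 1, 0)).1 * (L (1, 0, 0)).2.1 * (L (0, 0, 1)).2.2 +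
      (L (0, 1, 0)).1 * (L (0, 0, 1)).2.1 * (L (1, 0, 0)).2.2 +
      (L (0, 0, 1)).1 * (L (1, 0, 0)).2.1 * (L (0, 1, 0)).2.2 -
      (L (0, 0, 1)).1 * (L (0, 1, 0)).2.1 * (L (1, 0, 0)).2.2 := by
  let e : E3 ≃ₗ[ℂ] (Fin 3 → ℂ) :=
    { toFun := fun x => ![x.1, x.2.1, x.2.2]
      invFun := fun y => (y 0, y 1, y 2)
      map_add' := fun x y => by ext i; fin_cases i <;> rfl
      map_smul' := fun c x => by ext i; fin_cases i <;> rfl
      left_inv := fun _ => rfl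
      right_inv := fun y => by ext i; fin_cases i <;> rfl }
  rw [ContinuousLinearMap.det, ← LinearMap.det_conj _ e, ← LinearMap.det_toMatrix',
    Matrix.det_fin_three]
  rfl

theorem det_tP (T : Fin 4) (p : E3) :
    (fderiv ℂ (fun x => ((tP T x 0, tP T x 1, tP T x 2) : E3)) p).det = 2 * t0 p := by
  have d := fun k => (analyticAt_tP T k p).differentiableAt
  rw [(d 0).fderiv_prodMk ((d 1).prodMk (d 2)), (d 1).fderiv_prodMk (d 2), BTor2_det]
  simp only [ContinuousLinearMap.prod_apply, BTor2_P, BTor2_fd]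
  fin_cases T <;> simp [BTor2_eP, t0] <;> ring

theorem det_diag {G : Fin 3 → ℂ → ℂ} {d : Fin 3 → ℂ} {z : E3} (h0 : HasDerivAt (G 0) (d 0) z.1)
    (h1 : HasDerivAt (G 1) (d 1) z.2.1) (h2 : HasDerivAt (G 2) (d 2) z.2.2) :
    DifferentiableAt ℂ (fun x : E3 => ((G 0 x.1, G 1 x.2.1, G 2 x.2.2) : E3)) z ∧
      (fderiv ℂ (fun x : E3 => ((G 0 x.1, G 1 x.2.1, G 2 x.2.2) : E3)) z).det = d 0 * d 1 * d 2 := by
  have f1 : HasFDerivAt (𝕜 := ℂ) (fun x : E3 => x.2.1) _ z := hasFDerivAt_fst.comp z hasFDerivAt_snd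
  have f2 : HasFDerivAt (𝕜 := ℂ) (fun x : E3 => x.2.2) _ z := hasFDerivAt_snd.comp z hasFDerivAt_snd
  have h := (h0.comp_hasFDerivAt z (hasFDerivAt_fst (𝕜 := ℂ))).prodMk
    ((h1.comp_hasFDerivAt z f1).prodMk (h2.comp_hasFDerivAt z f2))
  refine ⟨h.differentiableAt, (congrArg _ h.fderiv).trans ?_⟩
  rw [BTor2_det]
  simp

theorem tor_imm (T : Fin 4) (p e : E3) (h1 : ∀ k, fderiv ℂ (fun x => tP T x k) p e = 0)
    (h2 : ∀ k, tu T p k * fderiv ℂ (fun x => tv T x k) p e =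
      tv T p k * fderiv ℂ (fun x => tu T x k) p e) : e = 0 := by
  simp only [BTor2_P, BTor2_u, BTor2_v, BTor2_fd] at h1 h2
  have a0 := h1 0
  have a1 := h1 1
  have a2 := h1 2
  have b0 := h2 0
  have b1 := h2 1
  have b2 := h2 2
  refine Prod.ext ?_ (Prod.ext ?_ ?_) <;> fin_cases T <;>
    simp [BTor2_eP, BTor2_eu, BTor2_ev, tu, tv] at a0 a1 a2 b0 b1 b2 ⊢ <;>
    first | assumption | (symm; assumption)

theorem crs_smul (a b : ℂ) (α β : E3 →L[ℂ] ℂ) : crs (a • α) (b • β) = (a * b) • crs α β := by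
  simp only [crs, smul_apply, smul_eq_mul, Prod.smul_mk]
  refine Prod.ext ?_ (Prod.ext ?_ ?_) <;> ring

theorem tor_crs (T : Fin 4) {p : E3} (h : tv T p 2 ≠ 0) :
    crs (fderiv ℂ (fun x => tP T x 0) p) (fderiv ℂ (fun x => tP T x 1) p) ≠ 0 := by
  simp only [crs, BTor2_P, BTor2_fd]
  fin_cases T <;> simp [BTor2_eP, tv] at h ⊢ <;> simp [h]

theorem tor_crs_two (p : E3) :
    crs (fderiv ℂ (fun x => tP 2 x 0) p) (fderiv ℂ (fun x => tP 2 x 1) p) = (0, 0, 1) := by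
  simp [crs, BTor2_P, BTor2_fd, BTor2_eP]

theorem tor_det (T : Fin 4) (p : E3) : fderiv ℂ (fun x => tP T x 2) p
    (crs (fderiv ℂ (fun x => tP T x 0) p) (fderiv ℂ (fun x => tP T x 1) p)) = 2 * t0 p := by
  simp only [crs, BTor2_P, BTor2_fd]
  fin_cases T <;> simp [BTor2_eP, t0] <;> ring

theorem tor_vu (T : Fin 4) (p : E3) : tv T p 2 * fderiv ℂ (fun x => tu T x 2) p
    (crs (fderiv ℂ (fun x => tP T x 0) p) (fderiv ℂ (fun x => tP T x 1) p)) -
      tu T p 2 * fderiv ℂ (fun x => tv T x 2) p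
        (crs (fderiv ℂ (fun x => tP T x 0) p) (fderiv ℂ (fun x => tP T x 1) p)) = tv T p 2 ^ 2 := by
  simp only [crs, BTor2_P, BTor2_u, BTor2_v, BTor2_fd]
  fin_cases T <;> simp [BTor2_eP, BTor2_eu, BTor2_ev, tu, tv] <;> ring

end Pool.Agent.Work.MP_bf98aa_gt.Kg
end
end

-- merged part: Pool.Agent.Work.MP_bf98aa_gt.Kg.BProf
section
/-!
The profile functions.

PLAN. `psi t / t` is smooth: it vanishes for `t < 1 / 20000` and `t ≠ 0` elsewhere. `kk`: `Continuous.deriv_integral`/`intervalIntegral.integral_hasDerivAt_right`, `contDiff_infty_iff_deriv`.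
`kk_log`: `kk r - log r` has derivative `0` on `[1 / 10000, r]`, or split the integral (`integral_inv_of_pos`). `deriv_psi_nonneg`: `Real.smoothTransition.monotone`, `Monotone.deriv_nonneg`.
`exists_mid`: mean value theorem on `[1 / 20000, 3 / 40000]`. `kk_le`, `kk_ge`: `log r - kk r` is monotone on `r > 0` (derivative `(1 - psi r) / r`), constant from `1 / 10000` on, `0 ≤ kk r`.
`RR_wt`: `RR.small`, else `kk_log` twice. `lH`: on `a > b / 10000`, `0 ≤ b` it equals `log a + c0` (`kk_log`, `Real.log_div`); `lH_sm`: at `b > 0` the second formula holds nearby for the function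
`if`; at `b = 0 < a` use `lH_far` nearby (only on the set `0 ≤ b`, hence the formulation with functions).
-/

set_option autoImplicit false

noncomputable section

open scoped ContDiff Topology
open Set Filter

namespace Pool.Agent.Work.MP_bf98aa_gt.Kg

open Pool.Agent.Work.MP_bf98aa_gt.Th Pool.Agent.Work.MP_bf98aa_gt.Cp

theorem contDiff_psi : ContDiff ℝ ∞ psi :=
  Real.smoothTransition.contDiff.comp (by fun_prop : ContDiff ℝ ∞ fun t : ℝ => 20000 * t - 1)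

theorem psi_mem (t : ℝ) : 0 ≤ psi t ∧ psi t ≤ 1 :=
  ⟨Real.smoothTransition.nonneg _, Real.smoothTransition.le_one _⟩

theorem psi_one {t : ℝ} (h : 1 / 10000 ≤ t) : psi t = 1 :=
  Real.smoothTransition.one_of_one_le (by linarith)

theorem deriv_psi_nonneg (t : ℝ) : 0 ≤ deriv psi t :=
  Monotone.deriv_nonneg fun _ _ h => Real.smoothTransition.monotone (by linarith)

theorem BProf_zero {t : ℝ} (h : t ≤ 1 / 20000) : psi t = 0 :=
  Real.smoothTransition.zero_of_nonpos (by linarith)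

theorem deriv_psi_zero {t : ℝ} (h : t < 1 / 20000 ∨ 1 / 10000 < t) : deriv psi t = 0 := by
  rcases h with h | h
  · exact (EventuallyEq.deriv_eq ((eventually_lt_nhds h).mono fun _ hy =>
      BProf_zero hy.le)).trans (deriv_const t 0)
  · exact (EventuallyEq.deriv_eq ((eventually_gt_nhds h).mono fun _ hy =>
      psi_one hy.le)).trans (deriv_const t 1)

theorem exists_mid : ∃ t, 1 / 20000 < t ∧ t < 1 / 10000 ∧ 0 < deriv psi t ∧ psi t < 1 := by
  obtain ⟨t, ⟨h1, h2⟩, h⟩ := exists_deriv_eq_slope psi (a := 1 / 20000) (b := 3 / 40000)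
    (by norm_num) contDiff_psi.continuous.continuousOn
    (contDiff_psi.differentiable (by simp)).differentiableOn
  refine ⟨t, h1, by linarith, ?_, Real.smoothTransition.lt_one_of_lt_one (by linarith)⟩
  rw [h, BProf_zero le_rfl, sub_zero]
  exact div_pos (Real.smoothTransition.pos_of_pos (by norm_num)) (by norm_num)

theorem BProf_sm : ContDiff ℝ ∞ fun t => psi t / t := by
  refine contDiff_iff_contDiffAt.2 fun t => ?_
  rcases eq_or_ne t 0 with rfl | h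
  · exact (contDiffAt_const (c := (0 : ℝ))).congr_of_eventuallyEq
      ((eventually_lt_nhds (show (0 : ℝ) < 1 / 20000 by norm_num)).mono fun y hy => by
        simp only [BProf_zero hy.le, zero_div])
  · exact contDiff_psi.contDiffAt.div contDiffAt_id h

theorem BProf_d (r : ℝ) : HasDerivAt kk (psi r / r) r :=
  (BProf_sm.continuous.integral_hasStrictDerivAt 0 r).hasDerivAt

theorem contDiff_kk : ContDiff ℝ ∞ kk :=
  contDiff_infty_iff_deriv.2 ⟨fun r => (BProf_d r).differentiableAt,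
    (funext fun r => (BProf_d r).deriv : deriv kk = _) ▸ BProf_sm⟩

theorem deriv_kk (r : ℝ) : deriv kk r = psi r / r :=
  (BProf_d r).deriv

theorem mul_deriv_kk (r : ℝ) : r * deriv kk r = psi r := by
  rcases eq_or_ne r 0 with rfl | h
  · rw [zero_mul, BProf_zero (by norm_num)]
  · rw [deriv_kk, mul_div_cancel₀ _ h]

theorem kk_lap (r : ℝ) : deriv kk r + r * deriv (deriv kk) r = deriv psi r := by
  have h := (hasDerivAt_id' r).mul
    ((contDiff_infty_iff_deriv.1 contDiff_kk).2.differentiable (by simp) r).hasDerivAt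
  rw [one_mul] at h
  rw [← funext mul_deriv_kk]
  exact h.deriv.symm

theorem kk_zero {r : ℝ} (h : r ≤ 1 / 20000) : kk r = 0 :=
  (intervalIntegral.integral_congr (g := fun _ => 0) fun t ht => by
    simp only [BProf_zero (ht.2.trans (max_le (by norm_num) h)), zero_div]).trans
    intervalIntegral.integral_zero

theorem BProf_split (a r : ℝ) : kk r = kk a + ∫ t in a..r, psi t / t :=
  (intervalIntegral.integral_add_adjacent_intervals (BProf_sm.continuous.intervalIntegrable _ _)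
    (BProf_sm.continuous.intervalIntegrable _ _)).symm

theorem kk_log {r : ℝ} (h : 1 / 10000 ≤ r) : kk r = Real.log r + c0 := by
  have h0 : (0 : ℝ) < 1 / 10000 := by norm_num
  rw [BProf_split (1 / 10000), intervalIntegral.integral_congr (g := fun t => 1 / t) fun t ht => by
    simp only [psi_one ((le_min le_rfl h).trans ht.1)],
    integral_one_div_of_pos h0 (h0.trans_le h), Real.log_div (h0.trans_le h).ne' h0.ne', c0]
  ring

theorem kk_le {r : ℝ} (h : 0 ≤ r) : r * Real.exp (-kk r) ≤ 1 / 10000 := by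
  have k : ∀ r, 0 ≤ r → r * Real.exp (-kk r) ≤ r := fun r hr => mul_le_of_le_one_right hr
    (Real.exp_le_one_iff.2 (neg_nonpos.2 (intervalIntegral.integral_nonneg hr fun t ht =>
      div_nonneg (psi_mem t).1 ht.1)))
  have e : ∀ r, 1 / 10000 ≤ r → r * Real.exp (-kk r) = Real.exp (-c0) := fun r hr => by
    have : 0 < r := by linarith
    rw [kk_log hr, neg_add, Real.exp_add, Real.exp_neg, Real.exp_log this,
      mul_inv_cancel_left₀ this.ne']
  rcases le_total r (1 / 10000) with h' | h'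
  · exact (k r h).trans h'
  · exact ((e r h').trans (e _ le_rfl).symm).trans_le (k _ (by norm_num))

theorem kk_ge {r : ℝ} (h : 1 / 20000 ≤ r) : 1 / 20000 ≤ r * Real.exp (-kk r) := by
  have h0 : (0 : ℝ) < 1 / 20000 := by norm_num
  have h1 := h0.trans_le h
  have k : kk r ≤ Real.log (r / (1 / 20000)) := by
    rw [BProf_split (1 / 20000), kk_zero le_rfl, zero_add, ← integral_one_div_of_pos h0 h1]
    exact intervalIntegral.integral_mono_on h (BProf_sm.continuous.intervalIntegrable _ _)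
      (intervalIntegral.intervalIntegrable_one_div (fun t ht => (h0.trans_le
        ((le_min le_rfl h).trans ht.1)).ne') continuousOn_id) fun t ht =>
      div_le_div_of_nonneg_right (psi_mem t).2 (h0.le.trans ht.1)
  rw [Real.exp_neg, ← div_eq_mul_inv, le_div_iff₀' (Real.exp_pos _), ← le_div_iff₀ h0]
  exact (Real.le_log_iff_exp_le (div_pos h1 h0)).1 k

theorem contDiff_lw : ContDiff ℝ ∞ lw := by
  exact ((contDiff_kk.comp (contDiff_norm_sq ℝ)).div_const 2).neg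

theorem contDiff_wt : ContDiff ℝ ∞ wt := by
  exact contDiff_lw.exp

theorem wt_pos (P : ℂ) : 0 < wt P := by
  exact Real.exp_pos _

theorem BProf_sq (P : ℂ) : (‖P‖ * wt P) ^ 2 = ‖P‖ ^ 2 * Real.exp (-kk (‖P‖ ^ 2)) := by
  rw [mul_pow, wt, ← Real.exp_nat_mul, lw]
  congr 2
  push_cast
  ring

theorem wt_le (P : ℂ) : ‖P‖ * wt P ≤ 1 / 100 := by
  have h := kk_le (sq_nonneg ‖P‖)
  rw [← BProf_sq] at h
  nlinarith [mul_nonneg (norm_nonneg P) (wt_pos P).le]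

theorem wt_small {P : ℂ} (h : ‖P‖ * wt P < 1 / 200) : ‖P‖ ^ 2 < 1 / 20000 := by
  by_contra k
  have h1 := kk_ge (not_lt.1 k)
  rw [← BProf_sq] at h1
  nlinarith [mul_nonneg (norm_nonneg P) (wt_pos P).le]

theorem lw_zero {P : ℂ} (h : ‖P‖ ^ 2 ≤ 1 / 20000) : lw P = 0 := by
  rw [lw, kk_zero h, zero_div, neg_zero]

theorem RR_lw {W : Ix → Set ℂ} {r : Ix → ℂ → Ix → ℂ → Prop} (h : Fac W r) {i j : Ix} {P m : ℂ}
    (hr : RR r i P j m) : lw (m ^ 2 * P) = lw P - Real.log (‖m‖ ^ 2) := by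
  by_cases hs : ‖P‖ ≤ 1 / 100 ∨ ‖m ^ 2 * P‖ ≤ 1 / 100
  · rw [(hr.small h hs).2]
    simp
  · rw [not_or, not_le, not_le] at hs
    have k : ∀ Q : ℂ, 1 / 100 < ‖Q‖ → lw Q = -(Real.log ‖Q‖ + c0 / 2) := fun Q a => by
      rw [lw, kk_log (by nlinarith), Real.log_pow]
      push_cast
      ring
    have hm : ‖m‖ ^ 2 ≠ 0 := pow_ne_zero 2 (norm_ne_zero_iff.2 hr.ne)
    rw [k _ hs.1, k _ hs.2, norm_mul, norm_pow, Real.log_mul hm (by linarith [hs.1])]
    ring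

theorem RR_wt {W : Ix → Set ℂ} {r : Ix → ℂ → Ix → ℂ → Prop} (h : Fac W r) {i j : Ix} {P m : ℂ}
    (hr : RR r i P j m) : wt (m ^ 2 * P) * ‖m‖ ^ 2 = wt P := by
  rw [wt, RR_lw h hr, Real.exp_sub, Real.exp_log (pow_pos (norm_pos_iff.2 hr.ne) 2),
    div_mul_cancel₀ _ (pow_ne_zero 2 (norm_ne_zero_iff.2 hr.ne)), wt]

theorem lH_far {a b : ℝ} (hb : 0 ≤ b) (h : b / 10000 < a) : lH a b = Real.log a + c0 := by
  rw [lH]
  split_ifs with e
  · rfl
  · have h1 : 0 < b := hb.lt_of_ne' e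
    have h2 : 0 < a := by linarith
    rw [kk_log ((le_div_iff₀ h1).2 (by linarith)), Real.log_div h2.ne' e]
    ring

theorem lH_mul {a b s : ℝ} (hs : 0 < s) (h : a ≠ 0 ∨ b ≠ 0) :
    lH (s * a) (s * b) = lH a b + Real.log s := by
  by_cases e : b = 0
  · rw [lH, lH, if_pos e, if_pos (by rw [e, mul_zero]),
      Real.log_mul hs.ne' (h.resolve_right (not_not.2 e))]
    ring
  · rw [lH, lH, if_neg e, if_neg (mul_ne_zero hs.ne' e), Real.log_mul hs.ne' e,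
      mul_div_mul_left _ _ hs.ne']
    ring

theorem lH_sm {X : Type} [NormedAddCommGroup X] [NormedSpace ℝ X] {a b : X → ℝ} {x : X}
    (ha : ContDiffAt ℝ ∞ a x) (hb : ContDiffAt ℝ ∞ b x) (h0 : ∀ y, 0 ≤ b y)
    (h : 0 < a x ∨ 0 < b x) : ContDiffAt ℝ ∞ (fun y => lH (a y) (b y)) x := by
  rcases (h0 x).eq_or_lt with e | e
  · have h1 : 0 < a x := h.resolve_right e.not_lt
    refine ((ha.log h1.ne').add (contDiffAt_const (c := c0))).congr_of_eventuallyEq ?_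
    filter_upwards [(hb.continuousAt.div_const 10000).eventually_lt ha.continuousAt
      (by rw [← e, zero_div]; exact h1)] with y hy using lH_far (h0 y) hy
  · refine ((hb.log e.ne').add (contDiff_kk.contDiffAt.comp x
      (ha.div hb e.ne'))).congr_of_eventuallyEq ?_
    filter_upwards [hb.continuousAt.eventually_ne e.ne'] with y hy using if_neg hy

end Pool.Agent.Work.MP_bf98aa_gt.Kg
end
end
end

-- merged part: Pool.Agent.Work.MP_bf98aa_gt.Ki.T0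
section
-- merged part: Pool.Agent.Work.MP_bf98aa_gt.Cp.CCmp
section
/-!
Comparison of complex frames with connection forms.

PLAN. `ContinuousLinearMap.det` is `LinearMap.det` of the underlying map (`LinearMap.det_comp`, `det_id`, `det_smul`, `det_prodMap`). Logarithmic derivatives add (`fderiv_mul`).
`ContDiffAt.eventually` (order 1) gives differentiability near the point. `Cmp.d`: near `y` we have `pb γ A' - A = alt1 (Im (d l / l))`, whose exterior derivative vanishes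
by `extDeriv_one_apply` and the symmetry of the second derivative of `l` (`D2_symm`), or locally `d l / l = d log (l / l y)`.
-/

set_option autoImplicit false

open scoped ContDiff Topology
open Set Filter MeasureTheory

namespace Pool.Agent.Work.MP_bf98aa_gt.Cp

open Pool.Agent.Work.MP_bf98aa_gt.Th

variable {V : Type} [NormedAddCommGroup V] [NormedSpace ℝ V] [NormedSpace ℂ V]
  [IsScalarTower ℝ ℂ V] [FiniteDimensional ℝ V] [FiniteDimensional ℂ V]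
  {γ γ' δ : V → V} {F F' F'' G G' : V → V →L[ℝ] V} {A A' A'' B B' : Fm V 1} {y : V}

theorem mulI_apply (v : V) : mulI V v = Complex.I • v := rfl

theorem Jof_spec {F : V →L[ℝ] V} (hF : F.IsInvertible) (v : V) :
    F (Jof F v) = Complex.I • F v := by
  simp only [Jof, ContinuousLinearMap.comp_apply, hF.self_apply_inverse, mulI_apply]

theorem Jof_sq {F : V →L[ℝ] V} (hF : F.IsInvertible) (v : V) : Jof F (Jof F v) = -v := by
  have h : F (Jof F (Jof F v)) = F (-v) := by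
    rw [Jof_spec hF, Jof_spec hF, smul_smul, Complex.I_mul_I, map_neg, neg_one_smul]
  have h2 := congrArg F.inverse h
  rwa [hF.inverse_apply_self, hF.inverse_apply_self] at h2

theorem Jof_eq {F J : V →L[ℝ] V} (hF : F.IsInvertible) (h : ∀ v, F (J v) = Complex.I • F v) :
    Jof F = J := by
  ext v
  have h1 : F (Jof F v) = F (J v) := by rw [Jof_spec hF, h]
  have h2 := congrArg F.inverse h1
  rwa [hF.inverse_apply_self, hF.inverse_apply_self] at h2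

theorem contDiffAt_Jof (hF : ContDiffAt ℝ ∞ F y) (h : (F y).IsInvertible) :
    ContDiffAt ℝ ∞ (fun x => Jof (F x)) y := by
  have : CompleteSpace V := FiniteDimensional.complete ℝ V
  have h1 : ContDiffAt ℝ ∞ (fun x => (F x).inverse) y :=
    (h.contDiffAt_map_inverse (n := ∞)).comp y hF
  exact h1.clm_comp (contDiffAt_const.clm_comp hF)

theorem CCmp_pb_one (γ : V → V) (A : Fm V 1) (x v : V) :
    pb γ A x ![v] = A (γ x) ![fderiv ℝ γ x v] := by
  simp only [pb, ContinuousAlternatingMap.compContinuousLinearMap_apply]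
  congr 1
  funext i
  fin_cases i
  rfl

theorem CCmp_ev_diff {W : Type} [NormedAddCommGroup W] [NormedSpace ℝ W] {f : V → W}
    (h : ContDiffAt ℝ ∞ f y) : ∀ᶠ x in 𝓝 y, DifferentiableAt ℝ f x :=
  ((h.of_le (m := 1) (by simp)).eventually (by simp)).mono fun _ hx =>
    hx.differentiableAt (by simp)

theorem Cmp.congr_map (h : Cmp γ F A F' A' y) (e : γ =ᶠ[𝓝 y] γ') : Cmp γ' F A F' A' y := by
  obtain ⟨l, hl, H⟩ := h
  refine ⟨l, hl, ?_⟩
  filter_upwards [H, e, e.fderiv (𝕜 := ℝ)] with x hx e1 e2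
  rw [← e1, ← e2]
  exact hx

theorem Cmp.congr (h : Cmp γ F A F' A' y) (hγ : ContinuousAt γ y) (e1 : F =ᶠ[𝓝 y] G)
    (e2 : A =ᶠ[𝓝 y] B) (e3 : F' =ᶠ[𝓝 (γ y)] G') (e4 : A' =ᶠ[𝓝 (γ y)] B') :
    Cmp γ G B G' B' y := by
  obtain ⟨l, hl, H⟩ := h
  refine ⟨l, hl, ?_⟩
  filter_upwards [H, e1, e2, hγ.eventually e3, hγ.eventually e4] with x hx a1 a2 a3 a4
  rw [← a1, ← a2, ← a3, ← a4]
  exact hx

theorem Cmp.pull : Cmp γ (fun x => (F' (γ x)).comp (fderiv ℝ γ x)) (pb γ A') F' A' y := by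
  refine ⟨fun _ => 1, contDiffAt_const, Eventually.of_forall fun x =>
    ⟨⟨ContinuousLinearMap.id ℂ V, fun v => rfl, LinearMap.det_id⟩, one_ne_zero, fun v => ?_⟩⟩
  rw [CCmp_pb_one]
  simp

theorem Cmp.refl : Cmp (fun x => x) F A F A y := by
  refine ⟨fun _ => 1, contDiffAt_const, Eventually.of_forall fun x =>
    ⟨⟨ContinuousLinearMap.id ℂ V, fun v => by simp, LinearMap.det_id⟩, one_ne_zero, fun v => ?_⟩⟩
  simp

theorem Cmp.trans (h : Cmp γ F A F' A' y) (h' : Cmp δ F' A' F'' A'' (γ y))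
    (hγ : ContDiffAt ℝ ∞ γ y) (hδ : ContDiffAt ℝ ∞ δ (γ y)) :
    Cmp (fun x => δ (γ x)) F A F'' A'' y := by
  obtain ⟨l, hl, H⟩ := h
  obtain ⟨l', hl', H'⟩ := h'
  have hc := hγ.continuousAt
  refine ⟨fun x => l' (γ x) * l x, (hl'.comp y hγ).mul hl, ?_⟩
  filter_upwards [H, hc.eventually H', CCmp_ev_diff hγ, hc.eventually (CCmp_ev_diff hδ),
    CCmp_ev_diff hl, hc.eventually (CCmp_ev_diff hl')] with x hx hx' dγ dδ dl dl'
  obtain ⟨⟨U, hU, hd⟩, hne, hA⟩ := hx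
  obtain ⟨⟨U', hU', hd'⟩, hne', hA'⟩ := hx'
  have hch : ∀ v, fderiv ℝ (fun x => δ (γ x)) x v = fderiv ℝ δ (γ x) (fderiv ℝ γ x v) := fun v => by
    rw [fderiv_fun_comp x dδ dγ]
    rfl
  have hchl : ∀ v, fderiv ℝ (fun x => l' (γ x) * l x) x v =
      l' (γ x) * fderiv ℝ l x v + l x * fderiv ℝ l' (γ x) (fderiv ℝ γ x v) := fun v => by
    have := ((dl'.hasFDerivAt.comp x dγ.hasFDerivAt).mul dl.hasFDerivAt).fderiv
    have e : (fun x => l' (γ x) * l x) = (l' ∘ γ) * l := rfl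
    rw [e, this]
    simp
  refine ⟨⟨U'.comp U, fun v => ?_, ?_⟩, mul_ne_zero hne' hne, fun v => ?_⟩
  · rw [hch, hU', hU]
    rfl
  · rw [← hd, ← hd']
    exact LinearMap.det_comp (U' : V →ₗ[ℂ] V) (U : V →ₗ[ℂ] V)
  · rw [hch, hchl]
    have e : (l' (γ x) * fderiv ℝ l x v + l x * fderiv ℝ l' (γ x) (fderiv ℝ γ x v)) /
        (l' (γ x) * l x) =
        fderiv ℝ l' (γ x) (fderiv ℝ γ x v) / l' (γ x) + fderiv ℝ l x v / l x := by
      field_simp
      ring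
    rw [e, Complex.add_im, ← hA, ← hA']
    ring

theorem Cmp.symm (h : Cmp γ F A F' A' y) (hγ : ContDiffAt ℝ ∞ γ y) (hδ : ContDiffAt ℝ ∞ δ (γ y))
    (e : δ (γ y) = y) (e' : ∀ᶠ x in 𝓝 (γ y), γ (δ x) = x) : Cmp δ F' A' F A (γ y) := by
  obtain ⟨l, hl, H⟩ := h
  have hc : Tendsto δ (𝓝 (γ y)) (𝓝 y) := by
    have := hδ.continuousAt.tendsto
    rwa [e] at this
  have hl0 : l y ≠ 0 := H.self_of_nhds.2.1
  have hld : ContDiffAt ℝ ∞ (fun z => l (δ z)) (γ y) :=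
    ContDiffAt.comp (γ y) (by rw [e]; exact hl) hδ
  refine ⟨fun z => (l (δ z))⁻¹, hld.inv (by rw [e]; exact hl0), ?_⟩
  filter_upwards [hc.eventually H, hc.eventually (CCmp_ev_diff hγ), CCmp_ev_diff hδ,
    hc.eventually (CCmp_ev_diff hl), e'.eventually_nhds] with z hz dγ dδ dl ez
  obtain ⟨⟨U, hU, hd⟩, hne, hA⟩ := hz
  have e0 : γ (δ z) = z := ez.self_of_nhds
  have hch : ∀ v, fderiv ℝ γ (δ z) (fderiv ℝ δ z v) = v := fun v => by
    have h1 : fderiv ℝ (fun x => γ (δ x)) z = fderiv ℝ (fun x : V => x) z :=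
      EventuallyEq.fderiv_eq ez
    rw [fderiv_fun_comp z dγ dδ] at h1
    have h2 := congrArg (fun T : V →L[ℝ] V => T v) h1
    simpa using h2
  have hdet : LinearMap.det (U : V →ₗ[ℂ] V) ≠ 0 := by
    have : LinearMap.det (U : V →ₗ[ℂ] V) = l (δ z) := hd
    rwa [this]
  let E : V ≃ₗ[ℂ] V := LinearMap.equivOfDetNeZero (U : V →ₗ[ℂ] V) hdet
  have hE : ∀ w, E w = U w := fun w => rfl
  have hlv : ∀ v, fderiv ℝ (fun z => (l (δ z))⁻¹) z v =
      -(fderiv ℝ l (δ z) (fderiv ℝ δ z v)) / (l (δ z)) ^ 2 := fun v => by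
    have h1 : HasFDerivAt (fun z => l (δ z)) ((fderiv ℝ l (δ z)).comp (fderiv ℝ δ z)) z :=
      dl.hasFDerivAt.comp z dδ.hasFDerivAt
    have h2 := ((hasDerivAt_inv hne).hasFDerivAt.restrictScalars ℝ).comp z h1
    have h3 : (fun z => (l (δ z))⁻¹) = (fun w : ℂ => w⁻¹) ∘ fun z => l (δ z) := rfl
    rw [h3, h2.fderiv]
    simp [div_eq_mul_inv]
  refine ⟨⟨LinearMap.toContinuousLinearMap (E.symm : V →ₗ[ℂ] V), fun v => ?_, ?_⟩,
    inv_ne_zero hne, fun v => ?_⟩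
  · have h1 := hU (fderiv ℝ δ z v)
    rw [hch, e0, ← hE] at h1
    change _ = E.symm (F' z v)
    rw [h1, E.symm_apply_apply]
  · rw [LinearMap.det_toContinuousLinearMap, LinearEquiv.det_coe_symm, ← hd]
    rfl
  · have h1 := hA (fderiv ℝ δ z v)
    rw [hch, e0] at h1
    have e1 : -(fderiv ℝ l (δ z) (fderiv ℝ δ z v)) / (l (δ z)) ^ 2 / (l (δ z))⁻¹ =
        -(fderiv ℝ l (δ z) (fderiv ℝ δ z v) / l (δ z)) := by
      field_simp
    rw [hlv, e1, Complex.neg_im, ← h1]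
    ring

theorem Cmp.add (h : Cmp γ F A F' A' y) {ξ ξ' : Fm V 1} (e : ξ =ᶠ[𝓝 y] pb γ ξ') :
    Cmp γ F (fun x => A x + ξ x) F' (fun x => A' x + ξ' x) y := by
  obtain ⟨l, hl, H⟩ := h
  refine ⟨l, hl, ?_⟩
  filter_upwards [H, e] with x hx ex
  refine ⟨hx.1, hx.2.1, fun v => ?_⟩
  rw [← hx.2.2 v, ex, ContinuousAlternatingMap.add_apply, ContinuousAlternatingMap.add_apply,
    CCmp_pb_one]
  ring

theorem Cmp.scal {c : ℂ} (hc : c ≠ 0) (e : ∀ᶠ x in 𝓝 y, ∀ v, G x v = c • F x v) :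
    Cmp (fun x => x) F A G A y := by
  refine ⟨fun _ => c ^ Module.finrank ℂ V, contDiffAt_const, ?_⟩
  filter_upwards [e] with x hx
  refine ⟨⟨c • ContinuousLinearMap.id ℂ V, fun v => by simp [hx], ?_⟩, pow_ne_zero _ hc,
    fun v => by simp⟩
  change LinearMap.det (c • (LinearMap.id : V →ₗ[ℂ] V)) = _
  rw [LinearMap.det_smul, LinearMap.det_id, mul_one]

theorem Cmp.right (h : Cmp γ F A F' A' y) {H H' : V → V →L[ℝ] V}
    (e : ∀ᶠ x in 𝓝 y, ∀ v, fderiv ℝ γ x (H x v) = H' (γ x) (fderiv ℝ γ x v)) :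
    Cmp γ (fun x => (F x).comp (H x)) A (fun x => (F' x).comp (H' x)) A' y := by
  obtain ⟨l, hl, K⟩ := h
  refine ⟨l, hl, ?_⟩
  filter_upwards [K, e] with x hx ex
  obtain ⟨⟨U, hU, hd⟩, h2⟩ := hx
  refine ⟨⟨U, fun v => ?_, hd⟩, h2⟩
  rw [ContinuousLinearMap.comp_apply, ← ex, hU]
  rfl

theorem Cmp.J (h : Cmp γ F A F' A' y) : ∀ᶠ x in 𝓝 y, (F x).IsInvertible →
    (F' (γ x)).IsInvertible → ∀ v, fderiv ℝ γ x (Jof (F x) v) = Jof (F' (γ x)) (fderiv ℝ γ x v) := by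
  obtain ⟨l, -, h⟩ := h
  filter_upwards [h] with x hx h1 h2 v
  obtain ⟨⟨U, hU, -⟩, -, -⟩ := hx
  apply h2.injective
  rw [hU, Jof_spec h1, Jof_spec h2, hU, map_smul]

/-- The imaginary part of the logarithmic derivative. -/
noncomputable def CCmp_lg (l : V → ℂ) : Fm V 1 := fun x =>
  alt1 (Complex.imCLM.comp ((l x)⁻¹ • fderiv ℝ l x))

omit [NormedSpace ℂ V] [IsScalarTower ℝ ℂ V] [FiniteDimensional ℝ V] [FiniteDimensional ℂ V] in
theorem CCmp_lg_apply (l : V → ℂ) (x v : V) : CCmp_lg l x ![v] = (fderiv ℝ l x v / l x).im := by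
  rw [CCmp_lg, alt1_apply, div_eq_inv_mul]
  rfl

omit [NormedSpace ℂ V] [IsScalarTower ℝ ℂ V] [FiniteDimensional ℝ V] [FiniteDimensional ℂ V] in
theorem CCmp_lg_sm {l : V → ℂ} (hl : ContDiffAt ℝ ∞ l y) (h0 : l y ≠ 0) :
    ContDiffAt ℝ ∞ (CCmp_lg l) y :=
  contDiff_alt1.contDiffAt.comp y (contDiffAt_const.clm_comp
    ((hl.inv h0).smul (hl.fderiv_right (m := ∞) le_rfl)))

omit [NormedSpace ℂ V] [IsScalarTower ℝ ℂ V] [FiniteDimensional ℝ V] [FiniteDimensional ℂ V] in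
theorem CCmp_lg_fderiv {l : V → ℂ} (hl : ContDiffAt ℝ ∞ l y) (h0 : l y ≠ 0) (u v : V) :
    fderiv ℝ (CCmp_lg l) y u ![v] =
      ((l y)⁻¹ * D2 l y u v - fderiv ℝ l y u * fderiv ℝ l y v / l y ^ 2).im := by
  have h1 : HasFDerivAt (CCmp_lg l) (fderiv ℝ (CCmp_lg l) y) y :=
    ((CCmp_lg_sm hl h0).differentiableAt (by simp)).hasFDerivAt
  have h2 := (ContinuousAlternatingMap.apply ℝ V ℝ ![v]).hasFDerivAt.comp y h1
  have h3 : HasFDerivAt l (fderiv ℝ l y) y := (hl.differentiableAt (by simp)).hasFDerivAt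
  have h4 : HasFDerivAt (fderiv ℝ l) (D2 l y) y :=
    ((hl.fderiv_right (m := ∞) le_rfl).differentiableAt (by simp)).hasFDerivAt
  have h5 := (ContinuousLinearMap.apply ℝ ℂ v).hasFDerivAt.comp y h4
  have h6 := ((hasDerivAt_inv h0).hasFDerivAt.restrictScalars ℝ).comp y h3
  have h7 := Complex.imCLM.hasFDerivAt.comp y (h6.mul h5)
  have h8 := congrArg (fun T : V →L[ℝ] ℝ => T u) (h2.unique h7)
  refine h8.trans ?_
  rw [ContinuousLinearMap.comp_apply, Complex.imCLM_apply]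
  congr 1
  simp
  ring

omit [NormedSpace ℂ V] [IsScalarTower ℝ ℂ V] [FiniteDimensional ℂ V] in
theorem CCmp_lg_d {l : V → ℂ} (hl : ContDiffAt ℝ ∞ l y) (h0 : l y ≠ 0) :
    extDeriv (CCmp_lg l) y = 0 := by
  refine alt_ext_two fun u v => ?_
  rw [extDeriv_one_apply ((CCmp_lg_sm hl h0).differentiableAt (by simp)), CCmp_lg_fderiv hl h0,
    CCmp_lg_fderiv hl h0, D2_symm hl u v, mul_comm (fderiv ℝ l y u), sub_self]
  rfl

theorem Cmp.d (h : Cmp γ F A F' A' y) (hγ : ContDiffAt ℝ ∞ γ y) (hA' : ContDiffAt ℝ ∞ A' (γ y)) :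
    extDeriv A y = pb γ (extDeriv A') y := by
  obtain ⟨l, hl, h⟩ := h
  have h0 : l y ≠ 0 := h.self_of_nhds.2.1
  have e : A =ᶠ[𝓝 y] pb γ A' - CCmp_lg l := by
    filter_upwards [h] with x hx
    refine alt_ext_one fun v => ?_
    have h1 : pb γ A' x ![v] = A' (γ x) ![fderiv ℝ γ x v] :=
      congrArg (A' (γ x)) (funext fun i => by fin_cases i; rfl)
    rw [Pi.sub_apply, ContinuousAlternatingMap.sub_apply, h1, CCmp_lg_apply, ← hx.2.2 v]
    ring
  have h2 : ContDiffAt ℝ ∞ (pb γ A') y :=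
    ContDiffAt.alt_comp (hA'.comp y hγ) (hγ.fderiv_right le_rfl)
  rw [e.extDeriv_eq, extDeriv_sub' (h2.differentiableAt (by simp))
    ((CCmp_lg_sm hl h0).differentiableAt (by simp)), CCmp_lg_d hl h0, sub_zero,
    extDeriv_pb (hA'.differentiableAt (by simp)) hγ]

theorem Cmp.uniq (h : Cmp γ F A F' A' y) (h' : Cmp γ F B F' A' y)
    (hF : ∀ᶠ x in 𝓝 y, (F x).IsInvertible) : A y = B y := by
  obtain ⟨l, -, h⟩ := h
  obtain ⟨l', -, h'⟩ := h'
  have e : l =ᶠ[𝓝 y] l' := by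
    filter_upwards [h, h', hF] with x hx hx' hi
    obtain ⟨⟨U, hU, e⟩, -, -⟩ := hx
    obtain ⟨⟨U', hU', e'⟩, -, -⟩ := hx'
    have : U = U' := by
      ext w
      obtain ⟨v, rfl⟩ := hi.surjective w
      rw [← hU, hU']
    rw [← e, ← e', this]
  refine alt_ext_one fun v => ?_
  have h1 := h.self_of_nhds.2.2 v
  have h2 := h'.self_of_nhds.2.2 v
  rw [e.fderiv_eq, e.self_of_nhds] at h1
  linarith

omit [FiniteDimensional ℝ V] [FiniteDimensional ℂ V] in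
theorem CCmp_complex (T : V →L[ℝ] V) (h : ∀ w, T (Complex.I • w) = Complex.I • T w) :
    ∃ U : V →L[ℂ] V, ∀ w, U w = T w := by
  have key : ∀ (c : ℂ) (w : V), c • w = c.re • w + c.im • Complex.I • w := fun c w => by
    conv_lhs => rw [← Complex.re_add_im c]
    rw [add_smul, mul_smul]
    exact congrArg₂ _ (algebraMap_smul ℂ c.re w) (algebraMap_smul ℂ c.im _)
  refine ⟨⟨⟨⟨T, T.map_add⟩, fun c w => ?_⟩, T.continuous⟩, fun _ => rfl⟩
  change T (c • w) = c • T w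
  rw [key c w, key c (T w), map_add, map_smul, map_smul, h]

/-- Two frames of the same complex structure differ by a smooth 1-form. -/
theorem exists_cmp {O : Set V} (hO : IsOpen O) (hF : ContDiffOn ℝ ∞ F O) (hF' : ContDiffOn ℝ ∞ F' O)
    (hi : ∀ x ∈ O, (F x).IsInvertible ∧ (F' x).IsInvertible ∧ Jof (F x) = Jof (F' x))
    (hA : Sm A O) (hA' : Sm A' O) :
    ∃ η : Fm V 1, Sm η O ∧ ∀ x ∈ O, Cmp (fun x => x) F (fun x => A x + η x) F' A' x := by
  classical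
  let b := Module.finBasis ℂ V
  let l : V → ℂ := fun x =>
    Matrix.det (Matrix.of fun i j => b.repr (F' x ((F x).inverse (b j))) i)
  have hl : ∀ x ∈ O, ContDiffAt ℝ ∞ l x := fun x hx => by
    simp only [l, Matrix.det_apply', Matrix.of_apply]
    refine ContDiffAt.sum fun σ _ => contDiffAt_const.mul (contDiffAt_prod fun i _ => ?_)
    have h1 : ContDiffAt ℝ ∞ (fun x => (F x).inverse) x :=
      (hi x hx).1.contDiffAt_map_inverse.comp x (hF.contDiffAt (hO.mem_nhds hx))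
    exact ((LinearMap.toContinuousLinearMap (b.coord (σ i))).restrictScalars ℝ).contDiff.contDiffAt.comp
      x ((hF'.contDiffAt (hO.mem_nhds hx)).clm_apply (h1.clm_apply contDiffAt_const))
  have hU : ∀ x ∈ O, (∃ U : V →L[ℂ] V, (∀ v, F' x v = U (F x v)) ∧ U.det = l x) ∧ l x ≠ 0 :=
    fun x hx => by
    obtain ⟨i1, i2, e⟩ := hi x hx
    obtain ⟨U, hU⟩ := CCmp_complex ((F' x).comp (F x).inverse) fun w => by
      obtain ⟨v, rfl⟩ := i1.surjective w
      rw [← Jof_spec i1, ContinuousLinearMap.comp_apply, ContinuousLinearMap.comp_apply,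
        i1.inverse_apply_self, i1.inverse_apply_self, e, Jof_spec i2]
    have h1 : ∀ v, F' x v = U (F x v) := fun v => by
      rw [hU, ContinuousLinearMap.comp_apply, i1.inverse_apply_self]
    have h2 : U.det = l x := by
      rw [ContinuousLinearMap.det, ← LinearMap.det_toMatrix b]
      congr 1
      ext i j
      rw [LinearMap.toMatrix_apply, Matrix.of_apply, ContinuousLinearMap.coe_coe, hU]
      rfl
    refine ⟨⟨U, h1, h2⟩, ?_⟩
    rw [← h2, ContinuousLinearMap.det, Ne, LinearMap.det_eq_zero_iff_ker_ne_bot, not_not,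
      LinearMap.ker_eq_bot']
    intro w hw
    obtain ⟨v, rfl⟩ := i1.surjective w
    have h3 : F' x v = F' x 0 := by rw [h1, map_zero]; exact hw
    rw [i2.injective h3, map_zero]
  refine ⟨fun x => A' x - A x - CCmp_lg l x, fun x hx => ((hA' x hx).sub (hA x hx)).sub
    (CCmp_lg_sm (hl x hx) (hU x hx).2).contDiffWithinAt, fun x hx => ⟨l, hl x hx, ?_⟩⟩
  filter_upwards [hO.mem_nhds hx] with z hz
  refine ⟨by simpa using (hU z hz).1, (hU z hz).2, fun v => ?_⟩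
  rw [← CCmp_lg_apply]
  simp only [fderiv_fun_id, ContinuousLinearMap.id_apply, ContinuousAlternatingMap.add_apply,
    ContinuousAlternatingMap.sub_apply]
  ring

omit [NormedSpace ℂ V] [IsScalarTower ℝ ℂ V] [FiniteDimensional ℝ V] [FiniteDimensional ℂ V] in
theorem CCmp_plus {V' : Type} [NormedAddCommGroup V'] [NormedSpace ℝ V'] (a : Alt V 1)
    (c : Alt V' 1) (w : V × V') : plus a c ![w] = a ![w.1] + c ![w.2] := by
  rw [plus, ContinuousAlternatingMap.add_apply]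
  congr 1
  · exact congrArg a (funext fun i => by fin_cases i; rfl)
  · exact congrArg c (funext fun i => by fin_cases i; rfl)

theorem Cmp.prod {V' : Type} [NormedAddCommGroup V'] [NormedSpace ℝ V'] [NormedSpace ℂ V']
    [IsScalarTower ℝ ℂ V'] [FiniteDimensional ℝ V'] [FiniteDimensional ℂ V'] {ε : V' → V'}
    {H H' : V' → V' →L[ℝ] V'} {C C' : Fm V' 1} {z : V'} (h : Cmp γ F A F' A' y)
    (h' : Cmp ε H C H' C' z) (hγ : ContDiffAt ℝ ∞ γ y) (hε : ContDiffAt ℝ ∞ ε z) :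
    Cmp (fun x : V × V' => (γ x.1, ε x.2)) (fun x => (F x.1).prodMap (H x.2))
      (fun x => plus (A x.1) (C x.2)) (fun x => (F' x.1).prodMap (H' x.2))
      (fun x => plus (A' x.1) (C' x.2)) (y, z) := by
  obtain ⟨l, hl, h⟩ := h
  obtain ⟨m, hm, h'⟩ := h'
  refine ⟨fun x => l x.1 * m x.2, (hl.comp (y, z) contDiffAt_fst).mul
    (hm.comp (y, z) contDiffAt_snd), ?_⟩
  have d1 := (hγ.of_le (m := 1) (by simp)).eventually (by simp)
  have d2 := (hε.of_le (m := 1) (by simp)).eventually (by simp)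
  have d3 := (hl.of_le (m := 1) (by simp)).eventually (by simp)
  have d4 := (hm.of_le (m := 1) (by simp)).eventually (by simp)
  filter_upwards [(h.and (d1.and d3)).prod_nhds (h'.and (d2.and d4))] with x hx
  obtain ⟨⟨⟨⟨U, hU, e⟩, l0, hl'⟩, a1, a3⟩, ⟨⟨U', hU', e'⟩, m0, hm'⟩, a2, a4⟩ := hx
  have f1 := ((a1.differentiableAt one_ne_zero).hasFDerivAt.comp x hasFDerivAt_fst).prodMk
    ((a2.differentiableAt one_ne_zero).hasFDerivAt.comp x hasFDerivAt_snd)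
  have f2 := ((a3.differentiableAt one_ne_zero).hasFDerivAt.comp x hasFDerivAt_fst).mul
    ((a4.differentiableAt one_ne_zero).hasFDerivAt.comp x hasFDerivAt_snd)
  have g1 : ∀ v : V × V', fderiv ℝ (fun x : V × V' => (γ x.1, ε x.2)) x v =
      (fderiv ℝ γ x.1 v.1, fderiv ℝ ε x.2 v.2) := fun v =>
    congrArg (fun T : V × V' →L[ℝ] V × V' => T v) f1.fderiv
  have g2 : ∀ v : V × V', fderiv ℝ (fun x : V × V' => l x.1 * m x.2) x v =
      l x.1 * fderiv ℝ m x.2 v.2 + m x.2 * fderiv ℝ l x.1 v.1 := fun v =>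
    congrArg (fun T : V × V' →L[ℝ] ℂ => T v) f2.fderiv
  refine ⟨⟨U.prodMap U', fun v => ?_, ?_⟩, mul_ne_zero l0 m0, fun v => ?_⟩
  · rw [g1]
    exact Prod.ext (hU v.1) (hU' v.2)
  · rw [← e, ← e']
    exact LinearMap.det_prodMap (U : V →ₗ[ℂ] V) (U' : V' →ₗ[ℂ] V')
  · have h3 : (l x.1 * fderiv ℝ m x.2 v.2 + m x.2 * fderiv ℝ l x.1 v.1) / (l x.1 * m x.2) =
        fderiv ℝ l x.1 v.1 / l x.1 + fderiv ℝ m x.2 v.2 / m x.2 := by
      field_simp
      ring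
    rw [g1, g2, CCmp_plus, CCmp_plus, h3, Complex.add_im, ← hl', ← hm']
    ring

/-- It is enough to check the compatibility for one lift, in one direction. -/
theorem cmp_of_exists {P : Pres V} (hP : P.Good) {i j : P.ι} (h1 : Lift (sl P.r i j) y γ)
    (h2 : Lift (sl P.r i j) y γ') (e : γ y = γ' y) (h : Cmp γ F A F' A' y) :
    Cmp γ' F A F' A' y :=
  h.congr_map (hP.smap.lift_eq hP h1 h2 e)

theorem cmp_symm {P : Pres V} (hP : P.Good) {i j : P.ι} {O O' : Set V}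
    (H : ∀ y ∈ O, ∀ γ, γ y ∈ O' → Lift (sl P.r i j) y γ → Cmp γ F A F' A' y) :
    ∀ y ∈ O', ∀ γ, γ y ∈ O → Lift (sl P.r j i) y γ → Cmp γ F' A' F A y := by
  intro y hy γ hγ h1
  obtain ⟨δ, h2, e, e1, -⟩ := hP.lift_inv h1
  have h3 := (H (γ y) hγ δ (e.symm ▸ hy) h2).symm (δ := γ) h2.1 (e.symm ▸ h1.1)
    (by rw [e]) (e.symm ▸ e1)
  rwa [e] at h3

end Pool.Agent.Work.MP_bf98aa_gt.Cp
end

-- merged part: Pool.Agent.Work.MP_bf98aa_gt.Cp.PBr3A
section
/-!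
Frames given in the charts of a manifold define a tamed almost complex structure and local forms of
a connection on the canonical bundle.
-/

set_option autoImplicit false

open scoped ContDiff Topology Manifold
open Set Filter

namespace Pool.Agent.Work.MP_bf98aa_gt.Cp

open Pool.Agent.Work.MP_bf98aa_gt.Th

variable {E : Type} [NormedAddCommGroup E] [NormedSpace ℝ E] {M : Type} [TopologicalSpace M]
  [ChartedSpace E M] (L : E ≃L[ℝ] E3)

/-- The chart at `m` with values in the complex model space. -/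
noncomputable def PBr3_c (m x : M) : E3 := L (chartAt E m x)

/-- The derivative of the chart at `m`. -/
noncomputable def PBr3_D (m x : M) : E →L[ℝ] E3 :=
  (L : E →L[ℝ] E3).comp (mfderiv 𝓘(ℝ, E) 𝓘(ℝ, E) (chartAt E m) x)

/-- The derivative of the inverse of the chart at `p`. -/
noncomputable def PBr3_S (p : M) (z : E) : E →L[ℝ] E :=
  mfderiv 𝓘(ℝ, E) 𝓘(ℝ, E) (chartAt E p).symm z

/-- The chart at `m` read in the chart at `p`. -/
noncomputable def PBr3_t (p m : M) (z : E) : E3 := PBr3_c L m ((chartAt E p).symm z)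

/-- The open set of the manifold given by `O m` in the chart at `m`. -/
def PBr3_U (O : M → Set E3) (m : M) : Set M := (chartAt E m).source ∩ PBr3_c L m ⁻¹' O m

/-- The frame on the manifold. -/
noncomputable def PBr3_G (F : M → E3 → E3 →L[ℝ] E3) (m x : M) : E →L[ℝ] E3 :=
  (F m (PBr3_c L m x)).comp (PBr3_D L m x)

theorem PBr3_U_open {O : M → Set E3} {m : M} (h : IsOpen (O m)) : IsOpen (PBr3_U L O m) :=
  (L.continuous.comp_continuousOn (chartAt E m).continuousOn).isOpen_inter_preimage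
    (chartAt E m).open_source h

omit [NormedSpace ℝ E] in
theorem PBr3_seen_open {U : Set M} (h : IsOpen U) (p : M) : IsOpen (seen E U p) :=
  (chartAt E p).continuousOn_symm.isOpen_inter_preimage (chartAt E p).open_target h

theorem PBr3_gauge {k : ℕ} {U : Set M} {Ω Ω' : CForm E M k} {A A' : Form E M 1}
    (H : ∀ x ∈ U, ∃ l : M → ℂ, ContMDiffAt 𝓘(ℝ, E) 𝓘(ℝ, ℂ) ∞ l x ∧
      (∀ᶠ x' in 𝓝 x, Ω x' ≠ 0 ∧ ∀ v, Ω' x' v = l x' * Ω x' v) ∧
      ∀ v, A' x ![v] - A x ![v] = (cdiff l x v / l x).im) : Gauge U Ω Ω' A A' := by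
  have key : ∀ x c, Ω x ≠ 0 → (∀ v, Ω' x v = c * Ω x v) →
      Classical.epsilon (fun c : ℂ => ∀ v, Ω' x v = c * Ω x v) = c := by
    intro x c h0 h1
    have h2 := Classical.epsilon_spec (p := fun c : ℂ => ∀ v, Ω' x v = c * Ω x v) ⟨c, h1⟩
    by_contra h3
    refine h0 (ContinuousAlternatingMap.ext fun v => ?_)
    exact (mul_eq_mul_right_iff.1 ((h2 v).symm.trans (h1 v))).resolve_left h3
  refine ⟨fun x => Classical.epsilon fun c : ℂ => ∀ v, Ω' x v = c * Ω x v, fun x hx => ?_,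
    fun x hx => ?_⟩ <;> obtain ⟨l, h1, h2, h3⟩ := H x hx <;>
    have h4 : (fun x => Classical.epsilon fun c : ℂ => ∀ v, Ω' x v = c * Ω x v) =ᶠ[𝓝 x] l :=
      h2.mono fun x' h => key x' _ h.1 h.2
  · exact (h1.congr_of_eventuallyEq h4).contMDiffWithinAt
  · refine ⟨fun v => ?_, fun v => ?_⟩
    · rw [h4.self_of_nhds]
      exact h2.self_of_nhds.2 v
    · rw [h4.self_of_nhds, cdiff, h4.mfderiv_eq]
      exact h3 v

theorem PBr3_calt [FiniteDimensional ℝ E] {k : ℕ} (D : E3 [⋀^Fin k]→L[ℝ] ℂ)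
    {H : E → E →L[ℝ] E3} {z : E} (h : ContDiffAt ℝ ∞ H z) :
    ContDiffAt ℝ ∞ (fun z => D.compContinuousLinearMap (H z)) z := by
  have h1 : ∀ (f : ℂ →L[ℝ] ℝ) (g : ℝ →L[ℝ] ℂ), ContDiffAt ℝ ∞ (fun z =>
      g.compContinuousAlternatingMap
        ((f.compContinuousAlternatingMap D).compContinuousLinearMap (H z))) z := fun f g =>
    (ContinuousLinearMap.compContinuousAlternatingMapCLM ℝ E ℝ ℂ (Fin k)
      g).contDiff.contDiffAt.comp z (ContDiffAt.alt_comp contDiffAt_const h)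
  refine ((h1 Complex.reCLM Complex.ofRealCLM).add
    (h1 Complex.imCLM (Complex.I • Complex.ofRealCLM))).congr_of_eventuallyEq
      (.of_forall fun z => ContinuousAlternatingMap.ext fun v => ?_)
  exact ((Complex.re_add_im _).symm.trans (congrArg _ (mul_comm _ _)))

variable [IsManifold 𝓘(ℝ, E) ∞ M]

theorem PBr3_c_smooth {m x : M} (hx : x ∈ (chartAt E m).source) :
    ContMDiffAt 𝓘(ℝ, E) 𝓘(ℝ, E3) ∞ (PBr3_c L m) x :=
  L.contDiff.contMDiff.contMDiffAt.comp x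
    ((contMDiffOn_chart (I := 𝓘(ℝ, E))).contMDiffAt ((chartAt E m).open_source.mem_nhds hx))

theorem PBr3_hasD {m x : M} (hx : x ∈ (chartAt E m).source) :
    HasMFDerivAt 𝓘(ℝ, E) 𝓘(ℝ, E3) (PBr3_c L m) x (PBr3_D L m x :) :=
  have h : HasMFDerivAt 𝓘(ℝ, E) 𝓘(ℝ, E3) L (chartAt E m x) (L : E →L[ℝ] E3) :=
    hasMFDerivAt_iff_hasFDerivAt.2 L.hasFDerivAt
  h.comp x ((mdifferentiable_chart (I := 𝓘(ℝ, E)) m).mdifferentiableAt hx).hasMFDerivAt

theorem PBr3_D_inv {m x : M} (hx : x ∈ (chartAt E m).source) : (PBr3_D L m x).IsInvertible :=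
  ⟨((mdifferentiable_chart (I := 𝓘(ℝ, E)) m).mfderiv hx).trans L, rfl⟩

theorem PBr3_t_smooth {p m : M} {z : E} (hz : z ∈ (chartAt E p).target)
    (hm : (chartAt E p).symm z ∈ (chartAt E m).source) : ContDiffAt ℝ ∞ (PBr3_t L p m) z :=
  contMDiffAt_iff_contDiffAt.1 ((PBr3_c_smooth L hm).comp z
    (contMDiffOn_chart_symm.contMDiffAt ((chartAt E p).open_target.mem_nhds hz)))

theorem PBr3_t_deriv {p m : M} {z : E} (hz : z ∈ (chartAt E p).target)
    (hm : (chartAt E p).symm z ∈ (chartAt E m).source) :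
    fderiv ℝ (PBr3_t L p m) z = (PBr3_D L m ((chartAt E p).symm z)).comp (PBr3_S p z) :=
  have h : HasFDerivAt (PBr3_t L p m) ((PBr3_D L m ((chartAt E p).symm z)).comp (PBr3_S p z)) z :=
    ((PBr3_hasD L hm).comp z ((mdifferentiable_chart (I := 𝓘(ℝ, E)) p).mdifferentiableAt_symm
      hz).hasMFDerivAt).hasFDerivAt
  h.fderiv

theorem PBr3_D_trans {m m' x : M} (hx : x ∈ (chartAt E m).source) (hx' : x ∈ (chartAt E m').source)
    {τ : E3 → E3} (hτ : DifferentiableAt ℝ τ (PBr3_c L m x))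
    (e : PBr3_c L m' =ᶠ[𝓝 x] fun x => τ (PBr3_c L m x)) :
    PBr3_D L m' x = (fderiv ℝ τ (PBr3_c L m x)).comp (PBr3_D L m x) :=
  hasMFDerivAt_unique (PBr3_hasD L hx')
    ((hτ.hasFDerivAt.hasMFDerivAt.comp x (PBr3_hasD L hx)).congr_of_eventuallyEq e)

/-- Frames in the charts. -/
structure PBr3_Dat (w ρ : Form E M 2) (a b : M → Fm E3 2) (O : M → Set E3)
    (F : M → E3 → E3 →L[ℝ] E3) (A : M → Fm E3 1) : Prop where
  hw : ∀ m, ∀ x ∈ (chartAt E m).source, ∀ v,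
    w x v = a m (PBr3_c L m x) fun i => PBr3_D L m x (v i)
  hρ : ∀ m, ∀ x ∈ (chartAt E m).source, ∀ v,
    ρ x v = b m (PBr3_c L m x) fun i => PBr3_D L m x (v i)
  opn : ∀ m, IsOpen (O m)
  ctr : ∀ m, PBr3_c L m m ∈ O m
  smF : ∀ m, ContDiffOn ℝ ∞ (F m) (O m)
  inv : ∀ m, ∀ y ∈ O m, (F m y).IsInvertible
  dA : ∀ m, IsD (A m) (fun y => (2 * Real.pi) • b m y) (O m)
  tame : ∀ m, ∀ y ∈ O m, ∀ v, v ≠ 0 → 0 < a m y ![v, Jof (F m y) v]
  cmp : ∀ m m', ∀ x ∈ PBr3_U L O m, x ∈ PBr3_U L O m' → ∃ τ, ContDiffAt ℝ ∞ τ (PBr3_c L m x) ∧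
    (PBr3_c L m' =ᶠ[𝓝 x] fun x => τ (PBr3_c L m x)) ∧
    Cmp τ (F m) (A m) (F m') (A m') (PBr3_c L m x)

variable {L} {w ρ : Form E M 2} {a b : M → Fm E3 2} {O : M → Set E3} {F : M → E3 → E3 →L[ℝ] E3}
  {A : M → Fm E3 1}

omit [IsManifold 𝓘(ℝ, E) ∞ M] in
theorem PBr3_Dat.self (h : PBr3_Dat L w ρ a b O F A) (x : M) : x ∈ PBr3_U L O x :=
  ⟨mem_chart_source E x, h.ctr x⟩

theorem PBr3_Dat.G_inv (h : PBr3_Dat L w ρ a b O F A) {m x : M} (hx : x ∈ PBr3_U L O m) :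
    (PBr3_G L F m x).IsInvertible := (h.inv m _ hx.2).comp (PBr3_D_inv L hx.1)

theorem PBr3_Dat.cmp' (h : PBr3_Dat L w ρ a b O F A) {m m' x : M} (hx : x ∈ PBr3_U L O m)
    (hx' : x ∈ PBr3_U L O m') : ∃ l : E3 → ℂ, ContDiffAt ℝ ∞ l (PBr3_c L m x) ∧ ∀ᶠ x' in 𝓝 x,
      (∃ U : E3 →L[ℂ] E3, (∀ v, PBr3_G L F m' x' v = U (PBr3_G L F m x' v)) ∧
        U.det = l (PBr3_c L m x')) ∧
      ∀ v, A m' (PBr3_c L m' x') ![PBr3_D L m' x' v] - A m (PBr3_c L m x') ![PBr3_D L m x' v] =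
        (fderiv ℝ l (PBr3_c L m x') (PBr3_D L m x' v) / l (PBr3_c L m x')).im := by
  obtain ⟨τ, h1, h2, l, h3, h4⟩ := h.cmp m m' x hx hx'
  have h5 := (PBr3_c_smooth L hx.1).continuousAt
  refine ⟨l, h3, ?_⟩
  filter_upwards [h5.eventually h4, h5.eventually ((h1.of_le (m := 1) (by simp)).eventually
    (by simp)), h2.eventually_nhds, (chartAt E m).open_source.mem_nhds hx.1,
    (chartAt E m').open_source.mem_nhds hx'.1] with x' ⟨⟨U, k1, k2⟩, _, k3⟩ k4 k5 k6 k7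
  have e := PBr3_D_trans L k6 k7 (k4.differentiableAt one_ne_zero) k5
  refine ⟨⟨U, fun v => ?_, k2⟩, fun v => ?_⟩
  · rw [PBr3_G, e, Filter.EventuallyEq.eq_of_nhds k5]
    exact k1 _
  · rw [e, Filter.EventuallyEq.eq_of_nhds k5]
    exact k3 _

variable (L F) in
/-- The almost complex structure. -/
noncomputable def PBr3_J : Endo E M := fun x =>
  ((PBr3_G L F x x).inverse.comp ((mulI E3).comp (PBr3_G L F x x)) : E →L[ℝ] E)

theorem PBr3_Dat.GJ (h : PBr3_Dat L w ρ a b O F A) {m x : M} (hx : x ∈ PBr3_U L O m) (v : E) :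
    PBr3_G L F m x (PBr3_J L F x v) = Complex.I • PBr3_G L F m x v := by
  obtain ⟨l, -, h1⟩ := h.cmp' (h.self x) hx
  obtain ⟨⟨U, h2, -⟩, -⟩ := h1.self_of_nhds
  rw [h2, h2, ← map_smul]
  exact congrArg U ((h.G_inv (h.self x)).self_apply_inverse _)

theorem PBr3_Dat.H (h : PBr3_Dat L w ρ a b O F A) {p m : M} {z : E}
    (hz : z ∈ seen E (PBr3_U L O m) p) :
    ContDiffAt ℝ ∞ (fun z => (F m (PBr3_t L p m z)).comp (fderiv ℝ (PBr3_t L p m) z)) z :=
  have h1 := PBr3_t_smooth L hz.1 hz.2.1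
  (((h.smF m).contDiffAt ((h.opn m).mem_nhds hz.2.2)).comp z h1).clm_comp (h1.fderiv_right le_rfl)

variable [FiniteDimensional ℝ E]

theorem PBr3_Dat.tamed (h : PBr3_Dat L w ρ a b O F A) : Tamed w (PBr3_J L F) := by
  refine ⟨fun p z hz => ?_, fun x v => ?_, fun x v hv => ?_⟩
  · have := FiniteDimensional.complete ℝ E
    set m := (chartAt E p).symm z
    have h0 : z ∈ seen E (PBr3_U L O m) p := ⟨hz, h.self m⟩
    have h1 : ∀ z ∈ seen E (PBr3_U L O m) p,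
        ((F m (PBr3_t L p m z)).comp (fderiv ℝ (PBr3_t L p m) z)).IsInvertible ∧
        (PBr3_J L F).loc p z =
          ((F m (PBr3_t L p m z)).comp (fderiv ℝ (PBr3_t L p m) z)).inverse.comp ((mulI E3).comp
            ((F m (PBr3_t L p m z)).comp (fderiv ℝ (PBr3_t L p m) z))) := by
      intro z hz
      have he := mdifferentiable_chart (I := 𝓘(ℝ, E)) p
      have h2 : ((F m (PBr3_t L p m z)).comp (fderiv ℝ (PBr3_t L p m) z)).IsInvertible := by
        rw [PBr3_t_deriv L hz.1 hz.2.1]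
        exact (h.G_inv hz.2).comp ⟨he.symm.mfderiv hz.1, rfl⟩
      refine ⟨h2, ContinuousLinearMap.ext fun v => (h2.inverse_apply_eq.2 ?_).symm⟩
      rw [PBr3_t_deriv L hz.1 hz.2.1]
      obtain ⟨u, hu⟩ := he.symm.mfderiv_surjective hz.1 (PBr3_J L F _ (PBr3_S p z v))
      have h3 : (PBr3_J L F).loc p z v = u :=
        (congrArg (mfderiv 𝓘(ℝ, E) 𝓘(ℝ, E) (chartAt E p) ((chartAt E p).symm z)) hu.symm).trans
          (congrArg (fun f : E →L[ℝ] E => f u) (he.comp_symm_deriv hz.1))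
      rw [h3]
      exact ((congrArg (PBr3_G L F m _) hu).trans (h.GJ hz.2 _)).symm
    refine ContDiffAt.contDiffWithinAt (ContDiffAt.congr_of_eventuallyEq ?_ (mem_of_superset
      ((PBr3_seen_open (PBr3_U_open L (h.opn m)) p).mem_nhds h0) fun z hz => (h1 z hz).2))
    exact ((h1 z h0).1.contDiffAt_map_inverse.comp z (h.H h0)).clm_comp
      (contDiffAt_const.clm_comp (h.H h0))
  · refine (h.G_inv (h.self x)).injective ?_
    rw [h.GJ (h.self x), h.GJ (h.self x), smul_smul, Complex.I_mul_I, neg_one_smul]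
    exact (map_neg _ _).symm
  · have h1 := h.inv x _ (h.ctr x)
    have h2 : PBr3_D L x x (PBr3_J L F x v) = Jof (F x (PBr3_c L x x)) (PBr3_D L x x v) :=
      h1.injective ((h.GJ (h.self x) v).trans (Jof_spec h1 _).symm)
    have h3 := h.tame x _ (h.ctr x) (PBr3_D L x x v) fun h4 =>
      hv ((PBr3_D_inv L (mem_chart_source E x)).injective (h4.trans (map_zero _).symm))
    rw [h.hw x x (mem_chart_source E x)]
    rw [← h2] at h3
    exact h3.trans_eq (congrArg _ (funext fun i => by fin_cases i <;> rfl))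

variable (L F) in
/-- The local sections of the canonical bundle. -/
noncomputable def PBr3_Ω (D : E3 [⋀^Fin 3]→L[ℝ] ℂ) (m : M) : CForm E M 3 := fun x =>
  (D.compContinuousLinearMap (PBr3_G L F m x) : E [⋀^Fin 3]→L[ℝ] ℂ)

variable (L A) in
/-- The local connection forms. -/
noncomputable def PBr3_A (m : M) : Form E M 1 := fun x =>
  ((A m (PBr3_c L m x)).compContinuousLinearMap (PBr3_D L m x) : Alt E 1)

variable {D : E3 [⋀^Fin 3]→L[ℝ] ℂ}

omit [FiniteDimensional ℝ E] in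
theorem PBr3_Dat.ne (h : PBr3_Dat L w ρ a b O F A) (h0 : D ≠ 0) {m x : M}
    (hx : x ∈ PBr3_U L O m) : PBr3_Ω L F D m x ≠ 0 := fun h1 =>
  h0 (ContinuousAlternatingMap.ext fun v =>
    (congrArg D (funext fun i => ((h.G_inv hx).self_apply_inverse (v i)).symm)).trans
      (congrArg (fun f : E [⋀^Fin 3]→L[ℝ] ℂ => f fun i => (PBr3_G L F m x).inverse (v i)) h1))

theorem PBr3_Dat.frame (h : PBr3_Dat L w ρ a b O F A) (h0 : D ≠ 0)
    (hD : ∀ v, D (Function.update v 0 (Complex.I • v 0)) = Complex.I * D v) (m : M) :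
    Frame (PBr3_J L F) ρ (PBr3_U L O m) (PBr3_Ω L F D m) (PBr3_A L A m) := by
  have h1 := PBr3_U_open L (h.opn m)
  have h2 : ∀ p, ∀ z ∈ seen E (PBr3_U L O m) p,
      (PBr3_A L A m).loc p z = pb (PBr3_t L p m) (A m) z := fun p z hz => by
    rw [pb, PBr3_t_deriv L hz.1 hz.2.1]
    rfl
  have h3 : ∀ p, IsD (pb (PBr3_t L p m) (A m))
      (pb (PBr3_t L p m) fun y => (2 * Real.pi) • b m y) (seen E (PBr3_U L O m) p) := fun p =>
    (h.dA m).pb (PBr3_seen_open h1 p) (h.opn m)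
      (fun z hz => (PBr3_t_smooth L hz.1 hz.2.1).contDiffWithinAt) fun z hz => hz.2.2
  refine ⟨h1, fun p => ContDiffOn.congr (fun z hz => (PBr3_calt D (h.H hz)).contDiffWithinAt)
    fun z hz => ?_, fun p => ContDiffOn.congr (h3 p).1 (h2 p), fun x hx => ⟨h.ne h0 hx, fun v => ?_⟩,
    fun p z hz => ?_⟩
  · rw [PBr3_t_deriv L hz.1 hz.2.1]
    rfl
  · refine Eq.trans (congrArg D ?_) (hD fun i => PBr3_G L F m x (v i))
    exact (Function.comp_update (PBr3_G L F m x) v 0 _).trans (congrArg _ (h.GJ hx _))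
  · rw [Filter.EventuallyEq.extDeriv_eq (mem_of_superset ((PBr3_seen_open h1 p).mem_nhds hz) (h2 p)),
      (h3 p).2 z hz, pb, PBr3_t_deriv L hz.1 hz.2.1]
    exact ContinuousAlternatingMap.ext fun v =>
      congrArg (fun t : ℝ => (2 * Real.pi) • t) (h.hρ m _ hz.2.1 _).symm

omit [FiniteDimensional ℝ E] in
theorem PBr3_Dat.gauge (h : PBr3_Dat L w ρ a b O F A) (h0 : D ≠ 0)
    (hD : ∀ (U : E3 →L[ℂ] E3) (v : Fin 3 → E3), D (fun s => U (v s)) = U.det * D v) (m m' : M) :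
    Gauge (PBr3_U L O m ∩ PBr3_U L O m') (PBr3_Ω L F D m) (PBr3_Ω L F D m') (PBr3_A L A m)
      (PBr3_A L A m') := by
  refine PBr3_gauge fun x hx => ?_
  obtain ⟨l, h1, h2⟩ := h.cmp' hx.1 hx.2
  refine ⟨fun x => l (PBr3_c L m x), h1.contMDiffAt.comp x (PBr3_c_smooth L hx.1.1), ?_,
    fun v => ?_⟩
  · filter_upwards [h2, (PBr3_U_open L (h.opn m)).mem_nhds hx.1] with x' ⟨⟨U, k1, k2⟩, _⟩ k3
    refine ⟨h.ne h0 k3, fun v => ?_⟩
    rw [← k2]
    exact (congrArg D (funext fun i => k1 (v i))).trans (hD U fun i => PBr3_G L F m x' (v i))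
  · have h3 := ((h1.differentiableAt (by simp)).hasFDerivAt.hasMFDerivAt.comp x
      (PBr3_hasD L hx.1.1)).mfderiv
    have h4 : ∀ m, PBr3_A L A m x ![v] = A m (PBr3_c L m x) ![PBr3_D L m x v] := fun m =>
      congrArg (A m (PBr3_c L m x)) (funext fun i => by fin_cases i; rfl)
    rw [h4, h4, h2.self_of_nhds.2 v]
    exact congrArg (fun f : E →L[ℝ] ℂ => (f v / l (PBr3_c L m x)).im) h3.symm

end Pool.Agent.Work.MP_bf98aa_gt.Cp
end

-- merged part: Pool.Agent.Work.MP_bf98aa_gt.Ki.Stmt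
section
/-!
The statement: a path of symplectic forms on a closed 6-manifold, starting at a Kaehler form, along
which the first Chern class times the square of the form changes sign.
-/

set_option autoImplicit false

open scoped Manifold ContDiff

namespace Pool.Agent.Work.MP_bf98aa_gt.Ki

open Pool.Agent.Work.MP_bf98aa_gt.Th Pool.Agent.Work.MP_bf98aa_gt.Cp

/-- The statement of the theorem. -/
def Goal : Prop :=
  ∃ (M : Type) (_ : TopologicalSpace M) (_ : T2Space M) (_ : CompactSpace M)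
    (_ : ConnectedSpace M) (_ : ChartedSpace (Sp (Fin 3)) M) (_ : IsManifold 𝓘(ℝ, Sp (Fin 3)) ∞ M)
    (η : Fin 3 → Form (Sp (Fin 3)) M 2) (w : ℝ → Form (Sp (Fin 3)) M 2)
    (J : Endo (Sp (Fin 3)) M) (ρ σ : Form (Sp (Fin 3)) M 2) (a : Fin 4 → Form (Sp (Fin 3)) M 1),
    (∀ i, (η i).Closed) ∧ (∀ s, w s = comb η ![1, s ^ 2, s]) ∧
    (∀ s ∈ Set.Icc (0 : ℝ) 1, (w s).Closed ∧ (w s).Nondeg) ∧
    Tamed (w 0) J ∧ (∀ x u v, w 0 x ![J x u, J x v] = w 0 x ![u, v]) ∧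
    (∃ J₀, ∀ p, ∀ y ∈ (chartAt (Sp (Fin 3)) p).target, J.loc p y = J₀) ∧
    RepC1 J ρ ∧ (∀ i, (a i).Closed) ∧
    (∀ x u v, σ x ![u, v] = a 0 x ![u] * a 1 x ![v] - a 0 x ![v] * a 1 x ![u] +
      (a 2 x ![u] * a 3 x ![v] - a 2 x ![v] * a 3 x ![u])) ∧ (ρ.sub σ).Exact ∧
    (∃ c < 0, Integral (w 0) (coef2 ![ρ, w 0, w 0]) c) ∧
    (∃ c > 0, Integral (w 1) (coef2 ![ρ, w 1, w 1]) c) ∧
    ∀ s ∈ Set.Icc (0 : ℝ) 1, ∃ c > 0, Integral (w s) (coef2 ![ρ, ρ, w s]) c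

end Pool.Agent.Work.MP_bf98aa_gt.Ki
end

-- merged part: Pool.Agent.Work.MP_bf98aa_gt.Ki.T0
section
/-!
Fields of endomorphisms and forms read in charts; interpolation of tamed complex structures.
PLAN. Write `S = mfderiv (chartAt p).symm y`, `C = mfderiv (chartAt p) ((chartAt p).symm y)`; `(mdifferentiable_chart p).symm_comp_deriv`, `comp_symm_deriv` say that they are inverse to each other.
`loc_change`: with the transition map `τ = chartAt p ∘ (chartAt p').symm` one has near `y'`: `J.loc p' y = (fderiv τ y)⁻¹ ∘ J.loc p (τ y) ∘ fderiv τ y` (chain rule; `contDiffAt_map_inverse` or the derivative of the inverse transition map).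
Compare `PBr3_t_smooth`, `PBr3_t_deriv` in `Cp/PBr3A.lean`. `sum_inv`: if `(J + J') v = 0` then `w (v, J v) + w (v, J' v) = 0`. `cayley`: `S = J₀ + J₁`, `Z = S⁻¹ (J₁ - J₀)` anticommutes with `J₀`
(`S J₀ = J₁ S`, `S J₁ = J₀ S`), `1 - Z = 2 S⁻¹ J₀`; the function `t ↦ w (G v, G J₀ v) = w (v, J₀ v) + t (..) - t² w (Z v, J₀ Z v)` is concave and positive at `t = 0` and `t = 1`; in particular `G` is injective.
-/

set_option autoImplicit false

open scoped ContDiff Topology Manifold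
open Set Filter MeasureTheory

namespace Pool.Agent.Work.MP_bf98aa_gt.Ki

open Pool.Agent.Work.MP_bf98aa_gt.Th Pool.Agent.Work.MP_bf98aa_gt.Cp

section
variable {E : Type} [NormedAddCommGroup E] [NormedSpace ℝ E] [FiniteDimensional ℝ E]

/-- A complex structure tamed by `w`. -/
def TJ (w : Alt E 2) (J : E →L[ℝ] E) : Prop := (∀ v, J (J v) = -v) ∧ ∀ v, v ≠ 0 → 0 < w ![v, J v]

/-- The intertwining operator. -/
noncomputable def cayG (J₀ J₁ : E →L[ℝ] E) (t : ℝ) : E →L[ℝ] E :=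
  ContinuousLinearMap.id ℝ E - t • (J₀ + J₁).inverse.comp (J₁ - J₀)

/-- The path from `J₀` to `J₁`. -/
noncomputable def cay (J₀ J₁ : E →L[ℝ] E) (t : ℝ) : E →L[ℝ] E :=
  (cayG J₀ J₁ t).comp (J₀.comp (cayG J₀ J₁ t).inverse)

lemma T0_inv {L : E →L[ℝ] E} (h : ∀ v, v ≠ 0 → L v ≠ 0) : L.IsInvertible :=
  ⟨(LinearEquiv.ofInjectiveEndo L.toLinearMap ((injective_iff_map_eq_zero _).2
    fun v k => by_contra fun n => h v n k)).toContinuousLinearEquiv, by ext; rfl⟩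

theorem sum_inv {w : Alt E 2} {J J' : E →L[ℝ] E} (h : TJ w J) (h' : TJ w J') :
    (J + J').IsInvertible := by
  obtain ⟨B, hB⟩ := exists_bilin w
  refine T0_inv fun v n k => ?_
  have := add_pos (h.2 v n) (h'.2 v n)
  rw [hB, hB, ← map_add, ← add_apply, k, map_zero] at this
  exact this.false

theorem cayley {w : Alt E 2} {J₀ J₁ : E →L[ℝ] E} (h : TJ w J₀) (h' : TJ w J₁) {t : ℝ}
    (ht : t ∈ Icc (0 : ℝ) 1) : (cayG J₀ J₁ t).IsInvertible ∧ TJ w (cay J₀ J₁ t) ∧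
      cay J₀ J₁ 0 = J₀ ∧ cay J₀ J₁ 1 = J₁ := by
  obtain ⟨B, hB⟩ := exists_bilin w
  have i := sum_inv h h'
  obtain ⟨T, hT⟩ : ∃ T, T = (J₀ + J₁).inverse := ⟨_, rfl⟩
  have a : ∀ v, T (J₀ v + J₁ v) = v := fun v => hT ▸ i.inverse_apply_self v
  have b : ∀ v, J₀ (T v) + J₁ (T v) = v := fun v => hT ▸ i.self_apply_inverse v
  have c : ∀ v, T (J₁ v) = J₀ (T v) := fun v => by
    rw [← a (J₀ (T v)), h.1]
    conv_lhs => rw [← b v, map_add, h'.1, add_comm]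
  have d : ∀ v, T (J₀ v) = J₁ (T v) := fun v => by
    rw [← a (J₁ (T v)), h'.1]
    conv_lhs => rw [← b v, map_add, h.1, add_comm]
  have G : ∀ t v, cayG J₀ J₁ t v = v - t • T (J₁ v - J₀ v) := fun t v => by simp [cayG, hT]
  have G1 : ∀ v, cayG J₀ J₁ 1 v = (2 : ℝ) • T (J₀ v) := fun v => by
    rw [G, one_smul, map_sub, two_smul]
    conv_lhs => arg 1; rw [← a v, map_add]
    abel
  have G2 : ∀ v, cayG J₀ J₁ 1 (J₀ v) = J₁ (cayG J₀ J₁ 1 v) := fun v => by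
    rw [G1, G1, map_smul, d (J₀ v)]
  have Z : ∀ v, T (J₁ (J₀ v) - J₀ (J₀ v)) = -J₀ (T (J₁ v - J₀ v)) := fun v => by
    rw [← c, ← map_neg, map_sub J₁, h.1, h'.1, sub_neg_eq_add, neg_sub, sub_neg_eq_add]
  have pos : ∀ t ∈ Icc (0 : ℝ) 1, ∀ v, v ≠ 0 →
      0 < B (cayG J₀ J₁ t v) (cayG J₀ J₁ t (J₀ v)) := fun t ht v n => by
    have p0 := h.2 v n
    have p1 := h'.2 (cayG J₀ J₁ 1 v) fun k => n (by
      rw [G1, smul_eq_zero_iff_right two_ne_zero] at k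
      rw [← neg_eq_zero, ← h.1, ← b (J₀ v), k, map_zero, map_zero, add_zero, map_zero])
    have p2 : 0 ≤ B (T (J₁ v - J₀ v)) (J₀ (T (J₁ v - J₀ v))) := by
      by_cases k : T (J₁ v - J₀ v) = 0
      · simp [k]
      · exact hB _ _ ▸ (h.2 _ k).le
    rw [← G2, hB, G, G, Z] at p1
    rw [hB] at p0
    rw [G, G, Z]
    generalize T (J₁ v - J₀ v) = z at *
    simp only [map_sub, map_smul, map_neg, sub_apply, smul_apply, smul_eq_mul] at p1 ⊢
    have q := mul_nonneg (mul_nonneg ht.1 (sub_nonneg.2 ht.2)) p2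
    rcases ht.1.eq_or_lt with k | k
    · rw [← k]
      linarith
    · nlinarith [mul_pos k p1, mul_nonneg (sub_nonneg.2 ht.2) p0.le]
  have inv : ∀ t ∈ Icc (0 : ℝ) 1, (cayG J₀ J₁ t).IsInvertible := fun t ht =>
    T0_inv fun v n k => by
      have := pos t ht v n
      rw [k, map_zero, zero_apply] at this
      exact this.false
  have j := inv t ht
  refine ⟨j, ⟨fun v => ?_, fun v n => ?_⟩, ?_, ?_⟩
  · simp [cay, j.inverse_apply_self, j.self_apply_inverse, h.1]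
  · have := pos t ht ((cayG J₀ J₁ t).inverse v) fun k => n (by
      rw [← j.self_apply_inverse v, k, map_zero])
    rwa [j.self_apply_inverse, ← hB] at this
  · ext v
    simp [cay, cayG]
  · ext v
    exact (G2 _).trans (congrArg J₁ ((inv 1 (by simp)).self_apply_inverse v))

omit [FiniteDimensional ℝ E] in
lemma T0_conj {A C S : E →L[ℝ] E} (h1 : ∀ v, C (S v) = v) (h2 : ∀ v, S (C v) = v)
    (h : A.IsInvertible) : (C.comp (A.comp S)).inverse = C.comp (A.inverse.comp S) :=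
  ContinuousLinearMap.inverse_eq (by ext v; simp [h1, h2, h.self_apply_inverse])
    (by ext v; simp [h1, h2, h.inverse_apply_self])

theorem cay_conj {J₀ J₁ : E →L[ℝ] E} (t : ℝ) {C S : E →L[ℝ] E} (h1 : ∀ v, C (S v) = v)
    (h2 : ∀ v, S (C v) = v) (hi : (J₀ + J₁).IsInvertible) (hG : (cayG J₀ J₁ t).IsInvertible) :
    C.comp ((cay J₀ J₁ t).comp S) = cay (C.comp (J₀.comp S)) (C.comp (J₁.comp S)) t := by
  have e : cayG (C.comp (J₀.comp S)) (C.comp (J₁.comp S)) t = C.comp ((cayG J₀ J₁ t).comp S) := by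
    rw [cayG, ← ContinuousLinearMap.comp_add, ← ContinuousLinearMap.add_comp, T0_conj h1 h2 hi]
    ext v
    simp [cayG, h1, h2]
  rw [cay, cay, e, T0_conj h1 h2 hG]
  ext v
  simp [h2]

theorem contDiffAt_cay {X : Type} [NormedAddCommGroup X] [NormedSpace ℝ X] {J₀ J₁ : X → E →L[ℝ] E}
    {t : X → ℝ} {x : X} (h0 : ContDiffAt ℝ ∞ J₀ x) (h1 : ContDiffAt ℝ ∞ J₁ x)
    (ht : ContDiffAt ℝ ∞ t x) (hi : (J₀ x + J₁ x).IsInvertible)
    (hG : (cayG (J₀ x) (J₁ x) (t x)).IsInvertible) :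
    ContDiffAt ℝ ∞ (fun y => cay (J₀ y) (J₁ y) (t y)) x := by
  have := FiniteDimensional.complete ℝ E
  have g : ContDiffAt ℝ ∞ (fun y => cayG (J₀ y) (J₁ y) (t y)) x := contDiffAt_const.sub (ht.smul
    ((hi.contDiffAt_map_inverse.comp x (f := fun y => J₀ y + J₁ y) (h0.add h1)).clm_comp
      (h1.sub h0)))
  exact g.clm_comp (h0.clm_comp (hG.contDiffAt_map_inverse.comp x
    (f := fun y => cayG (J₀ y) (J₁ y) (t y)) g))

theorem TJ.near {X : Type} [TopologicalSpace X] {w : X → Alt E 2} {J : X → E →L[ℝ] E} {x : X}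
    (hw : ContinuousAt w x) (hJ : ContinuousAt J x) (h : ∀ v, v ≠ 0 → 0 < w x ![v, J x v]) :
    ∀ᶠ y in 𝓝 x, ∀ v, v ≠ 0 → 0 < w y ![v, J y v] := by
  have := FiniteDimensional.proper_real E
  refine ((isCompact_sphere (0 : E) 1).eventually_forall_of_forall_eventually
    (P := fun y v => 0 < w y ![v, J y v]) fun v hv => ?_).mono fun y hy v n => ?_
  · have c : ContinuousAt (fun z : X × E => w z.1 ![z.2, J z.1 z.2]) (x, v) :=
      (hw.comp (f := Prod.fst) (x := (x, v)) continuousAt_fst).eval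
        (continuousAt_pi.2 (Fin.forall_fin_two.2 ⟨continuousAt_snd,
          (hJ.comp (f := Prod.fst) (x := (x, v)) continuousAt_fst).clm_apply continuousAt_snd⟩))
    exact c.eventually (lt_mem_nhds (h v (ne_zero_of_mem_unit_sphere ⟨v, hv⟩)))
  · obtain ⟨B, hB⟩ := exists_bilin (w y)
    have p := inv_pos.2 (norm_pos_iff.2 n)
    have := hy (‖v‖⁻¹ • v) (mem_sphere_zero_iff_norm.2 (norm_smul_inv_norm n))
    simp only [hB, map_smul, smul_apply, smul_eq_mul] at this ⊢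
    exact (mul_pos_iff_of_pos_left p).1 ((mul_pos_iff_of_pos_left p).1 this)

variable {M : Type} [TopologicalSpace M] [ChartedSpace E M] [IsManifold 𝓘(ℝ, E) ∞ M]

/-- The derivative of the chart at `p`. -/
noncomputable def T0_D (p x : M) : E →L[ℝ] E := mfderiv 𝓘(ℝ, E) 𝓘(ℝ, E) (chartAt E p) x

/-- The value of a field. -/
def T0_J (J : Endo E M) (x : M) : E →L[ℝ] E := J x

omit [FiniteDimensional ℝ E] in
lemma T0_DS {p x : M} (hx : x ∈ (chartAt E p).source) :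
    (∀ v, PBr3_S p (chartAt E p x) (T0_D p x v) = v) ∧
      ∀ v, T0_D p x (PBr3_S p (chartAt E p x) v) = v := by
  refine ⟨fun v => DFunLike.congr_fun
    ((mdifferentiable_chart (I := 𝓘(ℝ, E)) p).symm_comp_deriv hx) v, fun v => ?_⟩
  have : T0_D p ((chartAt E p).symm (chartAt E p x)) (PBr3_S p (chartAt E p x) v) = v :=
    DFunLike.congr_fun ((mdifferentiable_chart (I := 𝓘(ℝ, E)) p).comp_symm_deriv
      ((chartAt E p).map_source hx)) v
  rwa [(chartAt E p).left_inv hx] at this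

omit [FiniteDimensional ℝ E] [IsManifold 𝓘(ℝ, E) ∞ M] in
lemma T0_loc (J : Endo E M) {p x : M} (hx : x ∈ (chartAt E p).source) : J.loc p (chartAt E p x) =
    (T0_D p x).comp ((T0_J J x).comp (PBr3_S p (chartAt E p x))) := by
  conv_rhs => rw [← congrArg (T0_D p) ((chartAt E p).left_inv hx),
    ← congrArg (T0_J J) ((chartAt E p).left_inv hx)]
  rfl

theorem TJ_loc {w : Form E M 2} {J : Endo E M} {p : M} {y : E} (hy : y ∈ (chartAt E p).target) :
    TJ (w.loc p y) (J.loc p y) ↔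
      TJ (E := E) (w ((chartAt E p).symm y)) (J ((chartAt E p).symm y)) := by
  obtain ⟨h1, h2⟩ := T0_DS ((chartAt E p).map_target hy)
  rw [(chartAt E p).right_inv hy] at h1 h2
  obtain ⟨u, hu⟩ : ∃ u : Alt E 2, u = w ((chartAt E p).symm y) := ⟨_, rfl⟩
  rw [show w.loc p y = u.compContinuousLinearMap (PBr3_S p y) by rw [hu]; rfl, ← hu]
  change TJ _ ((T0_D p _).comp ((T0_J J _).comp (PBr3_S p y))) ↔ TJ _ (T0_J J _)
  simp only [TJ, IPf_comp, ContinuousLinearMap.comp_apply, h1]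
  refine ⟨fun h => ⟨fun v => ?_, fun v n => ?_⟩, fun h => ⟨fun v => ?_, fun v n => h.2 _ fun k =>
    n (by rw [← h2 v, k, map_zero])⟩⟩
  · simpa only [h1, map_neg] using congrArg (PBr3_S p y) (h.1 (T0_D p ((chartAt E p).symm y) v))
  · simpa only [h1] using h.2 (T0_D p ((chartAt E p).symm y) v) fun k =>
      n (by rw [← h1 v, k, map_zero])
  · rw [h.1, map_neg, h2]

theorem loc_change {J : Endo E M} {p p' x : M} (hx : x ∈ (chartAt E p).source)
    (hx' : x ∈ (chartAt E p').source) (h : ContDiffAt ℝ ∞ (J.loc p) (chartAt E p x)) :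
    ContDiffAt ℝ ∞ (J.loc p') (chartAt E p' x) := by
  have := FiniteDimensional.complete ℝ E
  have e := (chartAt E p').left_inv hx'
  have t := (chartAt E p').map_source hx'
  have o := (chartAt E p').open_target.mem_nhds t
  have s : ContDiffAt ℝ ∞ (chartAt E p ∘ (chartAt E p').symm) (chartAt E p' x) :=
    contMDiffAt_iff_contDiffAt.1 (((contMDiffOn_chart (I := 𝓘(ℝ, E))).contMDiffAt
      ((chartAt E p).open_source.mem_nhds (e.symm ▸ hx))).comp _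
        (contMDiffOn_chart_symm.contMDiffAt o))
  have d := s.fderiv_right (m := ∞) le_rfl
  have key : ∀ z ∈ (chartAt E p).source, z ∈ (chartAt E p').source →
      fderiv ℝ (chartAt E p ∘ (chartAt E p').symm) (chartAt E p' z) =
        (T0_D p z).comp (PBr3_S p' (chartAt E p' z)) ∧
      ((T0_D p z).comp (PBr3_S p' (chartAt E p' z))).IsInvertible ∧
      ((T0_D p z).comp (PBr3_S p' (chartAt E p' z))).inverse =
        (T0_D p' z).comp (PBr3_S p (chartAt E p z)) := fun z hz hz' => by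
    have a : ((T0_D p z).comp (PBr3_S p' (chartAt E p' z))).comp
        ((T0_D p' z).comp (PBr3_S p (chartAt E p z))) = .id ℝ E := by
      ext v; simp [(T0_DS hz').1, (T0_DS hz).2]
    have b : ((T0_D p' z).comp (PBr3_S p (chartAt E p z))).comp
        ((T0_D p z).comp (PBr3_S p' (chartAt E p' z))) = .id ℝ E := by
      ext v; simp [(T0_DS hz).1, (T0_DS hz').2]
    refine ⟨?_, .of_inverse a b, ContinuousLinearMap.inverse_eq a b⟩
    have e := (chartAt E p').left_inv hz'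
    conv_rhs => rw [← congrArg (T0_D p) e]
    exact HasFDerivAt.fderiv (((mdifferentiable_chart (I := 𝓘(ℝ, E)) p).mdifferentiableAt
      (e.symm ▸ hz)).hasMFDerivAt.comp _ ((mdifferentiable_chart
        (I := 𝓘(ℝ, E)) p').mdifferentiableAt_symm
          ((chartAt E p').map_source hz')).hasMFDerivAt).hasFDerivAt
  have i : (fderiv ℝ (chartAt E p ∘ (chartAt E p').symm) (chartAt E p' x)).IsInvertible :=
    (key x hx hx').1 ▸ (key x hx hx').2.1
  refine ((i.contDiffAt_map_inverse.comp _ d).clm_comp (((by rwa [Function.comp_apply, e] :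
    ContDiffAt ℝ ∞ (J.loc p) _).comp _ s).clm_comp d)).congr_of_eventuallyEq ?_
  filter_upwards [o, ((chartAt E p').continuousAt_symm t).eventually
    ((chartAt E p).open_source.mem_nhds (e.symm ▸ hx))] with y h1 h2
  have h3 := (chartAt E p').map_target h1
  obtain ⟨z, hz⟩ : ∃ z, z = (chartAt E p').symm y := ⟨_, rfl⟩
  obtain rfl : y = chartAt E p' z := by rw [hz, (chartAt E p').right_inv h1]
  rw [← hz] at h2 h3
  simp only [Function.comp_apply, (key z h2 h3).1, (key z h2 h3).2.2, ← hz, T0_loc J h2,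
    T0_loc J h3]
  ext v
  simp [(T0_DS h2).1]

/-- A field which is constant in the chart at `p`. -/
theorem exists_const (p : M) (J₀ : E →L[ℝ] E) :
    ∃ J : Endo E M, ∀ y ∈ (chartAt E p).target, J.loc p y = J₀ := by
  refine ⟨fun x => ((PBr3_S p (chartAt E p x)).comp (J₀.comp (T0_D p x)) :), fun y hy => ?_⟩
  have h := (chartAt E p).map_target hy
  rw [← (chartAt E p).right_inv hy, T0_loc _ h]
  ext v
  exact ((T0_DS h).2 _).trans (congrArg J₀ ((T0_DS h).2 v))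

end

theorem exists_TJ {n : ℕ} (w : Alt (Sp (Fin n)) 2) (h : ∀ u, (∀ v, w ![u, v] = 0) → u = 0) :
    ∃ J, TJ w J := by
  obtain ⟨A, hA⟩ := exists_darboux w h
  obtain ⟨J, hJ⟩ := exists_JL (S := Fin n)
  have p : ∀ v, v ≠ 0 → 0 < w ![A v, A (J v)] := fun v k => by
    rw [← IPf_comp, hA, omA_apply, ← hJ, om_Jv]
    exact (pow_pos (norm_pos_iff.2 k) 2).trans_le (norm_sq_le_nsq v)
  have i : A.IsInvertible := T0_inv fun v k z => by
    obtain ⟨B, hB⟩ := exists_bilin w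
    have := p v k
    rw [z, hB, map_zero, zero_apply] at this
    exact this.false
  refine ⟨A.comp (J.comp A.inverse), fun v => ?_, fun v k => ?_⟩
  · simp [i.inverse_apply_self, i.self_apply_inverse, ← hJ, Jv_Jv]
  · have := p (A.inverse v) fun z => k (by rw [← i.self_apply_inverse v, z, map_zero])
    rwa [i.self_apply_inverse] at this

end Pool.Agent.Work.MP_bf98aa_gt.Ki
end
end

-- merged part: Pool.Agent.Work.MP_bf98aa_gt.Kg.Res
section
-- merged part: Pool.Agent.Work.MP_bf98aa_gt.Ki.T1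
section
/-!
Every nondegenerate form on a closed manifold tames an almost complex structure.
PLAN. `local_tamed`: `exists_TJ` for `w.loc p (chartAt p p)`, `exists_const`, `TJ.near`, `TJ_loc`, `loc_change`. `patch`: put `t = smoothTransition (3 b / (a + b) - 1)` and `J x = J₀ x` if `b x = 0`, `J₁ x` if `a x = 0`,
`cay (J₀ x) (J₁ x) (t x)` otherwise; near a point with `b = 0` one has `t = 0`, so `J = J₀`; near a point with `a = 0` one has `t = 1`, so `J = J₁` (`cayley`); elsewhere `cay_conj`, `contDiffAt_cay`.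
`exists_tamed`: `SmoothPartitionOfUnity.exists_isSubordinate` for the sets of `local_tamed`, finitely many functions do not vanish (`LocallyFinite.finite_nonempty_of_compact`), induction over the finite set with `a` the sum of the functions treated so far.
-/

set_option autoImplicit false

open scoped ContDiff Topology Manifold
open Set Filter MeasureTheory

namespace Pool.Agent.Work.MP_bf98aa_gt.Ki

open Pool.Agent.Work.MP_bf98aa_gt.Th Pool.Agent.Work.MP_bf98aa_gt.Cp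

variable {n : ℕ} {M : Type} [TopologicalSpace M] [ChartedSpace (Sp (Fin n)) M]
  [IsManifold 𝓘(ℝ, Sp (Fin n)) ∞ M] {w : Form (Sp (Fin n)) M 2}

/-- Smooth and tamed on `U`. -/
def TamedOn (w : Form (Sp (Fin n)) M 2) (J : Endo (Sp (Fin n)) M) (U : Set M) : Prop :=
  ∀ x ∈ U, ContDiffAt ℝ ∞ (J.loc x) (chartAt (Sp (Fin n)) x x) ∧ TJ (E := Sp (Fin n)) (w x) (J x)

theorem tamed_iff {J : Endo (Sp (Fin n)) M} : Tamed w J ↔ TamedOn w J univ := by
  refine ⟨fun h x _ => ⟨(h.1 x).contDiffAt ((chartAt _ x).open_target.mem_nhds (mem_chart_target _ x)),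
    h.2.1 x, h.2.2 x⟩, fun h => ⟨fun p y hy => ?_, fun x => (h x trivial).2.1,
      fun x => (h x trivial).2.2⟩⟩
  have h1 := loc_change (mem_chart_source _ _) ((chartAt _ p).map_target hy) (h _ trivial).1
  rw [(chartAt _ p).right_inv hy] at h1
  exact h1.contDiffWithinAt

theorem local_tamed (hw : w.Smooth) (hn : w.Nondeg) (p : M) :
    ∃ U J, IsOpen U ∧ p ∈ U ∧ TamedOn w J U := by
  have hp := mem_chart_target (Sp (Fin n)) p
  obtain ⟨J', h'⟩ := exists_TJ (w ((chartAt _ p).symm (chartAt (Sp (Fin n)) p p))) (hn _)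
  have h0 := (TJ_loc (w := w) (J := fun _ => J') hp).2 h'
  obtain ⟨J, hJ⟩ := exists_const p (Endo.loc (fun _ => J') p (chartAt (Sp (Fin n)) p p))
  have h1 := TJ.near ((hw p).contDiffAt ((chartAt _ p).open_target.mem_nhds hp)).continuousAt
    continuousAt_const h0.2
  obtain ⟨U, h2, h3, h4⟩ := eventually_nhds_iff.1
    ((((chartAt _ p).continuousAt (mem_chart_source _ p)).eventually h1).and
      (chart_source_mem_nhds (Sp (Fin n)) p))
  refine ⟨U, J, h3, h4, fun x hx => ?_⟩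
  obtain ⟨h5, h6⟩ := h2 x hx
  have h7 := (chartAt _ p).map_source h6
  refine ⟨loc_change h6 (mem_chart_source _ x) (contDiffAt_const.congr_of_eventuallyEq
    (mem_of_superset ((chartAt _ p).open_target.mem_nhds h7) hJ)), ?_⟩
  have h8 := (TJ_loc (w := w) (J := J) h7).1 (by rw [hJ _ h7]; exact ⟨h0.1, h5⟩)
  rwa [(chartAt _ p).left_inv h6] at h8

omit [IsManifold 𝓘(ℝ, Sp (Fin n)) ∞ M] in
theorem T1_congr {J J' : Endo (Sp (Fin n)) M} {x : M}
    (h : ContDiffAt ℝ ∞ (J'.loc x) (chartAt (Sp (Fin n)) x x) ∧ TJ (E := Sp (Fin n)) (w x) (J' x))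
    (e : ∀ᶠ y in 𝓝 x, J y = J' y) :
    ContDiffAt ℝ ∞ (J.loc x) (chartAt (Sp (Fin n)) x x) ∧ TJ (E := Sp (Fin n)) (w x) (J x) := by
  refine ⟨h.1.congr_of_eventuallyEq ?_, e.self_of_nhds ▸ h.2⟩
  filter_upwards [((chartAt (Sp (Fin n)) x).tendsto_symm (mem_chart_source _ x)).eventually e]
    with y hy
  rw [Endo.loc, Endo.loc, hy]

theorem patch {J₀ J₁ : Endo (Sp (Fin n)) M} {a b : M → ℝ}
    (ha : ContMDiff 𝓘(ℝ, Sp (Fin n)) 𝓘(ℝ, ℝ) ∞ a) (hb : ContMDiff 𝓘(ℝ, Sp (Fin n)) 𝓘(ℝ, ℝ) ∞ b)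
    (ha0 : ∀ x, 0 ≤ a x) (hb0 : ∀ x, 0 ≤ b x) (h0 : TamedOn w J₀ {x | 0 < a x})
    (h1 : TamedOn w J₁ {x | 0 < b x}) : ∃ J, TamedOn w J {x | 0 < a x + b x} := by
  classical
  obtain ⟨t, ht⟩ : ∃ t : M → ℝ, t = fun x => Real.smoothTransition (3 * b x / (a x + b x) - 1) :=
    ⟨_, rfl⟩
  have t01 : ∀ x, t x ∈ Icc (0 : ℝ) 1 := fun x =>
    ht ▸ ⟨Real.smoothTransition.nonneg _, Real.smoothTransition.le_one _⟩
  let J₂ : Endo (Sp (Fin n)) M := fun x => cay (E := Sp (Fin n)) (J₀ x) (J₁ x) (t x)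
  refine ⟨fun x => if b x = 0 then J₀ x else if a x = 0 then J₁ x else J₂ x, fun x hx => ?_⟩
  have hx' : a x + b x ≠ 0 := ne_of_gt hx
  have hc : ContinuousAt (fun x => 3 * b x / (a x + b x) - 1) x :=
    ((continuousAt_const.mul hb.continuous.continuousAt).div
      (ha.continuous.add hb.continuous).continuousAt hx').sub continuousAt_const
  by_cases k1 : b x = 0
  · have k : 0 < a x := by simpa [k1] using hx
    refine T1_congr (h0 x k) ?_
    filter_upwards [ha.continuous.continuousAt.eventually_const_lt k,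
      hc.eventually_lt_const (u := 0) (by simp [k1])] with y p1 p2
    by_cases p3 : b y = 0
    · exact if_pos p3
    · rw [if_neg p3, if_neg p1.ne']
      have e : t y = 0 := ht ▸ Real.smoothTransition.zero_of_nonpos p2.le
      exact (congrArg (cay (E := Sp (Fin n)) (J₀ y) (J₁ y)) e).trans
        (cayley (h0 y p1).2 (h1 y ((hb0 y).lt_of_ne' p3)).2 (t01 y)).2.2.1
  have k1' : 0 < b x := (hb0 x).lt_of_ne' k1
  by_cases k2 : a x = 0
  · refine T1_congr (h1 x k1') ?_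
    filter_upwards [hb.continuous.continuousAt.eventually_const_lt k1',
      hc.eventually_const_lt (u := 1) (by
        simp only [k2, zero_add, mul_div_cancel_right₀ _ k1]
        norm_num)] with y p1 p2
    rw [if_neg p1.ne']
    by_cases p3 : a y = 0
    · exact if_pos p3
    · rw [if_neg p3]
      have e : t y = 1 := ht ▸ Real.smoothTransition.one_of_one_le p2.le
      exact (congrArg (cay (E := Sp (Fin n)) (J₀ y) (J₁ y)) e).trans
        (cayley (h0 y ((ha0 y).lt_of_ne' p3)).2 (h1 y p1).2 (t01 y)).2.2.2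
  have k2' : 0 < a x := (ha0 x).lt_of_ne' k2
  have ev := (ha.continuous.continuousAt.eventually_const_lt k2').and
    (hb.continuous.continuousAt.eventually_const_lt k1')
  refine T1_congr (J' := J₂) ⟨?_, (cayley (h0 x k2').2 (h1 x k1').2 (t01 x)).2.1⟩
    (ev.mono fun y p => by rw [if_neg p.2.ne', if_neg p.1.ne'])
  have hy := mem_chart_target (Sp (Fin n)) x
  have ev' := ((chartAt (Sp (Fin n)) x).tendsto_symm (mem_chart_source _ x)).eventually ev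
  have q0 := (TJ_loc hy).2 (h0 _ ev'.self_of_nhds.1).2
  have q1 := (TJ_loc hy).2 (h1 _ ev'.self_of_nhds.2).2
  have sm : ∀ {f : M → ℝ}, ContMDiff 𝓘(ℝ, Sp (Fin n)) 𝓘(ℝ, ℝ) ∞ f →
      ContDiffAt ℝ ∞ (fun y => f ((chartAt (Sp (Fin n)) x).symm y)) (chartAt (Sp (Fin n)) x x) :=
    fun hf => contMDiffAt_iff_contDiffAt.1 (hf.contMDiffAt.comp _
      (contMDiffOn_chart_symm.contMDiffAt ((chartAt _ x).open_target.mem_nhds hy)))
  have st : ContDiffAt ℝ ∞ (fun y => t ((chartAt (Sp (Fin n)) x).symm y))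
      (chartAt (Sp (Fin n)) x x) := by
    rw [ht]
    exact Real.smoothTransition.contDiffAt.comp _ (((contDiffAt_const.mul (sm hb)).div
      ((sm ha).add (sm hb)) (add_pos ev'.self_of_nhds.1 ev'.self_of_nhds.2).ne').sub contDiffAt_const)
  refine (contDiffAt_cay (h0 x k2').1 (h1 x k1').1 st (sum_inv q0 q1)
    (cayley q0 q1 (t01 _)).1).congr_of_eventuallyEq ?_
  filter_upwards [ev', (chartAt _ x).open_target.mem_nhds hy] with y p hy
  have he := mdifferentiable_chart (I := 𝓘(ℝ, Sp (Fin n))) x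
  have c1 := fun v => congrArg (fun f : Sp (Fin n) →L[ℝ] Sp (Fin n) => f v) (he.comp_symm_deriv hy)
  refine cay_conj _ c1 (fun v => ?_) (sum_inv (h0 _ p.1).2 (h1 _ p.2).2)
    (cayley (h0 _ p.1).2 (h1 _ p.2).2 (t01 _)).1
  obtain ⟨u, rfl⟩ := he.symm.mfderiv_surjective hy v
  exact congrArg _ (c1 u)

theorem exists_tamed [T2Space M] [CompactSpace M] (hw : w.Smooth) (hn : w.Nondeg) :
    ∃ J, Tamed w J := by
  obtain ⟨U, J, -, h1, h2⟩ := (isCompact_univ (X := M)).induction_on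
    (p := fun s => ∃ U J, IsOpen U ∧ s ⊆ U ∧ TamedOn w J U)
    ⟨∅, fun _ => 0, isOpen_empty, Subset.rfl, fun _ h => h.elim⟩
    (fun s t hs ⟨U, J, a, b, c⟩ => ⟨U, J, a, hs.trans b, c⟩)
    (fun s t ⟨U, J, a, b, c⟩ ⟨U', J', a', b', c'⟩ => by
      obtain ⟨f, e, f1, f2⟩ := a.exists_contMDiff_support_eq (n := ⊤) 𝓘(ℝ, Sp (Fin n))
      obtain ⟨f', e', f1', f2'⟩ := a'.exists_contMDiff_support_eq (n := ⊤) 𝓘(ℝ, Sp (Fin n))
      obtain ⟨J'', h⟩ := patch f1 f1' f2 f2' (fun x hx => c x (e ▸ ne_of_gt hx))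
        fun x hx => c' x (e' ▸ ne_of_gt hx)
      refine ⟨U ∪ U', J'', a.union a', union_subset_union b b', fun x hx => h x ?_⟩
      rcases hx with hx | hx
      · exact add_pos_of_pos_of_nonneg ((f2 x).lt_of_ne' (e.ge hx)) (f2' x)
      · exact add_pos_of_nonneg_of_pos (f2 x) ((f2' x).lt_of_ne' (e'.ge hx)))
    fun p _ => by
      obtain ⟨U, J, a, b, c⟩ := local_tamed hw hn p
      exact ⟨U, mem_nhdsWithin_of_mem_nhds (a.mem_nhds b), U, J, a, Subset.rfl, c⟩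
  exact ⟨J, tamed_iff.2 fun x hx => h2 x (h1 hx)⟩

end Pool.Agent.Work.MP_bf98aa_gt.Ki
end

-- merged part: Pool.Agent.Work.MP_bf98aa_gt.Ki.T2
section
/-!
The first Chern class along a path of nondegenerate forms.
PLAN. `RepC1_tamed`: `G x = J x + J' x` is invertible (`sum_inv`) and `J' G = G J`; replace `Ω i x` by `(Ω i x).compContinuousLinearMap (G x).inverse`, keep `U`, `A`, `l`. In a chart the new form is
`(Ω.loc p y).compContinuousLinearMap (J.loc p y + J'.loc p y).inverse`; smoothness as in `PBr3_calt` (real and imaginary parts, `ContDiffAt.alt_comp`, `contDiffAt_map_inverse`).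
`Tamed_near`: `IsCompact.eventually_forall_of_forall_eventually` on `univ`; near `(s₀, x)` use `TJ.near` for `(s, y) ↦ (comb η (c s)).loc x y = ∑ i, c s i • (η i).loc x y` and `TJ_loc`.
-/

set_option autoImplicit false

open scoped ContDiff Topology Manifold
open Set Filter MeasureTheory

namespace Pool.Agent.Work.MP_bf98aa_gt.Ki

open Pool.Agent.Work.MP_bf98aa_gt.Th Pool.Agent.Work.MP_bf98aa_gt.Cp

section
variable {E : Type} [NormedAddCommGroup E] [NormedSpace ℝ E]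

theorem T2_lin {C S J J' : E →L[ℝ] E} (hCS : ∀ v, C (S v) = v) (hS : Function.Surjective S)
    (hG : (J + J').IsInvertible) (hH : (C.comp (J.comp S) + C.comp (J'.comp S)).IsInvertible)
    (v : E) :
    S ((C.comp (J.comp S) + C.comp (J'.comp S)).inverse v) = (J + J').inverse (S v) := by
  have h1 := hH.self_apply_inverse v
  set u := (C.comp (J.comp S) + C.comp (J'.comp S)).inverse v
  obtain ⟨a, ha⟩ := hS ((J + J') (S u))
  have h2 : a = v := by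
    rw [← hCS a, ha, ← h1]
    simp
  exact (hG.inverse_apply_eq.2 (h2 ▸ ha)).symm

theorem T2_int {J J' : E →L[ℝ] E} (h : ∀ v, J (J v) = -v) (h' : ∀ v, J' (J' v) = -v)
    (hG : (J + J').IsInvertible) (v : E) : (J + J').inverse (J' v) = J ((J + J').inverse v) := by
  refine hG.inverse_apply_eq.2 ?_
  conv_lhs => rw [← hG.self_apply_inverse v]
  simp only [add_apply, map_add, h, h']
  exact add_comm _ _

theorem T2_calt [FiniteDimensional ℝ E] {k : ℕ} {D : E → E [⋀^Fin k]→L[ℝ] ℂ}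
    {H : E → E →L[ℝ] E} {z : E} (hD : ContDiffAt ℝ ∞ D z) (h : ContDiffAt ℝ ∞ H z) :
    ContDiffAt ℝ ∞ (fun z => (D z).compContinuousLinearMap (H z)) z := by
  have h1 : ∀ (f : ℂ →L[ℝ] ℝ) (g : ℝ →L[ℝ] ℂ), ContDiffAt ℝ ∞ (fun z =>
      g.compContinuousAlternatingMap
        ((f.compContinuousAlternatingMap (D z)).compContinuousLinearMap (H z))) z := fun f g =>
    (ContinuousLinearMap.compContinuousAlternatingMapCLM ℝ E ℝ ℂ (Fin k)
      g).contDiff.contDiffAt.comp z (ContDiffAt.alt_comp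
        ((ContinuousLinearMap.compContinuousAlternatingMapCLM ℝ E ℂ ℝ (Fin k)
          f).contDiff.contDiffAt.comp z hD) h)
  refine ((h1 Complex.reCLM Complex.ofRealCLM).add
    (h1 Complex.imCLM (Complex.I • Complex.ofRealCLM))).congr_of_eventuallyEq
      (.of_forall fun z => ContinuousAlternatingMap.ext fun v => ?_)
  exact ((Complex.re_add_im _).symm.trans (congrArg _ (mul_comm _ _)))

variable {M : Type} [TopologicalSpace M] [ChartedSpace E M]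

/-- The form transported by the inverse of `J + J'`. -/
noncomputable def T2_tr {k : ℕ} (J J' : Endo E M) (Ω : CForm E M k) : CForm E M k := fun x =>
  ((Ω x).compContinuousLinearMap (J x + J' x).inverse :)

theorem T2_TJ {w : Form E M 2} {J : Endo E M} (h : Tamed w J) (x : M) : TJ (E := E) (w x) (J x) :=
  ⟨h.2.1 x, h.2.2 x⟩

theorem T2_comb_loc {k r : ℕ} (η : Fin r → Form E M k) (c : Fin r → ℝ) (p : M) (y : E) :
    (comb η c).loc p y = ∑ i, c i • (η i).loc p y := by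
  ext v
  simp [Form.loc, comb]

variable [FiniteDimensional ℝ E] [IsManifold 𝓘(ℝ, E) ∞ M]

theorem T2_frame {k : ℕ} {w ρ : Form E M 2} {J J' : Endo E M} (h : Tamed w J) (h' : Tamed w J')
    {U : Set M} {Ω : CForm E M (k + 1)} {A : Form E M 1} (hF : Frame J ρ U Ω A) :
    Frame J' ρ U (T2_tr J J' Ω) A := by
  have := FiniteDimensional.complete ℝ E
  obtain ⟨h1, h2, h3, h4, h5⟩ := hF
  have hG : ∀ x, (J x + J' x).IsInvertible := fun x =>
    sum_inv (E := E) (T2_TJ h x) (T2_TJ h' x)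
  refine ⟨h1, fun p => ?_, h3, fun x hx => ⟨fun h0 => (h4 x hx).1 ?_, fun v => ?_⟩, h5⟩
  · have hH : ∀ y ∈ (chartAt E p).target, (J.loc p y + J'.loc p y).IsInvertible := fun y hy =>
      sum_inv ((TJ_loc hy).2 (T2_TJ h _)) ((TJ_loc hy).2 (T2_TJ h' _))
    refine ContDiffOn.congr (f := fun y => (Ω.loc p y).compContinuousLinearMap
      (J.loc p y + J'.loc p y).inverse) (fun y hy => ?_) fun y hy => ?_
    · have ht := (chartAt E p).open_target.mem_nhds hy.1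
      exact (T2_calt ((h2 p).contDiffAt ((PBr3_seen_open h1 p).mem_nhds hy))
        ((hH y hy.1).contDiffAt_map_inverse.comp y
          (((h.1 p).contDiffAt ht).add ((h'.1 p).contDiffAt ht)))).contDiffWithinAt
    · have he := mdifferentiable_chart (I := 𝓘(ℝ, E)) p
      refine ContinuousAlternatingMap.ext fun v => congrArg (Ω ((chartAt E p).symm y))
        (funext fun i => (T2_lin (E := E) (fun u => ?_) (he.symm.mfderiv_surjective hy.1) (hG _)
          (hH y hy.1) (v i)).symm)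
      exact congrArg (fun f : E →L[ℝ] E => f u) (he.comp_symm_deriv hy.1)
  · refine ContinuousAlternatingMap.ext fun v => ?_
    exact (congrArg (Ω x) (funext fun i => ((hG x).inverse_apply_self (v i)).symm)).trans
      (congrArg (fun f : E [⋀^Fin (k + 1)]→L[ℝ] ℂ => f fun i => (J x + J' x) (v i)) h0)
  · refine Eq.trans (congrArg (Ω x) ?_) ((h4 x hx).2 fun i => (J x + J' x).inverse (v i))
    exact (Function.comp_update (J x + J' x).inverse v 0 _).trans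
      (congrArg _ (T2_int (E := E) (h.2.1 x) (h'.2.1 x) (hG x) _))

end

variable {n : ℕ} {M : Type} [TopologicalSpace M]

theorem RepC1_tamed [ChartedSpace (Sp (Fin (n + 1))) M] [IsManifold 𝓘(ℝ, Sp (Fin (n + 1))) ∞ M]
    {w ρ : Form (Sp (Fin (n + 1))) M 2} {J J' : Endo (Sp (Fin (n + 1))) M} (h : Tamed w J)
    (h' : Tamed w J') (hρ : RepC1 J ρ) : RepC1 J' ρ := by
  obtain ⟨h0, ι, U, Ω, A, h1, h2, h3⟩ := hρ
  refine ⟨h0, ι, U, fun i => T2_tr J J' (Ω i), A, h1, fun i => T2_frame h h' (h2 i), fun i j => ?_⟩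
  obtain ⟨l, k1, k2⟩ := h3 i j
  exact ⟨l, k1, fun x hx => ⟨fun v => (k2 x hx).1 _, (k2 x hx).2⟩⟩

theorem Tamed_near [ChartedSpace (Sp (Fin n)) M] [IsManifold 𝓘(ℝ, Sp (Fin n)) ∞ M] [CompactSpace M]
    {r : ℕ} {η : Fin r → Form (Sp (Fin n)) M 2} (hη : ∀ i, (η i).Smooth) {c : ℝ → Fin r → ℝ}
    (hc : Continuous c) {s₀ : ℝ} {J : Endo (Sp (Fin n)) M} (h : Tamed (comb η (c s₀)) J) :
    ∀ᶠ s in 𝓝 s₀, Tamed (comb η (c s)) J := by
  have key := isCompact_univ.eventually_forall_of_forall_eventually (x₀ := s₀)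
    (P := fun (s : ℝ) (x : M) => ∀ v, v ≠ 0 → 0 < comb η (c s) x ![v, J x v]) fun x _ => by
      have hx := mem_chart_source (Sp (Fin n)) x
      have hy := (chartAt (Sp (Fin n)) x).map_source hx
      have ht := (chartAt (Sp (Fin n)) x).open_target.mem_nhds hy
      have hφ : ContinuousAt (fun z : ℝ × M => chartAt (Sp (Fin n)) x z.2) (s₀, x) :=
        ContinuousAt.comp (g := chartAt (Sp (Fin n)) x)
          ((chartAt (Sp (Fin n)) x).continuousAt hx) continuous_snd.continuousAt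
      have hw : ContinuousAt (fun z : ℝ × M =>
          (comb η (c z.1)).loc x (chartAt (Sp (Fin n)) x z.2)) (s₀, x) := by
        simp only [T2_comb_loc]
        refine tendsto_finsetSum _ fun i _ => ContinuousAt.smul (f := fun z : ℝ × M => c z.1 i)
          (g := fun z : ℝ × M => (η i).loc x (chartAt (Sp (Fin n)) x z.2))
          ((continuous_apply i).comp (hc.comp continuous_fst)).continuousAt ?_
        exact ContinuousAt.comp (g := (η i).loc x) ((hη i x).contDiffAt ht).continuousAt hφ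
      have hJ : ContinuousAt (fun z : ℝ × M => J.loc x (chartAt (Sp (Fin n)) x z.2)) (s₀, x) :=
        ContinuousAt.comp (g := J.loc x) ((h.1 x).contDiffAt ht).continuousAt hφ
      have hs : ∀ᶠ z : ℝ × M in 𝓝 (s₀, x), z.2 ∈ (chartAt (Sp (Fin n)) x).source :=
        continuous_snd.continuousAt.eventually_mem
          ((chartAt (Sp (Fin n)) x).open_source.mem_nhds hx)
      filter_upwards [TJ.near hw hJ ((TJ_loc hy).2 (T2_TJ h _)).2, hs] with z hz hz'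
      have hz2 := (chartAt (Sp (Fin n)) x).map_source hz'
      have k := (TJ_loc (w := comb η (c z.1)) hz2).1 ⟨((TJ_loc hz2).2 (T2_TJ h _)).1, hz⟩
      rw [(chartAt (Sp (Fin n)) x).left_inv hz'] at k
      exact k.2
  filter_upwards [key] with s hs
  exact ⟨h.1, h.2.1, fun x => hs x (mem_univ x)⟩

theorem RepC1_path [ChartedSpace (Sp (Fin (n + 1))) M] [IsManifold 𝓘(ℝ, Sp (Fin (n + 1))) ∞ M]
    [T2Space M] [CompactSpace M] {r : ℕ} {η : Fin r → Form (Sp (Fin (n + 1))) M 2}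
    (hη : ∀ i, (η i).Smooth) {c : ℝ → Fin r → ℝ} (hc : Continuous c)
    (hw : ∀ s ∈ Icc (0 : ℝ) 1, (comb η (c s)).Smooth ∧ (comb η (c s)).Nondeg)
    {ρ : Form (Sp (Fin (n + 1))) M 2} {J : Endo (Sp (Fin (n + 1))) M}
    (h : Tamed (comb η (c 0)) J) (hρ : RepC1 J ρ) :
    ∀ s ∈ Icc (0 : ℝ) 1, ∃ J', Tamed (comb η (c s)) J' ∧ RepC1 J' ρ := by
  have key : ∀ s ∈ Icc (0 : ℝ) 1, ∀ᶠ s' in 𝓝 s,
      ((∃ J', Tamed (comb η (c s)) J' ∧ RepC1 J' ρ) ↔ ∃ J', Tamed (comb η (c s')) J' ∧ RepC1 J' ρ) := by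
    intro s hs
    obtain ⟨J₁, h1⟩ := exists_tamed (hw s hs).1 (hw s hs).2
    filter_upwards [Tamed_near hη hc h1] with s' h2
    exact ⟨fun ⟨_, a, b⟩ => ⟨J₁, h2, RepC1_tamed a h1 b⟩, fun ⟨_, a, b⟩ => ⟨J₁, h1, RepC1_tamed a h2 b⟩⟩
  intro s hs
  exact (isPreconnected_Icc.induction₂' (fun a b : ℝ =>
    (∃ J', Tamed (comb η (c a)) J' ∧ RepC1 J' ρ) ↔ ∃ J', Tamed (comb η (c b)) J' ∧ RepC1 J' ρ)
    (fun x hx => nhdsWithin_le_nhds ((key x hx).mono fun _ e => ⟨e, e.symm⟩))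
    (fun _ _ _ _ _ _ e e' => e.trans e') (left_mem_Icc.2 zero_le_one) hs).1 ⟨J, h, hρ⟩

end Pool.Agent.Work.MP_bf98aa_gt.Ki
end

-- merged part: Pool.Agent.Work.MP_bf98aa_gt.Kg.Res
section
/-!
The statement with the first Chern class followed along the path.
-/

set_option autoImplicit false

open scoped Manifold ContDiff

namespace Pool.Agent.Work.MP_bf98aa_gt.Kg

open Pool.Agent.Work.MP_bf98aa_gt.Th Pool.Agent.Work.MP_bf98aa_gt.Cp

theorem path_c1 {M : Type} [TopologicalSpace M] [T2Space M] [CompactSpace M]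
    [ChartedSpace (Sp (Fin 3)) M] [IsManifold 𝓘(ℝ, Sp (Fin 3)) ∞ M]
    {η : Fin 3 → Form (Sp (Fin 3)) M 2} {w : ℝ → Form (Sp (Fin 3)) M 2}
    {J : Endo (Sp (Fin 3)) M} {ρ : Form (Sp (Fin 3)) M 2} (h1 : ∀ i, (η i).Closed)
    (h2 : ∀ s, w s = comb η ![1, s ^ 2, s])
    (h3 : ∀ s ∈ Set.Icc (0 : ℝ) 1, (w s).Closed ∧ (w s).Nondeg) (h4 : Tamed (w 0) J)
    (h7 : RepC1 J ρ) : ∀ s ∈ Set.Icc (0 : ℝ) 1, (w s).Closed ∧ (w s).Nondeg ∧
      ∃ J', Tamed (w s) J' ∧ RepC1 J' ρ := by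
  refine fun s hs => ⟨(h3 s hs).1, (h3 s hs).2, ?_⟩
  have hc : Continuous fun s : ℝ => (![1, s ^ 2, s] : Fin 3 → ℝ) := by
    refine continuous_pi fun i => ?_
    fin_cases i <;> simp <;> fun_prop
  rw [h2 s]
  exact Ki.RepC1_path (n := 2) (fun i => (h1 i).1) hc
    (fun s hs => by rw [← h2 s]; exact ⟨(h3 s hs).1.1, (h3 s hs).2⟩) (by rw [← h2 0]; exact h4) h7 s hs

end Pool.Agent.Work.MP_bf98aa_gt.Kg
end
end
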