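import Pool.Agent.Work.MP_bf98aa_gt.Kg.Res
import Pool.Agent.Work.MP_bf98aa_gt.Cp.PPf
import Pool.Agent.Work.MP_bf98aa_gt.Th.ZRes

-- merged part: Pool.Agent.Work.MP_bf98aa_gt.Kg.BDc
section
-- merged part: Pool.Agent.Work.MP_bf98aa_gt.Cp.PInt
section
/-!
Integrals of densities.

PLAN. `transfer`: both sets are open (`isOpen_sat`); the map sending `y` to the unique related point of `O'` agrees near `y` with a lift, so it has a derivative;
`integral_image_eq_integral_abs_det_fderiv_smul`, `integrableOn_image_iff_integrableOn_abs_det_fderiv_smul`. `Part.integrable`: on `O k` the function vanishes off the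
compact set `C k` (`supp`, `inj`) and is continuous. `exists_hasI`: for two partitions insert `1 = ∑ ρ'` and use `transfer` with `h = ρ k * ρ' l` (if there is no partition
any `c` works). `hasI_fd`: almost everywhere on `O k` the integrand is the sum over `l` of its restrictions to the disjoint sets related to `D l`; `transfer`; sum over `k`.
-/

set_option autoImplicit false

open scoped ContDiff Topology
open Set Filter MeasureTheory

namespace Pool.Agent.Work.MP_bf98aa_gt.Cp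

open Pool.Agent.Work.MP_bf98aa_gt.Th

variable {V : Type} [NormedAddCommGroup V] [NormedSpace ℝ V] [FiniteDimensional ℝ V]
  [MeasureSpace V] [BorelSpace V] [(volume : Measure V).IsAddHaarMeasure] {P : Pres V}

theorem transfer (hP : P.Good) {f h : P.ι → V → ℝ} (hf : P.Dn f) (hh : P.InvF h) {i j : P.ι}
    {O O' : Set V} (hO : IsOpen O) (hO' : IsOpen O')
    (inj : ∀ y ∈ O, ∀ y' ∈ O, P.r i y i y' → y = y')
    (inj' : ∀ y ∈ O', ∀ y' ∈ O', P.r j y j y' → y = y') :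
    (IntegrableOn (fun y => h i y * f i y) {y ∈ O | ∃ z ∈ O', P.r i y j z} ↔
      IntegrableOn (fun z => h j z * f j z) {z ∈ O' | ∃ y ∈ O, P.r i y j z}) ∧
    ∫ y in {y ∈ O | ∃ z ∈ O', P.r i y j z}, h i y * f i y =
      ∫ z in {z ∈ O' | ∃ y ∈ O, P.r i y j z}, h j z * f j z := by
  classical
  set S := {y ∈ O | ∃ z ∈ O', P.r i y j z} with hS
  have hSo : IsOpen S := hO.inter (hP.isOpen_sat hO' i)
  obtain ⟨φ, hφ⟩ : ∃ φ : V → V, ∀ y, (∃ z ∈ O', P.r i y j z) → φ y ∈ O' ∧ P.r i y j (φ y) :=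
    ⟨fun y => if H : ∃ z ∈ O', P.r i y j z then H.choose else y, fun y H => by
      simp only [dif_pos H]
      exact H.choose_spec⟩
  have uq : ∀ y z, z ∈ O' → P.r i y j z → z = φ y := fun y z hz hr =>
    inj' z hz _ (hφ y ⟨z, hz, hr⟩).1 (hP.trans (hP.symm hr) (hφ y ⟨z, hz, hr⟩).2)
  have hl : ∀ y ∈ S, Lift (sl P.r i j) y φ := fun y hy => by
    obtain ⟨γ, e, hγ⟩ := hP.loc (hφ y hy.2).2
    refine hγ.congr ?_
    have h1 : ∀ᶠ x in 𝓝 y, γ x ∈ O' :=
      hγ.1.continuousAt.eventually_mem (hO'.mem_nhds (e ▸ (hφ y hy.2).1))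
    filter_upwards [h1, hγ.2] with x h2 h3 using uq x _ h2 h3
  have hd : ∀ y ∈ S, HasFDerivWithinAt φ (fderiv ℝ φ y) S y := fun y hy =>
    (hl y hy).diff.self_of_nhds.hasFDerivAt.hasFDerivWithinAt
  have hi : InjOn φ S := fun y hy y' hy' e =>
    inj y hy.1 y' hy'.1 (hP.trans (hφ y hy.2).2 (hP.symm (e ▸ (hφ y' hy'.2).2)))
  have him : φ '' S = {z ∈ O' | ∃ y ∈ O, P.r i y j z} := by
    ext z
    constructor
    · rintro ⟨y, hy, rfl⟩
      exact ⟨(hφ y hy.2).1, y, hy.1, (hφ y hy.2).2⟩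
    · rintro ⟨hz, y, hy, hr⟩
      exact ⟨y, ⟨hy, z, hz, hr⟩, (uq y z hz hr).symm⟩
  have he : EqOn (fun y => h i y * f i y)
      (fun y => |(fderiv ℝ φ y).det| • (h j (φ y) * f j (φ y))) S := fun y hy => by
    simp only [smul_eq_mul]
    rw [hf.2 i j y φ (hl y hy), hh i y j (φ y) (hφ y hy.2).2]
    ring
  rw [← him, integrableOn_image_iff_integrableOn_abs_det_fderiv_smul volume hSo.measurableSet hd hi,
    integral_image_eq_integral_abs_det_fderiv_smul volume hSo.measurableSet hd hi]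
  exact ⟨integrableOn_congr_fun he hSo.measurableSet, setIntegral_congr_fun hSo.measurableSet he⟩

theorem Part.integrable (T : Part P) {f : P.ι → V → ℝ} (hf : ∀ i, ContinuousOn (f i) (P.W i))
    (k : T.κ) : IntegrableOn (fun y => T.ρ k (T.i k) y * f (T.i k) y) (T.O k) := by
  have hc : ContinuousOn (fun y => T.ρ k (T.i k) y * f (T.i k) y) (T.C k) :=
    ((T.cont k _).mul (hf _)).mono ((T.cpt k).2.trans (T.sub k))
  refine (hc.integrableOn_compact (T.cpt k).1).of_forall_sdiff_eq_zero (T.opn k).measurableSet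
    fun y hy => mul_eq_zero_of_left (by_contra fun h0 => hy.2 ?_) _
  obtain ⟨z, hz, hr⟩ := T.supp k _ y (T.sub k hy.1) h0
  rw [T.inj k y hy.1 z ((T.cpt k).2 hz) hr]
  exact hz

theorem PInt_move (hP : P.Good) {f : P.ι → V → ℝ} (hf : P.Dn f) (T : Part P) (k : T.κ) {j : P.ι}
    {D : Set V} (hD : IsOpen D) (sub : D ⊆ P.W j)
    (inj : ∀ y ∈ D, ∀ y' ∈ D, P.r j y j y' → y = y') :
    IntegrableOn (fun z => T.ρ k j z * f j z) D ∧
      ∫ y in {y ∈ T.O k | ∃ z ∈ D, P.r (T.i k) y j z}, T.ρ k (T.i k) y * f (T.i k) y =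
        ∫ z in D, T.ρ k j z * f j z := by
  obtain ⟨h1, h2⟩ := transfer hP hf (T.inv k) (T.opn k) hD (T.inj k) inj
  have h0 : ∀ z ∈ D \ {z ∈ D | ∃ y ∈ T.O k, P.r (T.i k) y j z}, T.ρ k j z * f j z = 0 :=
    fun z hz => mul_eq_zero_of_left (by_contra fun h0 => by
      obtain ⟨y, hy, hr⟩ := T.supp k j z (sub hz.1) h0
      exact hz.2 ⟨hz.1, y, (T.cpt k).2 hy, hP.symm hr⟩) _
  refine ⟨(h1.1 ((T.integrable hf.1 k).mono_set (sep_subset _ _))).of_forall_sdiff_eq_zero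
    hD.measurableSet h0, h2.trans ?_⟩
  exact (setIntegral_eq_of_subset_of_forall_sdiff_eq_zero hD.measurableSet (sep_subset _ _) h0).symm

omit [FiniteDimensional ℝ V] [MeasureSpace V] [BorelSpace V]
  [(volume : Measure V).IsAddHaarMeasure] in
theorem PInt_dn {f : P.ι → V → ℝ} (hf : P.Dn f) (T : Part P) (k : T.κ) :
    P.Dn fun i y => T.ρ k i y * f i y := by
  refine ⟨fun i => (T.cont k i).mul (hf.1 i), fun i j y γ hγ => ?_⟩
  show T.ρ k i y * f i y = _ * (T.ρ k j (γ y) * f j (γ y))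
  rw [hf.2 i j y γ hγ, T.inv k i y j (γ y) hγ.self]
  ring

theorem PInt_split {f : P.ι → V → ℝ} (hf : P.Dn f) (T T' : Part P) :
    T.int f = ∑ k ∈ T.s, ∑ l ∈ T'.s,
      ∫ y in T.O k, T.ρ k (T.i k) y * (T'.ρ l (T.i k) y * f (T.i k) y) := by
  refine Finset.sum_congr rfl fun k _ => ?_
  rw [← integral_finsetSum _ fun l _ => T.integrable (PInt_dn hf T' l).1 k]
  refine setIntegral_congr_fun (T.opn k).measurableSet fun y hy => ?_
  simp only [← Finset.mul_sum, ← Finset.sum_mul, T'.sum _ y (T.sub k hy), one_mul]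

theorem PInt_eq (hP : P.Good) {f : P.ι → V → ℝ} (hf : P.Dn f) (T T' : Part P) :
    T.int f = T'.int f := by
  rw [PInt_split hf T T', PInt_split hf T' T, Finset.sum_comm]
  refine Finset.sum_congr rfl fun l _ => Finset.sum_congr rfl fun k _ => ?_
  rw [setIntegral_eq_of_subset_of_forall_sdiff_eq_zero (T.opn k).measurableSet
    (sep_subset _ fun y => ∃ z ∈ T'.O l, P.r (T.i k) y (T'.i l) z) fun y hy =>
      mul_eq_zero_of_right _ (mul_eq_zero_of_left (by_contra fun h0 => by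
        obtain ⟨z, hz, hr⟩ := T'.supp l _ y (T.sub k hy.1) h0
        exact hy.2 ⟨hy.1, z, (T'.cpt l).2 hz, hr⟩) _),
    (PInt_move hP (PInt_dn hf T' l) T k (T'.opn l) (T'.sub l) (T'.inj l)).2]
  simp only [mul_left_comm]

theorem exists_hasI (hP : P.Good) {f : P.ι → V → ℝ} (hf : P.Dn f) : ∃ c, P.HasI f c := by
  by_cases h : Nonempty (Part P)
  · obtain ⟨T⟩ := h
    exact ⟨T.int f, fun T' => PInt_eq hP hf T' T⟩
  · exact ⟨0, fun T => absurd ⟨T⟩ h⟩

theorem hasI_of_part (hP : P.Good) {f : P.ι → V → ℝ} (hf : P.Dn f) (T : Part P) :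
    P.HasI f (T.int f) := by
  exact fun T' => PInt_eq hP hf T' T

theorem hasI_fd (hP : P.Good) {f : P.ι → V → ℝ} (hf : P.Dn f) {κ : Type} [Fintype κ]
    (i : κ → P.ι) (D : κ → Set V) (opn : ∀ l, IsOpen (D l)) (sub : ∀ l, D l ⊆ P.W (i l))
    (inj : ∀ l l', ∀ y ∈ D l, ∀ y' ∈ D l', P.r (i l) y (i l') y' → l = l' ∧ y = y')
    (cov : ∀ j, ∀ᵐ z, z ∈ P.W j → f j z ≠ 0 → ∃ l, ∃ y ∈ D l, P.r j z (i l) y) :
    P.HasI f (∑ l, ∫ y in D l, f (i l) y) := by
  intro T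
  have mv := fun k l => PInt_move hP hf T k (opn l) (sub l) fun y hy y' hy' hr =>
    (inj l l y hy y' hy' hr).2
  have e1 : ∀ k, ∫ y in T.O k, T.ρ k (T.i k) y * f (T.i k) y =
      ∑ l, ∫ z in D l, T.ρ k (i l) z * f (i l) z := fun k => by
    rw [setIntegral_eq_of_subset_of_ae_sdiff_eq_zero (T.opn k).measurableSet.nullMeasurableSet
      (s := ⋃ l, {y ∈ T.O k | ∃ z ∈ D l, P.r (T.i k) y (i l) z})
      (iUnion_subset fun l => sep_subset _ _), integral_iUnion_fintype]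
    · exact Finset.sum_congr rfl fun l _ => (mv k l).2
    · exact fun l => ((T.opn k).inter (hP.isOpen_sat (opn l) _)).measurableSet
    · intro l l' hne
      refine Set.disjoint_left.2 ?_
      rintro y ⟨-, z, hz, hr⟩ ⟨-, z', hz', hr'⟩
      exact hne (inj l l' z hz z' hz' (hP.trans (hP.symm hr) hr')).1
    · exact fun l => (T.integrable hf.1 k).mono_set (sep_subset _ _)
    · filter_upwards [cov (T.i k)] with y hy h1
      refine mul_eq_zero_of_right _ (by_contra fun h0 => h1.2 ?_)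
      obtain ⟨l, hl⟩ := hy (T.sub k h1.1) h0
      exact mem_iUnion.2 ⟨l, h1.1, hl⟩
  rw [Part.int, Finset.sum_congr rfl fun k _ => e1 k, Finset.sum_comm]
  refine Finset.sum_congr rfl fun l _ => ?_
  rw [← integral_finsetSum _ fun k _ => (mv k l).1]
  refine setIntegral_congr_fun (opn l).measurableSet fun y hy => ?_
  simp only [← Finset.sum_mul, T.sum _ y (sub l hy), one_mul]

end Pool.Agent.Work.MP_bf98aa_gt.Cp
end

-- merged part: Pool.Agent.Work.MP_bf98aa_gt.Cp.PInt2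
section
/-!
Integrals of densities: linearity, positivity, null sets.

PLAN. `null_im`: cover `Q.W j` by countably many injective open sets `O` (`exists_inj`, `TopologicalSpace.countable_cover_nhdsWithin`); on the set of `y ∈ Z i` related to a point
of `O` the map to that point agrees near each point (within the set) with a lift, hence is `DifferentiableOn`; `addHaar_image_eq_zero_of_differentiableOn_of_addHaar_eq_zero`.
`HasI.pos`: all terms are nonnegative; some `ρ k i y > 0`; at the related point of `O k` the continuous integrand is positive (`lift_isInv` gives `det ≠ 0`).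
-/

set_option autoImplicit false

open scoped ContDiff Topology
open Set Filter MeasureTheory

namespace Pool.Agent.Work.MP_bf98aa_gt.Cp

open Pool.Agent.Work.MP_bf98aa_gt.Th

variable {V : Type} [NormedAddCommGroup V] [NormedSpace ℝ V] [FiniteDimensional ℝ V]
  [MeasureSpace V] [BorelSpace V] [(volume : Measure V).IsAddHaarMeasure] {P Q : Pres V}

theorem Pres.Dn.add {f g : P.ι → V → ℝ} (hf : P.Dn f) (hg : P.Dn g) :
    P.Dn fun i y => f i y + g i y := by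
  refine ⟨fun i => (hf.1 i).add (hg.1 i), fun i j y γ h => ?_⟩
  simp only [hf.2 i j y γ h, hg.2 i j y γ h]
  ring

theorem Pres.Dn.smul {f : P.ι → V → ℝ} (hf : P.Dn f) (c : ℝ) : P.Dn fun i y => c * f i y := by
  refine ⟨fun i => continuousOn_const.mul (hf.1 i), fun i j y γ h => ?_⟩
  simp only [hf.2 i j y γ h]
  ring

theorem Pres.Dn.sub {f g : P.ι → V → ℝ} (hf : P.Dn f) (hg : P.Dn g) :
    P.Dn fun i y => f i y - g i y := by
  refine ⟨fun i => (hf.1 i).sub (hg.1 i), fun i j y γ h => ?_⟩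
  simp only [hf.2 i j y γ h, hg.2 i j y γ h]
  ring

theorem Pres.Dn.zero_at (hP : P.Good) {f : P.ι → V → ℝ} (hf : P.Dn f) {i j : P.ι} {y z : V}
    (hr : P.r i y j z) (h : f j z = 0) : f i y = 0 := by
  obtain ⟨γ, rfl, hγ⟩ := hP.loc hr
  rw [hf.2 i j y γ hγ, h, mul_zero]

theorem Pres.Dn.nonneg_at (hP : P.Good) {f : P.ι → V → ℝ} (hf : P.Dn f) {i j : P.ι} {y z : V}
    (hr : P.r i y j z) (h : 0 ≤ f j z) : 0 ≤ f i y := by
  obtain ⟨γ, rfl, hγ⟩ := hP.loc hr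
  rw [hf.2 i j y γ hγ]
  exact mul_nonneg (abs_nonneg _) h

theorem Pres.HasI.add {f g : P.ι → V → ℝ} (hf : P.Dn f) (hg : P.Dn g) {c d : ℝ} (h : P.HasI f c)
    (h' : P.HasI g d) : P.HasI (fun i y => f i y + g i y) (c + d) := by
  intro T
  rw [← h T, ← h' T]
  unfold Part.int
  rw [← Finset.sum_add_distrib]
  refine Finset.sum_congr rfl fun k _ => ?_
  rw [← integral_add (T.integrable hf.1 k) (T.integrable hg.1 k)]
  simp only [mul_add]

theorem Pres.HasI.smul {f : P.ι → V → ℝ} {c : ℝ} (h : P.HasI f c) (a : ℝ) :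
    P.HasI (fun i y => a * f i y) (a * c) := by
  intro T
  rw [← h T]
  unfold Part.int
  rw [Finset.mul_sum]
  refine Finset.sum_congr rfl fun k _ => ?_
  rw [← integral_const_mul]
  refine integral_congr_ae (Eventually.of_forall fun y => ?_)
  ring

theorem Pres.HasI.congr {f g : P.ι → V → ℝ} {c : ℝ} (h : P.HasI f c)
    (e : ∀ i, ∀ y ∈ P.W i, f i y = g i y) : P.HasI g c := by
  intro T
  rw [← h T]
  unfold Part.int
  refine Finset.sum_congr rfl fun k _ => ?_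
  refine setIntegral_congr_fun (T.opn k).measurableSet fun y hy => ?_
  simp only [e _ y (T.sub k hy)]

theorem Pres.HasI.sum {f : P.ι → V → ℝ} {I : Type} (s : Finset I) {g : I → P.ι → V → ℝ}
    (hg : ∀ a ∈ s, P.Dn (g a)) {c : I → ℝ} (h : ∀ a ∈ s, P.HasI (g a) (c a))
    (e : ∀ i, ∀ y ∈ P.W i, f i y = ∑ a ∈ s, g a i y) : P.HasI f (∑ a ∈ s, c a) := by
  intro T
  have h1 : ∑ a ∈ s, c a = ∑ a ∈ s, T.int (g a) :=
    Finset.sum_congr rfl fun a ha => (h a ha T).symm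
  rw [h1]
  unfold Part.int
  rw [Finset.sum_comm]
  refine Finset.sum_congr rfl fun k _ => ?_
  rw [← integral_finsetSum s fun a ha => T.integrable (hg a ha).1 k]
  refine setIntegral_congr_fun (T.opn k).measurableSet fun y hy => ?_
  simp only [e _ y (T.sub k hy), Finset.mul_sum]

theorem Pres.HasI.pos (hP : P.Good) (T : Part P) (hT : T.Nice) {f : P.ι → V → ℝ} (hf : P.Dn f)
    (h0 : ∀ i, ∀ y ∈ P.W i, 0 ≤ f i y) {i : P.ι} {y : V} (hy : y ∈ P.W i) (h1 : 0 < f i y) {c : ℝ}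
    (h : P.HasI f c) : 0 < c := by
  rw [← h T]
  unfold Part.int
  have hn : ∀ k, ∀ x ∈ T.O k, 0 ≤ T.ρ k (T.i k) x * f (T.i k) x := fun k x hx =>
    mul_nonneg ((hT k _).2 x (T.sub k hx)) (h0 _ x (T.sub k hx))
  refine Finset.sum_pos' (fun k _ => setIntegral_nonneg (T.opn k).measurableSet (hn k)) ?_
  have hk : ∃ k ∈ T.s, T.ρ k i y ≠ 0 := by
    by_contra hc
    have h2 := T.sum i y hy
    rw [Finset.sum_eq_zero fun k hk => by
      by_contra h3
      exact hc ⟨k, hk, h3⟩] at h2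
    exact zero_ne_one h2
  obtain ⟨k, hks, hk⟩ := hk
  refine ⟨k, hks, ?_⟩
  obtain ⟨x, hxC, hr⟩ := T.supp k i y hy hk
  have hxO := (T.cpt k).2 hxC
  have hx1 : T.ρ k (T.i k) x ≠ 0 := by
    rw [← T.inv k i y (T.i k) x hr]
    exact hk
  have hx2 : f (T.i k) x ≠ 0 := fun h3 => h1.ne' (hf.zero_at hP hr h3)
  rw [setIntegral_pos_iff_support_of_nonneg_ae
    ((ae_restrict_iff' (T.opn k).measurableSet).2 (Eventually.of_forall (hn k)))
    (T.integrable hf.1 k)]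
  have hc : ContinuousOn (fun x => T.ρ k (T.i k) x * f (T.i k) x) (T.O k) :=
    ((T.cont k _).mono (T.sub k)).mul ((hf.1 _).mono (T.sub k))
  have ho := hc.isOpen_inter_preimage (T.opn k) (isOpen_compl_singleton (x := (0 : ℝ)))
  refine lt_of_lt_of_le (ho.measure_pos volume ⟨x, hxO, mul_ne_zero hx1 hx2⟩) (measure_mono ?_)
  intro w hw
  exact ⟨hw.2, hw.1⟩

theorem SMap.null_im {R : P.ι → V → Q.ι → V → Prop} (h : SMap P Q R) (hP : P.Good) (hQ : Q.Good)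
    {Z : P.ι → Set V} (hZ : ∀ i, volume (Z i) = 0) (j : Q.ι) :
    volume {z | ∃ i, ∃ y ∈ Z i, R i y j z} = 0 := by
  classical
  have := FiniteDimensional.proper_real V
  have := hP.fin
  refine measure_null_of_locally_null _ fun z hz => ?_
  obtain ⟨i0, y0, -, hr0⟩ := id hz
  obtain ⟨O, hO, hzO, -, hinj⟩ := hQ.exists_inj (h.mem hr0).2
  refine ⟨{z | ∃ i, ∃ y ∈ Z i, R i y j z} ∩ O,
    inter_mem_nhdsWithin _ (hO.mem_nhds hzO), ?_⟩
  let g : P.ι → V → V := fun i y => if e : ∃ w ∈ O, R i y j w then e.choose else 0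
  have hg : ∀ i y, (∃ w ∈ O, R i y j w) → g i y ∈ O ∧ R i y j (g i y) := by
    intro i y e
    simp only [g, dif_pos e]
    exact e.choose_spec
  have hu : ∀ i y w, w ∈ O → R i y j w → g i y = w := by
    intro i y w hw hr
    obtain ⟨h1, h2⟩ := hg i y ⟨w, hw, hr⟩
    exact hinj _ h1 _ hw (h.uniq h2 hr)
  have hd : ∀ i, DifferentiableOn ℝ (g i) {y ∈ Z i | ∃ w ∈ O, R i y j w} := by
    intro i y hy
    obtain ⟨w, hw, hr⟩ := hy.2
    obtain ⟨γ, rfl, hγ⟩ := h.loc hr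
    have h1 : ∀ᶠ x in 𝓝 y, γ x ∈ O := hγ.1.continuousAt.eventually (hO.mem_nhds hw)
    have h2 : g i =ᶠ[𝓝 y] γ := by
      filter_upwards [h1, hγ.2] with x hx1 hx2
      exact hu i x _ hx1 hx2
    exact ((hγ.diff.self_of_nhds).congr_of_eventuallyEq h2).differentiableWithinAt
  refine measure_mono_null (t := ⋃ i, g i '' {y ∈ Z i | ∃ w ∈ O, R i y j w}) ?_ ?_
  · rintro w ⟨⟨i, y, hy, hr⟩, hw⟩
    exact mem_iUnion.2 ⟨i, y, ⟨hy, w, hw, hr⟩, hu i y w hw hr⟩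
  · refine measure_iUnion_null fun i => ?_
    exact addHaar_image_eq_zero_of_differentiableOn_of_addHaar_eq_zero volume (hd i)
      (measure_mono_null (fun y hy => hy.1) (hZ i))

end Pool.Agent.Work.MP_bf98aa_gt.Cp
end

-- merged part: Pool.Agent.Work.MP_bf98aa_gt.Cp.PStk
section
/-!
Stokes' theorem.

PLAN. `pf_stokes_loc`: copy the proof of `Th.pf_stokes` (file `Th/IStk`): the functions `V σ` are smooth because `a` vanishes near the points outside `U`, and the pointwise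
identity `key` is trivial near points outside the support. `Pf_stokes`: transport by `LL` (`extDeriv_pb`, `integral_comp` for a linear equivalence between Haar measures:
`Measure.isAddLeftInvariant_eq_smul` or `ContinuousLinearEquiv` map of Haar measure is Haar). `hasI_stokes`: `a = ∑ ρ k • a` (`GS.fsmul`), `HasI.sum`, each term by `hasI_fd` with the single set `O k`
(it vanishes near points not related to `C k`, `SMap.closed_im`) and `Pf_stokes` for the indicator extension of `ρ k • a` from `O k`.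
-/

set_option autoImplicit false

open scoped ContDiff Topology
open Set Filter MeasureTheory

namespace Pool.Agent.Work.MP_bf98aa_gt.Cp

open Pool.Agent.Work.MP_bf98aa_gt.Th

theorem PStk_key {S : Type} [Fintype S] [DecidableEq S] (s₀ : S) {a : Fm (Sp S) 1}
    {w : S → Fm (Sp S) 2} {x : Sp S} (ha : DifferentiableAt ℝ a x)
    (hd : ∀ s, s ≠ s₀ → DifferentiableAt ℝ (w s) x) (hw : ∀ s, s ≠ s₀ → extDeriv (w s) x = 0)
    {e : S × Fin 2 → Sp S} (he : e = fun i => Pi.single i 1)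
    {V : Equiv.Perm (S × Fin 2) → Sp S → ℝ} (hV : V = fun σ x => a x ![e (σ (s₀, 1))] *
      ∏ s ∈ Finset.univ.erase s₀, w s x ![e (σ (s, 0)), e (σ (s, 1))]) :
    pf (fun s => if s = s₀ then extDeriv a x else w s x) =
      2 * ∑ σ : Equiv.Perm (S × Fin 2), ((Equiv.Perm.sign σ : ℤ) : ℝ) *
        fderiv ℝ (V σ) x (e (σ (s₀, 0))) := by
  have ev : ∀ {k : ℕ} {α : Fm (Sp S) k} (_ : DifferentiableAt ℝ α x) (v : Fin k → Sp S),
      HasFDerivAt (fun y => α y v)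
        ((ContinuousAlternatingMap.apply ℝ (Sp S) ℝ v).comp (fderiv ℝ α x)) x :=
    fun h v => (ContinuousAlternatingMap.apply ℝ (Sp S) ℝ v).hasFDerivAt.comp x h.hasFDerivAt
  have h1 : ∀ σ : Equiv.Perm (S × Fin 2), fderiv ℝ (V σ) x (e (σ (s₀, 0))) =
      fderiv ℝ a x (e (σ (s₀, 0))) ![e (σ (s₀, 1))] *
        ∏ s ∈ Finset.univ.erase s₀, w s x ![e (σ (s, 0)), e (σ (s, 1))] +
      ∑ t ∈ Finset.univ.erase s₀, (a x ![e (σ (s₀, 1))] *
        ∏ s ∈ (Finset.univ.erase s₀).erase t, w s x ![e (σ (s, 0)), e (σ (s, 1))]) *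
        fderiv ℝ (w t) x (e (σ (s₀, 0))) ![e (σ (t, 0)), e (σ (t, 1))] := by
    intro σ
    have h2 := (ev ha ![e (σ (s₀, 1))]).mul (HasFDerivAt.finsetProd (u := Finset.univ.erase s₀)
      fun s hs => ev (hd s (Finset.ne_of_mem_erase hs)) ![e (σ (s, 0)), e (σ (s, 1))])
    rw [hV]
    refine (congrArg (fun L : Sp S →L[ℝ] ℝ => L (e (σ (s₀, 0)))) h2.fderiv).trans ?_
    simp only [add_apply, smul_apply, smul_eq_mul, sum_apply, ContinuousLinearMap.comp_apply,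
      ContinuousAlternatingMap.apply_apply, Finset.mul_sum, mul_assoc]
    ring
  have h2 : ∀ t ∈ Finset.univ.erase s₀, ∑ σ : Equiv.Perm (S × Fin 2),
      ((Equiv.Perm.sign σ : ℤ) : ℝ) * ((a x ![e (σ (s₀, 1))] *
        ∏ s ∈ (Finset.univ.erase s₀).erase t, w s x ![e (σ (s, 0)), e (σ (s, 1))]) *
        fderiv ℝ (w t) x (e (σ (s₀, 0))) ![e (σ (t, 0)), e (σ (t, 1))]) = 0 := by
    intro t ht
    have ht' := Finset.ne_of_mem_erase ht
    refine IStk_three (p := (s₀, 0)) (q := (t, 0)) (r := (t, 1)) (by simp [ht'.symm])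
      (by simp [ht'.symm]) (by simp) (H := fun i j k => fderiv ℝ (w t) x (e i) ![e j, e k])
      (fun i j k => alt2_swap _ _ _) (fun i j k => ?_) fun σ τ h => ?_
    · rw [← extDeriv_two_apply (hd t ht'), hw t ht']
      rfl
    · rw [h (s₀, 1) (by simp) (by simp [ht'.symm]) (by simp [ht'.symm])]
      refine congrArg _ (Finset.prod_congr rfl fun s hs => ?_)
      have k1 := Finset.ne_of_mem_erase hs
      have k2 := Finset.ne_of_mem_erase (Finset.mem_of_mem_erase hs)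
      rw [h (s, 0) (by simp [k2]) (by simp [k1]) (by simp [k1]),
        h (s, 1) (by simp [k2]) (by simp [k1]) (by simp [k1])]
  have h3 := IStk_swap (p := (s₀, (0 : Fin 2))) (q := (s₀, 1)) (by simp) fun σ =>
    fderiv ℝ a x (e (σ (s₀, 0))) ![e (σ (s₀, 1))] *
      ∏ s ∈ Finset.univ.erase s₀, w s x ![e (σ (s, 0)), e (σ (s, 1))]
  have h4 : ∀ σ : Equiv.Perm (S × Fin 2), ∏ s ∈ Finset.univ.erase s₀,
      w s x ![e ((σ * Equiv.swap (s₀, 0) (s₀, 1) : Equiv.Perm (S × Fin 2)) (s, 0)),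
        e ((σ * Equiv.swap (s₀, 0) (s₀, 1) : Equiv.Perm (S × Fin 2)) (s, 1))] =
      ∏ s ∈ Finset.univ.erase s₀, w s x ![e (σ (s, 0)), e (σ (s, 1))] := fun σ =>
    Finset.prod_congr rfl fun s hs => by
      have k := Finset.ne_of_mem_erase hs
      rw [Equiv.Perm.mul_apply, Equiv.Perm.mul_apply,
        Equiv.swap_apply_of_ne_of_ne (by simp [k]) (by simp [k]),
        Equiv.swap_apply_of_ne_of_ne (by simp [k]) (by simp [k])]
  simp only [h4] at h3
  simp only [Equiv.Perm.mul_apply, Equiv.swap_apply_left, Equiv.swap_apply_right] at h3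
  simp only [h1, mul_add, Finset.sum_add_distrib]
  rw [show ∑ σ : Equiv.Perm (S × Fin 2), ((Equiv.Perm.sign σ : ℤ) : ℝ) *
      ∑ t ∈ Finset.univ.erase s₀, (a x ![e (σ (s₀, 1))] *
        ∏ s ∈ (Finset.univ.erase s₀).erase t, w s x ![e (σ (s, 0)), e (σ (s, 1))]) *
        fderiv ℝ (w t) x (e (σ (s₀, 0))) ![e (σ (t, 0)), e (σ (t, 1))] = 0 by
      simp only [Finset.mul_sum]
      rw [Finset.sum_comm]
      exact Finset.sum_eq_zero h2, mul_zero, add_zero, two_mul]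
  nth_rewrite 2 [h3]
  rw [pf, ← Finset.sum_neg_distrib, ← Finset.sum_add_distrib]
  refine Finset.sum_congr rfl fun σ _ => ?_
  rw [← Finset.mul_prod_erase _ _ (Finset.mem_univ s₀), if_pos rfl, extDeriv_one_apply ha,
    Finset.prod_congr rfl fun s hs => by rw [if_neg (Finset.ne_of_mem_erase hs)], he]
  ring

theorem PStk_d0 {E : Type} [NormedAddCommGroup E] [NormedSpace ℝ E] {k : ℕ} {α : Fm E k} {x : E}
    (h : ∀ᶠ y in 𝓝 x, α y = 0) : extDeriv α x = 0 := by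
  rw [Filter.EventuallyEq.extDeriv_eq (ω₂ := fun _ => 0) h]
  exact extDeriv_const _ _

theorem pf_stokes_loc {S : Type} [Fintype S] [DecidableEq S] (s₀ : S) {U : Set (Sp S)}
    (hU : IsOpen U) {a : Fm (Sp S) 1} (ha : ContDiff ℝ ∞ a) (hc : HasCompactSupport a)
    (hs : tsupport a ⊆ U) {w : S → Fm (Sp S) 2} (hw : ∀ s, s ≠ s₀ → Cl (w s) U) :
    ∫ x, pf (fun s => if s = s₀ then extDeriv a x else w s x) = 0 := by
  obtain ⟨e, he⟩ : ∃ e : S × Fin 2 → Sp S, e = fun i => Pi.single i 1 := ⟨_, rfl⟩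
  obtain ⟨V, hV⟩ : ∃ V : Equiv.Perm (S × Fin 2) → Sp S → ℝ, V = fun σ x => a x ![e (σ (s₀, 1))] *
    ∏ s ∈ Finset.univ.erase s₀, w s x ![e (σ (s, 0)), e (σ (s, 1))] := ⟨_, rfl⟩
  have sm : ∀ {k : ℕ} {α : Fm (Sp S) k} {x : Sp S} (_ : ContDiffAt ℝ ∞ α x) (v : Fin k → Sp S),
      ContDiffAt ℝ ∞ (fun y => α y v) x :=
    fun h v => (ContinuousAlternatingMap.apply ℝ (Sp S) ℝ v).contDiff.contDiffAt.comp _ h
  have a0 : ∀ x, x ∉ U → ∀ᶠ y in 𝓝 x, a y = 0 := fun x hx =>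
    notMem_tsupport_iff_eventuallyEq.1 fun h => hx (hs h)
  have V0 : ∀ σ x, x ∉ U → V σ =ᶠ[𝓝 x] fun _ => 0 := fun σ x hx =>
    (a0 x hx).mono fun y hy => by simp [hV, hy]
  have V1 : ∀ σ, ContDiff ℝ ∞ (V σ) := fun σ => contDiff_iff_contDiffAt.2 fun x => by
    by_cases hx : x ∈ U
    · exact hV ▸ (sm ha.contDiffAt _).mul (contDiffAt_prod fun s hs =>
        sm ((hw s (Finset.ne_of_mem_erase hs)).1.at hU hx) _)
    · exact contDiffAt_const.congr_of_eventuallyEq (V0 σ x hx)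
  have V2 : ∀ σ, HasCompactSupport (V σ) := fun σ => hc.mono fun x hx h0 => hx (by simp [hV, h0])
  have key : ∀ x, pf (fun s => if s = s₀ then extDeriv a x else w s x) =
      2 * ∑ σ : Equiv.Perm (S × Fin 2), ((Equiv.Perm.sign σ : ℤ) : ℝ) *
        fderiv ℝ (V σ) x (e (σ (s₀, 0))) := by
    intro x
    by_cases hx : x ∈ U
    · exact PStk_key s₀ (ha.differentiable (by simp) x) (fun s h => (hw s h).1.diffAt hU hx)
        (fun s h => (hw s h).2 x hx) he hV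
    · rw [pf_eq_zero (s := s₀) (by rw [if_pos rfl, PStk_d0 (a0 x hx)])]
      rw [Finset.sum_eq_zero fun σ _ => by rw [(V0 σ x hx).fderiv_eq]; simp, mul_zero]
  simp only [key]
  rw [integral_const_mul, integral_finsetSum _ fun σ _ => (IStk_int (V1 σ) (V2 σ) _).1.const_mul _]
  simp only [integral_const_mul, fun σ v => (IStk_int (V1 σ) (V2 σ) v).2, mul_zero,
    Finset.sum_const_zero]

instance PStk_haar2 : (volume : Measure F2).IsAddHaarMeasure :=
  Measure.prod.instIsAddHaarMeasure _ _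

instance PStk_haar3 : (volume : Measure E3).IsAddHaarMeasure :=
  Measure.prod.instIsAddHaarMeasure _ _

theorem PStk_LL {F : Sp (Fin 3) → ℝ} (h : ∫ x, F x = 0) : ∫ y : E3, F (LL y) = 0 := by
  have h1 := integral_map_equiv (μ := (volume : Measure E3)) LL.toHomeomorph.toMeasurableEquiv F
  have h2 : Measure.map LL.toHomeomorph.toMeasurableEquiv (volume : Measure E3) =
      Measure.map LL volume := rfl
  rw [h2, Measure.isAddLeftInvariant_eq_smul (Measure.map LL (volume : Measure E3)) volume,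
    integral_smul_nnreal_measure, h, smul_zero] at h1
  exact h1.symm

theorem PStk_pb {k : ℕ} (α : Fm E3 k) (y : E3) :
    pb LL.symm α (LL y) = (α y).compContinuousLinearMap (LL.symm : Sp (Fin 3) →L[ℝ] E3) := by
  rw [pb, LL.symm.fderiv, LL.symm_apply_apply]

theorem Pf_stokes {U C : Set E3} (hU : IsOpen U) (hC : IsCompact C) (hCU : C ⊆ U) {a : Fm E3 1}
    (ha : Sm a U) (h0 : ∀ y ∈ U, y ∉ C → a y = 0) {b c : Fm E3 2} (hb : Cl b U) (hc : Cl c U) :
    ∫ y in U, Pf (extDeriv a y) (b y) (c y) = 0 := by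
  obtain ⟨a', ha'⟩ : ∃ a' : Fm E3 1, a' = U.indicator a := ⟨_, rfl⟩
  have e1 : ∀ y ∈ U, a' =ᶠ[𝓝 y] a := fun y hy =>
    Filter.mem_of_superset (hU.mem_nhds hy) fun x hx => by
      rw [ha']; exact indicator_of_mem hx a
  have e2 : ∀ y, y ∉ C → a' y = 0 := fun y hy => by
    rw [ha']
    by_cases h : y ∈ U
    · rw [indicator_of_mem h, h0 y h hy]
    · exact indicator_of_notMem h a
  have e3 : ∀ y, y ∉ U → ∀ᶠ x in 𝓝 y, a' x = 0 := fun y hy =>
    Filter.mem_of_superset (hC.isClosed.isOpen_compl.mem_nhds fun h => hy (hCU h)) e2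
  have s1 : ContDiff ℝ ∞ a' := contDiff_iff_contDiffAt.2 fun y => by
    by_cases h : y ∈ U
    · exact (ha.at hU h).congr_of_eventuallyEq (e1 y h)
    · exact contDiffAt_const.congr_of_eventuallyEq (e3 y h)
  have hU' : IsOpen (LL.symm ⁻¹' U) := hU.preimage LL.symm.continuous
  have hC' : IsCompact (LL.symm ⁻¹' C) := LL.symm.toHomeomorph.isCompact_preimage.2 hC
  have s2 : ContDiff ℝ ∞ (pb LL.symm a') := contDiffOn_univ.1
    (Sm.pb (W := univ) s1.contDiffOn isOpen_univ isOpen_univ LL.symm.contDiff.contDiffOn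
      (mapsTo_univ _ _))
  have s3 : Function.support (pb LL.symm a') ⊆ LL.symm ⁻¹' C := fun x hx => by
    by_contra h
    exact hx (by rw [pb, e2 _ h]; rfl)
  have s4 : tsupport (pb LL.symm a') ⊆ LL.symm ⁻¹' C := closure_minimal s3 hC'.isClosed
  have k := pf_stokes_loc (0 : Fin 3) hU' s2 (hC'.of_isClosed_subset (isClosed_tsupport _) s4)
    (s4.trans (preimage_mono hCU)) (w := fun s => pb LL.symm (![b, b, c] s)) fun s _ => by
      refine Cl.pb (W := U) ?_ hU' hU LL.symm.contDiff.contDiffOn fun x hx => hx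
      fin_cases s
      exacts [hb, hb, hc]
  have k2 := PStk_LL k
  have k3 : ∀ y : E3, Pf (extDeriv a' y) (b y) (c y) = pf (fun s : Fin 3 =>
      if s = 0 then extDeriv (pb LL.symm a') (LL y) else pb LL.symm (![b, b, c] s) (LL y)) / 8 := by
    intro y
    rw [Pf, extDeriv_pb (s1.differentiable (by simp) _) LL.symm.contDiff.contDiffAt]
    congr 2
    funext s
    fin_cases s <;> simp [PStk_pb]
  rw [setIntegral_congr_fun (g := fun y => Pf (extDeriv a' y) (b y) (c y)) hU.measurableSet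
    fun y hy => by simp only [(e1 y hy).extDeriv_eq],
    setIntegral_eq_integral_of_forall_compl_eq_zero fun y hy => by rw [PStk_d0 (e3 y hy), Pf_zero]]
  simp only [k3]
  rw [integral_div, k2, zero_div]

theorem PStk_sum {I : Type} (s : Finset I) (a : I → Alt E3 2) (b c : Alt E3 2) :
    Pf (∑ i ∈ s, a i) b c = ∑ i ∈ s, Pf (a i) b c := by
  classical
  induction s using Finset.induction_on with
  | empty => simp [Pf_zero]
  | insert i s hi ih => rw [Finset.sum_insert hi, Finset.sum_insert hi, Pf_add, ih]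

theorem hasI_stokes {P : Pres E3} (hP : P.Good) (hO : P.Ori) (T : Part P) (hT : T.Nice)
    {a : P.ι → Fm E3 1} (ha : P.GS a) {b c : P.ι → Fm E3 2} (hb : P.GC b) (hc : P.GC c) :
    P.HasI (fun i y => Pf (extDeriv (a i) y) (b i y) (c i y)) 0 := by
  have g1 : ∀ k, P.GS fun i y => T.ρ k i y • a i y := fun k =>
    ha.fsmul (T.inv k) fun i => (hT k i).1
  have g2 : ∀ k, P.Dn fun i y =>
      Pf (extDeriv (fun y => T.ρ k i y • a i y) y) (b i y) (c i y) := fun k =>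
    dn_Pf hO ((g1 k).d hP).gs hb.gs hc.gs
  have g3 : ∀ k, P.HasI (fun i y =>
      Pf (extDeriv (fun y => T.ρ k i y • a i y) y) (b i y) (c i y)) 0 := fun k => by
    have h := hasI_fd hP (g2 k) (κ := Unit) (fun _ => T.i k) (fun _ => T.O k) (fun _ => T.opn k)
      (fun _ => T.sub k) (fun _ _ y hy y' hy' h => ⟨rfl, T.inj k y hy y' hy' h⟩)
      fun j => Eventually.of_forall fun z hz hne => by
        by_contra hn
        refine hne ?_
        have h1 := hP.smap.closed_im hP (T.cpt k).1 ((T.cpt k).2.trans (T.sub k)) hz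
          fun y hy hr => hn ⟨(), y, (T.cpt k).2 hy, hP.symm hr⟩
        rw [PStk_d0, Pf_zero]
        filter_upwards [h1, (hP.opn j).mem_nhds hz] with x h2 h3
        by_cases h4 : T.ρ k j x = 0
        · rw [h4, zero_smul]
        · obtain ⟨y, hy, hr⟩ := T.supp k j x h3 h4
          exact absurd (hP.symm hr) (h2 y hy)
    rw [Finset.univ_unique, Finset.sum_singleton, Pf_stokes (T.opn k) (T.cpt k).1 (T.cpt k).2
      (((g1 k).1 _).mono (T.sub k)) (fun y hy hn => ?_)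
      ⟨(hb.1 _).1.mono (T.sub k), fun x hx => (hb.1 _).2 x (T.sub k hx)⟩
      ⟨(hc.1 _).1.mono (T.sub k), fun x hx => (hc.1 _).2 x (T.sub k hx)⟩] at h
    · exact h
    · by_cases h4 : T.ρ k (T.i k) y = 0
      · simp only [h4, zero_smul]
      · obtain ⟨y', hy', hr⟩ := T.supp k _ y (T.sub k hy) h4
        exact absurd (T.inj k y hy y' ((T.cpt k).2 hy') hr ▸ hy') hn
  have h := Pres.HasI.sum (f := fun i y => Pf (extDeriv (a i) y) (b i y) (c i y)) T.s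
    (fun k _ => g2 k) (fun k _ => g3 k) fun i y hy => by
      rw [← PStk_sum, ← extDeriv_sum' T.s fun k _ => ((g1 k).1 i).diffAt (hP.opn i) hy]
      congr 1
      refine Filter.EventuallyEq.extDeriv_eq ?_
      filter_upwards [(hP.opn i).mem_nhds hy] with x hx
      rw [Finset.sum_apply, ← Finset.sum_smul, T.sum i x hx, one_smul]
  rwa [Finset.sum_const_zero] at h

end Pool.Agent.Work.MP_bf98aa_gt.Cp
end

-- merged part: Pool.Agent.Work.MP_bf98aa_gt.Cp.PMan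
section
/-!
The manifold of a presentation.

PLAN. `exists_man`: `X = Σ i, P.W i` (or the subtype of `P.ι × E3` with the discrete topology on `P.ι`), `M = Quotient`; the quotient map is open (`isOpen_sat`), `M` is Hausdorff
(`Good.clo`, `t2_iff_isClosed_diagonal` / `IsOpenQuotientMap`, see `t2Space_iff_of_isOpenQuotientMap`), compact (finite union of images of the `K i`), connected (a clopen set pulls back to a family `Z`).
For `m` take a representative `(i, y)` and `O` from `exists_inj`; the chart has source `q i '' O`, target `LL '' O`, inverse `q i ∘ LL.symm`; atlas = range; transition maps agree locally with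
`LL ∘ γ ∘ LL.symm` for a lift `γ` (`isManifold_of_contDiffOn`). Compare `Th/ZMan.lean`. `exists_nice`: `SmoothPartitionOfUnity.exists_isSubordinate` for the chart sources, finitely many
nonzero functions (see `Th.exists_part` in `Th/IMain.lean`), then `Man.part`.
-/

set_option autoImplicit false

open scoped ContDiff Topology Manifold
open Set Filter MeasureTheory

namespace Pool.Agent.Work.MP_bf98aa_gt.Cp

open Pool.Agent.Work.MP_bf98aa_gt.Th

/-- The quotient as a topological space. -/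
theorem PMan_space {P : Pres E3} (hP : P.Good) (hne : ∃ i y, y ∈ P.W i) :
    ∃ (M : Type) (_ : TopologicalSpace M) (q : P.ι → E3 → M),
      (∀ {a y b z}, y ∈ P.W a → z ∈ P.W b → (q a y = q b z ↔ P.r a y b z)) ∧
      (∀ m, ∃ a, ∃ y ∈ P.W a, q a y = m) ∧
      ∀ U : Set M, IsOpen U ↔ ∀ a, IsOpen (P.W a ∩ q a ⁻¹' U) := by
  classical
  obtain ⟨i₀, y₀, h₀⟩ := hne
  let s : Setoid {p : P.ι × E3 // p.2 ∈ P.W p.1} :=
    ⟨fun p p' => P.r p.1.1 p.1.2 p'.1.1 p'.1.2, fun p => hP.refl p.2, fun h => hP.symm h,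
      fun h h' => hP.trans h h'⟩
  let q : P.ι → E3 → Quotient s := fun a y =>
    if h : y ∈ P.W a then Quotient.mk s ⟨(a, y), h⟩ else Quotient.mk s ⟨(i₀, y₀), h₀⟩
  let τ : TopologicalSpace (Quotient s) :=
    { IsOpen := fun U => ∀ a, IsOpen (P.W a ∩ q a ⁻¹' U)
      isOpen_univ := fun a => by simpa using hP.opn a
      isOpen_inter := fun U U' h h' a => by
        have e : P.W a ∩ q a ⁻¹' (U ∩ U') = (P.W a ∩ q a ⁻¹' U) ∩ (P.W a ∩ q a ⁻¹' U') := by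
          ext x
          simp only [mem_inter_iff, mem_preimage]
          tauto
        rw [e]
        exact (h a).inter (h' a)
      isOpen_sUnion := fun S h a => by
        have e : P.W a ∩ q a ⁻¹' (⋃₀ S) = ⋃ U ∈ S, P.W a ∩ q a ⁻¹' U := by
          ext x
          simp only [mem_inter_iff, mem_preimage, mem_sUnion, mem_iUnion]
          constructor
          · rintro ⟨h1, U, h2, h3⟩
            exact ⟨U, h2, h1, h3⟩
          · rintro ⟨U, h2, h1, h3⟩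
            exact ⟨h1, U, h2, h3⟩
        rw [e]
        exact isOpen_biUnion fun U hU => h U hU a }
  refine ⟨Quotient s, τ, q, ?_, ?_, fun U => Iff.rfl⟩
  · intro a y b z hy hz
    simp only [q, dif_pos hy, dif_pos hz]
    exact Quotient.eq
  · intro m
    obtain ⟨⟨⟨a, y⟩, h⟩, rfl⟩ := Quotient.exists_rep m
    exact ⟨a, y, h, dif_pos h⟩

section
variable {P : Pres E3} {M : Type} [TopologicalSpace M] {q : P.ι → E3 → M}

theorem PMan_cont (hP : P.Good) (ho : ∀ U : Set M, IsOpen U ↔ ∀ a, IsOpen (P.W a ∩ q a ⁻¹' U))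
    (a : P.ι) : ContinuousOn (q a) (P.W a) :=
  (continuousOn_open_iff (hP.opn a)).2 fun U hU => (ho U).1 hU a

theorem PMan_opn (hP : P.Good)
    (he : ∀ {a y b z}, y ∈ P.W a → z ∈ P.W b → (q a y = q b z ↔ P.r a y b z))
    (ho : ∀ U : Set M, IsOpen U ↔ ∀ a, IsOpen (P.W a ∩ q a ⁻¹' U))
    (a : P.ι) (U : Set E3) (hU : IsOpen U) (hW : U ⊆ P.W a) : IsOpen (q a '' U) := by
  refine (ho _).2 fun b => ?_
  have e : P.W b ∩ q b ⁻¹' (q a '' U) = {z | ∃ y ∈ U, P.r b z a y} := by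
    ext z
    constructor
    · rintro ⟨hz, y, hy, e⟩
      exact ⟨y, hy, (he hz (hW hy)).1 e.symm⟩
    · rintro ⟨y, hy, h⟩
      exact ⟨hP.mem h, y, hy, ((he (hP.mem h) (hW hy)).2 h).symm⟩
  rw [e]
  exact hP.isOpen_sat hU b

theorem PMan_t2 (hP : P.Good)
    (he : ∀ {a y b z}, y ∈ P.W a → z ∈ P.W b → (q a y = q b z ↔ P.r a y b z))
    (hs : ∀ m, ∃ a, ∃ y ∈ P.W a, q a y = m)
    (hm : ∀ a U, IsOpen U → U ⊆ P.W a → IsOpen (q a '' U)) : T2Space M := by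
  refine ⟨fun m m' hne => ?_⟩
  obtain ⟨a, y, hy, rfl⟩ := hs m
  obtain ⟨b, z, hz, rfl⟩ := hs m'
  have h1 := hP.clo hy hz fun h => hne ((he hy hz).2 h)
  obtain ⟨U, V, hU, hyU, hV, hzV, h2⟩ := mem_nhds_prod_iff'.1 h1
  refine ⟨q a '' (U ∩ P.W a), q b '' (V ∩ P.W b),
    hm a _ (hU.inter (hP.opn a)) inter_subset_right,
    hm b _ (hV.inter (hP.opn b)) inter_subset_right, ⟨y, ⟨hyU, hy⟩, rfl⟩, ⟨z, ⟨hzV, hz⟩, rfl⟩, ?_⟩
  rw [Set.disjoint_left]
  rintro _ ⟨x, hx, rfl⟩ ⟨x', hx', e⟩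
  exact h2 (mk_mem_prod hx.1 hx'.1) ((he hx.2 hx'.2).1 e.symm)

theorem PMan_cpt (hP : P.Good) (hK : P.Cpt)
    (he : ∀ {a y b z}, y ∈ P.W a → z ∈ P.W b → (q a y = q b z ↔ P.r a y b z))
    (hs : ∀ m, ∃ a, ∃ y ∈ P.W a, q a y = m) (hc : ∀ a, ContinuousOn (q a) (P.W a)) :
    CompactSpace M := by
  obtain ⟨K, h1, h2⟩ := hK
  have := hP.fin
  refine ⟨?_⟩
  have e : (univ : Set M) = ⋃ a, q a '' K a := by
    refine (eq_univ_of_forall fun m => ?_).symm
    obtain ⟨a, y, hy, rfl⟩ := hs m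
    obtain ⟨j, z, hz, h⟩ := h2 a y hy
    exact mem_iUnion.2 ⟨j, z, hz, ((he hy ((h1 j).2 hz)).2 h).symm⟩
  rw [e]
  exact isCompact_iUnion fun a => (h1 a).1.image_of_continuousOn ((hc a).mono (h1 a).2)

theorem PMan_conn (hP : P.Good) (hC : P.Conn)
    (he : ∀ {a y b z}, y ∈ P.W a → z ∈ P.W b → (q a y = q b z ↔ P.r a y b z))
    (hs : ∀ m, ∃ a, ∃ y ∈ P.W a, q a y = m)
    (ho : ∀ U : Set M, IsOpen U ↔ ∀ a, IsOpen (P.W a ∩ q a ⁻¹' U)) : ConnectedSpace M := by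
  obtain ⟨⟨i₀, y₀, _⟩, h⟩ := hC
  have hp : IsPreconnected (univ : Set M) := by
    rintro U V hU hV hc ⟨m, _, hm⟩ ⟨m', _, hm'⟩
    by_contra hn
    obtain ⟨a, y, hy, rfl⟩ := hs m
    obtain ⟨b, z, hz, rfl⟩ := hs m'
    refine hn ⟨q b z, mem_univ _, ?_, hm'⟩
    refine h (fun a => q a ⁻¹' U) ((ho U).1 hU) (fun c => ?_) (fun c x d x' hr hx => ?_)
      a b y hy z hz hm
    · have e : P.W c \ q c ⁻¹' U = P.W c ∩ q c ⁻¹' V := by
        ext x
        constructor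
        · rintro ⟨h1, h2⟩
          exact ⟨h1, (hc (mem_univ (q c x))).resolve_left h2⟩
        · rintro ⟨h1, h2⟩
          exact ⟨h1, fun h3 => hn ⟨q c x, mem_univ _, h3, h2⟩⟩
      rw [e]
      exact (ho V).1 hV c
    · have e := (he (hP.mem hr) (hP.mem' hr)).2 hr
      show q d x' ∈ U
      rw [← e]
      exact hx
  exact { isPreconnected_univ := hp, toNonempty := ⟨q i₀ y₀⟩ }

theorem PMan_chart
    (he : ∀ {a y b z}, y ∈ P.W a → z ∈ P.W b → (q a y = q b z ↔ P.r a y b z))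
    (hc : ∀ a, ContinuousOn (q a) (P.W a))
    (hm : ∀ a U, IsOpen U → U ⊆ P.W a → IsOpen (q a '' U)) {i : P.ι} {O : Set E3}
    (hO : IsOpen O) (hW : O ⊆ P.W i) (hi : ∀ x ∈ O, ∀ x' ∈ O, P.r i x i x' → x = x') :
    ∃ e : OpenPartialHomeomorph M (Sp (Fin 3)), e.source = q i '' O ∧ e.target = LL '' O ∧
      ∀ y ∈ O, e.symm (LL y) = q i y := by
  have hinj : InjOn (fun x => q i (LL.symm x)) (LL '' O) := by
    rintro _ ⟨x, hx, rfl⟩ _ ⟨x', hx', rfl⟩ h
    simp only [ContinuousLinearEquiv.symm_apply_apply] at h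
    rw [hi x hx x' hx' ((he (hW hx) (hW hx')).1 h)]
  have hLO : IsOpen (LL '' O) := LL.toHomeomorph.isOpenMap O hO
  have hco : ContinuousOn (fun x => q i (LL.symm x)) (LL '' O) := by
    refine (hc i).comp LL.symm.continuous.continuousOn ?_
    rintro _ ⟨x, hx, rfl⟩
    simpa using hW hx
  have hop : IsOpenMap ((LL '' O).domRestrict fun x => q i (LL.symm x)) := by
    intro U hU
    have h1 : IsOpen (Subtype.val '' U) := hLO.isOpenMap_subtype_val U hU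
    have h2 : IsOpen (LL.symm '' (Subtype.val '' U)) := LL.symm.toHomeomorph.isOpenMap _ h1
    have h3 : LL.symm '' (Subtype.val '' U) ⊆ P.W i := by
      rintro _ ⟨_, ⟨⟨_, x, hx, rfl⟩, _, rfl⟩, rfl⟩
      simpa using hW hx
    have h4 := hm i _ h2 h3
    rw [image_image, image_image] at h4
    exact h4
  refine ⟨(OpenPartialHomeomorph.ofContinuousOpenRestrict
    (hinj.toPartialEquiv _ _) hco hop hLO).symm, ?_, rfl, fun y _ => ?_⟩
  · show (fun x => q i (LL.symm x)) '' (LL '' O) = q i '' O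
    rw [image_image]
    simp only [ContinuousLinearEquiv.symm_apply_apply]
  · show q i (LL.symm (LL y)) = q i y
    rw [ContinuousLinearEquiv.symm_apply_apply]

theorem PMan_trans (hP : P.Good)
    (he : ∀ {a y b z}, y ∈ P.W a → z ∈ P.W b → (q a y = q b z ↔ P.r a y b z))
    {i j : P.ι} {O O' : Set E3} (hO : IsOpen O) (hW : O ⊆ P.W i) (hO' : IsOpen O')
    (hW' : O' ⊆ P.W j) {e e' : OpenPartialHomeomorph M (Sp (Fin 3))} (h2 : e.target = LL '' O)
    (h3 : ∀ y ∈ O, e.symm (LL y) = q i y) (h1' : e'.source = q j '' O')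
    (h2' : e'.target = LL '' O') (h3' : ∀ y ∈ O', e'.symm (LL y) = q j y) :
    ContDiffOn ℝ ∞ (e.symm ≫ₕ e') (e.symm ≫ₕ e').source := by
  intro x hx
  rw [OpenPartialHomeomorph.trans_source, OpenPartialHomeomorph.symm_source, h2, h1'] at hx
  obtain ⟨⟨y, hy, rfl⟩, z, hz, hq⟩ := hx
  rw [h3 y hy] at hq
  obtain ⟨γ, rfl, hγ⟩ := hP.loc ((he (hW hy) (hW' hz)).1 hq.symm)
  have hd : ContDiffAt ℝ ∞ (fun x => LL (γ (LL.symm x))) (LL y) := by
    refine LL.contDiff.contDiffAt.comp _ (ContDiffAt.comp _ ?_ LL.symm.contDiff.contDiffAt)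
    rw [ContinuousLinearEquiv.symm_apply_apply]
    exact hγ.1
  have hev : ∀ᶠ x in 𝓝 y, e' (e.symm (LL x)) = LL (γ x) := by
    filter_upwards [hγ.2, hO.mem_nhds hy, hγ.1.continuousAt.eventually (hO'.mem_nhds hz)]
      with x hr hx hx'
    rw [h3 x hx, (he (hW hx) (hW' hx')).2 hr, ← h3' _ hx']
    exact e'.right_inv (h2' ▸ mem_image_of_mem _ hx')
  have ht : Tendsto LL.symm (𝓝 (LL y)) (𝓝 y) := by
    have := LL.symm.continuous.tendsto (LL y)
    rwa [ContinuousLinearEquiv.symm_apply_apply] at this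
  refine (hd.congr_of_eventuallyEq ?_).contDiffWithinAt
  filter_upwards [ht.eventually hev] with x hx
  rw [ContinuousLinearEquiv.apply_symm_apply] at hx
  exact hx

end

theorem exists_man {P : Pres E3} (hP : P.Good) (hK : P.Cpt) (hC : P.Conn) :
    ∃ (M : Type) (_ : TopologicalSpace M) (_ : T2Space M) (_ : CompactSpace M)
      (_ : ConnectedSpace M) (_ : ChartedSpace (Sp (Fin 3)) M)
      (_ : IsManifold 𝓘(ℝ, Sp (Fin 3)) ∞ M), Nonempty (Man P M) := by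
  obtain ⟨M, τ, q, he, hs, ho⟩ := PMan_space hP hC.1
  have hc := PMan_cont hP ho
  have hm := PMan_opn hP he ho
  have key : ∀ m : M, ∃ (i : P.ι) (O : Set E3) (e : OpenPartialHomeomorph M (Sp (Fin 3))),
      IsOpen O ∧ O ⊆ P.W i ∧ (∀ x ∈ O, ∀ x' ∈ O, P.r i x i x' → x = x') ∧ m ∈ e.source ∧
        e.source = q i '' O ∧ e.target = LL '' O ∧ ∀ y ∈ O, e.symm (LL y) = q i y := by
    intro m
    obtain ⟨a, y, hy, rfl⟩ := hs m
    obtain ⟨O, h1, h2, h3, h4⟩ := hP.exists_inj hy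
    obtain ⟨e, h5, h6, h7⟩ := PMan_chart he hc hm h1 h3 h4
    exact ⟨a, O, e, h1, h3, h4, h5 ▸ mem_image_of_mem _ h2, h5, h6, h7⟩
  choose i O e h1 h2 h3 h4 h5 h6 h7 using key
  let cs : ChartedSpace (Sp (Fin 3)) M :=
    { atlas := range e
      chartAt := e
      mem_chart_source := h4
      chart_mem_atlas := fun m => mem_range_self m }
  have hman : IsManifold 𝓘(ℝ, Sp (Fin 3)) ∞ M := by
    refine isManifold_of_contDiffOn _ _ _ ?_
    rintro _ _ ⟨m, rfl⟩ ⟨m', rfl⟩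
    simpa using PMan_trans hP he (h1 m) (h2 m) (h1 m') (h2 m') (h6 m) (h7 m) (h5 m') (h6 m') (h7 m')
  exact ⟨M, τ, PMan_t2 hP he hs hm, PMan_cpt hP hK he hs hc, PMan_conn hP hC he hs ho, cs, hman,
    ⟨{ q := q, i := i, O := O, opn := h1, sub := h2, inj := h3, q_eq := he, cont := hc
       opnmap := hm, src := h5, tgt := h6, symm := h7 }⟩⟩

variable {P : Pres E3} {M : Type} [TopologicalSpace M] [ChartedSpace (Sp (Fin 3)) M]

theorem Man.exists_rep (X : Man P M) (m : M) : ∃ y ∈ X.O m, X.q (X.i m) y = m := by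
  have h := mem_chart_source (Sp (Fin 3)) m
  rwa [X.src m] at h

theorem Man.chart (X : Man P M) (m : M) {y : E3} (hy : y ∈ X.O m) :
    chartAt (Sp (Fin 3)) m (X.q (X.i m) y) = LL y := by
  rw [← X.symm m y hy]
  refine (chartAt (Sp (Fin 3)) m).right_inv ?_
  rw [X.tgt m]
  exact mem_image_of_mem _ hy

/-- In the chart at `m` the map `q a` is a lift of the relation. -/
theorem Man.lift (X : Man P M) (hP : P.Good) (m : M) {a : P.ι} {y : E3} (hy : y ∈ P.W a)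
    (hm : X.q a y ∈ (chartAt (Sp (Fin 3)) m).source) :
    Lift (sl P.r a (X.i m)) y (fun x => LL.symm (chartAt (Sp (Fin 3)) m (X.q a x))) ∧
      LL.symm (chartAt (Sp (Fin 3)) m (X.q a y)) ∈ X.O m := by
  rw [X.src m] at hm
  obtain ⟨z, hz, e⟩ := hm
  obtain ⟨γ, rfl, hγ⟩ := hP.loc ((X.q_eq hy (X.sub m hz)).1 e.symm)
  refine ⟨hγ.congr ?_, ?_⟩
  · filter_upwards [hγ.2, hγ.1.continuousAt.eventually ((X.opn m).mem_nhds hz)] with x h1 h2
    rw [(X.q_eq (hP.mem h1) (X.sub m h2)).2 h1, X.chart m h2, LL.symm_apply_apply]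
  · rw [← e, X.chart m hz, LL.symm_apply_apply]
    exact hz

theorem Man.smooth (X : Man P M) (hP : P.Good) [IsManifold 𝓘(ℝ, Sp (Fin 3)) ∞ M] (a : P.ι) :
    ContMDiffOn 𝓘(ℝ, E3) 𝓘(ℝ, Sp (Fin 3)) ∞ (X.q a) (P.W a) := by
  intro y hy
  refine ContMDiffAt.contMDiffWithinAt ?_
  rw [contMDiffAt_iff_target]
  refine ⟨(X.cont a).continuousAt ((hP.opn a).mem_nhds hy), ?_⟩
  have h := (X.lift hP (X.q a y) hy (mem_chart_source _ _)).1.1
  have h2 := (LL.contDiff.contDiffAt.comp y h).contMDiffAt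
  refine h2.congr_of_eventuallyEq (Eventually.of_forall fun x => ?_)
  simp

/-- A partition of unity on the manifold as a partition of unity of the presentation. -/
theorem Man.part (X : Man P M) [T2Space M] [CompactSpace M] (hP : P.Good) (s : Finset M)
    (ρ : M → M → ℝ) (h1 : ∀ p, Continuous (ρ p))
    (h2 : ∀ p, tsupport (ρ p) ⊆ (chartAt (Sp (Fin 3)) p).source) (h3 : ∀ x, ∑ p ∈ s, ρ p x = 1) :
    ∃ T : Part P, (∀ f : P.ι → E3 → ℝ,
      T.int f = ∑ p ∈ s, ∫ y in X.O p, ρ p (X.q (X.i p) y) * f (X.i p) y) ∧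
      ∀ k, ∃ p, ∀ a y, T.ρ k a y = ρ p (X.q a y) := by
  have key : ∀ p, ∀ x ∈ tsupport (ρ p), ∃ y ∈ X.O p, X.q (X.i p) y = x ∧
      LL.symm (chartAt (Sp (Fin 3)) p x) = y := fun p x hx => by
    have h := h2 p hx
    rw [X.src p] at h
    obtain ⟨y, hy, rfl⟩ := h
    exact ⟨y, hy, rfl, by rw [X.chart p hy, LL.symm_apply_apply]⟩
  refine ⟨⟨M, s, X.i, X.O,
    fun p => (fun x => LL.symm (chartAt (Sp (Fin 3)) p x)) '' tsupport (ρ p),
    fun p a y => ρ p (X.q a y), X.opn, X.sub, X.inj, fun p => ⟨?_, ?_⟩,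
    fun p a => (h1 p).comp_continuousOn (X.cont a), fun p a y b z h => ?_,
    fun p a z hz h => ?_, fun a z _ => h3 _⟩, fun f => rfl, fun p => ⟨p, fun _ _ => rfl⟩⟩
  · exact (isClosed_tsupport _).isCompact.image_of_continuousOn
      (LL.symm.continuous.comp_continuousOn
        ((chartAt (Sp (Fin 3)) p).continuousOn.mono (h2 p)))
  · rintro _ ⟨x, hx, rfl⟩
    obtain ⟨y, hy, -, e⟩ := key p x hx
    exact mem_of_eq_of_mem e hy
  · exact congrArg (ρ p) ((X.q_eq (hP.mem h) (hP.mem' h)).2 h)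
  · have hx : X.q a z ∈ tsupport (ρ p) := subset_tsupport _ h
    obtain ⟨y, hy, e1, e2⟩ := key p _ hx
    exact ⟨y, ⟨_, hx, e2⟩, (X.q_eq hz (X.sub p hy)).1 e1.symm⟩

theorem exists_nice (hP : P.Good) (hK : P.Cpt) (hC : P.Conn) : ∃ T : Part P, T.Nice := by
  obtain ⟨M, _, _, _, _, _, _, ⟨X⟩⟩ := exists_man hP hK hC
  obtain ⟨f, hf⟩ := SmoothPartitionOfUnity.exists_isSubordinate (M := M) 𝓘(ℝ, Sp (Fin 3))
    isClosed_univ (fun p : M => (chartAt (Sp (Fin 3)) p).source)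
    (fun p => (chartAt (Sp (Fin 3)) p).open_source)
    fun x _ => mem_iUnion.2 ⟨x, mem_chart_source _ x⟩
  have hfin := f.locallyFinite.finite_nonempty_of_compact
  obtain ⟨T, -, hT⟩ := X.part hP hfin.toFinset (fun p => f p) (fun p => (f p).contMDiff.continuous)
    hf fun x => by
      rw [← f.sum_eq_one (mem_univ x)]
      refine (finsum_eq_sum_of_support_subset _ fun p hp => ?_).symm
      exact Finset.mem_coe.2 (hfin.mem_toFinset.2 ⟨x, hp⟩)
  refine ⟨T, fun k j => ?_⟩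
  obtain ⟨p, hp⟩ := hT k
  rw [show T.ρ k j = fun y => f p (X.q j y) from funext (hp j)]
  exact ⟨contMDiffOn_iff_contDiffOn.1 ((f p).contMDiff.comp_contMDiffOn (X.smooth hP j)),
    fun z _ => f.nonneg p _⟩

end Pool.Agent.Work.MP_bf98aa_gt.Cp
end

-- merged part: Pool.Agent.Work.MP_bf98aa_gt.Cp.PBr1
section
/-!
Forms and integrals on the manifold of a presentation.

PLAN. `Man.mfderiv_symm`: as in `Th.ZRes_loc`, `mfderiv (chartAt p).symm (LL y) = fderiv (chartAt m ∘ (chartAt p).symm) (LL y)`, and near `LL y` this map is `LL ∘ γ ∘ LL.symm` with the lift `γ` of `Man.lift`.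
`exists_form`: put `w m = (a (i m) (LL.symm (chartAt m m))).compContinuousLinearMap LL.symm`. `Man.integral`: `Man.part`, and `∫ y in LL '' O, g y = κ * ∫ y in O, g (LL y)` with the constant
`κ > 0` comparing two Haar measures (`Measure.addHaarScalarFactor`; `setIntegral_map` / `MeasurableEmbedding.setIntegral_map`); the sign is `1` since `top (w.loc p (LL y)) = Pf (w ..) (w ..) (w ..)`.
-/

set_option autoImplicit false

open scoped ContDiff Topology Manifold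
open Set Filter MeasureTheory

namespace Pool.Agent.Work.MP_bf98aa_gt.Cp

open Pool.Agent.Work.MP_bf98aa_gt.Th

variable {P : Pres E3} {M : Type} [TopologicalSpace M] [ChartedSpace (Sp (Fin 3)) M]
  [IsManifold 𝓘(ℝ, Sp (Fin 3)) ∞ M] {k : ℕ}

/-- The form `w` on the manifold is given by `a` in the charts. -/
def Man.Rep (X : Man P M) (w : Form (Sp (Fin 3)) M k) (a : P.ι → Fm E3 k) : Prop :=
  ∀ p, ∀ y ∈ X.O p, w.loc p (LL y) =
    (a (X.i p) y).compContinuousLinearMap (LL.symm : Sp (Fin 3) →L[ℝ] E3)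

theorem Man.mfderiv_symm (X : Man P M) (hP : P.Good) (p : M) {y : E3} (hy : y ∈ X.O p)
    (v : Sp (Fin 3)) :
    mfderiv 𝓘(ℝ, Sp (Fin 3)) 𝓘(ℝ, Sp (Fin 3)) (chartAt (Sp (Fin 3)) p).symm (LL y) v =
      LL (fderiv ℝ (fun x => LL.symm (chartAt (Sp (Fin 3)) (X.q (X.i p) y) (X.q (X.i p) x))) y
        (LL.symm v)) := by
  have _ := hP
  have ht : LL y ∈ (chartAt (Sp (Fin 3)) p).target := X.tgt p ▸ mem_image_of_mem _ hy
  have h : MDifferentiableAt 𝓘(ℝ, Sp (Fin 3)) 𝓘(ℝ, Sp (Fin 3)) (chartAt (Sp (Fin 3)) p).symm (LL y) :=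
    ((contMDiffOn_chart_symm (n := ∞)).contMDiffAt
      ((chartAt (Sp (Fin 3)) p).open_target.mem_nhds ht)).mdifferentiableAt (by simp)
  have h1 : mfderiv 𝓘(ℝ, Sp (Fin 3)) 𝓘(ℝ, Sp (Fin 3)) (chartAt (Sp (Fin 3)) p).symm (LL y) =
      fderiv ℝ (fun z => chartAt (Sp (Fin 3)) ((chartAt (Sp (Fin 3)) p).symm (LL y))
        ((chartAt (Sp (Fin 3)) p).symm z)) (LL y) := by
    rw [h.mfderiv]
    simp only [mfld_simps, fderivWithin_univ]
    rfl
  have h2 : (fun z => chartAt (Sp (Fin 3)) ((chartAt (Sp (Fin 3)) p).symm (LL y))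
      ((chartAt (Sp (Fin 3)) p).symm z)) =ᶠ[𝓝 (LL y)] LL ∘ ((fun x => LL.symm (chartAt (Sp (Fin 3))
        (X.q (X.i p) y) (X.q (X.i p) x))) ∘ LL.symm) := by
    filter_upwards [(chartAt (Sp (Fin 3)) p).open_target.mem_nhds ht] with z hz
    obtain ⟨x, hx, rfl⟩ := X.tgt p ▸ hz
    simp only [Function.comp_apply, LL.symm_apply_apply, LL.apply_symm_apply, X.symm p x hx,
      X.symm p y hy]
  refine (DFunLike.congr_fun (h1.trans h2.fderiv_eq) v).trans ?_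
  rw [LL.comp_fderiv, LL.symm.comp_right_fderiv, LL.symm_apply_apply]
  rfl

theorem Man.exists_form (X : Man P M) (hP : P.Good) {a : P.ι → Fm E3 k} (ha : Pulls P.r a a) :
    ∃ w : Form (Sp (Fin 3)) M k, X.Rep w a := by
  let w : M → Alt (Sp (Fin 3)) k := fun m => (a (X.i m) (LL.symm (chartAt (Sp (Fin 3)) m m))).compContinuousLinearMap
    (LL.symm : Sp (Fin 3) →L[ℝ] E3)
  refine ⟨w, fun p y hy => ?_⟩
  ext v
  change w ((chartAt (Sp (Fin 3)) p).symm (LL y)) (fun j =>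
    mfderiv 𝓘(ℝ, Sp (Fin 3)) 𝓘(ℝ, Sp (Fin 3)) (chartAt (Sp (Fin 3)) p).symm (LL y) (v j)) = _
  rw [ha _ _ _ _ (X.lift hP (X.q (X.i p) y) (X.sub p hy) (mem_chart_source _ _)).1,
    show (fun j => mfderiv 𝓘(ℝ, Sp (Fin 3)) 𝓘(ℝ, Sp (Fin 3)) (chartAt (Sp (Fin 3)) p).symm (LL y)
      (v j)) = _ from funext fun j => X.mfderiv_symm hP p hy (v j), X.symm p y hy]
  refine congrArg (a _ _) (funext fun j => ?_)
  exact LL.symm_apply_apply _

theorem Man.Rep.closed {X : Man P M} {w : Form (Sp (Fin 3)) M k} {a : P.ι → Fm E3 k}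
    (h : X.Rep w a) (ha : ∀ i, Cl (a i) (P.W i)) : w.Closed := by
  have key : ∀ p, Cl (w.loc p) (chartAt (Sp (Fin 3)) p).target := fun p => by
    have h1 : Cl (a (X.i p)) (X.O p) :=
      ⟨ContDiffOn.mono (ha _).1 (X.sub p), fun x hx => (ha _).2 x (X.sub p hx)⟩
    have ho := (chartAt (Sp (Fin 3)) p).open_target
    have h2 := h1.pb (f := LL.symm) ho (X.opn p) LL.symm.contDiff.contDiffOn fun z hz => by
      obtain ⟨x, hx, rfl⟩ := X.tgt p ▸ hz
      rwa [LL.symm_apply_apply]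
    have h3 : ∀ z ∈ (chartAt (Sp (Fin 3)) p).target, w.loc p z = pb LL.symm (a (X.i p)) z :=
      fun z hz => by
        obtain ⟨x, hx, rfl⟩ := X.tgt p ▸ hz
        rw [h p x hx, pb, LL.symm_apply_apply, LL.symm.fderiv]
    refine ⟨ContDiffOn.congr h2.1 h3, fun z hz => ?_⟩
    rw [Filter.EventuallyEq.extDeriv_eq (Filter.mem_of_superset (ho.mem_nhds hz) h3)]
    exact h2.2 z hz
  exact ⟨fun p => (key p).1, fun p => (key p).2⟩

theorem Man.Rep.coef2 {X : Man P M} {u v w : Form (Sp (Fin 3)) M 2} {a b c : P.ι → Fm E3 2}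
    (ha : X.Rep u a) (hb : X.Rep v b) (hc : X.Rep w c) (p : M) {y : E3} (hy : y ∈ X.O p) :
    coef2 ![u, v, w] p (LL y) = Pf (a (X.i p) y) (b (X.i p) y) (c (X.i p) y) := by
  rw [Cp.coef2, Pf, show (2 : ℝ) ^ 3 = 8 by norm_num]
  refine congrArg (fun t => pf t / 8) (funext fun s => ?_)
  fin_cases s
  · exact ha p y hy
  · exact hb p y hy
  · exact hc p y hy

theorem Man.coef1 {X : Man P M} {u : Fin 3 × Fin 2 → Form (Sp (Fin 3)) M 1}
    {a : Fin 3 × Fin 2 → P.ι → Fm E3 1} (ha : ∀ s, X.Rep (u s) (a s)) (p : M) {y : E3}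
    (hy : y ∈ X.O p) : coef1 u p (LL y) = Dt fun s => a s (X.i p) y := by
  refine congrArg Matrix.det (Matrix.ext fun i j => ?_)
  rw [Matrix.of_apply, Matrix.of_apply, ha i p y hy]
  refine congrArg (a i _ _) (funext fun s => ?_)
  fin_cases s
  rfl

theorem PBr1_haar : ∃ κ : ℝ, 0 < κ ∧ ∀ (O : Set E3) (g : Sp (Fin 3) → ℝ),
    ∫ y in LL '' O, g y = κ * ∫ y in O, g (LL y) := by
  have : (volume : Measure F2).IsAddHaarMeasure := Measure.prod.instIsAddHaarMeasure _ _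
  have : (volume : Measure E3).IsAddHaarMeasure := Measure.prod.instIsAddHaarMeasure _ _
  have := LL.isAddHaarMeasure_map (volume : Measure E3)
  refine ⟨Measure.addHaarScalarFactor (volume : Measure (Sp (Fin 3))) (volume.map LL),
    NNReal.coe_pos.2 (Measure.addHaarScalarFactor_pos_of_isAddHaarMeasure _ _), fun O g => ?_⟩
  conv_lhs => rw [Measure.isAddLeftInvariant_eq_smul (volume : Measure (Sp (Fin 3))) (volume.map LL)]
  rw [Measure.restrict_smul, integral_smul_nnreal_measure,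
    LL.toHomeomorph.measurableEmbedding.setIntegral_map (f := LL), preimage_image_eq _ LL.injective]
  rfl

theorem Man.integral [T2Space M] [CompactSpace M] (X : Man P M) (hP : P.Good) :
    ∃ κ : ℝ, 0 < κ ∧ ∀ (w : Form (Sp (Fin 3)) M 2) (a : P.ι → Fm E3 2), X.Rep w a →
      (∀ i, ∀ y ∈ P.W i, 0 < Pf (a i y) (a i y) (a i y)) →
      ∀ (f : M → Sp (Fin 3) → ℝ) (g : P.ι → E3 → ℝ) (c : ℝ),
        (∀ p, ∀ y ∈ X.O p, f p (LL y) = g (X.i p) y) → P.HasI g c → Integral w f (κ * c) := by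
  obtain ⟨κ, hκ, H⟩ := PBr1_haar
  refine ⟨κ, hκ, fun w a hw hp f g c hf hc s ρ h1 h2 h3 => ?_⟩
  obtain ⟨T, hT, -⟩ := X.part hP s ρ h1 h2 h3
  rw [← hc T, hT, Finset.mul_sum]
  refine Finset.sum_congr rfl fun p _ => ?_
  rw [X.tgt p, H]
  refine congrArg (κ * ·) (setIntegral_congr_fun (X.opn p).measurableSet fun y hy => ?_)
  have e : top (w.loc p (LL y)) = Pf (a (X.i p) y) (a (X.i p) y) (a (X.i p) y) := by
    rw [← hw.coef2 hw hw p hy]
    refine congrArg (fun t => pf t / 2 ^ 3) (funext fun s => ?_)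
    fin_cases s <;> rfl
  simp only [X.symm p y hy, hf p y hy, e, sign_pos (hp _ y (X.sub p hy)), SignType.coe_one, one_mul]

end Pool.Agent.Work.MP_bf98aa_gt.Cp
end

-- merged part: Pool.Agent.Work.MP_bf98aa_gt.Cp.PBr3
section
/-!
The almost complex structure and the canonical bundle on the manifold of a presentation.

PLAN. Index set: triples `(k, O', y₀)` or pairs `(k, O')` with `O' ⊆ T.O k` open and injective (`exists_inj`); `U = q (T.i k) '' O'`. For `x ∈ U` with preimage `z ∈ O'` let `D x = fderiv γ z`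
with the lift `γ = LL.symm ∘ chartAt x ∘ q (T.i k)` (`Man.lift`, invertible by `lift_isInv`), and `G x = T.F k z ∘ (D x)⁻¹ ∘ LL.symm`; `Ω x = detC ∘ G x`, `A x = T.A k z ∘ (D x)⁻¹ ∘ LL.symm`,
`J x = (G x)⁻¹ i (G x)` for a chosen member containing `x` (independent of it by `Cmp.J`). In the chart at `p`, near a point `LL y`, these are `detC ∘ T.F k (δ y) ∘ fderiv δ y ∘ LL.symm`, `pb δ (T.A k)`
with the lift `δ` from the chart `X.i p` to the chart `T.i k` (`Man.mfderiv_symm`, chain rule). The gauge function is the quotient `Ω' v₀ / Ω v₀`, equal to `l` of `Cmp` near every point.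
Split into helper files as needed.
-/

set_option autoImplicit false

open scoped ContDiff Topology Manifold
open Set Filter MeasureTheory

namespace Pool.Agent.Work.MP_bf98aa_gt.Cp

open Pool.Agent.Work.MP_bf98aa_gt.Th

/-- The complex determinant. -/
theorem exists_detC : ∃ D : E3 [⋀^Fin 3]→L[ℝ] ℂ, D ≠ 0 ∧
    ∀ (U : E3 →L[ℂ] E3) (v : Fin 3 → E3), D (fun s => U (v s)) = U.det * D v ∧
      D (Function.update v 0 (Complex.I • v 0)) = Complex.I * D v := by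
  let b : Module.Basis (Fin 3) ℂ E3 := Module.finBasisOfFinrankEq ℂ E3 (by simp)
  have hc : Continuous b.det := Continuous.matrix_det (continuous_matrix fun i j =>
    (b.coord i).continuous_of_finiteDimensional.comp (continuous_apply j))
  refine ⟨ContinuousAlternatingMap.restrictScalars ℝ (A := ℂ) { b.det with cont := hc },
    fun h => ?_, fun U v => ⟨b.det_comp U v, ?_⟩⟩
  · exact one_ne_zero (b.det_self.symm.trans (congrArg (fun f : E3 [⋀^Fin 3]→L[ℝ] ℂ => f b) h))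
  · exact (b.det.map_update_smul v 0 Complex.I (v 0)).trans (by rw [Function.update_eq_self]; rfl)

variable {P : Pres E3} {M : Type} [TopologicalSpace M] [ChartedSpace (Sp (Fin 3)) M]
  [IsManifold 𝓘(ℝ, Sp (Fin 3)) ∞ M]

theorem PBr3_cmp {γ δ : E3 → E3} {F F' : E3 → E3 →L[ℝ] E3} {A A' : Fm E3 1} {y : E3}
    (h : Cmp (fun x => γ (δ x)) F A F' A' y)
    (hd : ∀ᶠ x in 𝓝 y, DifferentiableAt ℝ δ x ∧ DifferentiableAt ℝ γ (δ x)) :
    Cmp δ F A (fun x => (F' (γ x)).comp (fderiv ℝ γ x)) (pb γ A') y := by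
  obtain ⟨l, h1, h2⟩ := h
  refine ⟨l, h1, ?_⟩
  filter_upwards [h2, hd] with x k ⟨k1, k2⟩
  rw [fderiv_fun_comp x k2 k1] at k
  refine ⟨k.1, k.2.1, fun v => Eq.trans (congrArg (· - A x ![v]) ?_) (k.2.2 v)⟩
  exact congrArg (A' (γ (δ x))) (funext fun i => by fin_cases i; rfl)

omit [IsManifold 𝓘(ℝ, Sp (Fin 3)) ∞ M] in
theorem PBr3_mem (X : Man P M) {m x : M} (hx : x ∈ (chartAt (Sp (Fin 3)) m).source) :
    PBr3_c LL.symm m x ∈ X.O m ∧ X.q (X.i m) (PBr3_c LL.symm m x) = x := by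
  obtain ⟨y, hy, rfl⟩ := X.src m ▸ hx
  rw [PBr3_c, X.chart m hy, LL.symm_apply_apply]
  exact ⟨hy, rfl⟩

omit [IsManifold 𝓘(ℝ, Sp (Fin 3)) ∞ M] in
theorem PBr3_fam (X : Man P M) (hP : P.Good) {a b : P.ι → Fm E3 2} (ha : P.GS a) (hb : P.GC b)
    (T : Fam P) (hT : T.Ok a b) : ∃ O F A, (Fam.mk M X.i O F A : Fam P).Ok a b ∧
      ∀ m, PBr3_c LL.symm m m ∈ O m := by
  have h0 := fun m => PBr3_mem X (mem_chart_source (Sp (Fin 3)) m)
  have h1 : ∀ m, ∃ k γ, Lift (sl P.r (X.i m) (T.i k)) (PBr3_c LL.symm m m) γ ∧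
      γ (PBr3_c LL.symm m m) ∈ T.O k := fun m => by
    obtain ⟨k, z, hz, h⟩ := hT.cov _ _ (X.sub m (h0 m).1)
    obtain ⟨γ, rfl, h'⟩ := hP.loc h
    exact ⟨k, γ, h', hz⟩
  choose k γ h1 using h1
  have h2 : ∀ m, IsOpen {y | Lift (sl P.r (X.i m) (T.i (k m))) y (γ m) ∧ γ m y ∈ T.O (k m)} :=
    fun m => isOpen_iff_mem_nhds.2 fun y hy => (hP.smap.lift_ev hP hy.1).and
      (hy.1.1.continuousAt.eventually ((hT.opn _).mem_nhds hy.2))
  refine ⟨fun m => {y | Lift (sl P.r (X.i m) (T.i (k m))) y (γ m) ∧ γ m y ∈ T.O (k m)},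
    fun m x => (T.F (k m) (γ m x)).comp (fderiv ℝ (γ m) x), fun m => pb (γ m) (T.A (k m)),
    ⟨h2, fun m y hy => hP.mem hy.1.self, fun j z hz => ⟨X.q j z, _, h1 _, ?_⟩, fun m y hy => ?_,
      fun m y hy => (hT.inv _ _ hy.2).comp (hP.lift_isInv hy.1), fun m => ?_,
      fun m y hy v hv => ?_, fun m m' y hy δ hy' hδ => ?_⟩, h1⟩
  · exact (X.q_eq hz (X.sub _ (h0 _).1)).1 (h0 _).2.symm
  · exact ((((hT.smF _).contDiffAt ((hT.opn _).mem_nhds hy.2)).comp y hy.1.1).clm_comp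
      (hy.1.1.fderiv_right le_rfl)).contDiffWithinAt
  · have h3 := (hT.dA (k m)).pb (h2 m) (hT.opn _) (fun y hy => hy.1.1.contDiffWithinAt)
      fun y hy => hy.2
    exact ⟨h3.1, fun y hy => (h3.2 y hy).trans
      (congrArg (fun t : Alt E3 2 => (2 * Real.pi) • t) (hb.2 _ _ y _ hy.1).symm)⟩
  · have h3 := hP.lift_isInv hy.1
    have h4 := (Cmp.pull (γ := γ m) (F' := T.F (k m)) (A' := T.A (k m)) (y := y)).J.self_of_nhds
      ((hT.inv _ _ hy.2).comp h3) (hT.inv _ _ hy.2) v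
    have h5 := hT.tame _ _ hy.2 (fderiv ℝ (γ m) y v) fun h =>
      hv (h3.injective (h.trans (map_zero _).symm))
    rw [← h4] at h5
    refine h5.trans_eq (Eq.trans ?_ (congrArg (fun t : Alt E3 2 => t _) (ha.2 _ _ y _ hy.1).symm))
    exact congrArg (a (T.i (k m)) (γ m y)) (funext fun i => by fin_cases i <;> rfl)
  · have h3 : Lift (sl P.r (X.i m) (T.i (k m'))) y fun x => γ m' (δ x) :=
      hδ.comp hy'.1 fun _ _ _ => hP.trans
    obtain ⟨ε, h4, h5⟩ := hP.smap.factor hP hy.1 h3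
    refine PBr3_cmp ((Cmp.pull.trans (hT.cmp _ _ _ hy.2 ε ?_ h4) hy.1.1 h4.1).congr_map h5.symm)
      (hδ.diff.and (hδ.1.continuousAt.eventually hy'.1.diff))
    rw [← Filter.EventuallyEq.eq_of_nhds h5]
    exact hy'.2

theorem PBr3_rep {X : Man P M} {k : ℕ} {w : Form (Sp (Fin 3)) M k} {a : P.ι → Fm E3 k}
    (h : X.Rep w a) (m x : M) (hx : x ∈ (chartAt (Sp (Fin 3)) m).source)
    (v : Fin k → Sp (Fin 3)) :
    w x v = a (X.i m) (PBr3_c LL.symm m x) fun i => PBr3_D LL.symm m x (v i) := by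
  have h1 := h m _ (PBr3_mem X hx).1
  rw [PBr3_c, LL.apply_symm_apply] at h1
  have h2 : ∀ x', x' = x → w x' v = w x v := fun x' e => by subst e; rfl
  refine Eq.trans ?_ (congrArg (fun t : Alt (Sp (Fin 3)) k => t fun i =>
    mfderiv 𝓘(ℝ, Sp (Fin 3)) 𝓘(ℝ, Sp (Fin 3)) (chartAt (Sp (Fin 3)) m) x (v i)) h1)
  refine (h2 _ ((chartAt (Sp (Fin 3)) m).left_inv hx)).symm.trans (congrArg _ (funext fun i => ?_))
  exact (congrArg (fun f : Sp (Fin 3) →L[ℝ] Sp (Fin 3) => f (v i))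
    ((mdifferentiable_chart (I := 𝓘(ℝ, Sp (Fin 3))) m).symm_comp_deriv hx)).symm

theorem Man.exists_J (X : Man P M) (hP : P.Good) {w ρ : Form (Sp (Fin 3)) M 2}
    {a b : P.ι → Fm E3 2} (hw : X.Rep w a) (hρ : X.Rep ρ b) (ha : P.GS a) (hb : P.GC b)
    (T : Fam P) (hT : T.Ok a b) : ∃ J : Endo (Sp (Fin 3)) M, Tamed w J ∧ RepC1 J ρ := by
  obtain ⟨O, F, A, h, h0⟩ := PBr3_fam X hP ha hb T hT
  obtain ⟨D, hD, hD'⟩ := exists_detC
  have H : PBr3_Dat LL.symm w ρ (fun m => a (X.i m)) (fun m => b (X.i m)) O F A := by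
    refine ⟨PBr3_rep hw, PBr3_rep hρ, h.opn, h0, h.smF, h.inv, h.dA, h.tame,
      fun m m' x hx hx' => ?_⟩
    have h1 := PBr3_mem X hx.1
    have h2 := (X.lift hP m' (X.sub m h1.1) (h1.2.symm ▸ hx'.1)).1
    refine ⟨_, h2.1, ?_, h.cmp m m' _ hx.2 _ ?_ h2⟩
    · filter_upwards [(chartAt (Sp (Fin 3)) m).open_source.mem_nhds hx.1] with x' k
      rw [(PBr3_mem X k).2]
      rfl
    · rw [h1.2]
      exact hx'.2
  exact ⟨_, H.tamed, hρ.closed hb.1, M, _, _, _, fun x => ⟨x, H.self x⟩,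
    H.frame hD fun v => (hD' 0 v).2, H.gauge hD fun U v => (hD' U v).1⟩

theorem Tamed.nondeg {w : Form (Sp (Fin 3)) M 2} {J : Endo (Sp (Fin 3)) M} (h : Tamed w J) :
    w.Nondeg := by
  intro x u hu
  by_contra h0
  exact (h.2.2 x u h0).ne' (hu _)

theorem bridge (P : Pres E3) (hP : P.Good) (hK : P.Cpt) (hC : P.Conn) {w ρ : P.ι → Fm E3 2}
    (hw : P.GC w) (hρ : P.GC ρ) (hpos : ∀ i, ∀ y ∈ P.W i, 0 < Pf (w i y) (w i y) (w i y))
    (T : Fam P) (hT : T.Ok w ρ) {c : ℝ} (hc : P.HasI (fun i y => Pf (ρ i y) (w i y) (w i y)) c)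
    (c0 : 0 < c) {a : Fin 3 × Fin 2 → P.ι → Fm E3 1} (ha : ∀ s, P.GC (a s)) {v : ℝ}
    (hv : P.HasI (fun i y => Dt fun s => a s i y) v) (v0 : v ≠ 0) : Goal := by
  obtain ⟨M, i1, i2, i3, i4, i5, i6, ⟨X⟩⟩ := exists_man hP hK hC
  obtain ⟨w', hw'⟩ := X.exists_form hP hw.2
  obtain ⟨ρ', hρ'⟩ := X.exists_form hP hρ.2
  choose a' ha' using fun s => X.exists_form hP (ha s).2
  obtain ⟨J, hJ, hJ'⟩ := X.exists_J hP hw' hρ' hw.gs hρ T hT
  obtain ⟨κ, hκ, H⟩ := X.integral hP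
  exact ⟨M, i1, i2, i3, i4, i5, i6, w', ρ', J, a', κ * c, κ * v, hw'.closed hw.1, hJ.nondeg, hJ, hJ',
    H w' w hw' hpos _ _ c (fun p y hy => hρ'.coef2 hw' hw' p hy) hc, mul_pos hκ c0,
    fun s => (ha' s).closed (ha s).1, H w' w hw' hpos _ _ v (fun p y hy => Man.coef1 ha' p hy) hv,
    mul_ne_zero hκ.ne' v0⟩

end Pool.Agent.Work.MP_bf98aa_gt.Cp
end

-- merged part: Pool.Agent.Work.MP_bf98aa_gt.Kg.AW
section
/-!
Working definitions for part A.
-/

set_option autoImplicit false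

open scoped ContDiff Topology
open Set Filter MeasureTheory

namespace Pool.Agent.Work.MP_bf98aa_gt.Kg

open Pool.Agent.Work.MP_bf98aa_gt.Th Pool.Agent.Work.MP_bf98aa_gt.Cp

section
variable {V : Type} [NormedAddCommGroup V] [NormedSpace ℝ V]

/-- The linear form of an alternating 1-form. -/
noncomputable def lin1 (a : Alt V 1) : V →L[ℝ] ℝ :=
  (ContinuousAlternatingMap.ofSubsingletonLIE (0 : Fin 1)).symm a

/-- The product of two alternating 1-forms. -/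
noncomputable def wd (a b : Alt V 1) : Alt V 2 := wedge (lin1 a) (lin1 b)

variable [NormedSpace ℂ V] [IsScalarTower ℝ ℂ V]

/-- Tamed by `i`. -/
def Tm (D : Alt V 2) : Prop := ∀ v, v ≠ 0 → 0 < Qf D v

/-- `B` is the real part of `α ∧ β`. -/
def IsB (B : Alt V 2) (α β : V →L[ℂ] ℂ) : Prop := ∀ u v, B ![u, v] = (α u * β v - α v * β u).re

end

/-- The pointwise data. -/
structure Pt (α β : E3 →L[ℂ] ℂ) (B κ Θ ρ : Alt E3 2) (f f' g g' : ℝ) (l : E3 →L[ℝ] ℝ) : Prop where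
  isB : IsB B α β
  inv : Inv11 κ
  tm : Tm (κ - arC β)
  ρeq : ρ = f • arC α + f' • arC β
  fle : f ≤ 0 ∧ f' ≤ 0
  Θeq : Θ = g • sqF l + g' • ρ
  gge : 0 ≤ g ∧ 0 ≤ g'

/-- The path of forms. -/
noncomputable def ws {ι : Type} (η : Fin 3 → ι → Fm E3 2) (s : ℝ) (i : ι) : Fm E3 2 :=
  fun y => η 0 i y + s ^ 2 • η 1 i y + s • η 2 i y

end Pool.Agent.Work.MP_bf98aa_gt.Kg
end

-- merged part: Pool.Agent.Work.MP_bf98aa_gt.Kg.AAlg
section
/-!
Pointwise algebra of 2-forms on `ℂ³`.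
PLAN. `PPf_sw1`, `PPf_sw2` give the symmetry of `Pf`. `Pf_arC`, `Pf_BB`: if `α, β` are independent (`crs α β ≠ 0`) take the complex linear map `U = (γ, α, β)` with `γ (crs α β) = det U ≠ 0`
(for instance `γ` = the conjugate coordinates of `e = crs α β`), so `U e = (det U, 0, 0)`, and reduce to `α = d z₁`, `β = d z₂` by `Pf_comp` (real determinant = `normSq` of the complex one, or avoid it:
both sides are polynomial, so one may also expand with `PPf_blk`, `PPf_split`, `PPf_one`, `PPf_two`); if `crs α β = 0` there is a complex plane in the common kernel and both sides vanish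
(`Pf_comp` with a map of determinant `≠ 1`, or continuity / density). An alternative: `Pf D (wedge a b) (wedge c d)` is alternating in the four linear forms `a, b, c, d`.
`Pf_B`: `Pf_comp` with `mulI E3`, whose determinant is 1 (its square is `det (-1) = 1`, and it is positive because `mulI` preserves `plus ar (plus ar ar)`, `Pf_plus`).
`nondeg_of_Pf`: if `D (u, ·) = 0`, `u ≠ 0`, the map `v ↦ v + φ v • u` with `φ u = 1` preserves `D` and has determinant 2.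
`Tm.Pf_pos`: the segment to the standard form consists of tamed, hence nondegenerate forms, `pf_ne_zero`, intermediate value theorem. `Tm.Pf_arC`: `0 < Pf (D + x arC α)³ = Pf D³ + 3 x Pf (arC α) D D` for all `x ≥ 0`.
-/

set_option autoImplicit false

open scoped ContDiff Topology
open Set Filter MeasureTheory

namespace Pool.Agent.Work.MP_bf98aa_gt.Kg

open Pool.Agent.Work.MP_bf98aa_gt.Th Pool.Agent.Work.MP_bf98aa_gt.Cp

section
variable {V : Type} [NormedAddCommGroup V] [NormedSpace ℝ V]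

theorem lin1_apply (a : Alt V 1) (v : V) : lin1 a v = a ![v] := by
  exact congrArg (fun b : Alt V 1 => b ![v])
    ((ContinuousAlternatingMap.ofSubsingletonLIE (0 : Fin 1)).apply_symm_apply a)

theorem wd_apply (a b : Alt V 1) (u v : V) :
    wd a b ![u, v] = a ![u] * b ![v] - a ![v] * b ![u] := by
  rw [wd, wedge_apply, lin1_apply, lin1_apply, lin1_apply, lin1_apply]
  rfl

variable [NormedSpace ℂ V] [IsScalarTower ℝ ℂ V]

theorem arC_apply (α : V →L[ℂ] ℂ) (u v : V) :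
    arC α ![u, v] = (α u).re * (α v).im - (α v).re * (α u).im := by
  rw [arC, IPf_comp, ar_apply]
  rfl

theorem inv11_arC (α : V →L[ℂ] ℂ) : Inv11 (arC α) := by
  intro u v
  rw [arC_apply, arC_apply, map_smul, map_smul]
  simp only [smul_eq_mul, Complex.I_mul_re, Complex.I_mul_im]
  ring

theorem Qf_arC (α : V →L[ℂ] ℂ) (v : V) : Qf (arC α) v = ‖α v‖ ^ 2 := by
  rw [Qf, arC_apply, map_smul, Complex.sq_norm, Complex.normSq_apply]
  simp only [smul_eq_mul, Complex.I_mul_re, Complex.I_mul_im]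
  ring

theorem sqF_eq (l : V →L[ℝ] ℝ) : ∃ γ : V →L[ℂ] ℂ, sqF l = arC γ ∧ ∀ v, (γ v).re = l v := by
  have h1 : ∀ v, (StrongDual.extendRCLike (𝕜 := ℂ) l v).re = l v :=
    StrongDual.re_extendRCLike_apply (𝕜 := ℂ) l
  have h2 : ∀ v, (StrongDual.extendRCLike (𝕜 := ℂ) l v).im = -l (Complex.I • v) :=
    StrongDual.im_extendRCLike_apply (𝕜 := ℂ) l
  refine ⟨StrongDual.extendRCLike (𝕜 := ℂ) l, alt_ext_two fun u v => ?_, h1⟩
  rw [sqF, wedge_apply, arC_apply, h1, h1, h2, h2]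
  rfl

theorem Inv11.add {D D' : Alt V 2} (h : Inv11 D) (h' : Inv11 D') : Inv11 (D + D') := by
  exact fun u v => congrArg₂ (· + ·) (h u v) (h' u v)

theorem Inv11.smul {D : Alt V 2} (h : Inv11 D) (c : ℝ) : Inv11 (c • D) := by
  exact fun u v => congrArg (c * ·) (h u v)

theorem Qf_add (D D' : Alt V 2) (v : V) : Qf (D + D') v = Qf D v + Qf D' v := by
  rfl

theorem Qf_sub (D D' : Alt V 2) (v : V) : Qf (D - D') v = Qf D v - Qf D' v := by
  rfl

theorem Qf_smul (c : ℝ) (D : Alt V 2) (v : V) : Qf (c • D) v = c * Qf D v := by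
  rfl

theorem Qf_zero (D : Alt V 2) : Qf D 0 = 0 := by
  exact IPf_zero D (Or.inl rfl)

theorem Qf_rsmul (D : Alt V 2) (c : ℝ) (v : V) : Qf D (c • v) = c ^ 2 * Qf D v := by
  obtain ⟨B, hB⟩ := exists_bilin D
  rw [Qf, Qf, hB, hB, smul_comm Complex.I c v, map_smul, B.map_smul, smul_apply, smul_eq_mul,
    smul_eq_mul, sq, mul_assoc]

end

theorem Pf_add2 (a b b' c : Alt E3 2) : Pf a (b + b') c = Pf a b c + Pf a b' c := by
  rw [PPf_sw1, Pf_add, PPf_sw1 b, PPf_sw1 b']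

theorem Pf_add3 (a b c c' : Alt E3 2) : Pf a b (c + c') = Pf a b c + Pf a b c' := by
  rw [PPf_sw2, Pf_add, PPf_sw2 c, PPf_sw2 c']

theorem Pf_smul2 (t : ℝ) (a b c : Alt E3 2) : Pf a (t • b) c = t * Pf a b c := by
  rw [PPf_sw1, Pf_smul, PPf_sw1 b]

theorem Pf_smul3 (t : ℝ) (a b c : Alt E3 2) : Pf a b (t • c) = t * Pf a b c := by
  rw [PPf_sw2, Pf_smul, PPf_sw2 c]

theorem Pf_sw3 (a b c : Alt E3 2) : Pf a b c = Pf a c b := by
  rw [PPf_sw1 a b, PPf_sw2 b, PPf_sw1 c]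

variable {α β : E3 →L[ℂ] ℂ} {B D D' : Alt E3 2}

theorem AAlg_exp (α : E3 →L[ℂ] ℂ) (v : E3) :
    α v = v.1 * α (1, 0, 0) + v.2.1 * α (0, 1, 0) + v.2.2 * α (0, 0, 1) := by
  rw [← smul_eq_mul, ← smul_eq_mul, ← smul_eq_mul, ← map_smul, ← map_smul, ← map_smul, ← map_add,
    ← map_add]
  simp

theorem crs_ker (α β : E3 →L[ℂ] ℂ) : α (crs α β) = 0 ∧ β (crs α β) = 0 := by
  rw [AAlg_exp α, AAlg_exp β]
  simp only [crs]
  constructor <;> ring

theorem crs_self (α : E3 →L[ℂ] ℂ) : crs α α = 0 := by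
  simp only [crs, mul_comm, sub_self]
  rfl

theorem AAlg_lin (α : E3 →L[ℂ] ℂ) (x y z : ℂ) :
    α (x, y, z) = x * α (1, 0, 0) + y * α (0, 1, 0) + z * α (0, 0, 1) := by
  have e : ((x, y, z) : E3) =
      x • ((1, 0, 0) : E3) + y • ((0, 1, 0) : E3) + z • ((0, 0, 1) : E3) := by simp
  rw [e, map_add, map_add, map_smul, map_smul, map_smul]
  rfl

theorem AAlg_Qf (D : Alt E3 2) (l : ℂ) (v : E3) : Qf D (l • v) = Complex.normSq l * Qf D v := by
  obtain ⟨B, hB⟩ := exists_bilin D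
  have s : ∀ u u', B u u' = -B u' u := fun u u' => by rw [← hB, ← hB, alt2_swap]
  have z : ∀ u, B u u = 0 := fun u => by linarith [s u u]
  have h1 : ∀ x : ℂ, l * x = l.re • x + l.im • (Complex.I * x) := fun x => by
    apply Complex.ext <;> simp <;> ring
  have h2 : ∀ x : ℂ, Complex.I * (l * x) = l.re • (Complex.I * x) - l.im • x := fun x => by
    apply Complex.ext <;> simp <;> ring
  have e1 : l • v = l.re • v + l.im • (Complex.I • v) :=
    Prod.ext (h1 _) (Prod.ext (h1 _) (h1 _))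
  have e2 : Complex.I • l • v = l.re • (Complex.I • v) - l.im • v :=
    Prod.ext (h2 _) (Prod.ext (h2 _) (h2 _))
  rw [Qf, Qf, hB, hB, e2, e1, Complex.normSq_apply]
  simp only [map_add, map_sub, map_smul, ContinuousLinearMap.add_apply,
    ContinuousLinearMap.smul_apply, smul_eq_mul, z, s (Complex.I • v) v]
  ring

/-- The shear which sends the first basis vector to `w`. -/
noncomputable def AAlg_V (w : E3) : E3 →L[ℝ] E3 :=
  ((ContinuousLinearMap.fst ℂ ℂ F2).smulRight w +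
    (ContinuousLinearMap.inr ℂ ℂ F2).comp (ContinuousLinearMap.snd ℂ ℂ F2)).restrictScalars ℝ

theorem AAlg_V_apply (w : E3) (u : ℂ) (x : F2) : AAlg_V w (u, x) = u • w + (0, x) := rfl

theorem AAlg_V_fst (w : E3) (u : ℂ) : AAlg_V w (u, 0) = u • w := add_zero _

theorem AAlg_V_inr (w : E3) (b : Alt E3 2) :
    (b.compContinuousLinearMap (AAlg_V w)).compContinuousLinearMap
      (ContinuousLinearMap.inr ℝ ℂ F2) =
      b.compContinuousLinearMap (ContinuousLinearMap.inr ℝ ℂ F2) :=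
  alt_ext_two fun u v => by
    simp only [IPf_comp, ContinuousLinearMap.inr_apply, AAlg_V_apply, zero_smul, zero_add]

theorem AAlg_V_det (w : E3) : (AAlg_V w).det = Complex.normSq w.1 := by
  have h := Pf_comp (plus ar (0 : Alt F2 2)) (plus 0 (plus ((1 : ℝ) • ar) ((1 : ℝ) • ar)))
    (plus 0 (plus ((1 : ℝ) • ar) ((1 : ℝ) • ar))) (AAlg_V w)
  rw [PPf_blk _ _ _ (Or.inl fun u v => by
      rw [IPf_comp, AAlg_V_apply]; simp [plus_apply, ar_apply]),
    PPf_blk _ _ _ (Or.inl fun u v => by simp [plus_apply, ar_apply]), AAlg_V_inr, PPf_inr,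
    pf2_plus, IPf_comp, AAlg_V_fst, AAlg_V_fst] at h
  simp [plus_apply, ar_apply] at h
  rw [← h, Complex.normSq_apply]

/-- The cyclic permutation of the coordinates. -/
noncomputable def AAlg_S : E3 →L[ℂ] E3 :=
  ((ContinuousLinearMap.snd ℂ ℂ ℂ).comp (ContinuousLinearMap.snd ℂ ℂ F2)).prod
    ((ContinuousLinearMap.fst ℂ ℂ F2).prod
      ((ContinuousLinearMap.fst ℂ ℂ ℂ).comp (ContinuousLinearMap.snd ℂ ℂ F2)))

theorem AAlg_S_det : (AAlg_S.restrictScalars ℝ).det = 1 := by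
  have e : (plus ((1 : ℝ) • ar) (plus ((1 : ℝ) • ar) ((1 : ℝ) • ar))).compContinuousLinearMap
      (AAlg_S.restrictScalars ℝ) = plus ((1 : ℝ) • ar) (plus ((1 : ℝ) • ar) ((1 : ℝ) • ar)) :=
    alt_ext_two fun u v => by
      rw [IPf_comp, plus_apply, plus_apply, plus_apply, plus_apply, add_comm, add_assoc]
      rfl
  have h := Pf_comp (plus ((1 : ℝ) • ar) (plus ((1 : ℝ) • ar) ((1 : ℝ) • ar)))
    (plus ((1 : ℝ) • ar) (plus ((1 : ℝ) • ar) ((1 : ℝ) • ar)))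
    (plus ((1 : ℝ) • ar) (plus ((1 : ℝ) • ar) ((1 : ℝ) • ar))) (AAlg_S.restrictScalars ℝ)
  rw [e, Pf_plus, pf2_plus] at h
  linarith

theorem AAlg_main (κ : ℝ) (R : (E3 →L[ℂ] ℂ) → (E3 →L[ℂ] ℂ) → Alt E3 2 → Alt E3 2 → Prop)
    (hS : ∀ α β b c, R α β b c → R (α.comp AAlg_S) (β.comp AAlg_S)
      (b.compContinuousLinearMap (AAlg_S.restrictScalars ℝ))
      (c.compContinuousLinearMap (AAlg_S.restrictScalars ℝ)))
    (hk : ∀ α β b c, R α β b c → ∀ u v, α u = 0 → β u = 0 → b ![u, v] = 0 ∧ c ![u, v] = 0)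
    (hp : ∀ α β b c, R α β b c →
      pf2 (b.compContinuousLinearMap (ContinuousLinearMap.inr ℝ ℂ F2))
        (c.compContinuousLinearMap (ContinuousLinearMap.inr ℝ ℂ F2)) =
        κ * Complex.normSq (crs α β).1)
    {α β : E3 →L[ℂ] ℂ} {b c : Alt E3 2} (h : R α β b c) (D : Alt E3 2) :
    Pf D b c = κ * Qf D (crs α β) := by
  have s1 : ∀ α β b c (D : Alt E3 2) (w : E3), R α β b c → α w = 0 → β w = 0 → w.1 ≠ 0 →
      Pf D b c = κ * Qf D (crs α β) := by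
    intro α β b c D w h ha hb hw
    have k := fun (u : ℂ) v => hk α β b c h (u • w) v (by rw [map_smul, ha, smul_zero])
      (by rw [map_smul, hb, smul_zero])
    have h1 := Pf_comp D b c (AAlg_V w)
    rw [PPf_blk _ _ _ (Or.inr ⟨fun u v => by rw [IPf_comp, AAlg_V_fst]; exact (k u _).1,
        fun u v => by rw [IPf_comp, AAlg_V_fst]; exact (k u _).2⟩), AAlg_V_inr, AAlg_V_inr,
      hp α β b c h, IPf_comp, AAlg_V_fst, AAlg_V_fst, one_smul, AAlg_V_det] at h1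
    have h2 : w.1 • crs α β = (crs α β).1 • w := by
      obtain ⟨x, y, z⟩ := w
      rw [AAlg_lin] at ha hb
      refine Prod.ext (mul_comm _ _) (Prod.ext ?_ ?_)
      · show x * (_ - _) = (_ - _) * y
        linear_combination α (0, 0, 1) * hb - β (0, 0, 1) * ha
      · show x * (_ - _) = (_ - _) * z
        linear_combination β (0, 1, 0) * ha - α (0, 1, 0) * hb
    have h3 := congrArg (Qf D) h2
    rw [AAlg_Qf, AAlg_Qf] at h3
    refine mul_left_cancel₀ (Complex.normSq_pos.2 hw).ne' ?_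
    rw [← h1, mul_left_comm _ κ, mul_left_comm _ κ, h3, mul_comm (Complex.normSq _)]
    rfl
  have s2 : ∀ (α β : E3 →L[ℂ] ℂ) (b c D : Alt E3 2),
      Pf (D.compContinuousLinearMap (AAlg_S.restrictScalars ℝ))
        (b.compContinuousLinearMap (AAlg_S.restrictScalars ℝ))
        (c.compContinuousLinearMap (AAlg_S.restrictScalars ℝ)) =
        κ * Qf (D.compContinuousLinearMap (AAlg_S.restrictScalars ℝ))
          (crs (α.comp AAlg_S) (β.comp AAlg_S)) → Pf D b c = κ * Qf D (crs α β) := by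
    intro α β b c D h
    rw [Pf_comp, AAlg_S_det, one_mul, Qf, IPf_comp] at h
    exact h
  obtain ⟨w, hw, hw0⟩ := Submodule.exists_mem_ne_zero_of_ne_bot
    (LinearMap.ker_ne_bot_of_finrank_lt (f := (α.prod β).toLinearMap) (by simp))
  have ha : α w = 0 := congrArg Prod.fst hw
  have hb : β w = 0 := congrArg Prod.snd hw
  obtain ⟨x, y, z⟩ := w
  by_cases hx : x = 0
  · by_cases hy : y = 0
    · refine s2 _ _ _ _ _ (s2 _ _ _ _ _
        (s1 _ _ _ _ _ (z, x, y) (hS _ _ _ _ (hS _ _ _ _ h)) ha hb fun hz => hw0 ?_))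
      exact Prod.ext hx (Prod.ext hy hz)
    · exact s2 _ _ _ _ _ (s1 _ _ _ _ _ (y, z, x) (hS _ _ _ _ h) ha hb hy)
  · exact s1 _ _ _ _ _ _ h ha hb hx

theorem AAlg_inr (α : E3 →L[ℂ] ℂ) (y z : ℂ) :
    α (ContinuousLinearMap.inr ℝ ℂ F2 (y, z)) = y * α (0, 1, 0) + z * α (0, 0, 1) := by
  rw [ContinuousLinearMap.inr_apply, AAlg_lin, zero_mul, zero_add]

theorem Pf_arC (D : Alt E3 2) (α β : E3 →L[ℂ] ℂ) : Pf D (arC α) (arC β) = Qf D (crs α β) := by
  refine (AAlg_main 1 (fun α β b c => b = arC α ∧ c = arC β) ?_ ?_ ?_ ⟨rfl, rfl⟩ D).trans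
    (one_mul _)
  · rintro α β b c ⟨rfl, rfl⟩
    exact ⟨rfl, rfl⟩
  · rintro α β b c ⟨rfl, rfl⟩ u v ha hb
    simp [arC_apply, ha, hb]
  · rintro α β b c ⟨rfl, rfl⟩
    simp only [pf2, IPf_comp, arC_apply, AAlg_inr, crs]
    generalize α (0, 1, 0) = a
    generalize α (0, 0, 1) = a'
    generalize β (0, 1, 0) = d
    generalize β (0, 0, 1) = d'
    simp [Complex.normSq_apply]
    ring

theorem IsB.Pf_BB (h : IsB B α β) (D : Alt E3 2) : Pf D B B = 2 * Qf D (crs α β) := by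
  refine AAlg_main 2 (fun α β b c => IsB b α β ∧ IsB c α β) ?_ ?_ ?_ ⟨h, h⟩ D
  · rintro α β b c ⟨h1, h2⟩
    exact ⟨fun u v => (IPf_comp _ _ _ _).trans (h1 _ _),
      fun u v => (IPf_comp _ _ _ _).trans (h2 _ _)⟩
  · rintro α β b c ⟨h1, h2⟩ u v ha hb
    simp [h1 u v, h2 u v, ha, hb]
  · rintro α β b c ⟨h1, h2⟩
    unfold IsB at h1 h2
    simp only [pf2, IPf_comp, h1, h2, AAlg_inr, crs]
    generalize α (0, 1, 0) = a
    generalize α (0, 0, 1) = a'
    generalize β (0, 1, 0) = d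
    generalize β (0, 0, 1) = d'
    simp [Complex.normSq_apply]
    ring

/-- The standard form. -/
noncomputable def AAlg_std : Alt E3 2 := plus ar (plus ar ar)

theorem AAlg_six : Pf AAlg_std AAlg_std AAlg_std = 6 := by
  have h1 := Pf_plus 1 1 1 (plus ar ar) (plus ar ar) (plus ar ar)
  have h2 := pf2_plus 1 1 1 1
  simp only [one_smul] at h1 h2
  rw [AAlg_std, h1, h2]
  norm_num

theorem IsB.Pf_B (h : IsB B α β) (hD : Inv11 D) (hD' : Inv11 D') : Pf D D' B = 0 := by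
  have e : ∀ w : Alt E3 2, Inv11 w → w.compContinuousLinearMap (mulI E3) = w := fun w hw =>
    alt_ext_two fun u v => (IPf_comp _ _ u v).trans (hw u v)
  have h1 := Pf_comp AAlg_std AAlg_std AAlg_std (mulI E3)
  rw [e _ fun u v => by
    simp only [AAlg_std, plus_apply, ar_apply, Prod.smul_fst, Prod.smul_snd, smul_eq_mul,
      Complex.I_mul_re, Complex.I_mul_im]
    ring, AAlg_six] at h1
  have h2 := Pf_comp D D' B (mulI E3)
  have h3 : B.compContinuousLinearMap (mulI E3) = (-1 : ℝ) • B := alt_ext_two fun u v => by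
    refine (IPf_comp _ _ u v).trans ((h (Complex.I • u) (Complex.I • v)).trans ?_)
    rw [ContinuousAlternatingMap.smul_apply, h u v]
    simp only [map_smul, smul_eq_mul, Complex.sub_re, Complex.mul_re, Complex.mul_im, Complex.I_re,
      Complex.I_im]
    ring
  rw [e D hD, e D' hD', h3, Pf_smul3, show (mulI E3).det = 1 by linarith] at h2
  linarith

theorem IsB.Qf_crs (h : IsB B α β) : Qf B (crs α β) = 0 := by
  rw [Qf, h, (crs_ker α β).1, (crs_ker α β).2, zero_mul, mul_zero, sub_zero, Complex.zero_re]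

theorem nondeg_of_Pf (h : Pf D D D ≠ 0) (u : E3) (hu : ∀ v, D ![u, v] = 0) : u = 0 := by
  by_contra h0
  obtain ⟨φ, hφ⟩ := SeparatingDual.exists_eq_one (R := ℝ) h0
  obtain ⟨L, hL⟩ := exists_bilin D
  have h1 := Pf_comp D D D (ContinuousLinearMap.id ℝ E3 - φ.smulRight u)
  have h2 : D.compContinuousLinearMap (ContinuousLinearMap.id ℝ E3 - φ.smulRight u) = D :=
    alt_ext_two fun a b => by
      have e1 : L u = 0 := ContinuousLinearMap.ext fun v => (hL u v).symm.trans (hu v)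
      have e2 : L a u = 0 := by rw [← hL, alt2_swap, hu, neg_zero]
      rw [IPf_comp, hL, hL]
      simp [e1, e2]
  have h3 : (ContinuousLinearMap.id ℝ E3 - φ.smulRight u).det = 0 :=
    LinearMap.det_eq_zero_iff_ker_ne_bot.2 ((Submodule.ne_bot_iff _).2 ⟨u, by simp [hφ], h0⟩)
  rw [h2, h3, zero_mul] at h1
  exact h h1

theorem AAlg_ne (h : Tm D) : Pf D D D ≠ 0 := by
  have h1 := pf_ne_zero (D.compContinuousLinearMap (LL.symm : Sp (Fin 3) →L[ℝ] E3)) fun u hu => by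
    by_contra h0
    have h2 := hu (LL (Complex.I • LL.symm u))
    rw [IPf_comp, ContinuousLinearEquiv.coe_coe, LL.symm_apply_apply] at h2
    exact (h _ fun e => h0 (LL.symm.map_eq_zero_iff.1 e)).ne' h2
  refine div_ne_zero (fun e => h1 (Eq.trans (congrArg pf (funext fun s => ?_)) e)) (by norm_num)
  fin_cases s <;> rfl

theorem Tm.Pf_pos (h : Tm D) : 0 < Pf D D D := by
  have h0 : Tm AAlg_std := fun v hv => by
    have e : Qf AAlg_std v = Complex.normSq v.1 + (Complex.normSq v.2.1 + Complex.normSq v.2.2) := by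
      simp only [Qf, AAlg_std, plus_apply, ar_apply, Prod.smul_fst, Prod.smul_snd, smul_eq_mul,
        Complex.I_mul_re, Complex.I_mul_im, Complex.normSq_apply]
      ring
    have a1 := Complex.normSq_nonneg v.1
    have a2 := Complex.normSq_nonneg v.2.1
    have a3 := Complex.normSq_nonneg v.2.2
    rw [e]
    by_contra hc
    exact hv (Prod.ext (Complex.normSq_eq_zero.1 (by linarith)) (Prod.ext
      (Complex.normSq_eq_zero.1 (by linarith)) (Complex.normSq_eq_zero.1 (by linarith))))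
  have hc : Continuous fun t : ℝ => (1 - t) • AAlg_std + t • D := by fun_prop
  have hg := continuous_Pf.comp (hc.prodMk (hc.prodMk hc))
  by_contra hn
  obtain ⟨t, ht, e⟩ := intermediate_value_Icc' zero_le_one hg.continuousOn (a := 0) ⟨by
    simpa using hn, by simp [AAlg_six]⟩
  refine AAlg_ne (D := (1 - t) • AAlg_std + t • D) (fun v hv => ?_) e
  rw [Qf_add, Qf_smul, Qf_smul]
  have a1 := h0 v hv
  have a2 := h v hv
  rcases ht.1.eq_or_lt with rfl | h1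
  · simpa using a1
  · exact add_pos_of_nonneg_of_pos (mul_nonneg (sub_nonneg.2 ht.2) a1.le) (mul_pos h1 a2)

theorem Tm.Pf_arC (h : Tm D) (α : E3 →L[ℂ] ℂ) : 0 ≤ Pf (arC α) D D := by
  by_contra hn
  have hp := neg_pos.2 (not_le.1 hn)
  have h0 := h.Pf_pos
  have hz : ∀ c, Pf c (arC α) (arC α) = 0 := fun c => by rw [Kg.Pf_arC, crs_self, Qf_zero]
  have h1 := Tm.Pf_pos (D := D + (Pf D D D / (3 * -Pf (arC α) D D)) • arC α) fun v hv => by
    rw [Qf_add, Qf_smul, Qf_arC]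
    exact add_pos_of_pos_of_nonneg (h v hv) (by positivity)
  simp only [Pf_add, Pf_add2, Pf_add3, Pf_smul, Pf_smul2, Pf_smul3, hz] at h1
  rw [PPf_sw2 D D (arC α), PPf_sw1 D (arC α) D, PPf_sw1 (arC α) D (arC α), PPf_sw2 (arC α) (arC α) D,
    hz] at h1
  have h2 := div_mul_cancel₀ (Pf D D D) (show 3 * -Pf (arC α) D D ≠ 0 by positivity)
  linarith

end Pool.Agent.Work.MP_bf98aa_gt.Kg
end

-- merged part: Pool.Agent.Work.MP_bf98aa_gt.Kg.BDc
section
/-!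
Calculus of `dc` and `ddc`.

PLAN. `arC_apply`, `Qf_arC`, `inv11_arC`, `Inv11.add`, `Qf_add`, `Qf_smul` are in Kg/AAlg. `dc_apply`: `alt1_apply`, `mulI_apply`. `ddc_apply`: `extDeriv_one_apply`, derivative of `x ↦ dc f x ![v] = - fderiv f x (I • v)`. `inv_ddc`: `D2_symm`, `I • I • v = -v`.
`dc_pb`: chain rule, `fderiv ℝ γ x = (fderiv ℂ γ x).restrictScalars ℝ` (`HasFDerivAt.restrictScalars`) is complex linear. `ddc_pb`: `dc_pb` near `x` (`AnalyticAt.eventually_analyticAt`), `extDeriv_pb`.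
`dc_log`: `fderiv (log ‖c‖ ^ 2) v = 2 re (dc v / c)`. `ddc_log`: near `x` the form is `2 • CCmp_lg c`, `CCmp_lg_d`. `cmp_dc`: `l = det (fderiv ℂ γ ·)`, analytic (`AnalyticAt.fderiv`; the determinant
is a polynomial: `ContinuousLinearMap.det`, or use only smoothness of `l` from the hypothesis `hl`). `ddc_comp`, `ddc_mul`: compute `dc` near `x`, then `extDeriv_one_apply` (product rule), or `ddc_apply` and second derivatives.
`ddc_normSq`: pull back from `ℂ` by `ddc_pb`, or `ddc_mul`.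
-/

set_option autoImplicit false

noncomputable section

open scoped ContDiff Topology
open Set Filter

namespace Pool.Agent.Work.MP_bf98aa_gt.Kg

open Pool.Agent.Work.MP_bf98aa_gt.Th Pool.Agent.Work.MP_bf98aa_gt.Cp

variable {V V' : Type} [NormedAddCommGroup V] [NormedSpace ℝ V] [NormedSpace ℂ V]
  [IsScalarTower ℝ ℂ V] [FiniteDimensional ℝ V] [FiniteDimensional ℂ V] [NormedAddCommGroup V']
  [NormedSpace ℝ V'] [NormedSpace ℂ V'] [IsScalarTower ℝ ℂ V'] [FiniteDimensional ℝ V']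
  [FiniteDimensional ℂ V'] {f g : V → ℝ} {x : V} {c : V → ℂ}

theorem an_sm {γ : V → V'} (h : AnalyticAt ℂ γ x) : ContDiffAt ℝ ∞ γ x := by
  exact h.contDiffAt.restrict_scalars ℝ

theorem an_fderiv {γ : V → V'} (h : AnalyticAt ℂ γ x) (v : V) : fderiv ℝ γ x v = fderiv ℂ γ x v := by
  rw [(h.differentiableAt.hasFDerivAt.restrictScalars ℝ).fderiv]
  rfl

theorem arC_smul (a : ℂ) (α : V →L[ℂ] ℂ) : arC (a • α) = ‖a‖ ^ 2 • arC α := by
  refine alt_ext_two fun u v => ?_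
  rw [ContinuousAlternatingMap.smul_apply, arC_apply, arC_apply, Complex.sq_norm,
    Complex.normSq_apply]
  simp only [smul_apply, smul_eq_mul, Complex.mul_re, Complex.mul_im]
  ring

theorem pb_ar (h : AnalyticAt ℂ c x) (s : ℂ → ℝ) :
    pb c (fun z => s z • ar) x = s (c x) • arC (fderiv ℂ c x) := by
  rw [pb_fun_smul, pb, (h.differentiableAt.hasFDerivAt.restrictScalars ℝ).fderiv]
  rfl

theorem Qf_sqF (l : V →L[ℝ] ℝ) (v : V) : Qf (sqF l) v = l v ^ 2 + l (Complex.I • v) ^ 2 := by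
  rw [Qf, sqF, wedge_apply]
  change l v * -l (Complex.I • Complex.I • v) - l (Complex.I • v) * -l (Complex.I • v) = _
  rw [smul_smul, Complex.I_mul_I, neg_one_smul, map_neg]
  ring

theorem dc_apply (f : V → ℝ) (x v : V) : dc f x ![v] = -fderiv ℝ f x (Complex.I • v) := by
  rfl

theorem dc_sm (h : ContDiffAt ℝ ∞ f x) : ContDiffAt ℝ ∞ (dc f) x := by
  exact contDiff_alt1.contDiffAt.comp x
    ((h.fderiv_right (m := ∞) le_rfl).clm_comp contDiffAt_const).neg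

theorem ddc_apply (h : ContDiffAt ℝ ∞ f x) (u v : V) :
    ddc f x ![u, v] = D2 f x v (Complex.I • u) - D2 f x u (Complex.I • v) := by
  have h1 : ∀ a b : V, fderiv ℝ (dc f) x a ![b] = -D2 f x a (Complex.I • b) := by
    intro a b
    have e1 := ((ContinuousAlternatingMap.apply ℝ V ℝ ![b]).hasFDerivAt.comp x
      ((dc_sm h).differentiableAt (by simp)).hasFDerivAt)
    have e2 := ((ContinuousLinearMap.apply ℝ ℝ (Complex.I • b)).hasFDerivAt.comp x
      ((h.fderiv_right (m := ∞) le_rfl).differentiableAt (by simp)).hasFDerivAt).neg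
    exact congrArg (fun L : V →L[ℝ] ℝ => L a) (e1.unique e2)
  rw [ddc, extDeriv_one_apply ((dc_sm h).differentiableAt (by simp)), h1, h1]
  ring

theorem inv_ddc (h : ContDiffAt ℝ ∞ f x) : Inv11 (ddc f x) := by
  intro u v
  rw [ddc_apply h, ddc_apply h, smul_smul, smul_smul, Complex.I_mul_I, neg_one_smul, neg_one_smul,
    map_neg, map_neg, D2_symm h (Complex.I • v), D2_symm h (Complex.I • u)]
  ring

theorem isD_dc {U : Set V} (hU : IsOpen U) (h : ContDiffOn ℝ ∞ f U) : IsD (dc f) (ddc f) U := by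
  exact ⟨fun y hy => (dc_sm (h.contDiffAt (hU.mem_nhds hy))).contDiffWithinAt, fun _ _ => rfl⟩

theorem cl_ddc {U : Set V} (hU : IsOpen U) (h : ContDiffOn ℝ ∞ f U) : Cl (ddc f) U := by
  exact (isD_dc hU h).cl hU

theorem dc_congr (h : f =ᶠ[𝓝 x] g) : dc f =ᶠ[𝓝 x] dc g := by
  exact h.fderiv.mono fun y hy => by rw [dc, dc, hy]

theorem ddc_congr (h : f =ᶠ[𝓝 x] g) : ddc f x = ddc g x := by
  exact (dc_congr h).extDeriv_eq

theorem ddc_const (a : ℝ) (x : V) : ddc (fun _ => a) x = 0 := by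
  have e : dc (fun _ : V => a) = fun _ => 0 :=
    funext fun y => alt_ext_one fun v => by simp [dc_apply]
  rw [ddc, e, extDeriv_const]

theorem BDc_ev (h : ContDiffAt ℝ ∞ f x) : ∀ᶠ y in 𝓝 x, DifferentiableAt ℝ f y :=
  ((h.of_le (m := 1) (by simp)).eventually (by simp)).mono fun _ e => e.differentiableAt one_ne_zero

theorem ddc_add (hf : ContDiffAt ℝ ∞ f x) (hg : ContDiffAt ℝ ∞ g x) :
    ddc (fun y => f y + g y) x = ddc f x + ddc g x := by
  have e : dc (fun y => f y + g y) =ᶠ[𝓝 x] dc f + dc g := by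
    filter_upwards [BDc_ev hf, BDc_ev hg] with y h1 h2
    refine alt_ext_one fun v => ?_
    rw [dc_apply, fderiv_fun_add h1 h2]
    exact neg_add _ _
  rw [ddc, e.extDeriv_eq, extDeriv_add ((dc_sm hf).differentiableAt (by simp))
    ((dc_sm hg).differentiableAt (by simp))]
  rfl

theorem ddc_sub (hf : ContDiffAt ℝ ∞ f x) (hg : ContDiffAt ℝ ∞ g x) :
    ddc (fun y => f y - g y) x = ddc f x - ddc g x := by
  have e : dc (fun y => f y - g y) =ᶠ[𝓝 x] dc f - dc g := by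
    filter_upwards [BDc_ev hf, BDc_ev hg] with y h1 h2
    refine alt_ext_one fun v => ?_
    rw [dc_apply, fderiv_fun_sub h1 h2]
    exact neg_sub' _ _
  rw [ddc, e.extDeriv_eq, extDeriv_sub' ((dc_sm hf).differentiableAt (by simp))
    ((dc_sm hg).differentiableAt (by simp))]
  rfl

theorem ddc_smul (hf : ContDiffAt ℝ ∞ f x) (a : ℝ) : ddc (fun y => a * f y) x = a • ddc f x := by
  have e : dc (fun y => a * f y) =ᶠ[𝓝 x] a • dc f := by
    filter_upwards [BDc_ev hf] with y h1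
    refine alt_ext_one fun v => ?_
    rw [dc_apply, fderiv_const_mul h1]
    exact (mul_neg _ _).symm
  rw [ddc, e.extDeriv_eq, extDeriv_smul]
  rfl

omit [NormedSpace ℂ V] [IsScalarTower ℝ ℂ V] [FiniteDimensional ℝ V] [FiniteDimensional ℂ V]
  [NormedSpace ℂ V'] [IsScalarTower ℝ ℂ V'] [FiniteDimensional ℝ V'] [FiniteDimensional ℂ V'] in
theorem BDc_pb_one (γ : V → V') (A : Fm V' 1) (x v : V) :
    pb γ A x ![v] = A (γ x) ![fderiv ℝ γ x v] :=
  congrArg (A (γ x)) (funext fun i => by fin_cases i; rfl)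

theorem dc_pb {γ : V → V'} {f' : V' → ℝ} (h : AnalyticAt ℂ γ x) (hf : DifferentiableAt ℝ f' (γ x)) :
    dc (fun y => f' (γ y)) x = pb γ (dc f') x := by
  refine alt_ext_one fun v => ?_
  have h2 : DifferentiableAt ℝ γ x := (an_sm h).differentiableAt (by simp)
  have h3 : fderiv ℝ (fun y => f' (γ y)) x = (fderiv ℝ f' (γ x)).comp (fderiv ℝ γ x) :=
    (hf.hasFDerivAt.comp x h2.hasFDerivAt).fderiv
  rw [BDc_pb_one, dc_apply, dc_apply, h3, ContinuousLinearMap.comp_apply, an_fderiv h, an_fderiv h,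
    map_smul]

theorem ddc_pb {γ : V → V'} {f' : V' → ℝ} (h : AnalyticAt ℂ γ x) (hf : ContDiffAt ℝ ∞ f' (γ x)) :
    ddc (fun y => f' (γ y)) x = pb γ (ddc f') x := by
  have e : dc (fun y => f' (γ y)) =ᶠ[𝓝 x] pb γ (dc f') := by
    filter_upwards [h.eventually_analyticAt, h.continuousAt.eventually (BDc_ev hf)] with y h1 h2
    exact dc_pb h1 h2
  rw [ddc, e.extDeriv_eq, extDeriv_pb ((dc_sm hf).differentiableAt (by simp)) (an_sm h)]
  rfl

theorem log_sm (h : AnalyticAt ℂ c x) (h0 : c x ≠ 0) :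
    ContDiffAt ℝ ∞ (fun y => Real.log (‖c y‖ ^ 2)) x := by
  exact ((an_sm h).norm_sq ℂ).log (pow_ne_zero 2 (norm_ne_zero_iff.2 h0))

theorem dc_log (h : AnalyticAt ℂ c x) (h0 : c x ≠ 0) (v : V) :
    dc (fun y => Real.log (‖c y‖ ^ 2)) x ![v] = 2 * (fderiv ℝ c x v / c x).im := by
  have h2 : HasFDerivAt c (fderiv ℝ c x) x := ((an_sm h).differentiableAt (by simp)).hasFDerivAt
  have h3 := h2.norm_sq.log (pow_ne_zero 2 (norm_ne_zero_iff.2 h0))
  have h4 : ‖c x‖ ^ 2 = (c x).re ^ 2 + (c x).im ^ 2 := by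
    rw [Complex.sq_norm, Complex.normSq_apply]
    ring
  have h5 : (c x).re ^ 2 + (c x).im ^ 2 ≠ 0 := h4 ▸ pow_ne_zero 2 (norm_ne_zero_iff.2 h0)
  have h6 : fderiv ℝ c x (Complex.I • v) = Complex.I * fderiv ℝ c x v := by
    rw [an_fderiv h, an_fderiv h, map_smul, smul_eq_mul]
  rw [dc_apply, h3.fderiv, Complex.div_im, Complex.normSq_apply]
  simp only [ContinuousLinearMap.smul_apply, ContinuousLinearMap.comp_apply, h6, innerSL_apply_apply,
    Complex.inner, smul_eq_mul, nsmul_eq_mul, h4, Complex.mul_re, Complex.mul_im, Complex.I_re,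
    Complex.I_im, Complex.conj_re, Complex.conj_im, Nat.cast_ofNat, ← sq]
  field_simp
  ring

theorem ddc_log (h : AnalyticAt ℂ c x) (h0 : c x ≠ 0) :
    ddc (fun y => Real.log (‖c y‖ ^ 2)) x = 0 := by
  have e : dc (fun y => Real.log (‖c y‖ ^ 2)) =ᶠ[𝓝 x] (2 : ℝ) • CCmp_lg c := by
    filter_upwards [h.eventually_analyticAt, h.continuousAt.eventually_ne h0] with y h1 h2
    refine alt_ext_one fun v => ?_
    rw [dc_log h1 h2, Pi.smul_apply, ContinuousAlternatingMap.smul_apply, CCmp_lg_apply, smul_eq_mul]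
  rw [ddc, e.extDeriv_eq, extDeriv_smul, CCmp_lg_d (an_sm h) h0, smul_zero]

theorem ddc_inv {γ : V → V'} {f' : V' → ℝ} (h : AnalyticAt ℂ γ x) (hf : ContDiffAt ℝ ∞ f x)
    (hf' : ContDiffAt ℝ ∞ f' (γ x)) (hc : AnalyticAt ℂ c x) (h0 : c x ≠ 0)
    (e : ∀ᶠ y in 𝓝 x, f' (γ y) = f y + Real.log (‖c y‖ ^ 2)) : ddc f x = pb γ (ddc f') x := by
  rw [← ddc_pb h hf', ddc_congr e, ddc_add hf (log_sm hc h0), ddc_log hc h0, add_zero]

theorem cmp_dc {γ : V → V} {f' : V → ℝ} (h : AnalyticAt ℂ γ x) (hf : ContDiffAt ℝ ∞ f x)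
    (hf' : ContDiffAt ℝ ∞ f' (γ x)) (hc : AnalyticAt ℂ c x) (h0 : c x ≠ 0)
    (hl : ∀ᶠ y in 𝓝 x, (fderiv ℂ γ y).det = c y)
    (e : ∀ᶠ y in 𝓝 x, f' (γ y) = f y + Real.log (‖c y‖ ^ 2)) :
    Cmp γ (fun _ => ContinuousLinearMap.id ℝ V) (fun y => (1 / 2 : ℝ) • dc f y)
      (fun _ => ContinuousLinearMap.id ℝ V) (fun y => (1 / 2 : ℝ) • dc f' y) x := by
  refine ⟨c, an_sm hc, ?_⟩
  filter_upwards [h.eventually_analyticAt, hc.eventually_analyticAt, hc.continuousAt.eventually_ne h0,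
    hl, dc_congr e, BDc_ev hf, h.continuousAt.eventually (BDc_ev hf')] with y h1 h2 h3 h4 h5 h6 h7
  refine ⟨⟨fderiv ℂ γ y, fun v => an_fderiv h1 v, h4⟩, h3, fun v => ?_⟩
  have h8 : DifferentiableAt ℝ (fun y => Real.log (‖c y‖ ^ 2)) y :=
    (log_sm h2 h3).differentiableAt (by simp)
  have h9 : dc (fun y => f y + Real.log (‖c y‖ ^ 2)) y ![v] =
      dc f y ![v] + dc (fun y => Real.log (‖c y‖ ^ 2)) y ![v] := by
    rw [dc_apply, dc_apply, dc_apply, fderiv_fun_add h6 h8, ContinuousLinearMap.add_apply, neg_add]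
  rw [ContinuousAlternatingMap.smul_apply, ContinuousAlternatingMap.smul_apply, ← BDc_pb_one,
    ← dc_pb h1 h7, h5, h9, dc_log h2 h3, smul_eq_mul, smul_eq_mul]
  ring

end Pool.Agent.Work.MP_bf98aa_gt.Kg
end
end
end

-- merged part: Pool.Agent.Work.MP_bf98aa_gt.Kg.AMain
section
-- merged part: Pool.Agent.Work.MP_bf98aa_gt.Kg.APt
section
/-!
The pointwise inequalities (page, A3 and A4).
PLAN. Expand by multilinearity and symmetry of `Pf`; write `e = crs α β`, `sqF l = arC γ` (`sqF_eq`); `Pf X ρ ρ = 2 f f' Qf X e`, `Qf ρ e = 0`, `Qf Θ e = g ‖γ e‖² ≥ 0`, `Pf X (arC γ) (arC γ) = 0`.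
`neg`: `κ = κ'' + arC β` with `κ''` tamed, `Pf (arC α) κ κ = Pf (arC α) κ'' κ'' + 2 Qf κ'' e`.
-/

set_option autoImplicit false

open scoped ContDiff Topology
open Set Filter MeasureTheory

namespace Pool.Agent.Work.MP_bf98aa_gt.Kg

open Pool.Agent.Work.MP_bf98aa_gt.Th Pool.Agent.Work.MP_bf98aa_gt.Cp

variable {α β : E3 →L[ℂ] ℂ} {B κ Θ ρ : Alt E3 2} {f f' g g' a c : ℝ} {l : E3 →L[ℝ] ℝ}

theorem APt_self (X : Alt E3 2) (γ : E3 →L[ℂ] ℂ) : Pf X (arC γ) (arC γ) = 0 := by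
  rw [Pf_arC, crs_self, Qf_zero]

theorem APt_sq (X Y Z : Alt E3 2) (c : ℝ) :
    Pf X (Y + c • Z) (Y + c • Z) = Pf X Y Y + 2 * c * Pf X Y Z + c ^ 2 * Pf X Z Z := by
  simp only [Pf_add2, Pf_add3, Pf_smul2, Pf_smul3, Pf_sw3 X Z Y]
  ring

theorem APt_rot (X Y Z : Alt E3 2) : Pf X Y Z = Pf Z X Y := by
  rw [Pf_sw3, PPf_sw1]

theorem APt_nn {D : Alt E3 2} (h : Tm D) (v : E3) : 0 ≤ Qf D v := by
  by_cases hv : v = 0
  · rw [hv, Qf_zero]
  · exact (h v hv).le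

theorem APt_ne (hl : l (crs α β) ≠ 0) : crs α β ≠ 0 := fun e => hl (by rw [e, map_zero])

theorem APt_ρρ (h : Pt α β B κ Θ ρ f f' g g' l) (X : Alt E3 2) :
    Pf X ρ ρ = 2 * (f * f') * Qf X (crs α β) := by
  rw [h.ρeq, APt_sq, Pf_smul2, Pf_smul3, Pf_smul2, APt_self, APt_self, Pf_arC]
  ring

theorem APt_Qρ (h : Pt α β B κ Θ ρ f f' g g' l) : Qf ρ (crs α β) = 0 := by
  rw [h.ρeq, Qf_add, Qf_smul, Qf_smul, Qf_arC, Qf_arC, (crs_ker α β).1, (crs_ker α β).2]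
  simp

theorem APt_QΘ (h : Pt α β B κ Θ ρ f f' g g' l) : 0 ≤ Qf Θ (crs α β) := by
  obtain ⟨γ, hγ, -⟩ := sqF_eq l
  rw [h.Θeq, Qf_add, Qf_smul, Qf_smul, APt_Qρ h, hγ, Qf_arC, mul_zero, add_zero]
  exact mul_nonneg h.gge.1 (sq_nonneg _)

theorem APt_invρ (h : Pt α β B κ Θ ρ f f' g g' l) : Inv11 ρ :=
  h.ρeq ▸ ((inv11_arC α).smul f).add ((inv11_arC β).smul f')

theorem APt_invD (h : Pt α β B κ Θ ρ f f' g g' l) (a : ℝ) : Inv11 (κ + a • Θ) := by
  obtain ⟨γ, hγ, -⟩ := sqF_eq l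
  refine h.inv.add (Inv11.smul ?_ a)
  rw [h.Θeq, hγ]
  exact ((inv11_arC γ).smul g).add ((APt_invρ h).smul g')

theorem Pt.tm' (h : Pt α β B κ Θ ρ f f' g g' l) : Tm κ := by
  intro v hv
  have h1 := h.tm v hv
  rw [Qf_sub, Qf_arC] at h1
  linarith [sq_nonneg ‖β v‖]

theorem Pt.BB (h : Pt α β B κ Θ ρ f f' g g' l) :
    0 ≤ Pf κ B B ∧ (Pf κ B B = 0 → crs α β = 0) := by
  rw [h.isB.Pf_BB]
  refine ⟨by linarith [APt_nn h.tm' (crs α β)], fun e => by_contra fun hv => ?_⟩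
  linarith [h.tm' _ hv]

theorem Pt.cube (h : Pt α β B κ Θ ρ f f' g g' l) (ha : 0 ≤ a) (c : ℝ) :
    Pf (κ + a • Θ) (κ + a • Θ) (κ + a • Θ) + 3 * c ^ 2 * Pf κ B B ≤
      Pf (κ + a • Θ + c • B) (κ + a • Θ + c • B) (κ + a • Θ + c • B) := by
  have hD := APt_invD h a
  have h1 : Pf κ B B ≤ Pf (κ + a • Θ) B B := by
    rw [h.isB.Pf_BB, h.isB.Pf_BB, Qf_add, Qf_smul]
    linarith [mul_nonneg ha (APt_QΘ h)]
  generalize κ + a • Θ = D at hD h1 ⊢
  have h2 : Pf D D B = 0 := h.isB.Pf_B hD hD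
  have h3 : Pf B B B = 0 := by rw [h.isB.Pf_BB, h.isB.Qf_crs, mul_zero]
  rw [Pf_add, Pf_smul, APt_sq, APt_sq, h2, h3, ← APt_rot D D B, h2, PPf_sw1 B D B]
  nlinarith [mul_le_mul_of_nonneg_left h1 (sq_nonneg c)]

theorem Pt.neg (h : Pt α β B κ Θ ρ f f' g g' l) :
    Pf ρ κ κ ≤ 0 ∧ (f < 0 → l (crs α β) ≠ 0 → Pf ρ κ κ < 0) := by
  have h1 := h.tm'.Pf_arC α
  have h2 := h.tm'.Pf_arC β
  have h3 : Pf ρ κ κ = f * Pf (arC α) κ κ + f' * Pf (arC β) κ κ := by
    rw [h.ρeq, Pf_add, Pf_smul, Pf_smul]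
  have h4 := mul_nonpos_of_nonpos_of_nonneg h.fle.2 h2
  refine ⟨by linarith [mul_nonpos_of_nonpos_of_nonneg h.fle.1 h1], fun hf hl => ?_⟩
  have h5 := APt_sq (arC α) (κ - arC β) (arC β) 1
  rw [one_smul, sub_add_cancel, APt_self, PPf_sw1 (arC α) (κ - arC β) (arC β), Pf_arC] at h5
  have h6 : 0 < Pf (arC α) κ κ := by linarith [h.tm.Pf_arC α, h.tm _ (APt_ne hl)]
  linarith [mul_neg_of_neg_of_pos hf h6]

theorem Pt.expand (h : Pt α β B κ Θ ρ f f' g g' l) (a c : ℝ) :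
    Pf ρ (κ + a • Θ + c • B) (κ + a • Θ + c • B) =
      Pf ρ κ κ + 2 * a * Pf ρ κ Θ + a ^ 2 * Pf ρ Θ Θ := by
  rw [APt_sq, h.isB.Pf_B (APt_invρ h) (APt_invD h a), h.isB.Pf_BB, APt_Qρ h, APt_sq]
  ring

theorem Pt.thom (h : Pt α β B κ Θ ρ f f' g g' l) : 0 ≤ Pf ρ Θ Θ ∧
    (f < 0 → f' < 0 → 0 < g → 0 < g' → l (crs α β) ≠ 0 → 0 < Pf ρ Θ Θ) := by
  obtain ⟨γ, hγ, hl⟩ := sqF_eq l
  have h1 : Pf ρ Θ Θ = 4 * (g * g') * (f * f') * ‖γ (crs α β)‖ ^ 2 := by
    rw [h.Θeq, APt_sq, hγ, Pf_smul2, Pf_smul3, Pf_smul2, APt_self, PPf_sw1 ρ (arC γ) ρ, APt_ρρ h,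
      APt_ρρ h, APt_Qρ h, Qf_arC]
    ring
  rw [h1]
  refine ⟨?_, fun hf hf' hg hg' h0 => ?_⟩
  · have h2 := mul_nonneg h.gge.1 h.gge.2
    have h3 := mul_nonneg_of_nonpos_of_nonpos h.fle.1 h.fle.2
    positivity
  · have h2 := mul_pos_of_neg_of_neg hf hf'
    have h3 : 0 < ‖γ (crs α β)‖ := norm_pos_iff.2 fun e => h0 (by rw [← hl, e, Complex.zero_re])
    positivity

theorem Pt.sq (h : Pt α β B κ Θ ρ f f' g g' l) (ha : 0 ≤ a) (c : ℝ) :
    0 ≤ Pf ρ ρ (κ + a • Θ + c • B) ∧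
      (f < 0 → f' < 0 → l (crs α β) ≠ 0 → 0 < Pf ρ ρ (κ + a • Θ + c • B)) := by
  rw [APt_rot, APt_ρρ h, Qf_add, Qf_add, Qf_smul, Qf_smul, h.isB.Qf_crs, mul_zero, add_zero]
  have h1 := mul_nonneg ha (APt_QΘ h)
  refine ⟨?_, fun hf hf' h0 => ?_⟩
  · have h2 := APt_nn h.tm' (crs α β)
    have h3 := mul_nonneg_of_nonpos_of_nonpos h.fle.1 h.fle.2
    positivity
  · have h2 := h.tm' _ (APt_ne h0)
    have h3 := mul_pos_of_neg_of_neg hf hf'
    positivity

end Pool.Agent.Work.MP_bf98aa_gt.Kg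
end

-- merged part: Pool.Agent.Work.MP_bf98aa_gt.Kg.APt2
section
/-!
The pointwise inequalities with a third term in the curvature form.
-/

set_option autoImplicit false

open scoped ContDiff Topology
open Set Filter MeasureTheory

namespace Pool.Agent.Work.MP_bf98aa_gt.Kg

open Pool.Agent.Work.MP_bf98aa_gt.Th Pool.Agent.Work.MP_bf98aa_gt.Cp

/-- The pointwise data with three terms. -/
structure Pt3 (α β δ : E3 →L[ℂ] ℂ) (B κ Θ ρ : Alt E3 2) (f f' f'' g g' : ℝ) (l : E3 →L[ℝ] ℝ) :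
    Prop where
  pt : Pt α β B κ Θ (f • arC α + f' • arC β) f f' g g' l
  ρeq : ρ = f • arC α + f' • arC β + f'' • arC δ
  fle : f'' ≤ 0
  dis : f'' = 0 ∨ (g = 0 ∧ g' = 0)

variable {α β δ : E3 →L[ℂ] ℂ} {B κ Θ ρ : Alt E3 2} {f f' f'' g g' a : ℝ} {l : E3 →L[ℝ] ℝ}

theorem Pt3.dis' (h : Pt3 α β δ B κ Θ ρ f f' f'' g g' l) : f'' = 0 ∨ Θ = 0 :=
  h.dis.imp id fun e => by rw [h.pt.Θeq, e.1, e.2, zero_smul, zero_smul, add_zero]

theorem Pt3.inv (h : Pt3 α β δ B κ Θ ρ f f' f'' g g' l) : Inv11 ρ :=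
  h.ρeq ▸ (APt_invρ h.pt).add ((inv11_arC δ).smul f'')

theorem Pt3.Qle (h : Pt3 α β δ B κ Θ ρ f f' f'' g g' l) (v : E3) : Qf ρ v ≤ 0 := by
  rw [h.ρeq, Qf_add, Qf_add, Qf_smul, Qf_smul, Qf_smul, Qf_arC, Qf_arC, Qf_arC]
  linarith [mul_nonpos_of_nonpos_of_nonneg h.pt.fle.1 (sq_nonneg ‖α v‖),
    mul_nonpos_of_nonpos_of_nonneg h.pt.fle.2 (sq_nonneg ‖β v‖),
    mul_nonpos_of_nonpos_of_nonneg h.fle (sq_nonneg ‖δ v‖)]

theorem Pt3.neg (h : Pt3 α β δ B κ Θ ρ f f' f'' g g' l) :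
    Pf ρ κ κ ≤ 0 ∧ (f < 0 → l (crs α β) ≠ 0 → Pf ρ κ κ < 0) := by
  have h1 := mul_nonpos_of_nonpos_of_nonneg h.fle (h.pt.tm'.Pf_arC δ)
  rw [h.ρeq, Pf_add _ (f'' • _), Pf_smul f'']
  exact ⟨by linarith [h.pt.neg.1], fun a b => by linarith [h.pt.neg.2 a b]⟩

theorem Pt3.expand (h : Pt3 α β δ B κ Θ ρ f f' f'' g g' l) (a c : ℝ) :
    Pf ρ (κ + a • Θ + c • B) (κ + a • Θ + c • B) =
      Pf ρ κ κ + 2 * a * Pf ρ κ Θ + a ^ 2 * Pf ρ Θ Θ + c ^ 2 * Pf ρ B B := by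
  rw [APt_sq, h.pt.isB.Pf_B h.inv (APt_invD h.pt a), APt_sq]
  ring

theorem Pt3.thom (h : Pt3 α β δ B κ Θ ρ f f' f'' g g' l) : 0 ≤ Pf ρ Θ Θ ∧
    (f < 0 → f' < 0 → 0 < g → 0 < g' → l (crs α β) ≠ 0 → 0 < Pf ρ Θ Θ) := by
  have e : f'' * Pf (arC δ) Θ Θ = 0 := h.dis'.elim (fun e => by rw [e, zero_mul]) fun e => by
    rw [e, PPf_sw1, Pf_zero, mul_zero]
  rw [h.ρeq, Pf_add _ (f'' • _), Pf_smul f'', e, add_zero]
  exact h.pt.thom

theorem Pt3.sq (h : Pt3 α β δ B κ Θ ρ f f' f'' g g' l) (ha : 0 ≤ a) (c : ℝ) :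
    0 ≤ Pf ρ ρ (κ + a • Θ + c • B) ∧
      (f < 0 → f' < 0 → l (crs α β) ≠ 0 → 0 < Pf ρ ρ (κ + a • Θ + c • B)) := by
  have h1 : 0 ≤ f'' * Pf (κ + a • Θ + c • B) (f • arC α + f' • arC β) (arC δ) := by
    rcases h.dis' with e | e
    · rw [e, zero_mul]
    · rw [e, smul_zero, add_zero, Pf_add, Pf_smul, APt_rot B, APt_rot (arC δ),
        h.pt.isB.Pf_B (APt_invρ h.pt) (inv11_arC δ), mul_zero, add_zero, Pf_add2, Pf_smul2,
        Pf_smul2, Pf_arC, Pf_arC]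
      exact mul_nonneg_of_nonpos_of_nonpos h.fle (add_nonpos
        (mul_nonpos_of_nonpos_of_nonneg h.pt.fle.1 (APt_nn h.pt.tm' _))
        (mul_nonpos_of_nonpos_of_nonneg h.pt.fle.2 (APt_nn h.pt.tm' _)))
  have h2 := h.pt.sq ha c
  rw [APt_rot] at h2
  rw [APt_rot, h.ρeq, APt_sq _ _ (arC δ), APt_self]
  exact ⟨by linarith [h2.1], fun a b c => by linarith [h2.2 a b c]⟩

theorem Pt3.top (h : Pt3 α β δ B κ Θ ρ f f' f'' g g' l) : Pf ρ ρ ρ ≤ 0 ∧
    (f < 0 → f' < 0 → f'' < 0 → δ (crs α β) ≠ 0 → Pf ρ ρ ρ < 0) := by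
  have e : Pf ρ ρ ρ = 6 * (f * f') * f'' * ‖δ (crs α β)‖ ^ 2 := by
    have e1 := APt_ρρ h.pt
    have e2 := APt_Qρ h.pt
    rw [h.ρeq]
    generalize f • arC α + f' • arC β = r at e1 e2
    rw [APt_sq, APt_self, e1, Qf_add, Qf_smul, e2, Qf_arC, Pf_add, Pf_smul, APt_rot r, e1, Qf_arC,
      PPf_sw1 (arC δ) r, APt_self]
    ring
  rw [e]
  refine ⟨?_, fun a b c d => ?_⟩
  · have := mul_nonneg_of_nonpos_of_nonpos h.pt.fle.1 h.pt.fle.2
    exact mul_nonpos_of_nonpos_of_nonneg (mul_nonpos_of_nonneg_of_nonpos (by positivity) h.fle)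
      (sq_nonneg _)
  · have := mul_pos_of_neg_of_neg a b
    exact mul_neg_of_neg_of_pos (mul_neg_of_pos_of_neg (by positivity) c)
      (pow_pos (norm_pos_iff.2 d) 2)

theorem Pt.cube' (h : Pt α β B κ Θ ρ f f' g g' l) (ha : 0 ≤ a) {c C : ℝ} (hc : c ^ 2 = a * C)
    (h1 : 0 ≤ C * Pf κ B B + Pf Θ κ κ) (h2 : 0 ≤ C * Pf Θ B B + Pf κ Θ Θ) :
    0 < Pf (κ + a • Θ + c • B) (κ + a • Θ + c • B) (κ + a • Θ + c • B) := by
  have hD := APt_invD h a
  have h3 : 0 ≤ Pf Θ Θ Θ := by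
    obtain ⟨γ, hγ, -⟩ := sqF_eq l
    have e : Pf Θ Θ Θ = g * Pf (arC γ) Θ Θ + g' * Pf ρ Θ Θ := by
      nth_rewrite 1 [h.Θeq]
      rw [Pf_add, Pf_smul, Pf_smul, hγ]
    have e' : Pf (arC γ) Θ Θ = g' ^ 2 * (2 * (f * f') * ‖γ (crs α β)‖ ^ 2) := by
      rw [h.Θeq, APt_sq, hγ, Pf_smul2, Pf_smul3, Pf_smul2, APt_self, APt_rot, PPf_sw1 ρ,
        PPf_sw1 (arC γ) ρ, APt_self, APt_ρρ h, Qf_arC]
      ring
    have := mul_nonneg_of_nonpos_of_nonpos h.fle.1 h.fle.2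
    have := h.gge.1
    rw [e, e']
    exact add_nonneg (by positivity) (mul_nonneg h.gge.2 h.thom.1)
  have h4 : Pf (κ + a • Θ) (κ + a • Θ) (κ + a • Θ) =
      Pf κ κ κ + 3 * a * Pf Θ κ κ + 3 * a ^ 2 * Pf κ Θ Θ + a ^ 3 * Pf Θ Θ Θ := by
    rw [Pf_add, Pf_smul, APt_sq, APt_sq, APt_rot κ κ Θ, PPf_sw1 Θ κ Θ]
    ring
  have h5 : Pf (κ + a • Θ) B B = Pf κ B B + a * Pf Θ B B := by rw [Pf_add, Pf_smul]
  generalize κ + a • Θ = D at hD h4 h5 ⊢
  have h6 : Pf D D B = 0 := h.isB.Pf_B hD hD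
  have h7 : Pf B B B = 0 := by rw [h.isB.Pf_BB, h.isB.Qf_crs, mul_zero]
  rw [Pf_add, Pf_smul, APt_sq, APt_sq, h6, h7, ← APt_rot D D B, h6, PPf_sw1 B D B, h4, h5]
  have h8 : c * (0 + 2 * c * (Pf κ B B + a * Pf Θ B B) + c ^ 2 * 0) =
      2 * c ^ 2 * (Pf κ B B + a * Pf Θ B B) := by ring
  rw [h8, hc]
  nlinarith [h.tm'.Pf_pos, mul_nonneg ha h1, mul_nonneg (sq_nonneg a) h2,
    mul_nonneg (pow_nonneg ha 3) h3]

theorem Pt3.low (h : Pt3 α β δ B κ Θ ρ f f' f'' g g' l) (C : ℝ) :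
    g * (C * Pf (sqF l) B B + 2 * g' * Pf κ (sqF l) ρ) ≤ C * Pf Θ B B + Pf κ Θ Θ := by
  obtain ⟨γ, hγ, -⟩ := sqF_eq l
  rcases h.dis with e | e
  · have e1 := APt_ρρ h.pt κ
    have e2 := APt_Qρ h.pt
    have e3 := h.pt.Θeq
    have e4 : ρ = f • arC α + f' • arC β := by rw [h.ρeq, e, zero_smul, add_zero]
    rw [← e4] at e1 e2 e3
    have := mul_nonneg_of_nonpos_of_nonpos h.pt.fle.1 h.pt.fle.2
    have := APt_nn h.pt.tm' (crs α β)
    have e5 : 0 ≤ g' ^ 2 * (2 * (f * f') * Qf κ (crs α β)) := by positivity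
    rw [e3, APt_sq, Pf_add, Pf_smul, Pf_smul, h.pt.isB.Pf_BB ρ, e2, e1, hγ, Pf_smul2, Pf_smul3,
      Pf_smul2, APt_self]
    linarith
  · rw [h.pt.Θeq, e.1, e.2, zero_smul, zero_smul, add_zero, Pf_zero, PPf_sw1 κ 0, Pf_zero]
    simp

theorem IsB.sq_pos (h : IsB B α β) {z : ℂ} (hz : l (z • crs α β) ≠ 0) : 0 < Pf (sqF l) B B := by
  obtain ⟨γ, hγ, hl⟩ := sqF_eq l
  rw [h.Pf_BB, hγ, Qf_arC]
  have : γ (crs α β) ≠ 0 := fun e => hz (by rw [← hl, map_smul, e, smul_zero, Complex.zero_re])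
  positivity

theorem Pt.ΘBB (h : Pt α β B κ Θ ρ f f' g g' l) : 0 ≤ Pf Θ B B := by
  rw [h.isB.Pf_BB]
  linarith [APt_QΘ h]

theorem Pf_wd (a : Fin 3 × Fin 2 → Alt E3 1) :
    Pf (∑ k, wd (a (k, 0)) (a (k, 1))) (∑ k, wd (a (k, 0)) (a (k, 1)))
      (∑ k, wd (a (k, 0)) (a (k, 1))) = 6 * Dt a := by
  choose l hl using fun s => exists_lin (a s)
  obtain rfl : a = fun s => alt1 (l s) := funext hl
  have e : ∑ k, wd (alt1 (l (k, 0))) (alt1 (l (k, 1))) = AAlg_std.compContinuousLinearMap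
      ((LL.symm : Sp (Fin 3) →L[ℝ] E3).comp (ContinuousLinearMap.pi l)) :=
    alt_ext_two fun u v => by
      rw [IPf_comp, Fin.sum_univ_three]
      simp only [ContinuousAlternatingMap.add_apply, wd_apply, alt1_apply, AAlg_std, plus_apply,
        ar_apply, add_assoc]
      rfl
  rw [e, Pf_comp, AAlg_six, PPf_Dt, ← PPf_det, mul_comm]
  congr 2
  ext u
  simp

end Pool.Agent.Work.MP_bf98aa_gt.Kg
end

-- merged part: Pool.Agent.Work.MP_bf98aa_gt.Kg.ACpt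
section
/-!
Compactness arguments (page, A2 and A3).
PLAN. `pos_of_cpt`: the open sets `{0 < n f + g}` increase and cover `K`. `lift_I`: from `cmp` the derivative is a complex linear map `U`. `exists_ka`: `pos_of_cpt` on `K i ×ˢ sphere 0 1` for
`Qf σ`, `Qf τ` (finitely many `i`, `Qf_rsmul`), `κ = C σ + τ + σ`, `tm_at` for `C σ + τ`. `gc_wd`: `extDeriv_two_apply`, `extDeriv_one_apply`, `contDiff_wedge`.
`exists_C`: a lower bound which holds near every point holds everywhere with one constant.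
-/

set_option autoImplicit false

open scoped ContDiff Topology
open Set Filter MeasureTheory

namespace Pool.Agent.Work.MP_bf98aa_gt.Kg

open Pool.Agent.Work.MP_bf98aa_gt.Th Pool.Agent.Work.MP_bf98aa_gt.Cp

theorem pos_of_cpt {X : Type} [TopologicalSpace X] {K : Set X} (hK : IsCompact K) {f g : X → ℝ}
    (hf : ContinuousOn f K) (hg : ContinuousOn g K) (h0 : ∀ x ∈ K, 0 ≤ f x)
    (h1 : ∀ x ∈ K, f x = 0 → 0 < g x) :
    ∃ C₀, 0 ≤ C₀ ∧ ∀ C, C₀ ≤ C → ∀ x ∈ K, 0 < C * f x + g x := by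
  suffices H : ∃ C₀, 0 ≤ C₀ ∧ ∀ C, C₀ ≤ C → ∀ x ∈ K, x ∈ K → 0 < C * f x + g x from
    H.imp fun _ h => ⟨h.1, fun C hC x hx => h.2 C hC x hx hx⟩
  refine hK.induction_on (p := fun s => ∃ C₀, 0 ≤ C₀ ∧ ∀ C, C₀ ≤ C → ∀ x ∈ s, x ∈ K →
    0 < C * f x + g x) ⟨0, le_rfl, fun _ _ _ h => h.elim⟩
    (fun s t hst h => h.imp fun _ h => ⟨h.1, fun C hC x hx => h.2 C hC x (hst hx)⟩) ?_ fun x hx => ?_
  · rintro s t ⟨a, a0, ha⟩ ⟨b, -, hb⟩
    exact ⟨max a b, le_max_of_le_left a0, fun C hC x hx =>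
      hx.elim (ha C (le_of_max_le_left hC) x) (hb C (le_of_max_le_right hC) x)⟩
  · obtain ⟨n, n0, hn⟩ : ∃ n, 0 ≤ n ∧ 0 < n * f x + g x := by
      rcases (h0 x hx).eq_or_lt with e | e
      · exact ⟨0, le_rfl, by simpa using h1 x hx e.symm⟩
      · refine ⟨(|g x| + 1) / f x, by positivity, ?_⟩
        rw [div_mul_cancel₀ _ e.ne']
        linarith [neg_abs_le (g x)]
    exact ⟨_, (((hf x hx).const_mul n).add (hg x hx)).eventually (lt_mem_nhds hn), n, n0,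
      fun C hC y hy yK => lt_of_lt_of_le hy
        (add_le_add_left (mul_le_mul_of_nonneg_right hC (h0 y yK)) _)⟩

variable {P : Pres E3} {D : Dat P}

theorem Dn_pos_at (hP : P.Good) {f : P.ι → E3 → ℝ} (hf : P.Dn f) {i j : P.ι} {y z : E3}
    (hr : P.r i y j z) (h : 0 < f j z) : 0 < f i y := by
  obtain ⟨γ, rfl, hγ⟩ := hP.loc hr
  obtain ⟨e, he⟩ := hP.lift_isInv hγ
  rw [hf.2 i j y γ hγ, ← he]
  exact mul_pos (abs_pos.2 e.toLinearEquiv.isUnit_det'.ne_zero) h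

theorem ACpt_pb (γ : E3 → E3) (a : Fm E3 2) (y u v : E3) :
    pb γ a y ![u, v] = a (γ y) ![fderiv ℝ γ y u, fderiv ℝ γ y v] :=
  congrArg (a (γ y)) (funext fun i => by fin_cases i <;> rfl)

theorem ACpt_d {a b : Fm E3 1} {x : E3} (ha : DifferentiableAt ℝ a x) (hb : DifferentiableAt ℝ b x)
    (h : DifferentiableAt ℝ (fun y => wd (a y) (b y)) x) (u v z : E3) :
    fderiv ℝ (fun y => wd (a y) (b y)) x u ![v, z] =
      a x ![v] * fderiv ℝ b x u ![z] + b x ![z] * fderiv ℝ a x u ![v] -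
        (a x ![z] * fderiv ℝ b x u ![v] + b x ![v] * fderiv ℝ a x u ![z]) := by
  have k := h.hasFDerivAt.continuousAlternatingMap_apply_const ![v, z]
  simp only [wd_apply] at k
  exact DFunLike.congr_fun (k.unique
    (((ha.hasFDerivAt.continuousAlternatingMap_apply_const ![v]).mul
      (hb.hasFDerivAt.continuousAlternatingMap_apply_const ![z])).sub
      ((ha.hasFDerivAt.continuousAlternatingMap_apply_const ![z]).mul
        (hb.hasFDerivAt.continuousAlternatingMap_apply_const ![v])))) u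

theorem gc_wd (hP : P.Good) {a b : P.ι → Fm E3 1} (ha : P.GC a) (hb : P.GC b) :
    P.GC fun i y => wd (a i y) (b i y) := by
  have l : ContDiff ℝ ∞ (lin1 : Alt E3 1 → E3 →L[ℝ] ℝ) :=
    (ContinuousAlternatingMap.ofSubsingletonLIE (𝕜 := ℝ) (E := E3) (F := ℝ)
      (0 : Fin 1)).symm.contDiff
  have s : ∀ i, Sm (fun y => wd (a i y) (b i y)) (P.W i) := fun i => by
    simpa only [Function.comp_def, Sm, wd] using contDiff_wedge.comp_contDiffOn
      ((l.comp_contDiffOn (ha.1 i).1).prodMk (l.comp_contDiffOn (hb.1 i).1))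
  refine ⟨fun i => ⟨s i, fun x hx => alt_ext_three fun u v z => ?_⟩,
    fun i j y γ h => alt_ext_two fun u v => ?_⟩
  · have d1 := (ha.1 i).1.diffAt (hP.opn i) hx
    have d2 := (hb.1 i).1.diffAt (hP.opn i) hx
    have d3 := (s i).diffAt (hP.opn i) hx
    have e1 := fun u v => sub_eq_zero.1 ((extDeriv_one_apply d1 u v).symm.trans
      (DFunLike.congr_fun ((ha.1 i).2 x hx) _))
    have e2 := fun u v => sub_eq_zero.1 ((extDeriv_one_apply d2 u v).symm.trans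
      (DFunLike.congr_fun ((hb.1 i).2 x hx) _))
    rw [extDeriv_two_apply d3, ACpt_d d1 d2 d3, ACpt_d d1 d2 d3, ACpt_d d1 d2 d3, e1 v u, e1 z u,
      e1 z v, e2 v u, e2 z u, e2 z v]
    change _ = (0 : ℝ)
    ring
  · rw [ACpt_pb, wd_apply, wd_apply, ha.2 i j y γ h, hb.2 i j y γ h]
    simp only [CCmp_pb_one]

theorem Dat.Ok.lift_I (hD : D.Ok) {i j : P.ι} {y : E3} {γ : E3 → E3}
    (hγ : Lift (sl P.r i j) y γ) (v : E3) :
    fderiv ℝ γ y (Complex.I • v) = Complex.I • fderiv ℝ γ y v := by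
  obtain ⟨l, -, h⟩ := hD.cmp i j y γ hγ
  obtain ⟨⟨U, hU, -⟩, -⟩ := h.self_of_nhds
  exact (hU _).trans ((U.map_smul _ _).trans (congrArg _ (hU v).symm))

theorem Dat.Ok.tm_at (hD : D.Ok) (hP : P.Good) {a : P.ι → Fm E3 2} (ha : Pulls P.r a a)
    {i j : P.ι} {y z : E3} (hr : P.r i y j z) (h : Tm (a j z)) : Tm (a i y) := by
  obtain ⟨γ, rfl, hγ⟩ := hP.loc hr
  obtain ⟨e, he⟩ := hP.lift_isInv hγ
  intro v hv
  rw [ha i j y γ hγ, Qf, ACpt_pb, hD.lift_I hγ]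
  exact h _ (he ▸ e.map_ne_zero_iff.2 hv)

theorem Dat.Ok.exists_ka (hD : D.Ok) (hP : P.Good) (hK : P.Cpt) : ∃ κ : P.ι → Fm E3 2, P.GC κ ∧
    ∀ i, ∀ y ∈ P.W i, Inv11 (κ i y) ∧ Tm (κ i y - arC (D.β i y)) := by
  obtain ⟨K, hK1, hK2⟩ := hK
  have := hP.fin
  have c : ∀ {a : P.ι → Fm E3 2}, P.GC a → ∀ i, ContinuousOn (fun p : E3 × E3 => Qf (a i p.1) p.2)
      (K i ×ˢ Metric.sphere 0 1) := fun ha i =>
    ((ha.1 i).1.continuousOn.comp continuousOn_fst fun p hp => (hK1 i).2 hp.1).eval (by fun_prop)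
  choose C _ hC using fun i => pos_of_cpt ((hK1 i).1.prod (isCompact_sphere (0 : E3) 1))
    (c hD.σGC i) (c hD.τGC i)
    (fun p hp => (sq_nonneg _).trans (hD.σge i _ ((hK1 i).2 hp.1) _)) fun p hp =>
      hD.τpos i _ ((hK1 i).2 hp.1) _ (ne_zero_of_mem_unit_sphere ⟨_, hp.2⟩)
  obtain ⟨M, hM⟩ := Finite.bddAbove_range C
  have g := (hD.σGC.smul hP M).add hP hD.τGC
  refine ⟨_, g.add hP hD.σGC, fun i y hy => ⟨(((hD.σinv i y hy).smul M).add (hD.τinv i y hy)).add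
    (hD.σinv i y hy), fun v hv => ?_⟩⟩
  obtain ⟨j, z, hz, hr⟩ := hK2 i y hy
  have t := hD.tm_at hP g.2 hr (fun w hw => by
    have := hC j M (hM ⟨j, rfl⟩) (z, ‖w‖⁻¹ • w)
      ⟨hz, mem_sphere_zero_iff_norm.2 (norm_smul_inv_norm hw)⟩
    rw [← Qf_smul, ← Qf_add, Qf_rsmul] at this
    exact (pos_iff_pos_of_mul_pos this).1 (by positivity)) v hv
  rw [Qf_sub, Qf_add, Qf_arC]
  linarith [hD.σge i y hy v]

theorem Dat.Ok.exists_B (hD : D.Ok) (hP : P.Good) : ∃ B : P.ι → Fm E3 2, P.GC B ∧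
    ∀ i, ∀ y ∈ P.W i, IsB (B i y) (D.α i y) (D.β i y) := by
  refine ⟨_, (gc_wd hP (hD.bGC 0) (hD.bGC 2)).add hP ((gc_wd hP (hD.bGC 1) (hD.bGC 3)).smul hP (-1)),
    fun i y hy u v => ?_⟩
  simp only [ContinuousAlternatingMap.add_apply, ContinuousAlternatingMap.smul_apply, wd_apply,
    hD.b0 i y hy, hD.b1 i y hy, hD.b2 i y hy, hD.b3 i y hy, Complex.sub_re, Complex.mul_re,
    smul_eq_mul]
  ring

theorem ACpt_c {a b c : E3 → Alt E3 2} {x : E3} (ha : ContinuousAt a x) (hb : ContinuousAt b x)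
    (hc : ContinuousAt c x) : ContinuousAt (fun x => Pf (a x) (b x) (c x)) x := by
  simpa only [Function.comp_def] using continuous_Pf.continuousAt.comp (ha.prodMk (hb.prodMk hc))

theorem ACpt_ev {f g : E3 → ℝ} {x : E3} (hf : ContinuousAt f x) (hg : ContinuousAt g x)
    (h : 0 < f x) : ∃ C, ∀ᶠ y in 𝓝 x, 0 < C * f y + g y := by
  refine ⟨(|g x| + 1) / f x, ((hf.const_mul _).add hg).eventually (lt_mem_nhds ?_)⟩
  rw [Pi.add_apply, div_mul_cancel₀ _ h.ne']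
  linarith [neg_abs_le (g x)]

theorem exists_C (hP : P.Good) (hK : P.Cpt) {f g : P.ι → E3 → ℝ} (hf : P.Dn f) (hg : P.Dn g)
    (h0 : ∀ i, ∀ y ∈ P.W i, 0 ≤ f i y)
    (h1 : ∀ i, ∀ y ∈ P.W i, ∃ C, ∀ᶠ x in 𝓝 y, x ∈ P.W i → 0 ≤ C * f i x + g i x) :
    ∃ C₀, ∀ C, C₀ ≤ C → ∀ i, ∀ y ∈ P.W i, 0 ≤ C * f i y + g i y := by
  obtain ⟨K, hK1, hK2⟩ := hK
  have := hP.fin
  have k : ∀ i, ∃ C₀, ∀ C, C₀ ≤ C → ∀ x ∈ K i, x ∈ P.W i → 0 ≤ C * f i x + g i x := fun i => by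
    refine (hK1 i).1.induction_on (p := fun s => ∃ C₀, ∀ C, C₀ ≤ C → ∀ x ∈ s, x ∈ P.W i →
      0 ≤ C * f i x + g i x) ⟨0, fun _ _ _ h => h.elim⟩
      (fun s t hst h => h.imp fun _ h C hC x hx => h C hC x (hst hx)) ?_ fun x hx => ?_
    · rintro s t ⟨a, ha⟩ ⟨b, hb⟩
      exact ⟨max a b, fun C hC x hx =>
        hx.elim (ha C (le_of_max_le_left hC) x) (hb C (le_of_max_le_right hC) x)⟩
    · obtain ⟨n, hn⟩ := h1 i x ((hK1 i).2 hx)
      exact ⟨_, mem_nhdsWithin_of_mem_nhds hn, n, fun C hC y hy yW => (hy yW).trans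
        (add_le_add_left (mul_le_mul_of_nonneg_right hC (h0 i y yW)) _)⟩
  choose C hC using k
  obtain ⟨M, hM⟩ := Finite.bddAbove_range C
  refine ⟨M, fun c hc i y hy => ?_⟩
  obtain ⟨j, z, hz, hr⟩ := hK2 i y hy
  exact ((hf.smul c).add hg).nonneg_at hP hr (hC j c ((hM ⟨j, rfl⟩).trans hc) z hz ((hK1 j).2 hz))

end Pool.Agent.Work.MP_bf98aa_gt.Kg
end

-- merged part: Pool.Agent.Work.MP_bf98aa_gt.Kg.ABr
section
/-!
From a presentation with holomorphic charts to the manifold.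
PLAN. `exists_J_hol`: as in `Man.exists_J` of `Cp/PBr3.lean`, but build `PBr3_Dat` directly with `O m = P.W (X.i m)`, `F = id`, `A m = A (X.i m)`; then `PBr3_Dat.GJ` says that `PBr3_D LL.symm m x` intertwines `J x`
with `i` for every `x` in the source of the chart at `m` (`PBr3_mem`, `X.sub`); `PBr3_rep` gives the invariance of `w`; for `J.loc` use `(mdifferentiable_chart p).comp_symm_deriv`.
`Rep` lemmas: `PBr3_rep` with `m = x` evaluates a form at `x`; `Man.Rep.closed` of `Cp/PBr1.lean` is the model for `exact`.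
-/

set_option autoImplicit false

open scoped ContDiff Topology Manifold
open Set Filter MeasureTheory

namespace Pool.Agent.Work.MP_bf98aa_gt.Kg

open Pool.Agent.Work.MP_bf98aa_gt.Th Pool.Agent.Work.MP_bf98aa_gt.Cp

variable {P : Pres E3} {M : Type} [TopologicalSpace M] [ChartedSpace (Sp (Fin 3)) M]
  [IsManifold 𝓘(ℝ, Sp (Fin 3)) ∞ M]

theorem ABr_two {X : Man P M} {w : Form (Sp (Fin 3)) M 2} {a : P.ι → Fm E3 2} (h : X.Rep w a)
    (x : M) (u v : Sp (Fin 3)) : w x ![u, v] =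
      a (X.i x) (PBr3_c LL.symm x x) ![PBr3_D LL.symm x x u, PBr3_D LL.symm x x v] :=
  (PBr3_rep h x x (mem_chart_source _ x) _).trans
    (congrArg (a _ _) (funext fun i => by fin_cases i <;> rfl))

theorem ABr_one {X : Man P M} {w : Form (Sp (Fin 3)) M 1} {a : P.ι → Fm E3 1} (h : X.Rep w a)
    (x : M) (u : Sp (Fin 3)) : w x ![u] = a (X.i x) (PBr3_c LL.symm x x) ![PBr3_D LL.symm x x u] :=
  (PBr3_rep h x x (mem_chart_source _ x) _).trans
    (congrArg (a _ _) (funext fun i => by fin_cases i; rfl))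

omit [IsManifold 𝓘(ℝ, Sp (Fin 3)) ∞ M] in
theorem ABr_mem (X : Man P M) {m x : M} (hx : x ∈ (chartAt (Sp (Fin 3)) m).source) :
    PBr3_c LL.symm m x ∈ P.W (X.i m) := X.sub m (PBr3_mem X hx).1

theorem exists_J_hol (X : Man P M) (hP : P.Good) {w ρ : Form (Sp (Fin 3)) M 2}
    {a b : P.ι → Fm E3 2} (hw : X.Rep w a) (hρ : X.Rep ρ b) (hb : P.GC b) {A : P.ι → Fm E3 1}
    (dA : ∀ i, IsD (A i) (fun y => (2 * Real.pi) • b i y) (P.W i))
    (cmp : ∀ i j y γ, Lift (sl P.r i j) y γ →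
      Cmp γ (fun _ => ContinuousLinearMap.id ℝ E3) (A i) (fun _ => ContinuousLinearMap.id ℝ E3)
        (A j) y) (ha : ∀ i, ∀ y ∈ P.W i, Inv11 (a i y) ∧ Tm (a i y))
    (hb' : ∀ i, ∀ y ∈ P.W i, ∀ v, Qf (b i y) v ≤ 0) (hb'' : ∀ i, ∀ y ∈ P.W i, Inv11 (b i y)) :
    ∃ J : Endo (Sp (Fin 3)) M, Tamed w J ∧ (∀ x u v, w x ![J x u, J x v] = w x ![u, v]) ∧
      (∃ J₀, ∀ p, ∀ y ∈ (chartAt (Sp (Fin 3)) p).target, J.loc p y = J₀) ∧ RepC1 J ρ ∧
      (∀ x v, ρ x ![v, J x v] ≤ 0) ∧ ∀ x u v, ρ x ![J x u, J x v] = ρ x ![u, v] := by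
  obtain ⟨D, hD, hD'⟩ := exists_detC
  have hid : (ContinuousLinearMap.id ℝ E3).IsInvertible := ⟨ContinuousLinearEquiv.refl ℝ E3, rfl⟩
  have hJ : ∀ v : E3, Jof (ContinuousLinearMap.id ℝ E3) v = Complex.I • v := fun v => Jof_spec hid v
  have H : PBr3_Dat LL.symm w ρ (fun m => a (X.i m)) (fun m => b (X.i m)) (fun m => P.W (X.i m))
      (fun _ _ => ContinuousLinearMap.id ℝ E3) (fun m => A (X.i m)) := by
    refine ⟨PBr3_rep hw, PBr3_rep hρ, fun m => hP.opn _,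
      fun m => ABr_mem X (mem_chart_source _ m), fun m => contDiffOn_const, fun _ _ _ => hid,
      fun m => dA _, fun m y hy v hv => ?_, fun m m' x hx hx' => ?_⟩
    · rw [hJ]
      exact (ha _ y hy).2 v hv
    · have h1 := PBr3_mem X hx.1
      have h2 := (X.lift hP m' (X.sub m h1.1) (h1.2.symm ▸ hx'.1)).1
      refine ⟨_, h2.1, ?_, cmp _ _ _ _ h2⟩
      filter_upwards [(chartAt (Sp (Fin 3)) m).open_source.mem_nhds hx.1] with x' k
      rw [(PBr3_mem X k).2]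
      rfl
  have hG : ∀ m x, x ∈ (chartAt (Sp (Fin 3)) m).source → ∀ v : Sp (Fin 3), PBr3_D LL.symm m x
      (PBr3_J LL.symm (fun _ _ => ContinuousLinearMap.id ℝ E3) x v) =
        Complex.I • PBr3_D LL.symm m x v := fun m x hx v => H.GJ ⟨hx, ABr_mem X hx⟩ v
  refine ⟨_, H.tamed, fun x u v => ?_, ⟨(LL : E3 →L[ℝ] Sp (Fin 3)).comp ((mulI E3).comp
    (LL.symm : Sp (Fin 3) →L[ℝ] E3)), fun p y hy => ?_⟩, ⟨hρ.closed hb.1, M, _, _, _,
    fun x => ⟨x, H.self x⟩, H.frame hD fun v => (hD' 0 v).2, H.gauge hD fun U v => (hD' U v).1⟩,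
    fun x v => ?_, fun x u v => ?_⟩
  · refine (ABr_two hw x _ _).trans (Eq.trans ?_ (ABr_two hw x u v).symm)
    exact (congrArg₂ (fun s t : E3 => a (X.i x) (PBr3_c LL.symm x x) ![s, t])
      (hG x x (mem_chart_source _ x) u) (hG x x (mem_chart_source _ x) v)).trans
      ((ha _ _ (ABr_mem X (mem_chart_source _ x))).1 _ _)
  · refine ContinuousLinearMap.ext fun v => LL.symm.injective ?_
    refine (hG p _ ((chartAt (Sp (Fin 3)) p).map_target hy) (PBr3_S p y v)).trans ?_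
    have h1 : PBr3_D LL.symm p ((chartAt (Sp (Fin 3)) p).symm y) (PBr3_S p y v) = LL.symm v :=
      congrArg LL.symm (congrArg (fun f : Sp (Fin 3) →L[ℝ] Sp (Fin 3) => f v)
        ((mdifferentiable_chart (I := 𝓘(ℝ, Sp (Fin 3))) p).comp_symm_deriv hy))
    rw [h1]
    exact (LL.symm_apply_apply _).symm
  · refine (ABr_two hρ x _ _).trans_le (le_of_eq_of_le ?_
      (hb' _ _ (ABr_mem X (mem_chart_source _ x)) (PBr3_D LL.symm x x v)))
    exact congrArg (fun t : E3 => b (X.i x) (PBr3_c LL.symm x x) ![PBr3_D LL.symm x x v, t])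
      (hG x x (mem_chart_source _ x) v)
  · refine (ABr_two hρ x _ _).trans (Eq.trans ?_ (ABr_two hρ x u v).symm)
    exact (congrArg₂ (fun s t : E3 => b (X.i x) (PBr3_c LL.symm x x) ![s, t])
      (hG x x (mem_chart_source _ x) u) (hG x x (mem_chart_source _ x) v)).trans
      (hb'' _ _ (ABr_mem X (mem_chart_source _ x)) _ _)

theorem rep_comb {X : Man P M} {η : Fin 3 → Form (Sp (Fin 3)) M 2} {e : Fin 3 → P.ι → Fm E3 2}
    (h : ∀ s, X.Rep (η s) (e s)) (s : ℝ) : X.Rep (comb η ![1, s ^ 2, s]) (ws e s) := by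
  intro p y hy
  have e : (comb η ![1, s ^ 2, s]).loc p (LL y) =
      (η 0).loc p (LL y) + s ^ 2 • (η 1).loc p (LL y) + s • (η 2).loc p (LL y) := by
    ext v
    simp only [Form.loc, comb, Fin.sum_univ_three, Matrix.cons_val_zero, Matrix.cons_val_one,
      Matrix.cons_val, one_smul]
    rfl
  rw [e, h 0 p y hy, h 1 p y hy, h 2 p y hy]
  rfl

theorem rep_nondeg {X : Man P M} {w : Form (Sp (Fin 3)) M 2} {a : P.ι → Fm E3 2} (h : X.Rep w a)
    (ha : ∀ i, ∀ y ∈ P.W i, Pf (a i y) (a i y) (a i y) ≠ 0) : w.Nondeg := by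
  intro x u hu
  have hD := PBr3_D_inv LL.symm (mem_chart_source (Sp (Fin 3)) x)
  have h1 : PBr3_D LL.symm x x u = 0 := by
    refine nondeg_of_Pf (ha _ _ (ABr_mem X (mem_chart_source _ x))) _ fun v => ?_
    rw [← hD.self_apply_inverse v]
    exact (ABr_two h x u _).symm.trans (hu _)
  exact hD.injective (h1.trans (map_zero _).symm)

theorem rep_wd {X : Man P M} {σ : Form (Sp (Fin 3)) M 2}
    {a : Fin 3 × Fin 2 → Form (Sp (Fin 3)) M 1} {e : Fin 3 × Fin 2 → P.ι → Fm E3 1}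
    (h : ∀ s, X.Rep (a s) (e s))
    (hσ : X.Rep σ fun i y => ∑ k, wd (e (k, 0) i y) (e (k, 1) i y)) (x : M)
    (u v : TangentSpace 𝓘(ℝ, Sp (Fin 3)) x) : σ x ![u, v] =
      ∑ k, (a (k, 0) x ![u] * a (k, 1) x ![v] - a (k, 0) x ![v] * a (k, 1) x ![u]) := by
  have h1 : ∀ s (t : TangentSpace 𝓘(ℝ, Sp (Fin 3)) x), a s x ![t] =
      e s (X.i x) (PBr3_c LL.symm x x) ![PBr3_D LL.symm x x t] := fun s t => ABr_one (h s) x t
  refine (ABr_two hσ x u v).trans ?_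
  simp only [h1, Fin.sum_univ_three, ContinuousAlternatingMap.add_apply, wd_apply]

theorem rep_exact {X : Man P M} (hP : P.Good) {ρ σ : Form (Sp (Fin 3)) M 2} {a b : P.ι → Fm E3 2}
    (hρ : X.Rep ρ a) (hσ : X.Rep σ b) {ξ : P.ι → Fm E3 1} (hξ : P.GS ξ)
    (h : ∀ i, ∀ y ∈ P.W i, extDeriv (ξ i) y = a i y - b i y) : (ρ.sub σ).Exact := by
  obtain ⟨β, hβ⟩ := X.exists_form hP hξ.2
  have key : ∀ p, IsD (β.loc p) ((ρ.sub σ).loc p) (chartAt (Sp (Fin 3)) p).target := fun p => by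
    have h1 : IsD (ξ (X.i p)) (fun y => a (X.i p) y - b (X.i p) y) (X.O p) :=
      ⟨ContDiffOn.mono (hξ.1 _) (X.sub p), fun x hx => h _ x (X.sub p hx)⟩
    have ho := (chartAt (Sp (Fin 3)) p).open_target
    have h2 := h1.pb (f := LL.symm) ho (X.opn p) LL.symm.contDiff.contDiffOn fun z hz => by
      obtain ⟨x, hx, rfl⟩ := X.tgt p ▸ hz
      rwa [LL.symm_apply_apply]
    have h3 : ∀ z ∈ (chartAt (Sp (Fin 3)) p).target, β.loc p z = pb LL.symm (ξ (X.i p)) z :=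
      fun z hz => by
        obtain ⟨x, hx, rfl⟩ := X.tgt p ▸ hz
        rw [hβ p x hx, pb, LL.symm_apply_apply, LL.symm.fderiv]
    refine ⟨ContDiffOn.congr h2.1 h3, fun z hz => ?_⟩
    rw [Filter.EventuallyEq.extDeriv_eq (Filter.mem_of_superset (ho.mem_nhds hz) h3), h2.2 z hz]
    obtain ⟨x, hx, rfl⟩ := X.tgt p ▸ hz
    have e : (ρ.sub σ).loc p (LL x) = ρ.loc p (LL x) - σ.loc p (LL x) := rfl
    rw [e, hρ p x hx, hσ p x hx, pb, LL.symm_apply_apply, LL.symm.fderiv]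
    rfl
  exact ⟨β, fun p => (key p).1, fun p => (key p).2⟩

end Pool.Agent.Work.MP_bf98aa_gt.Kg
end

-- merged part: Pool.Agent.Work.MP_bf98aa_gt.Kg.AMain
section
/-!
From the abstract data to the theorem.
-/

set_option autoImplicit false

open scoped ContDiff Topology Manifold
open Set Filter MeasureTheory

namespace Pool.Agent.Work.MP_bf98aa_gt.Kg

open Pool.Agent.Work.MP_bf98aa_gt.Th Pool.Agent.Work.MP_bf98aa_gt.Cp

variable {P : Pres E3}

theorem hasI_pos (hP : P.Good) (hK : P.Cpt) (hC : P.Conn) {f : P.ι → E3 → ℝ} (hf : P.Dn f)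
    (h0 : ∀ i, ∀ y ∈ P.W i, 0 ≤ f i y) (h1 : ∃ i, ∃ y ∈ P.W i, 0 < f i y) :
    ∃ c > 0, P.HasI f c := by
  obtain ⟨T, hT⟩ := exists_nice hP hK hC
  obtain ⟨c, hc⟩ := exists_hasI hP hf
  obtain ⟨i, y, hy, h⟩ := h1
  exact ⟨c, Pres.HasI.pos hP T hT hf h0 hy h hc, hc⟩

theorem exists_t (a b : ℝ) {c : ℝ} (hc : 0 < c) : ∃ t, 0 ≤ t ∧ 0 < a + 2 * t * b + t ^ 2 * c := by
  refine ⟨(|a| + 2 * |b|) / c + 1, by positivity, ?_⟩
  set t := (|a| + 2 * |b|) / c + 1 with ht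
  have h1 : 1 ≤ t := by
    have : 0 ≤ (|a| + 2 * |b|) / c := by positivity
    linarith
  have h2 : t * c = |a| + 2 * |b| + c := by
    rw [ht]; field_simp
  have h3 := neg_abs_le a
  have h4 := neg_abs_le b
  have h5 := abs_nonneg a
  have h6 : t ^ 2 * c = t * (|a| + 2 * |b| + c) := by rw [← h2]; ring
  rw [h6]
  nlinarith [mul_nonneg (sub_nonneg.2 h1) h5, mul_nonneg (by linarith : 0 ≤ t) (by linarith : 0 ≤ b + |b|),
    mul_pos (by linarith : 0 < t) hc]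

theorem gc_ws (hP : P.Good) {η : Fin 3 → P.ι → Fm E3 2} (h : ∀ s, P.GC (η s)) (s : ℝ) :
    P.GC (ws η s) :=
  Pres.GC.add hP (Pres.GC.add hP (h 0) (Pres.GC.smul hP (h 1) _)) (Pres.GC.smul hP (h 2) _)

theorem AMain_sq : Continuous (sqF : (E3 →L[ℝ] ℝ) → Alt E3 2) := by
  have h : Continuous fun l : E3 →L[ℝ] ℝ => (l, -(l.comp (mulI E3))) := by fun_prop
  have k := (contDiff_wedge (n := 0)).continuous.comp h
  simp only [Function.comp_def] at k
  exact k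

theorem Dat.Ok.main {D : Dat P} (hD : D.Ok) (hP : P.Good) (hK : P.Cpt) (hC : P.Conn) :
    ∃ η : Fin 3 → P.ι → Fm E3 2, (∀ s, P.GC (η s)) ∧ P.Ori ∧
      (∀ i, ∀ y ∈ P.W i, Inv11 (η 0 i y) ∧ Tm (η 0 i y)) ∧
      (∀ i, ∀ y ∈ P.W i, ∀ v, Qf (D.ρ i y) v ≤ 0) ∧
      (∀ s ∈ Icc (0 : ℝ) 1, ∀ i, ∀ y ∈ P.W i, 0 < Pf (ws η s i y) (ws η s i y) (ws η s i y)) ∧
      (∃ c < 0, P.HasI (fun i y => Pf (D.ρ i y) (D.ρ i y) (D.ρ i y)) c) ∧
      (∃ c < 0, P.HasI (fun i y => Pf (D.ρ i y) (ws η 0 i y) (ws η 0 i y)) c) ∧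
      (∃ c > 0, P.HasI (fun i y => Pf (D.ρ i y) (ws η 1 i y) (ws η 1 i y)) c) ∧
      ∀ s ∈ Icc (0 : ℝ) 1, ∃ c > 0, P.HasI (fun i y => Pf (D.ρ i y) (D.ρ i y) (ws η s i y)) c := by
  obtain ⟨κ, hκ, hκ'⟩ := hD.exists_ka hP hK
  obtain ⟨B, hB, hB'⟩ := hD.exists_B hP
  have hp : ∀ i, ∀ y ∈ P.W i, Pt3 (D.α i y) (D.β i y) (D.δ i y) (B i y) (κ i y) (D.Θ i y) (D.ρ i y)
      (D.f i y) (D.f' i y) (D.f'' i y) (D.g i y) (D.g' i y) (D.l i y) := fun i y hy => by
    refine ⟨⟨hB' i y hy, (hκ' i y hy).1, (hκ' i y hy).2, rfl,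
      ⟨(hD.fle i y hy).1, (hD.fle i y hy).2.1⟩, ?_, hD.gge i y hy⟩, hD.ρeq i y hy,
      (hD.fle i y hy).2.2, hD.dis i y hy⟩
    rw [hD.Θeq i y hy, hD.ρeq i y hy]
    rcases hD.dis i y hy with e | e
    · rw [e, zero_smul, add_zero]
    · rw [e.2, zero_smul, zero_smul]
  have h1 : ∀ i, ∀ y ∈ P.W i, 0 < Pf (κ i y) (κ i y) (κ i y) := fun i y hy =>
    (hp i y hy).pt.tm'.Pf_pos
  have hO : P.Ori := ori_of_pos hP hκ.2 h1
  have ct : ∀ {a : P.ι → Fm E3 2}, P.GC a → ∀ {i y}, y ∈ P.W i → ContinuousAt (a i) y :=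
    fun ha i y hy => (ha.1 i).1.continuousOn.continuousAt ((hP.opn i).mem_nhds hy)
  obtain ⟨C1, hC1⟩ := exists_C hP hK (dn_Pf hO hκ.gs hB.gs hB.gs) (dn_Pf hO hD.ΘGC.gs hκ.gs hκ.gs)
    (fun i y hy => (hp i y hy).pt.BB.1) fun i y hy => by
      rcases (hp i y hy).pt.BB.1.eq_or_lt with e | e
      · refine ⟨0, (hD.Θzero i y hy ((hp i y hy).pt.BB.2 e.symm)).mono fun x hx _ => ?_⟩
        rw [hx, Pf_zero, zero_mul, add_zero]
      · exact (ACpt_ev (ACpt_c (ct hκ hy) (ct hB hy) (ct hB hy))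
          (ACpt_c (ct hD.ΘGC hy) (ct hκ hy) (ct hκ hy)) e).imp fun C h =>
            h.mono fun x hx _ => hx.le
  obtain ⟨C2, hC2⟩ := exists_C hP hK (dn_Pf hO hD.ΘGC.gs hB.gs hB.gs)
    (dn_Pf hO hκ.gs hD.ΘGC.gs hD.ΘGC.gs) (fun i y hy => (hp i y hy).pt.ΘBB) fun i y hy => by
      rcases hD.Θloc i y hy with e | ⟨e1, e2, z, e3⟩
      · refine ⟨0, e.mono fun x hx hW => le_of_eq_of_le ?_ ((hp i x hW).low 0)⟩
        rw [hx, zero_mul]
      · have e4 := AMain_sq.continuousAt.comp e2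
        exact (ACpt_ev (ACpt_c e4 (ct hB hy) (ct hB hy))
          ((e1.const_mul 2).mul (ACpt_c (ct hκ hy) e4 (ct hD.ρGC hy)))
          ((hB' i y hy).sq_pos e3)).imp fun C h => h.mono fun x hx hW =>
            (mul_nonneg (hD.gge i x hW).1 hx.le).trans ((hp i x hW).low C)
  obtain ⟨C, C0, a1, a2⟩ : ∃ C, 0 ≤ C ∧ C1 ≤ C ∧ C2 ≤ C :=
    ⟨max 0 (max C1 C2), le_max_left _ _, le_max_of_le_right (le_max_left _ _),
      le_max_of_le_right (le_max_right _ _)⟩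
  have ng : ∀ {a b c : P.ι → Fm E3 2}, P.GC a → P.GC b → P.GC c →
      (∀ i, ∀ y ∈ P.W i, Pf (a i y) (b i y) (c i y) ≤ 0) →
      (∃ i, ∃ y ∈ P.W i, Pf (a i y) (b i y) (c i y) < 0) →
      ∃ r < 0, P.HasI (fun i y => Pf (a i y) (b i y) (c i y)) r := by
    rintro a b c ha hb hc k1 ⟨i, y, hy, k2⟩
    obtain ⟨r, r0, I⟩ := hasI_pos hP hK hC ((dn_Pf hO ha.gs hb.gs hc.gs).smul (-1))
      (fun i y hy => by linarith [k1 i y hy]) ⟨i, y, hy, by linarith⟩
    exact ⟨-1 * r, by linarith, (I.smul (-1)).congr fun i y _ => by ring⟩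
  obtain ⟨i₀, y₀, hy₀, p1, p2, p3, p4, p5⟩ := hD.pt
  obtain ⟨i₁, y₁, hy₁, q1, q2, q3, q4⟩ := hD.pt'
  have d0 := dn_Pf hO hD.ρGC.gs hκ.gs hκ.gs
  have d1 := dn_Pf hO hD.ρGC.gs hκ.gs hD.ΘGC.gs
  have d2 := dn_Pf hO hD.ρGC.gs hD.ΘGC.gs hD.ΘGC.gs
  have d3 := dn_Pf hO hD.ρGC.gs hB.gs hB.gs
  obtain ⟨c0, hc0, I0⟩ := ng hD.ρGC hκ hκ (fun i y hy => (hp i y hy).neg.1)
    ⟨i₀, y₀, hy₀, (hp i₀ y₀ hy₀).neg.2 p1 p5⟩
  obtain ⟨c1, I1⟩ := exists_hasI hP d1
  obtain ⟨c2, hc2, I2⟩ := hasI_pos hP hK hC d2 (fun i y hy => (hp i y hy).thom.1)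
    ⟨i₀, y₀, hy₀, (hp i₀ y₀ hy₀).thom.2 p1 p2 p3 p4 p5⟩
  obtain ⟨c3, I3⟩ := exists_hasI hP d3
  obtain ⟨t, ht, ht'⟩ := exists_t c0 (c1 + C * c3 / 2) hc2
  have hR : √(t * C) ^ 2 = t * C := Real.sq_sqrt (mul_nonneg ht C0)
  let η : Fin 3 → P.ι → Fm E3 2 := ![κ, fun i y => t • D.Θ i y, fun i y => √(t * C) • B i y]
  have hη : ∀ s, P.GC (η s) := fun s => by
    fin_cases s
    exacts [hκ, hD.ΘGC.smul hP t, hB.smul hP _]
  have e : ∀ s i y, ws η s i y = κ i y + (s ^ 2 * t) • D.Θ i y + (s * √(t * C)) • B i y :=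
    fun s i y => by rw [mul_smul, mul_smul]; rfl
  refine ⟨η, hη, hO, fun i y hy => ⟨(hκ' i y hy).1, (hp i y hy).pt.tm'⟩,
    fun i y hy => (hp i y hy).Qle, fun s hs i y hy => ?_,
    ng hD.ρGC hD.ρGC hD.ρGC (fun i y hy => (hp i y hy).top.1)
      ⟨i₁, y₁, hy₁, (hp i₁ y₁ hy₁).top.2 q1 q2 q3 q4⟩, ⟨c0, hc0, ?_⟩,
    ⟨c0 + 2 * t * c1 + t ^ 2 * c2 + t * C * c3, by linarith, ?_⟩, fun s hs => ?_⟩
  · rw [e]
    exact (hp i y hy).pt.cube' (by positivity) (by rw [mul_pow, hR, mul_assoc])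
      (hC1 C a1 i y hy) (hC2 C a2 i y hy)
  · exact I0.congr fun i y hy => by rw [e, (hp i y hy).expand]; ring
  · have d4 := d0.add (d1.smul (2 * t))
    refine (Pres.HasI.add (d4.add (d2.smul (t ^ 2))) (d3.smul (t * C))
      (Pres.HasI.add d4 (d2.smul (t ^ 2)) (Pres.HasI.add d0 (d1.smul (2 * t)) I0 (I1.smul (2 * t)))
        (I2.smul (t ^ 2))) (I3.smul (t * C))).congr fun i y hy => ?_
    rw [e, (hp i y hy).expand, one_mul, hR]; ring
  · have ha : 0 ≤ s ^ 2 * t := by positivity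
    exact hasI_pos hP hK hC (dn_Pf hO hD.ρGC.gs hD.ρGC.gs (gc_ws hP hη s).gs)
      (fun i y hy => by rw [e]; exact ((hp i y hy).sq ha _).1)
      ⟨i₀, y₀, hy₀, by rw [e]; exact ((hp i₀ y₀ hy₀).sq ha _).2 p1 p2 p5⟩

theorem hasI_top (hP : P.Good) (hK : P.Cpt) (hC : P.Conn) (hO : P.Ori) {ρ σ : P.ι → Fm E3 2}
    (hρ : P.GC ρ) (hσ : P.GC σ) {ξ : P.ι → Fm E3 1} (hξ : P.GS ξ)
    (h : ∀ i, ∀ y ∈ P.W i, extDeriv (ξ i) y = ρ i y - σ i y) {c : ℝ}
    (I : P.HasI (fun i y => Pf (ρ i y) (ρ i y) (ρ i y)) c) :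
    P.HasI (fun i y => Pf (σ i y) (σ i y) (σ i y)) c := by
  obtain ⟨T, hT⟩ := exists_nice hP hK hC
  have d := fun {a b : P.ι → Fm E3 2} (ha : P.GC a) (hb : P.GC b) =>
    dn_Pf hO (hξ.d hP).gs ha.gs hb.gs
  have k := fun {a b : P.ι → Fm E3 2} (ha : P.GC a) (hb : P.GC b) => hasI_stokes hP hO T hT hξ ha hb
  have d1 := (d hρ hρ).add (d hρ hσ)
  have I1 := Pres.HasI.add (dn_Pf hO hρ.gs hρ.gs hρ.gs) ((d1.add (d hσ hσ)).smul (-1)) I
    ((Pres.HasI.add d1 (d hσ hσ) (Pres.HasI.add (d hρ hρ) (d hρ hσ) (k hρ hρ) (k hρ hσ))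
      (k hσ hσ)).smul (-1))
  simp only [add_zero, mul_zero] at I1
  refine I1.congr fun i y hy => ?_
  simp only [h i y hy, sub_eq_add_neg, ← neg_one_smul ℝ (σ i y), Pf_add, Pf_smul]
  rw [PPf_sw1 (σ i y) (ρ i y) (ρ i y), Pf_sw3 (ρ i y) (σ i y) (ρ i y),
    PPf_sw1 (σ i y) (ρ i y) (σ i y)]
  ring

theorem goal_of (P : Pres E3) (hP : P.Good) (hK : P.Cpt) (hC : P.Conn) (D : Dat P) (hD : D.Ok) :
    Goal := by
  obtain ⟨η, hη, hO, h0, hq, hpos, ⟨c3, hc3, I3⟩, ⟨c0, hc0, I0⟩, ⟨c1, hc1, I1⟩, I2⟩ :=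
    hD.main hP hK hC
  obtain ⟨M, i1, i2, i3, i4, i5, i6, ⟨X⟩⟩ := exists_man hP hK hC
  choose η' hη' using fun s => X.exists_form hP (hη s).2
  choose a' ha' using fun s => X.exists_form hP (hD.aGC s).2
  obtain ⟨ρ', hρ'⟩ := X.exists_form hP hD.ρGC.2
  have g := fun k => gc_wd hP (hD.aGC (k, 0)) (hD.aGC (k, 1))
  have gσ : P.GC fun i y => ∑ k, wd (D.a (k, 0) i y) (D.a (k, 1) i y) := by
    simpa only [Fin.sum_univ_three] using Pres.GC.add hP (Pres.GC.add hP (g 0) (g 1)) (g 2)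
  have dσ : ∀ i, ∀ y ∈ P.W i, extDeriv (D.ξ i) y =
      D.ρ i y - ∑ k, wd (D.a (k, 0) i y) (D.a (k, 1) i y) := fun i y hy =>
    alt_ext_two fun u v => by
      simp only [hD.dξ i y hy, Fin.sum_univ_three, ContinuousAlternatingMap.sub_apply,
        ContinuousAlternatingMap.add_apply, wd_apply]
  have I4 : P.HasI (fun i y => Dt fun s => D.a s i y) (6⁻¹ * c3) :=
    ((hasI_top hP hK hC hO hD.ρGC gσ hD.ξGS dσ I3).smul 6⁻¹).congr fun i y _ => by
      rw [Pf_wd fun s => D.a s i y]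
      ring
  obtain ⟨σ', hσ'⟩ := X.exists_form hP gσ.2
  have hw := rep_comb hη'
  have e0 : ws η 0 = η 0 := by
    funext i y
    simp [ws]
  obtain ⟨J, hJ1, hJ2, hJ3, hJ4, hJ5, hJ6⟩ := exists_J_hol X hP (hw 0) hρ' hD.ρGC hD.dA hD.cmp
    (by rw [e0]; exact h0) hq fun i y hy => hD.ρeq i y hy ▸
      (((inv11_arC _).smul _).add ((inv11_arC _).smul _)).add ((inv11_arC _).smul _)
  obtain ⟨κ, hκ, H⟩ := X.integral hP
  refine ⟨M, i1, i2, i3, i4, i5, i6, η', fun s => comb η' ![1, s ^ 2, s], J, ρ', σ', a',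
    fun s => (hη' s).closed (hη s).1, fun _ => rfl,
    fun s hs => ⟨(hw s).closed (gc_ws hP hη s).1, rep_nondeg (hw s) fun i y hy =>
      (hpos s hs i y hy).ne'⟩, hJ1, hJ2, hJ3, hJ4, hJ5, hJ6, fun s => (ha' s).closed (hD.aGC s).1,
    rep_wd ha' hσ', rep_exact hP hρ' hσ' hD.ξGS dσ,
    ⟨κ * (6⁻¹ * c3), mul_ne_zero hκ.ne' (mul_ne_zero (by norm_num) hc3.ne),
      H _ _ (hw 0) (hpos 0 (by simp)) _ _ _ (fun p y hy => Man.coef1 ha' p hy) I4⟩,
    ⟨κ * c3, mul_neg_of_pos_of_neg hκ hc3, H _ _ (hw 0) (hpos 0 (by simp)) _ _ c3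
      (fun p y hy => hρ'.coef2 hρ' hρ' p hy) I3⟩,
    ⟨κ * c0, mul_neg_of_pos_of_neg hκ hc0, H _ _ (hw 0) (hpos 0 (by simp)) _ _ c0
      (fun p y hy => hρ'.coef2 (hw 0) (hw 0) p hy) I0⟩,
    ⟨κ * c1, mul_pos hκ hc1, H _ _ (hw 1) (hpos 1 (by simp)) _ _ c1
      (fun p y hy => hρ'.coef2 (hw 1) (hw 1) p hy) I1⟩, fun s hs => ?_⟩
  obtain ⟨c, hc, I⟩ := I2 s hs
  exact ⟨κ * c, mul_pos hκ hc, H _ _ (hw s) (hpos s hs) _ _ c
    (fun p y hy => hρ'.coef2 hρ' (hw s) p hy) I⟩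

end Pool.Agent.Work.MP_bf98aa_gt.Kg
end
end
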