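import Pool.Agent.Work.MP_bf98aa_gt.Kg.Res
import Pool.Agent.Work.MP_bf98aa_gt.Kg.AMain
import Pool.Agent.Work.MP_bf98aa_gt.Cp.PPf
import Pool.Agent.Work.MP_bf98aa_gt.Th.FHom

-- merged part: Pool.Agent.Work.MP_bf98aa_gt.Kg.BKap
section
-- merged part: Pool.Agent.Work.MP_bf98aa_gt.Kg.BMan
section
/-!
The presentation is good.

PLAN. `exists_HL`: `RR.loc` for the three factors, `γ x = act (fun k => μ k (tP i.2 x k)) i.2 j.2 x`, `act_an`, `TR.eq_act`, `TR_act`. `inj`: `RR_inj` along the continuous map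
`(x, x') ↦ (tP x k, tP x' k)`, then `TR.inj`. `clo`: if for some `k` there is no `m` with `RR .. m` and `tP q k = m ^ 2 * tP p k` use `RR_clo` with `U = ∅`; otherwise let `m₀ k` be these
multipliers (unique by `RR.uniq`); `TR m₀` fails, so it fails for `(m, x, x')` in a product neighbourhood of `(m₀, p, q)` (the equations are continuous); `RR_clo` with the open sets `U k`.
`lift_HL`: `exists_HL`, `SMap.lift_eq` with `PM_good.smap`, `AnalyticAt.congr`. An analytic map is smooth over the reals: `AnalyticAt.contDiffAt`, `ContDiffAt.restrict_scalars`.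
-/

set_option autoImplicit false

noncomputable section

open scoped ContDiff Topology
open Set Filter

namespace Pool.Agent.Work.MP_bf98aa_gt.Kg

open Pool.Agent.Work.MP_bf98aa_gt.Th Pool.Agent.Work.MP_bf98aa_gt.Cp

variable {i j : Jx} {p q : E3} {m : Fin 3 → ℂ} {γ : E3 → E3} {μ : Fin 3 → ℂ → ℂ}

theorem Rm.ne (h : Rm m i p j q) (k : Fin 3) : m k ≠ 0 := by
  exact (h.1 k).ne

theorem Rm.mem (h : Rm m i p j q) : p ∈ PM.W i ∧ q ∈ PM.W j := by
  refine ⟨fun k => ((h.1 k).mem (fack k)).1, fun k => ?_⟩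
  rw [(h.2 k).1]
  exact ((h.1 k).mem (fack k)).2

theorem isOpen_W (i : Jx) : IsOpen (PM.W i) := by
  have e : PM.W i = ⋂ k, (fun p => tP i.2 p k) ⁻¹' Dm (Wk k) (i.1 k) := by
    ext x
    rw [mem_iInter]
    rfl
  rw [e]
  exact isOpen_iInter_of_finite fun k => (isOpen_Dm (fack k) _).preimage
    (continuous_iff_continuousAt.2 fun p => (analyticAt_tP i.2 k p).continuousAt)

theorem exists_HL (h : Rm m i p j q) : ∃ γ μ, γ p = q ∧ HL i j p γ μ := by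
  choose μ h1 h2 h3 using fun k => (h.1 k).loc (fack k)
  have e : (fun k => μ k (tP i.2 p k)) = m := funext h2
  obtain ⟨d1, d2⟩ := h.2.eq_act h.ne
  obtain ⟨a1, a2⟩ := act_an (μ := fun x k => μ k (tP i.2 x k)) (T := i.2) (S := j.2) (p := p)
    (fun k => (h1 k).comp_of_eq (analyticAt_tP i.2 k p) rfl) (by rw [e]; exact d1)
  refine ⟨fun x => act (fun k => μ k (tP i.2 x k)) i.2 j.2 x, μ, ?_, a1, h1, h3, ?_⟩
  · rw [d2, ← e]
  · filter_upwards [a2, eventually_all.2 fun k =>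
      (analyticAt_tP i.2 k p).continuousAt.eventually (h3 k)] with x b1 b2
    exact ⟨b2, TR_act (fun k => (b2 k).ne) b1⟩

theorem HL.lift (h : HL i j p γ μ) : Lift (sl PM.r i j) p γ := by
  exact ⟨h.1.contDiffAt.restrict_scalars ℝ, h.2.2.2.mono fun x hx => ⟨_, hx⟩⟩

theorem BMan_cont {X : Type} [TopologicalSpace X] {f : X → E3} (hf : Continuous f) (T : Fin 4)
    (k : Fin 3) : (Continuous fun x => tP T (f x) k) ∧ (Continuous fun x => tu T (f x) k) ∧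
      Continuous fun x => tv T (f x) k :=
  ⟨(continuous_iff_continuousAt.2 fun x => (analyticAt_tP T k x).continuousAt).comp hf,
    (continuous_iff_continuousAt.2 fun x => (analyticAt_tu T k x).continuousAt).comp hf,
    (continuous_iff_continuousAt.2 fun x => (analyticAt_tv T k x).continuousAt).comp hf⟩

theorem BMan_tend (T S : Fin 4) (p q : E3) (k : Fin 3) :
    Tendsto (fun x : E3 × E3 => (tP T x.1 k, tP S x.2 k)) (𝓝 (p, q)) (𝓝 (tP T p k, tP S q k)) :=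
  ((BMan_cont continuous_fst T k).1.prodMk (BMan_cont continuous_snd S k).1).tendsto (p, q)

theorem PM_inj (hp : p ∈ PM.W i) : ∀ᶠ x in 𝓝 (p, p), PM.r i x.1 i x.2 → x.1 = x.2 := by
  filter_upwards [eventually_all.2 fun k =>
    (BMan_tend i.2 i.2 p p k).eventually (RR_inj (fack k) (hp k))] with x hx
  rintro ⟨m, a, b⟩
  obtain rfl : m = fun _ => 1 := funext fun k => hx k _ (a k) (b k).1
  exact b.inj

theorem PM_clo (hp : p ∈ PM.W i) (hq : q ∈ PM.W j) (h : ¬ PM.r i p j q) :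
    ∀ᶠ x in 𝓝 (p, q), ¬ PM.r i x.1 j x.2 := by
  by_cases e : ∀ k, ∃ m, RR (rk k) (i.1 k) (tP i.2 p k) (j.1 k) m ∧ tP j.2 q k = m ^ 2 * tP i.2 p k
  · choose m₀ h1 h2 using e
    have cl : IsClosed {z : (Fin 3 → ℂ) × E3 × E3 | TR z.1 i.2 z.2.1 j.2 z.2.2} := by
      simp only [TR, ofPred_forall, ofPred_and]
      refine isClosed_iInter fun k => ?_
      obtain ⟨a1, a2, a3⟩ := BMan_cont (X := (Fin 3 → ℂ) × E3 × E3) continuous_snd.fst i.2 k
      obtain ⟨b1, b2, b3⟩ := BMan_cont (X := (Fin 3 → ℂ) × E3 × E3) continuous_snd.snd j.2 k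
      have c := fun k => (continuous_apply k).comp (continuous_fst (X := Fin 3 → ℂ) (Y := E3 × E3))
      exact (isClosed_eq b1 (((c k).pow 2).mul a1)).inter
        (isClosed_eq (((c k).mul a2).mul b3) ((((c _).mul (c _)).mul a3).mul b2))
    obtain ⟨u, v, hu, hv, mu, mv, s⟩ := isOpen_prod_iff.1 cl.isOpen_compl m₀ (p, q)
      fun t => h ⟨m₀, h1, t⟩
    obtain ⟨U, hU, s'⟩ := isOpen_pi_iff'.1 hu m₀ mu
    filter_upwards [hv.mem_nhds mv, eventually_all.2 fun k => (BMan_tend i.2 j.2 p q k).eventually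
      (RR_clo (fack k) (hp k) (hq k) (hU k).1 fun m a b =>
        (h1 k).uniq (fack k) a ((h2 k).symm.trans b) ▸ (hU k).2)] with x x1 x2
    rintro ⟨m, a, b⟩
    exact s (mk_mem_prod (s' fun k _ => x2 k _ (a k) (b k).1) x1) b
  · obtain ⟨k, hk⟩ := not_forall.1 e
    filter_upwards [(BMan_tend i.2 j.2 p q k).eventually (RR_clo (fack k) (hp k) (hq k) isOpen_empty
      fun m a b => hk ⟨m, a, b⟩)] with x x1
    rintro ⟨m, a, b⟩
    exact x1 _ (a k) (b k).1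

theorem PM_good : PM.Good := by
  refine ⟨inferInstanceAs (Finite Jx), isOpen_W, fun ⟨_, h⟩ => h.mem.1,
    fun hy => ⟨fun _ => 1, fun k => RR_refl (fack k) (hy k), TR_refl _ _⟩,
    fun ⟨m, h⟩ => ⟨fun k => (m k)⁻¹, fun k => ?_, h.2.symm h.ne⟩,
    fun ⟨m, h⟩ ⟨m', h'⟩ => ⟨fun k => m' k * m k, fun k => ?_, h.2.trans h'.2⟩,
    fun ⟨_, h⟩ => ?_, PM_inj, PM_clo⟩
  · rw [(h.2 k).1]
    exact (h.1 k).symm (fack k)
  · exact (h.1 k).trans (fack k) ((h.2 k).1 ▸ h'.1 k)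
  · obtain ⟨γ, μ, h1, h2⟩ := exists_HL h
    exact ⟨γ, h1, h2.lift⟩

theorem lift_HL (h : Lift (sl PM.r i j) p γ) : ∃ μ, HL i j p γ μ := by
  obtain ⟨m, hm⟩ := h.self
  obtain ⟨γ', μ, h1, h2⟩ := exists_HL hm
  have e : γ' =ᶠ[𝓝 p] γ := PM_good.smap.lift_eq PM_good h2.lift h h1
  refine ⟨μ, h2.1.congr e, h2.2.1, h2.2.2.1, ?_⟩
  filter_upwards [e, h2.2.2.2] with x a1 a2
  exact a1 ▸ a2

theorem HL.ev (h : HL i j p γ μ) : ∀ᶠ x in 𝓝 p, HL i j x γ μ := by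
  filter_upwards [h.1.eventually_analyticAt, h.2.2.2.eventually_nhds,
    eventually_all.2 fun k => (analyticAt_tP i.2 k p).continuousAt.eventually
      ((h.2.1 k).eventually_analyticAt.and (h.2.2.1 k).eventually_nhds)] with x a1 a2 a3
  exact ⟨a1, fun k => (a3 k).1, fun k => (a3 k).2, a2⟩

theorem W_DC (hp : p ∈ PM.W i) (k : Fin 3) : tP i.2 p k ∈ DC := ((DmC _).le (hp k)).2

theorem BMan_scal {u v a b : E3 → ℂ} (hu : AnalyticAt ℂ u p) (ha : AnalyticAt ℂ a p) (h0 : a p ≠ 0)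
    (h : ∀ᶠ x in 𝓝 p, ∃ c, c ≠ 0 ∧ u x = c * a x ∧ v x = c * b x) :
    ∃ c : E3 → ℂ, AnalyticAt ℂ c p ∧ c p ≠ 0 ∧ ∀ᶠ x in 𝓝 p, u x = c x * a x ∧ v x = c x * b x := by
  refine ⟨fun x => u x / a x, hu.div ha h0, ?_, ?_⟩
  · obtain ⟨c, c1, c2, -⟩ := h.self_of_nhds
    exact div_ne_zero (c2 ▸ mul_ne_zero c1 h0) h0
  · filter_upwards [h, ha.continuousAt.eventually_ne h0] with x ⟨c, _, c2, c3⟩ hx
    rw [c2, mul_div_cancel_right₀ _ hx]
    exact ⟨rfl, c3⟩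

theorem HL.scal (h : HL i j p γ μ) (k : Fin 3) : ∃ c : E3 → ℂ, AnalyticAt ℂ c p ∧ c p ≠ 0 ∧
    ∀ᶠ x in 𝓝 p, tu j.2 (γ x) k = c x * (μ k (tP i.2 x k) * tu i.2 x k) ∧
      tv j.2 (γ x) k = c x * (μ (k + 1) (tP i.2 x (k + 1)) * μ (k + 2) (tP i.2 x (k + 2)) * tv i.2 x k) := by
  have hμ : ∀ k, AnalyticAt ℂ (fun x => μ k (tP i.2 x k)) p := fun k =>
    (h.2.1 k).comp_of_eq (analyticAt_tP i.2 k p) rfl
  have h0 := h.2.2.2.self_of_nhds.ne
  have hs := h.2.2.2.mono fun x hx => hx.2.scal hx.ne k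
  rcases tuv_ne i.2 p k with e | e
  · exact BMan_scal ((analyticAt_tu j.2 k _).comp_of_eq h.1 rfl)
      ((hμ k).mul (analyticAt_tu i.2 k p)) (mul_ne_zero (h0 k) e) hs
  · obtain ⟨c, c1, c2, c3⟩ := BMan_scal ((analyticAt_tv j.2 k _).comp_of_eq h.1 rfl)
      (((hμ (k + 1)).mul (hμ (k + 2))).mul (analyticAt_tv i.2 k p))
      (mul_ne_zero (mul_ne_zero (h0 _) (h0 _)) e)
      (hs.mono fun x ⟨c, a1, a2, a3⟩ => ⟨c, a1, a3, a2⟩)
    exact ⟨c, c1, c2, c3.mono fun x hx => hx.symm⟩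

end Pool.Agent.Work.MP_bf98aa_gt.Kg
end
end

-- merged part: Pool.Agent.Work.MP_bf98aa_gt.Kg.BJac
section
/-!
Derivatives of the gluing maps.

PLAN. `C_deriv`: `sg i.1 * Yf Q - sg j.1 * Yf (μ Q ^ 2 * Q)` is locally constant; differentiate. `HL.det0`: differentiate
`(tP j (γ x) k)_k = (G k (tP i x k))_k` (`det_tP`, `det_diag`, `LinearMap.det_comp`), use `TR.t0`. `HL.det`: `HL.ev`, `HL.det0`, both sides are continuous near `p` and agree on the dense set `t0 ≠ 0` (`dense_t0`;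
continuity of `x ↦ (fderiv ℂ γ x).det`: `AnalyticAt.fderiv`, `ContinuousLinearMap.continuous_det`). `AA_cmp`: `lift_HL`, `cmp_dc` with `c = jac`, `RR_lw`, `norm_sg`, `Real.log_mul`, `Real.log_div`.
-/

set_option autoImplicit false

noncomputable section

open scoped ContDiff Topology
open Set Filter

namespace Pool.Agent.Work.MP_bf98aa_gt.Kg

open Pool.Agent.Work.MP_bf98aa_gt.Th Pool.Agent.Work.MP_bf98aa_gt.Cp

variable {i j : Jx} {p q : E3} {m : Fin 3 → ℂ} {γ : E3 → E3} {μ : Fin 3 → ℂ → ℂ}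

theorem RR_C {a b : Ix} {P n : ℂ} (h : RR rC a P b n) :
    La (sg a.1 * Yf P - sg b.1 * Yf (n ^ 2 * P)) := by
  obtain ⟨x, rfl, -, -, k⟩ := h
  rw [← mul_pow]
  exact k.2.2.1

theorem BJac_ne {a b : Ix} {P n : ℂ} (h : RR rC a P b n) : P ≠ 1 ∧ n ^ 2 * P ≠ 1 := by
  obtain ⟨x, rfl, -, -, k⟩ := h
  rw [← mul_pow]
  exact ⟨k.1.2.1, k.2.1.2.1⟩

theorem BJac_sg (b : Bool) : sg b ≠ 0 := left_ne_zero_of_mul_eq_one (sg_sq b)

theorem C_deriv {a b : Ix} {P : ℂ} {ν : ℂ → ℂ} (hν : AnalyticAt ℂ ν P)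
    (h : ∀ᶠ Q in 𝓝 P, RR rC a Q b (ν Q)) :
    HasDerivAt (fun Q => ν Q ^ 2 * Q) (sg a.1 * Yd P / (sg b.1 * Yd (ν P ^ 2 * P))) P := by
  obtain ⟨n1, n2⟩ := BJac_ne h.self_of_nhds
  have d := ((hν.pow 2).mul analyticAt_id).differentiableAt.hasDerivAt
  obtain ⟨D, d⟩ : ∃ D, HasDerivAt (fun Q => ν Q ^ 2 * Q) D P := ⟨_, d⟩
  have d1 : HasDerivAt (fun Q => sg a.1 * Yf Q - sg b.1 * Yf (ν Q ^ 2 * Q))
      (sg a.1 * Yd P - sg b.1 * (Yd (ν P ^ 2 * P) * D)) P :=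
    ((hasDerivAt_Yf n1).const_mul _).sub
      ((HasDerivAt.comp (h := fun Q => ν Q ^ 2 * Q) P (hasDerivAt_Yf n2) d).const_mul _)
  have k := La_ev d1.continuousAt (h.mono fun Q e => RR_C e)
  have e := d1.unique ((hasDerivAt_const P _).congr_of_eventuallyEq k)
  refine d.congr_deriv ?_
  rw [eq_div_iff (mul_ne_zero (BJac_sg _) (Yd_ne n2))]
  linear_combination -e

/-- The complex Jacobian. -/
def jac (i j : Jx) (μ : Fin 3 → ℂ → ℂ) (x : E3) : ℂ :=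
  sg (i.1 0).1 * Yd (tP i.2 x 0) /
      (sg (j.1 0).1 * Yd (μ 0 (tP i.2 x 0) ^ 2 * tP i.2 x 0) * μ 0 (tP i.2 x 0)) *
    (sg (i.1 1).1 * Yd (tP i.2 x 1) /
      (sg (j.1 1).1 * Yd (μ 1 (tP i.2 x 1) ^ 2 * tP i.2 x 1) * μ 1 (tP i.2 x 1))) *
    (sg (i.1 2).1 * Yd (tP i.2 x 2) /
      (sg (j.1 2).1 * Yd (μ 2 (tP i.2 x 2) ^ 2 * tP i.2 x 2) * μ 2 (tP i.2 x 2)))

theorem BJac_an {a b : Ix} {f : E3 → ℂ} {ν : ℂ → ℂ} (hf : AnalyticAt ℂ f p)
    (hν : AnalyticAt ℂ ν (f p)) (h : RR rC a (f p) b (ν (f p))) :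
    AnalyticAt ℂ (fun x => sg a.1 * Yd (f x) / (sg b.1 * Yd (ν (f x) ^ 2 * f x) * ν (f x))) p ∧
      sg a.1 * Yd (f p) / (sg b.1 * Yd (ν (f p) ^ 2 * f p) * ν (f p)) ≠ 0 := by
  obtain ⟨n1, n2⟩ := BJac_ne h
  have k := mul_ne_zero (mul_ne_zero (BJac_sg b.1) (Yd_ne n2)) h.ne
  have a1 : AnalyticAt ℂ (fun x => ν (f x)) p := hν.comp hf
  have a2 : AnalyticAt ℂ (fun x => Yd (f x)) p := (analyticAt_Yd n1).comp hf
  have a3 : AnalyticAt ℂ (fun x => Yd (ν (f x) ^ 2 * f x)) p :=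
    (analyticAt_Yd n2).comp (f := fun x => ν (f x) ^ 2 * f x) ((a1.pow 2).mul hf)
  exact ⟨(analyticAt_const.mul a2).div ((analyticAt_const.mul a3).mul a1) k,
    div_ne_zero (mul_ne_zero (BJac_sg _) (Yd_ne n1)) k⟩

theorem HL.jac_an (h : HL i j p γ μ) : AnalyticAt ℂ (jac i j μ) p ∧ jac i j μ p ≠ 0 := by
  obtain ⟨a1, n1⟩ := BJac_an (analyticAt_tP i.2 0 p) (h.2.1 0) (h.2.2.1 0).self_of_nhds
  obtain ⟨a2, n2⟩ := BJac_an (analyticAt_tP i.2 1 p) (h.2.1 1) (h.2.2.1 1).self_of_nhds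
  obtain ⟨a3, n3⟩ := BJac_an (analyticAt_tP i.2 2 p) (h.2.1 2) (h.2.2.1 2).self_of_nhds
  exact ⟨(a1.mul a2).mul a3, mul_ne_zero (mul_ne_zero n1 n2) n3⟩

theorem BJac_det (A B : E3 →L[ℂ] E3) : (A.comp B).det = A.det * B.det :=
  LinearMap.det_comp (A : E3 →ₗ[ℂ] E3) (B : E3 →ₗ[ℂ] E3)

theorem HL.det0 (h : HL i j p γ μ) : t0 p * (fderiv ℂ γ p).det = t0 p * jac i j μ p := by
  have R := h.2.2.2.self_of_nhds
  have dT : ∀ T x, DifferentiableAt ℂ (fun x => ((tP T x 0, tP T x 1, tP T x 2) : E3)) x :=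
    fun T x => ((analyticAt_tP T 0 x).prod
      ((analyticAt_tP T 1 x).prod (analyticAt_tP T 2 x))).differentiableAt
  obtain ⟨d1, d2⟩ := det_diag (G := fun k Q => μ k Q ^ 2 * Q) (d := ![_, _, _])
    (z := (tP i.2 p 0, tP i.2 p 1, tP i.2 p 2)) (C_deriv (h.2.1 0) (h.2.2.1 0))
    (C_deriv (h.2.1 1) (h.2.2.1 1)) (C_deriv (h.2.1 2) (h.2.2.1 2))
  have e : (fun x => ((tP j.2 x 0, tP j.2 x 1, tP j.2 x 2) : E3)) ∘ γ =ᶠ[𝓝 p]
      (fun x : E3 => ((μ 0 x.1 ^ 2 * x.1, μ 1 x.2.1 ^ 2 * x.2.1, μ 2 x.2.2 ^ 2 * x.2.2) : E3)) ∘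
        fun x => ((tP i.2 x 0, tP i.2 x 1, tP i.2 x 2) : E3) :=
    h.2.2.2.mono fun x hx => Prod.ext (hx.2 0).1 (Prod.ext (hx.2 1).1 (hx.2 2).1)
  have k := congrArg ContinuousLinearMap.det (e.fderiv_eq (𝕜 := ℂ))
  rw [fderiv_comp p (dT _ _) h.1.differentiableAt, fderiv_comp p d1 (dT _ _), BJac_det, BJac_det,
    det_tP, det_tP, d2, R.2.t0 R.ne] at k
  have m0 := R.ne 0
  have m1 := R.ne 1
  have m2 := R.ne 2
  refine mul_left_cancel₀ (mul_ne_zero (mul_ne_zero (mul_ne_zero two_ne_zero m0) m1) m2) ?_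
  rw [jac, ← div_div _ _ (μ 0 _), ← div_div _ _ (μ 1 _), ← div_div _ _ (μ 2 _)]
  refine Eq.trans (by ring) (k.trans ?_)
  simp only [Matrix.cons_val_zero, Matrix.cons_val_one, Matrix.cons_val]
  generalize sg (i.1 0).1 * _ / _ = a
  generalize sg (i.1 1).1 * _ / _ = b
  generalize sg (i.1 2).1 * _ / _ = c
  field_simp

theorem HL.det (h : HL i j p γ μ) : ∀ᶠ x in 𝓝 p, (fderiv ℂ γ x).det = jac i j μ x := by
  filter_upwards [h.ev] with x hx
  refine tendsto_nhds_unique_of_frequently_eq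
    (ContinuousLinearMap.continuous_det.continuousAt.comp hx.1.fderiv.continuousAt)
    hx.jac_an.1.continuousAt ?_
  exact ((mem_closure_iff_frequently.1 (dense_t0 x)).and_eventually hx.ev).mono
    fun y hy => mul_left_cancel₀ hy.1 hy.2.det0

theorem fA_sm (hp : p ∈ PM.W i) : ContDiffAt ℝ ∞ (fA i) p := by
  have k : ∀ k, tP i.2 p k ∈ DC → ContDiffAt ℝ ∞
      (fun x => lw (tP i.2 x k) - Real.log (‖Yd (tP i.2 x k)‖ ^ 2)) p := fun k hk =>
    (contDiff_lw.contDiffAt.comp p (an_sm (analyticAt_tP i.2 k p))).sub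
      (log_sm ((analyticAt_Yd hk.1).comp' (f := fun x => tP i.2 x k) (analyticAt_tP i.2 k p))
        (Yd_ne hk.1))
  exact ((k 0 (W_DC hp 0)).add (k 1 (W_DC hp 1))).add (k 2 (W_DC hp 2))

theorem BJac_log (a b : Bool) {A B m : ℂ} (hA : A ≠ 0) (hB : B ≠ 0) (hm : m ≠ 0) :
    ‖sg a * A / (sg b * B * m)‖ ^ 2 ≠ 0 ∧ Real.log (‖sg a * A / (sg b * B * m)‖ ^ 2) =
      Real.log (‖A‖ ^ 2) - Real.log (‖B‖ ^ 2) - Real.log (‖m‖ ^ 2) := by
  have a0 := norm_pos_iff.2 hA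
  have b0 := norm_pos_iff.2 hB
  have m0 := norm_pos_iff.2 hm
  simp only [norm_div, norm_mul, norm_sg, one_mul, div_pow, mul_pow]
  refine ⟨by positivity, ?_⟩
  rw [Real.log_div (by positivity) (by positivity), Real.log_mul (by positivity) (by positivity)]
  ring

theorem AA_cmp (h : Lift (sl PM.r i j) p γ) :
    Cmp γ (fun _ => ContinuousLinearMap.id ℝ E3) (AA i) (fun _ => ContinuousLinearMap.id ℝ E3)
      (AA j) p := by
  obtain ⟨μ, h⟩ := lift_HL h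
  have R := h.2.2.2.self_of_nhds
  refine cmp_dc h.1 (fA_sm R.mem.1) (fA_sm R.mem.2) h.jac_an.1 h.jac_an.2 h.det ?_
  filter_upwards [h.2.2.2] with y R
  have l := fun k => BJac_log (i.1 k).1 (j.1 k).1 (Yd_ne (W_DC R.mem.1 k).1)
    (Yd_ne ((R.2 k).1 ▸ W_DC R.mem.2 k).1) (R.ne k)
  rw [fA, fA, (R.2 0).1, (R.2 1).1, (R.2 2).1, RR_lw (fack 0) (R.1 0), RR_lw (fack 1) (R.1 1),
    RR_lw (fack 2) (R.1 2), jac, norm_mul, norm_mul, mul_pow, mul_pow,
    Real.log_mul (mul_ne_zero (l 0).1 (l 1).1) (l 2).1, Real.log_mul (l 0).1 (l 1).1, (l 0).2,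
    (l 1).2, (l 2).2]
  ring

end Pool.Agent.Work.MP_bf98aa_gt.Kg
end
end

-- merged part: Pool.Agent.Work.MP_bf98aa_gt.Kg.APoi
section
/-!
The Poincare lemma with compact support in the plane.
PLAN. Fix a smooth `g ≥ 0` supported in `[-3/20, 3/20]` with `∫ g = 1`. Let `H y = ∫ F (x + i y) dx` (over `[-1, 1]`), `c = ∫ H`. Put `a (x + i y) = ∫_{-1}^x (F (t + i y) - g t H y) dt` and
`b y = ∫_{-1}^y (H s - c g s) ds`; both vanish outside the square (resp. interval). Then `ξ = a dy - g x b y dx` has `d ξ = (F - g x H y + g x (H y - c g y)) dx dy`.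
Smoothness: write `∫_{-1}^x u = ∫_0^1 (x + 1) u (-1 + t (x + 1)) dt` and use `contDiffOn_integral` of `Th/FHom.lean`; the `x`-derivative by the fundamental theorem of calculus; `extDeriv_one_apply`.
-/

set_option autoImplicit false

open scoped ContDiff Topology
open Set Filter MeasureTheory

namespace Pool.Agent.Work.MP_bf98aa_gt.Kg

open Pool.Agent.Work.MP_bf98aa_gt.Th Pool.Agent.Work.MP_bf98aa_gt.Cp

theorem APoi_sm {u : ℝ × ℝ → ℝ} (hu : ContDiff ℝ ∞ u) :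
    ContDiff ℝ ∞ fun p : ℝ × ℝ => ∫ t in (-1 : ℝ)..p.1, u (t, p.2) := by
  have h : ContDiff ℝ ∞ fun q : ℝ × ℝ × ℝ => (q.2.1 + 1) • u ((q.2.1 + 1) * q.1 + -1, q.2.2) := by
    fun_prop
  have k := contDiffOn_univ.1
    (contDiffOn_integral isOpen_univ h.contDiffOn isOpen_univ fun _ _ _ _ => mem_univ _).1
  refine (congrArg (ContDiff ℝ ∞) (funext fun p => ?_)).mp k
  dsimp only
  rw [intervalIntegral.integral_smul,
    intervalIntegral.smul_integral_comp_mul_add (fun t => u (t, p.2))]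
  simp

theorem APoi_van {u : ℝ → ℝ} (hu : Continuous u) (h0 : ∀ t, 3 / 20 < |t| → u t = 0)
    (h1 : ∫ t in (-1 : ℝ)..1, u t = 0) {x : ℝ} (hx : 3 / 20 < |x|) :
    ∫ t in (-1 : ℝ)..x, u t = 0 := by
  have z : ∀ a b : ℝ, (∀ t ∈ uIcc a b, 3 / 20 < |t|) → ∫ t in a..b, u t = 0 := fun a b h =>
    (intervalIntegral.integral_congr fun t ht => h0 t (h t ht)).trans intervalIntegral.integral_zero
  rcases lt_abs.1 hx with h | h
  · rw [← intervalIntegral.integral_add_adjacent_intervals (hu.intervalIntegrable (-1) 1)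
      (hu.intervalIntegrable 1 x), h1, zero_add]
    exact z _ _ fun t ht => lt_abs.2 (Or.inl ((lt_min (by norm_num) h).trans_le ht.1))
  · refine z _ _ fun t ht => lt_abs.2 (Or.inr ?_)
    have : max (-1) x < -(3 / 20) := max_lt (by norm_num) (by linarith only [h])
    linarith only [this, ht, ht.2]

theorem APoi_g : ∃ g : ℝ → ℝ, ContDiff ℝ ∞ g ∧ (∀ x, 3 / 20 < |x| → g x = 0) ∧
    ∫ t in (-1 : ℝ)..1, g t = 1 := by
  let f : ContDiffBump (0 : ℝ) := ⟨1 / 10, 3 / 20, by norm_num, by norm_num⟩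
  have hs : ∀ x, f.normed volume x ≠ 0 → |x| < 3 / 20 := fun x h =>
    mem_ball_zero_iff.1 ((f.support_normed_eq (μ := volume)).le h)
  refine ⟨f.normed volume, f.contDiff_normed, fun x h => by_contra fun k => h.not_gt (hs x k), ?_⟩
  rw [intervalIntegral.integral_eq_integral_of_support_subset, f.integral_normed]
  intro x hx
  have := abs_lt.1 (hs x hx)
  constructor <;> linarith only [this]

theorem APoi_d {A B : ℂ → ℝ} {A' B' : ℂ →L[ℝ] ℝ} {z : ℂ} (hA : HasFDerivAt A A' z)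
    (hB : HasFDerivAt B B' z) :
    extDeriv (fun z => A z • alt1 Complex.imCLM - B z • alt1 Complex.reCLM) z =
      (A' 1 + B' Complex.I) • ar := by
  have h := (hA.smul_const (alt1 Complex.imCLM)).fun_sub (hB.smul_const (alt1 Complex.reCLM))
  have lin : ∀ (L : ℂ →L[ℝ] ℝ) (u : ℂ), L u = u.re * L 1 + u.im * L Complex.I := fun L u => by
    rw [← smul_eq_mul, ← smul_eq_mul, ← L.map_smul, ← L.map_smul, ← L.map_add]
    exact congrArg L (by simp)
  refine alt_ext_two fun u v => ?_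
  rw [extDeriv_one_apply h.differentiableAt, h.fderiv]
  simp only [ContinuousLinearMap.sub_apply, ContinuousLinearMap.smulRight_apply,
    ContinuousAlternatingMap.sub_apply, ContinuousAlternatingMap.smul_apply, alt1_apply, ar_apply,
    smul_eq_mul, Matrix.cons_val_zero, Complex.reCLM_apply, Complex.imCLM_apply]
  rw [lin A' u, lin A' v, lin B' u, lin B' v]
  ring

theorem planar {F : ℂ → ℝ} (hF : ContDiff ℝ ∞ F)
    (h0 : ∀ z : ℂ, 3 / 20 < |z.re| ∨ 3 / 20 < |z.im| → F z = 0) :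
    ∃ (g : ℝ → ℝ) (c : ℝ) (ξ : Fm ℂ 1), ContDiff ℝ ∞ g ∧ (∀ x, 3 / 20 < |x| → g x = 0) ∧
      ContDiff ℝ ∞ ξ ∧ (∀ z : ℂ, 3 / 20 < |z.re| ∨ 3 / 20 < |z.im| → ξ z = 0) ∧
      ∀ z : ℂ, extDeriv ξ z = (F z - c * g z.re * g z.im) • ar := by
  obtain ⟨g, g1, g0, gi⟩ := APoi_g
  obtain ⟨G, G1, G0, Ge⟩ : ∃ G : ℝ × ℝ → ℝ, ContDiff ℝ ∞ G ∧
      (∀ x y, 3 / 20 < |x| ∨ 3 / 20 < |y| → G (x, y) = 0) ∧ ∀ z : ℂ, G (z.re, z.im) = F z :=
    ⟨fun p => F (Complex.equivRealProdCLM.symm p), hF.comp Complex.equivRealProdCLM.symm.contDiff,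
      fun x y h => h0 _ h, fun z => rfl⟩
  obtain ⟨H, hH⟩ : ∃ H : ℝ → ℝ, H = fun y => ∫ t in (-1 : ℝ)..1, G (t, y) := ⟨_, rfl⟩
  have H1 : ContDiff ℝ ∞ H := hH ▸ (APoi_sm G1).comp (contDiff_const.prodMk contDiff_id)
  have H0 : ∀ y, 3 / 20 < |y| → H y = 0 := fun y h => by
    simp only [hH, G0 _ y (Or.inr h), intervalIntegral.integral_zero]
  obtain ⟨c, hc⟩ : ∃ c, c = ∫ s in (-1 : ℝ)..1, H s := ⟨_, rfl⟩
  have u1 : ContDiff ℝ ∞ fun p : ℝ × ℝ => G p - g p.1 * H p.2 :=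
    G1.sub ((g1.comp contDiff_fst).mul (H1.comp contDiff_snd))
  have uc : ∀ y, Continuous fun t => G (t, y) - g t * H y := fun y =>
    u1.continuous.comp (continuous_id.prodMk continuous_const)
  have v1 : ContDiff ℝ ∞ fun s => H s - c * g s := H1.sub (contDiff_const.mul g1)
  have a1 := APoi_sm u1
  have b1 : ContDiff ℝ ∞ fun y => ∫ s in (-1 : ℝ)..y, H s - c * g s :=
    (APoi_sm (v1.comp contDiff_fst)).comp (contDiff_id.prodMk (contDiff_const (c := (0 : ℝ))))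
  have A1 := a1.comp Complex.equivRealProdCLM.contDiff
  have B1 := (g1.comp Complex.reCLM.contDiff).mul (b1.comp Complex.imCLM.contDiff)
  refine ⟨g, c, fun z => (∫ t in (-1 : ℝ)..z.re, G (t, z.im) - g t * H z.im) • alt1 Complex.imCLM -
    (g z.re * ∫ s in (-1 : ℝ)..z.im, H s - c * g s) • alt1 Complex.reCLM, g1, g0,
    (A1.smul contDiff_const).sub (B1.smul contDiff_const), fun z h => ?_, fun z => ?_⟩
  · have ea : ∫ t in (-1 : ℝ)..z.re, G (t, z.im) - g t * H z.im = 0 := by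
      rcases h with h | h
      · refine APoi_van (uc _) (fun t k => by rw [G0 t _ (Or.inl k), g0 t k]; simp) ?_ h
        rw [intervalIntegral.integral_sub (f := fun t => G (t, z.im))
          ((G1.continuous.comp (continuous_id.prodMk continuous_const)).intervalIntegrable _ _)
          ((g1.continuous.intervalIntegrable _ _).mul_const _),
          intervalIntegral.integral_mul_const, gi, one_mul, hH, sub_self]
      · simp [G0 _ _ (Or.inr h), H0 _ h]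
    have eb : g z.re * ∫ s in (-1 : ℝ)..z.im, H s - c * g s = 0 := by
      rcases h with h | h
      · rw [g0 _ h, zero_mul]
      · refine mul_eq_zero_of_right _
          (APoi_van v1.continuous (fun t k => by rw [H0 t k, g0 t k]; simp) ?_ h)
        rw [intervalIntegral.integral_sub (H1.continuous.intervalIntegrable _ _)
          ((g1.continuous.intervalIntegrable _ _).const_mul _),
          intervalIntegral.integral_const_mul, gi, mul_one, hc, sub_self]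
    beta_reduce
    rw [ea, eb, zero_smul, zero_smul, sub_zero]
  · have da := a1.differentiable (by simp) (z.re, z.im)
    have ea := (FHom_left da).unique ((uc z.im).integral_hasStrictDerivAt (-1) z.re).hasDerivAt
    have dA := da.hasFDerivAt.comp z Complex.equivRealProdCLM.hasFDerivAt
    have dB := ((g1.differentiable (by simp) z.re).hasDerivAt.comp_hasFDerivAt z
      Complex.reCLM.hasFDerivAt).mul
      ((v1.continuous.integral_hasStrictDerivAt (-1) z.im).hasDerivAt.comp_hasFDerivAt z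
        Complex.imCLM.hasFDerivAt)
    refine (APoi_d dA dB).trans (congrArg (· • ar) ?_)
    rw [← Ge]
    refine (congrArg (· + _) ea).trans ?_
    simp
    ring

end Pool.Agent.Work.MP_bf98aa_gt.Kg
end

-- merged part: Pool.Agent.Work.MP_bf98aa_gt.Kg.BTr
section
/-!
Forms which come from the base torus.

PLAN. `yk_ev`: `lift_HL`, `RR_C`, `La_ev`. `Per.gs`: smoothness by `Sm.pb`/`PForm_at`; along a lift `yk k j (γ x) = yk k i x - l` near `p`, so `pb γ (pb (yk k j) w) p = pb (fun x => yk k i x - l) w p`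
(`pb_comp`, `pb_congr`) and the derivative of `x ↦ yk k i x - l` is that of `yk k i`. `Per.gc`: `extDeriv_pb`. `extDeriv_top`: an alternating 3-form on `ℂ` vanishes
(`AlternatingMap.map_linearDependent`, `finrank ℝ ℂ = 2`, or `alt_ext_three` and expansion in `1, I`). `per_sq`, `per_re`, `per_im`: if `y - z = m + n I` with `m ≠ 0` then `|y.re|, |z.re| > 1 / 5`.
`FF_sm`: `fd (Yi y)` vanishes near every `y` with `‖Yi y‖ > 1 / 100` or `10 y + 1 = 0` (`deriv_psi_zero`; near `y = -1 / 10` the norm of `Yi` is large off the point, and `fd (Yi (-1 / 10)) = fd 0 = 0`), also near `Yi y = 1`.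
`FF_yk`: `Yi_Yf`, `Yi_neg`, `DC_norm`. `exists_exact`: `planar` (Kg/APoi) for `FF`; `a 0 = pb (yk 0 i) (c g(re) d re)`, `a 1 = pb (yk 0 i) (g(im) d im)`, the same with `yk 1`, `yk 2`, and `ξ` is the sum of the `pb (yk k i) ξ₀`.
-/

set_option autoImplicit false

noncomputable section

open scoped ContDiff Topology
open Set Filter

namespace Pool.Agent.Work.MP_bf98aa_gt.Kg

open Pool.Agent.Work.MP_bf98aa_gt.Th Pool.Agent.Work.MP_bf98aa_gt.Cp

variable {i j : Jx} {p q : E3} {γ : E3 → E3} {k : Fin 3} {n : ℕ}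

theorem yk_an (hp : p ∈ PM.W i) : AnalyticAt ℂ (yk k i) p ∧ ‖yk k i p‖ < 4 / 5 := by
  have h := W_DC hp k
  refine ⟨analyticAt_const.mul ((analyticAt_Yf h.1).fun_comp (f := fun x => tP i.2 x k)
    (analyticAt_tP i.2 k p)), ?_⟩
  rw [yk, norm_mul, norm_sg, one_mul]
  exact h.2.1

theorem dy_eq (hp : p ∈ PM.W i) :
    dy k i p = (sg (i.1 k).1 * Yd (tP i.2 p k)) • dP k i p := by
  exact (((hasDerivAt_Yf (W_DC hp k).1).const_mul (sg (i.1 k).1)).comp_hasFDerivAt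
    (f := fun x => tP i.2 x k) p (analyticAt_tP i.2 k p).differentiableAt.hasFDerivAt).fderiv

theorem BTr_La (h : PM.r i p j q) : La (yk k i p - yk k j q) := by
  obtain ⟨m, h1, h2⟩ := h
  rw [yk, yk, (h2 k).1]
  exact RR_C (h1 k)

theorem yk_ev (h : Lift (sl PM.r i j) p γ) :
    ∃ l, La l ∧ ∀ᶠ x in 𝓝 p, yk k j (γ x) = yk k i x - l := by
  have hc : ContinuousAt (fun x => yk k i x - yk k j (γ x)) p :=
    (yk_an (PM_good.mem h.self)).1.continuousAt.sub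
      ((yk_an (PM_good.mem' h.self)).1.continuousAt.comp h.1.continuousAt)
  refine ⟨yk k i p - yk k j (γ p), BTr_La h.self, ?_⟩
  filter_upwards [La_ev hc (h.2.mono fun x hx => BTr_La hx)] with x hx
  rw [← hx, sub_sub_cancel]

theorem Per.gs {w : Fm ℂ n} (h : Per w) (k : Fin 3) : PM.GS fun i => pb (yk k i) w := by
  refine ⟨fun i p hp => (PForm_at (an_sm (yk_an hp).1) h.1.contDiffAt).contDiffWithinAt,
    fun i j p γ hl => ?_⟩
  have hp := yk_an (k := k) (PM_good.mem hl.self)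
  have hq := yk_an (k := k) (PM_good.mem' hl.self)
  obtain ⟨l, h1, h2⟩ := yk_ev (k := k) hl
  refine Eq.trans ?_ ((pb_congr w h2).symm.trans
    (pb_comp w hl.diff.self_of_nhds ((an_sm hq.1).differentiableAt (by simp))))
  simp only [pb, fderiv_sub_const]
  rw [h.2 _ (yk k i p - l) (by rwa [sub_sub_cancel]) hp.2 (h2.self_of_nhds ▸ hq.2)]

theorem Per.gc {w : Fm ℂ n} (h : Per w) (k : Fin 3) (hw : ∀ z, extDeriv w z = 0) :
    PM.GC fun i => pb (yk k i) w := by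
  refine ⟨fun i => ⟨(h.gs k).1 i, fun p hp => ?_⟩, (h.gs k).2⟩
  rw [extDeriv_pb (h.1.differentiable (by simp) _) (an_sm (yk_an hp).1), pb, hw]
  rfl

theorem extDeriv_top (w : Fm ℂ 2) (z : ℂ) : extDeriv w z = 0 := by
  ext v
  refine (extDeriv w z).toAlternatingMap.map_linearDependent v fun hv => ?_
  have h := hv.fintype_card_le_finrank
  rw [Complex.finrank_real_complex] at h
  simp at h

theorem per_const (w : Alt ℂ n) : Per fun _ => w := by
  exact ⟨contDiff_const, fun _ _ _ _ _ => rfl⟩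

theorem BTr_int {a b : ℝ} {m : ℤ} (h : a - b = m) (ha : |a| < 4 / 5) (hb : |b| < 4 / 5) :
    a = b ∨ (3 / 20 < |a| ∧ 3 / 20 < |b|) := by
  rcases eq_or_ne m 0 with rfl | hm
  · exact Or.inl (sub_eq_zero.1 (h.trans Int.cast_zero))
  · have h1 : (1 : ℝ) ≤ |a - b| := by
      rw [h]
      exact_mod_cast Int.one_le_abs hm
    have h2 := abs_sub a b
    exact Or.inr ⟨by linarith only [hb, h1, h2], by linarith only [ha, h1, h2]⟩

theorem BTr_far {y z : ℂ} (h : La (y - z)) (hy : ‖y‖ < 4 / 5) (hz : ‖z‖ < 4 / 5) :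
    (y.re = z.re ∨ (3 / 20 < |y.re| ∧ 3 / 20 < |z.re|)) ∧
      (y.im = z.im ∨ (3 / 20 < |y.im| ∧ 3 / 20 < |z.im|)) := by
  obtain ⟨m, n, e⟩ := h
  exact ⟨BTr_int (m := m) (by simpa using congrArg Complex.re e)
      ((Complex.abs_re_le_norm y).trans_lt hy) ((Complex.abs_re_le_norm z).trans_lt hz),
    BTr_int (m := n) (by simpa using congrArg Complex.im e)
      ((Complex.abs_im_le_norm y).trans_lt hy) ((Complex.abs_im_le_norm z).trans_lt hz)⟩

theorem per_sq {w : Fm ℂ n} (h : ContDiff ℝ ∞ w)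
    (h0 : ∀ z : ℂ, 3 / 20 < |z.re| ∨ 3 / 20 < |z.im| → w z = 0) : Per w := by
  refine ⟨h, fun y z hl hy hz => ?_⟩
  obtain ⟨h1 | h1, h2 | h2⟩ := BTr_far hl hy hz
  · rw [Complex.ext h1 h2]
  · rw [h0 y (Or.inr h2.1), h0 z (Or.inr h2.2)]
  · rw [h0 y (Or.inl h1.1), h0 z (Or.inl h1.2)]
  · rw [h0 y (Or.inl h1.1), h0 z (Or.inl h1.2)]

theorem BTr_cl {g : ℝ → ℝ} (h : ContDiff ℝ ∞ g) (L : ℂ →L[ℝ] ℝ) (z : ℂ) :
    extDeriv (fun z : ℂ => g (L z) • alt1 L) z = 0 := by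
  have h1 : HasFDerivAt (fun z : ℂ => g (L z)) (deriv g (L z) • L) z :=
    (h.differentiable (by simp) (L z)).hasDerivAt.comp_hasFDerivAt z L.hasFDerivAt
  have h2 := h1.smul_const (alt1 L)
  refine alt_ext_two fun u v => ?_
  rw [extDeriv_one_apply h2.differentiableAt, h2.fderiv]
  simp only [ContinuousLinearMap.smulRight_apply, smul_apply,
    ContinuousAlternatingMap.smul_apply, alt1_apply, smul_eq_mul, Matrix.cons_val_zero,
    ContinuousAlternatingMap.coe_zero, Pi.zero_apply]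
  ring

theorem per_re {g : ℝ → ℝ} (h : ContDiff ℝ ∞ g) (h0 : ∀ t, 3 / 20 < |t| → g t = 0) :
    Per (fun z => g z.re • alt1 Complex.reCLM) ∧
      ∀ z, extDeriv (fun z : ℂ => g z.re • alt1 Complex.reCLM) z = 0 := by
  refine ⟨⟨(h.comp Complex.reCLM.contDiff).smul contDiff_const, fun y z hl hy hz => ?_⟩,
    BTr_cl h Complex.reCLM⟩
  obtain h1 | h1 := (BTr_far hl hy hz).1
  · simp only [h1]
  · simp only [h0 _ h1.1, h0 _ h1.2]

theorem per_im {g : ℝ → ℝ} (h : ContDiff ℝ ∞ g) (h0 : ∀ t, 3 / 20 < |t| → g t = 0) :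
    Per (fun z => g z.im • alt1 Complex.imCLM) ∧
      ∀ z, extDeriv (fun z : ℂ => g z.im • alt1 Complex.imCLM) z = 0 := by
  refine ⟨⟨(h.comp Complex.imCLM.contDiff).smul contDiff_const, fun y z hl hy hz => ?_⟩,
    BTr_cl h Complex.imCLM⟩
  obtain h1 | h1 := (BTr_far hl hy hz).2
  · simp only [h1]
  · simp only [h0 _ h1.1, h0 _ h1.2]

theorem BTr_fd0 {P : ℂ} (h : ‖P‖ ^ 2 < 1 / 20000 ∨ 1 / 10000 < ‖P‖ ^ 2) : fd P = 0 := by
  simp [fd, deriv_psi_zero h]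

theorem BTr_fdz : fd 0 = 0 := BTr_fd0 (Or.inl (by norm_num))

theorem BTr_fdsm : ContDiff ℝ ∞ fd := by
  have e : fd = fun P => -(deriv psi (‖P‖ ^ 2) * (25 * (‖1 - P‖ ^ 2) ^ 2 * (2 * Real.pi)⁻¹)) := by
    funext P
    have h5 : ‖(5 : ℂ)‖ = 5 := by simp
    rw [fd, Yd, norm_div, norm_one, norm_mul, norm_pow, h5, div_eq_mul_inv, mul_inv, div_pow,
      one_pow, one_div, inv_inv]
    ring
  rw [e]
  have h1 : ContDiff ℝ ∞ (deriv psi) := (contDiff_infty_iff_deriv.mp contDiff_psi).2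
  have h2 : ContDiff ℝ ∞ fun P : ℂ => ‖P‖ ^ 2 := contDiff_norm_sq ℂ
  have h3 : ContDiff ℝ ∞ fun P : ℂ => ‖1 - P‖ ^ 2 := (contDiff_const.sub contDiff_id).norm_sq ℂ
  exact ((h1.comp h2).mul ((contDiff_const.mul (h3.pow 2)).mul contDiff_const)).neg

theorem BTr_G0 {y : ℂ} (h : y.re < 0 ∨ 3 / 20 < |y.re| ∨ 3 / 20 < |y.im|) : fd (Yi y) = 0 := by
  by_cases h0 : 10 * y + 1 = 0
  · rw [Yi, h0, div_zero, BTr_fdz]
  refine BTr_fd0 (Or.inr ?_)
  have hp : 0 < ‖10 * y + 1‖ ^ 2 := pow_pos (norm_pos_iff.mpr h0) 2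
  rw [Yi, norm_div, div_pow, lt_div_iff₀ hp, Complex.sq_norm, Complex.sq_norm,
    Complex.normSq_apply, Complex.normSq_apply]
  have e1 : (10 * y + 1).re = 10 * y.re + 1 := by simp
  have e2 : (10 * y + 1).im = 10 * y.im := by simp
  have e3 : (10 * y - 1).re = 10 * y.re - 1 := by simp
  have e4 : (10 * y - 1).im = 10 * y.im := by simp
  rw [e1, e2, e3, e4]
  have hb := mul_self_nonneg y.im
  rcases h with h | h | h
  · linarith only [h, mul_self_nonneg y.re, mul_self_nonneg ((1 : ℝ) * (10 : ℝ) * ((1 : ℝ) * y.im)), mul_self_nonneg ((1 : ℝ) * (10 : ℝ) * ((1 : ℝ) * y.re) + (1 : ℝ) * (1 : ℝ))]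
  · rcases lt_abs.mp h with h | h
    · linarith only [h, mul_self_nonneg ((1 : ℝ) * (10 : ℝ) * ((1 : ℝ) * y.im)), mul_pos_of_neg_of_neg (Mathlib.Tactic.Linarith.sub_neg_of_lt h) (Mathlib.Tactic.Linarith.sub_neg_of_lt h)]
    · linarith only [h, mul_self_nonneg ((1 : ℝ) * (10 : ℝ) * ((1 : ℝ) * y.im)), mul_self_nonneg ((1 : ℝ) * (10 : ℝ) * ((1 : ℝ) * y.re) + (1 : ℝ) * (1 : ℝ))]
  · have : 9 / 400 < y.im * y.im := by
      rw [← abs_mul_abs_self]
      linarith only [h, mul_pos_of_neg_of_neg (Mathlib.Tactic.Linarith.sub_neg_of_lt h) (Mathlib.Tactic.Linarith.sub_neg_of_lt h)]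
    linarith only [this, mul_self_nonneg (10 * y.re - 10001 / 9999), mul_self_nonneg ((1 : ℝ) * (10 : ℝ) * ((9999 : ℝ) * y.re) - (1 : ℝ) * (10001 : ℝ))]

theorem BTr_Gsm : ContDiff ℝ ∞ fun y => fd (Yi y) := by
  refine contDiff_iff_contDiffAt.mpr fun y => ?_
  by_cases h : y.re < 0
  · refine (contDiffAt_const (c := (0 : ℝ))).congr_of_eventuallyEq ?_
    filter_upwards [(isOpen_lt Complex.continuous_re continuous_const).mem_nhds h] with z hz
    exact BTr_G0 (Or.inl hz)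
  · have h0 : 10 * y + 1 ≠ 0 := fun e => by
      have := congrArg Complex.re e
      simp at this
      linarith
    have h1 : AnalyticAt ℂ Yi y :=
      AnalyticAt.fun_div (f := fun y : ℂ => 10 * y - 1) (g := fun y : ℂ => 10 * y + 1)
        (by fun_prop) (by fun_prop) h0
    exact BTr_fdsm.contDiffAt.comp y (an_sm h1)

theorem FF_sm : ContDiff ℝ ∞ FF := by
  exact BTr_Gsm.add (BTr_Gsm.comp contDiff_neg)

theorem FF_supp (z : ℂ) (h : 3 / 20 < |z.re| ∨ 3 / 20 < |z.im|) : FF z = 0 := by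
  rw [FF, BTr_G0 (Or.inr h), BTr_G0 (Or.inr (by simpa using h)), add_zero]

theorem BTr_FF {P : ℂ} (h : P ∈ DC) : FF (Yf P) = fd P ∧ FF (-Yf P) = fd P := by
  have h1 : fd P⁻¹ = 0 := by
    by_cases h0 : P = 0
    · rw [h0, inv_zero, BTr_fdz]
    refine BTr_fd0 (Or.inr ?_)
    have hp := norm_pos_iff.mpr h0
    have h2 := DC_norm h
    rw [norm_inv, inv_pow, one_div]
    exact inv_strictAnti₀ (pow_pos hp 2) (by linarith only [h2, hp, mul_pos_of_neg_of_neg (Mathlib.Tactic.Linarith.sub_neg_of_lt hp) (Mathlib.Tactic.Linarith.sub_neg_of_lt h2)])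
  simp only [FF, neg_neg, Yi_neg, Yi_Yf h.1, h1, add_zero, zero_add, and_self]

theorem FF_yk (hp : p ∈ PM.W i) : FF (yk k i p) = fd (tP i.2 p k) := by
  have h := W_DC hp k
  rw [yk, sg]
  split_ifs
  · rw [neg_one_mul, (BTr_FF h).2]
  · rw [one_mul, (BTr_FF h).1]

theorem BTr_pb1 (hp : p ∈ PM.W i) (s : ℂ → ℝ) (l : ℂ →L[ℝ] ℝ) (v : E3) :
    pb (yk k i) (fun z => s z • alt1 l) p ![v] = s (yk k i p) * l (dy k i p v) := by
  rw [dy, ← an_fderiv (yk_an hp).1]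
  simp [pb, alt1_apply]

theorem exists_b : ∃ b : Fin 4 → Jx → Fm E3 1, (∀ s, PM.GC (b s)) ∧ ∀ i, ∀ y ∈ PM.W i, ∀ v,
    b 0 i y ![v] = (dy 0 i y v).re ∧ b 1 i y ![v] = (dy 0 i y v).im ∧
      b 2 i y ![v] = (dy 1 i y v).re ∧ b 3 i y ![v] = (dy 1 i y v).im := by
  have g : ∀ (k : Fin 3) (l : ℂ →L[ℝ] ℝ),
      PM.GC fun i => pb (yk k i) fun _ => (1 : ℝ) • alt1 l := fun k l =>
    (per_const _).gc k fun z => extDeriv_const _ z
  refine ⟨![fun i => pb (yk 0 i) fun _ => (1 : ℝ) • alt1 Complex.reCLM,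
    fun i => pb (yk 0 i) fun _ => (1 : ℝ) • alt1 Complex.imCLM,
    fun i => pb (yk 1 i) fun _ => (1 : ℝ) • alt1 Complex.reCLM,
    fun i => pb (yk 1 i) fun _ => (1 : ℝ) • alt1 Complex.imCLM], fun s => ?_, fun i y hy v => ?_⟩
  · fin_cases s
    exacts [g 0 _, g 0 _, g 1 _, g 1 _]
  · have e := fun (k : Fin 3) l =>
      (BTr_pb1 (k := k) hy (fun _ => 1) l v).trans (one_mul _)
    exact ⟨e 0 _, e 0 _, e 1 _, e 1 _⟩

theorem BTr_key {g : ℝ → ℝ} {c : ℝ} {ξ : Fm ℂ 1} (hξ : ContDiff ℝ ∞ ξ)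
    (hd : ∀ z : ℂ, extDeriv ξ z = (FF z - c * g z.re * g z.im) • ar)
    (hp : p ∈ PM.W i) (u v : E3) :
    extDeriv (pb (yk k i) ξ) p ![u, v] = (fd (tP i.2 p k) • arC (dy k i p)) ![u, v] -
      (pb (yk k i) (fun z => (c * g z.re) • alt1 Complex.reCLM) p ![u] *
          pb (yk k i) (fun z => g z.im • alt1 Complex.imCLM) p ![v] -
        pb (yk k i) (fun z => (c * g z.re) • alt1 Complex.reCLM) p ![v] *
          pb (yk k i) (fun z => g z.im • alt1 Complex.imCLM) p ![u]) := by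
  have ha := (yk_an (k := k) hp).1
  rw [extDeriv_pb (hξ.differentiable (by simp) _) (an_sm ha), funext hd, pb_ar ha,
    FF_yk hp, BTr_pb1 hp, BTr_pb1 hp, BTr_pb1 hp, BTr_pb1 hp]
  simp only [ContinuousAlternatingMap.smul_apply, arC_apply, dy, smul_eq_mul,
    Complex.reCLM_apply, Complex.imCLM_apply]
  ring

theorem exists_exact : ∃ (a : Fin 3 × Fin 2 → Jx → Fm E3 1) (ξ : Jx → Fm E3 1),
    (∀ s, PM.GC (a s)) ∧ PM.GS ξ ∧ ∀ i, ∀ y ∈ PM.W i, ∀ u v, extDeriv (ξ i) y ![u, v] =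
      (fd (tP i.2 y 0) • arC (dy 0 i y) + fd (tP i.2 y 1) • arC (dy 1 i y) +
        fd (tP i.2 y 2) • arC (dy 2 i y)) ![u, v] -
        ∑ k, (a (k, 0) i y ![u] * a (k, 1) i y ![v] - a (k, 0) i y ![v] * a (k, 1) i y ![u]) := by
  obtain ⟨g, c, ξ, hg, hg0, hξ, hξ0, hd⟩ := planar FF_sm FF_supp
  have h1 := per_re (g := fun t => c * g t) (contDiff_const.mul hg) fun t ht => by
    rw [hg0 t ht, mul_zero]
  have h2 := per_im hg hg0
  have h3 := per_sq hξ hξ0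
  refine ⟨fun s i => pb (yk s.1 i) (![fun z => (c * g z.re) • alt1 Complex.reCLM,
    fun z => g z.im • alt1 Complex.imCLM] s.2),
    fun i y => pb (yk 0 i) ξ y + pb (yk 1 i) ξ y + pb (yk 2 i) ξ y, fun ⟨k, s⟩ => ?_,
    ((h3.gs 0).add (h3.gs 1)).add (h3.gs 2), fun i y hy u v => ?_⟩
  · fin_cases s
    exacts [h1.1.gc k h1.2, h2.1.gc k h2.2]
  · have d := fun k => ((h3.gs k).1 i).diffAt (isOpen_W i) hy
    rw [extDeriv_fun_add ((d 0).fun_add (d 1)) (d 2), extDeriv_fun_add (d 0) (d 1)]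
    simp only [ContinuousAlternatingMap.add_apply, BTr_key hξ hd hy, Fin.sum_univ_three,
      Matrix.cons_val_zero, Matrix.cons_val_one]
    ring

end Pool.Agent.Work.MP_bf98aa_gt.Kg
end
end

-- merged part: Pool.Agent.Work.MP_bf98aa_gt.Kg.BDc2
section
/-!
Calculus of `ddc`, second part.

PLAN. `ddc_comp`: near `x`, `dc (φ ∘ f) = φ' (f) • dc f`; `extDeriv_one_apply` and the product rule. `ddc_mul`: the same. `ddc_normSq`: on `ℂ` compute `D2`, pull back by `ddc_pb`, `pb_ar`.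
`sqF_normSq`: `fderiv ‖c‖ ^ 2 v = 2 re (conj c * dc v)`. `Qf_fs`: `ddc_comp` with `log`, `ddc_add`, `ddc_mul`, `ddc_normSq`, `Qf_arC`, `Qf_sqF`, and the Lagrange identity
`(A |du| ^ 2 + B |dv| ^ 2) N - |A conj u du + B conj v dv| ^ 2 = A B |u dv - v du| ^ 2` (expand in real and imaginary parts).
-/

set_option autoImplicit false

noncomputable section

open scoped ContDiff Topology
open Set Filter

namespace Pool.Agent.Work.MP_bf98aa_gt.Kg

open Pool.Agent.Work.MP_bf98aa_gt.Th Pool.Agent.Work.MP_bf98aa_gt.Cp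

variable {V : Type} [NormedAddCommGroup V] [NormedSpace ℝ V] [NormedSpace ℂ V]
  [IsScalarTower ℝ ℂ V] [FiniteDimensional ℝ V] [FiniteDimensional ℂ V] {f g : V → ℝ} {x : V}
  {c : V → ℂ}

theorem BDc2_ev {X : Type} [NormedAddCommGroup X] [NormedSpace ℝ X] {f : X → ℝ} {x : X}
    (hf : ContDiffAt ℝ ∞ f x) : ∀ᶠ y in 𝓝 x, DifferentiableAt ℝ f y :=
  ((hf.of_le (m := 1) (by simp)).eventually (by simp)).mono fun _ h => h.differentiableAt (by simp)

theorem BDc2_fd {X : Type} [NormedAddCommGroup X] [NormedSpace ℝ X] {f : X → ℝ} {x : X}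
    (hf : ContDiffAt ℝ ∞ f x) : HasFDerivAt (fderiv ℝ f) (D2 f x) x :=
  ((hf.fderiv_right (m := ∞) le_rfl).differentiableAt (by simp)).hasFDerivAt

theorem BDc2_comp {X : Type} [NormedAddCommGroup X] [NormedSpace ℝ X] {f : X → ℝ} {x : X}
    {φ : ℝ → ℝ} (hf : ContDiffAt ℝ ∞ f x) (hφ : ContDiffAt ℝ ∞ φ (f x)) (a b : X) :
    D2 (fun y => φ (f y)) x a b = deriv φ (f x) * D2 f x a b +
      deriv (deriv φ) (f x) * (fderiv ℝ f x a * fderiv ℝ f x b) := by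
  have e : fderiv ℝ (fun y => φ (f y)) =ᶠ[𝓝 x] fun y => deriv φ (f y) • fderiv ℝ f y := by
    filter_upwards [BDc2_ev hf, hf.continuousAt.eventually (BDc2_ev hφ)] with y h1 h2
    exact (h2.hasDerivAt.comp_hasFDerivAt y h1.hasFDerivAt).fderiv
  have h1 := ((hφ.derivWithin (m := ∞) le_rfl).differentiableAt (by simp)).hasDerivAt
  have h2 := (h1.comp_hasFDerivAt x (hf.differentiableAt (by simp)).hasFDerivAt).smul (BDc2_fd hf)
  rw [D2, e.fderiv_eq, show fderiv ℝ (fun y => deriv φ (f y) • fderiv ℝ f y) x = _ from h2.fderiv]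
  simp only [add_apply, smul_apply, ContinuousLinearMap.smulRight_apply, smul_eq_mul,
    Function.comp_apply]
  ring

theorem BDc2_mul {X : Type} [NormedAddCommGroup X] [NormedSpace ℝ X] {f g : X → ℝ} {x : X}
    (hf : ContDiffAt ℝ ∞ f x) (hg : ContDiffAt ℝ ∞ g x) (a b : X) :
    D2 (fun y => f y * g y) x a b = f x * D2 g x a b + g x * D2 f x a b +
      (fderiv ℝ f x a * fderiv ℝ g x b + fderiv ℝ g x a * fderiv ℝ f x b) := by
  have e : fderiv ℝ (fun y => f y * g y) =ᶠ[𝓝 x]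
      fun y => f y • fderiv ℝ g y + g y • fderiv ℝ f y := by
    filter_upwards [BDc2_ev hf, BDc2_ev hg] with y h1 h2
    exact fderiv_fun_mul h1 h2
  have h2 := ((hf.differentiableAt (by simp)).hasFDerivAt.smul (BDc2_fd hg)).add
    ((hg.differentiableAt (by simp)).hasFDerivAt.smul (BDc2_fd hf))
  rw [D2, e.fderiv_eq,
    show fderiv ℝ (fun y => f y • fderiv ℝ g y + g y • fderiv ℝ f y) x = _ from h2.fderiv]
  simp only [add_apply, smul_apply, ContinuousLinearMap.smulRight_apply, smul_eq_mul]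
  ring

omit [FiniteDimensional ℝ V] [FiniteDimensional ℂ V] in
theorem BDc2_sqF (l : V →L[ℝ] ℝ) (u v : V) :
    sqF l ![u, v] = l v * l (Complex.I • u) - l u * l (Complex.I • v) := by
  rw [sqF, wedge_apply]
  change l u * -l (Complex.I • v) - l v * -l (Complex.I • u) = _
  ring

theorem ddc_comp {φ : ℝ → ℝ} (hf : ContDiffAt ℝ ∞ f x) (hφ : ContDiffAt ℝ ∞ φ (f x)) :
    ddc (fun y => φ (f y)) x =
      deriv φ (f x) • ddc f x + deriv (deriv φ) (f x) • sqF (fderiv ℝ f x) := by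
  refine alt_ext_two fun u v => ?_
  rw [ddc_apply (f := fun y => φ (f y)) (hφ.comp x hf), BDc2_comp hf hφ, BDc2_comp hf hφ,
    ContinuousAlternatingMap.add_apply, ContinuousAlternatingMap.smul_apply,
    ContinuousAlternatingMap.smul_apply, ddc_apply hf, BDc2_sqF, smul_eq_mul, smul_eq_mul]
  ring


theorem ddc_mul (hf : ContDiffAt ℝ ∞ f x) (hg : ContDiffAt ℝ ∞ g x) (e : V) :
    Qf (ddc (fun y => f y * g y) x) e = f x * Qf (ddc g x) e + g x * Qf (ddc f x) e +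
      2 * (fderiv ℝ f x e * fderiv ℝ g x e +
        fderiv ℝ f x (Complex.I • e) * fderiv ℝ g x (Complex.I • e)) := by
  simp only [Qf]
  rw [ddc_apply (hf.mul hg), ddc_apply hf, ddc_apply hg, BDc2_mul hf hg, BDc2_mul hf hg, smul_smul,
    Complex.I_mul_I, neg_one_smul]
  simp only [map_neg]
  ring


theorem normSq_sm (h : AnalyticAt ℂ c x) : ContDiffAt ℝ ∞ (fun y => ‖c y‖ ^ 2) x :=
  (an_sm h).norm_sq ℝ


theorem fderiv_normSq (h : AnalyticAt ℂ c x) (v : V) :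
    fderiv ℝ (fun y => ‖c y‖ ^ 2) x v = 2 * ((starRingEnd ℂ) (c x) * fderiv ℂ c x v).re := by
  rw [((an_sm h).differentiableAt (by simp)).hasFDerivAt.norm_sq.fderiv, ← an_fderiv h]
  simp only [smul_apply, ContinuousLinearMap.comp_apply, innerSL_apply_apply, Complex.inner,
    nsmul_eq_mul, Nat.cast_ofNat, mul_comm]


theorem BDc2_ar (z : ℂ) : ddc (fun y : ℂ => ‖y‖ ^ 2) z = (4 : ℝ) • ar := by
  have e : ∀ a b : ℂ, D2 (fun y : ℂ => ‖y‖ ^ 2) z a b = 2 * (a.re * b.re + a.im * b.im) := by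
    intro a b
    rw [D2, fderiv_norm_sq, show fderiv ℝ (2 • ⇑(innerSL ℝ (E := ℂ))) z = _ from
      (2 • innerSL ℝ (E := ℂ)).fderiv]
    change 2 • inner ℝ a b = _
    simp only [Complex.inner, nsmul_eq_mul, Nat.cast_ofNat, Complex.mul_re, Complex.conj_re,
      Complex.conj_im]
    ring
  refine alt_ext_two fun u v => ?_
  rw [ddc_apply (contDiff_norm_sq ℝ).contDiffAt, e, e, ContinuousAlternatingMap.smul_apply,
    ar_apply]
  simp only [smul_eq_mul, Complex.I_mul_re, Complex.I_mul_im]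
  ring

theorem ddc_normSq (h : AnalyticAt ℂ c x) :
    ddc (fun y => ‖c y‖ ^ 2) x = (4 : ℝ) • arC (fderiv ℂ c x) := by
  rw [ddc_pb (f' := fun y : ℂ => ‖y‖ ^ 2) h (contDiff_norm_sq ℝ).contDiffAt,
    ← pb_ar h fun _ => 4]
  exact pb_congr' (BDc2_ar _)


theorem sqF_normSq (h : AnalyticAt ℂ c x) :
    sqF (fderiv ℝ (fun y => ‖c y‖ ^ 2) x) = (4 * ‖c x‖ ^ 2) • arC (fderiv ℂ c x) := by
  refine alt_ext_two fun u v => ?_
  rw [BDc2_sqF, ContinuousAlternatingMap.smul_apply, arC_apply, Complex.sq_norm,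
    Complex.normSq_apply]
  simp only [fderiv_normSq h, map_smul, smul_eq_mul, Complex.mul_re, Complex.mul_im,
    Complex.conj_re, Complex.conj_im, Complex.I_re, Complex.I_im]
  ring


theorem ddc_rad {φ : ℝ → ℝ} (h : AnalyticAt ℂ c x) (hφ : ContDiffAt ℝ ∞ φ (‖c x‖ ^ 2)) :
    ddc (fun y => φ (‖c y‖ ^ 2)) x = (4 * (deriv φ (‖c x‖ ^ 2) +
      ‖c x‖ ^ 2 * deriv (deriv φ) (‖c x‖ ^ 2))) • arC (fderiv ℂ c x) := by
  rw [ddc_comp (f := fun y => ‖c y‖ ^ 2) (normSq_sm h) hφ, ddc_normSq h, sqF_normSq h, smul_smul,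
    smul_smul, ← add_smul]
  exact congrArg (· • _) (by ring)


theorem ker_comp {φ : ℂ → ℝ} (h : AnalyticAt ℂ c x) (hφ : ContDiffAt ℝ ∞ φ (c x)) {e : V}
    (he : fderiv ℂ c x e = 0) : fderiv ℝ (fun y => φ (c y)) x e = 0 ∧
      fderiv ℝ (fun y => φ (c y)) x (Complex.I • e) = 0 ∧ Qf (ddc (fun y => φ (c y)) x) e = 0 := by
  have he' : fderiv ℂ c x (Complex.I • e) = 0 := by rw [map_smul, he, smul_zero]
  have h1 : ∀ w, fderiv ℝ (fun y => φ (c y)) x w = fderiv ℝ φ (c x) (fderiv ℂ c x w) := fun w => by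
    rw [← an_fderiv h w]
    exact congrArg (fun L : V →L[ℝ] ℝ => L w)
      (fderiv_comp x (hφ.differentiableAt (by simp)) ((an_sm h).differentiableAt (by simp)))
  refine ⟨by rw [h1, he, map_zero], by rw [h1, he', map_zero], ?_⟩
  rw [ddc_pb h hφ, Qf, pb, IPf_comp]
  exact IPf_zero _ (Or.inl (by rw [an_fderiv h, he]))

theorem BDc2_log (hf : ContDiffAt ℝ ∞ f x) (h0 : f x ≠ 0) :
    ddc (fun y => Real.log (f y)) x =
      (f x)⁻¹ • ddc f x + (-(f x ^ 2)⁻¹) • sqF (fderiv ℝ f x) := by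
  rw [ddc_comp hf (Real.contDiffAt_log.2 h0), Real.deriv_log', deriv_inv]

theorem BDc2_term {A : V → ℝ} (h : AnalyticAt ℂ c x) (hA : ContDiffAt ℝ ∞ A x) {e : V}
    (kA : fderiv ℝ A x e = 0 ∧ fderiv ℝ A x (Complex.I • e) = 0 ∧ Qf (ddc A x) e = 0) :
    fderiv ℝ (fun y => ‖c y‖ ^ 2 * A y) x e =
        A x * (2 * ((starRingEnd ℂ) (c x) * fderiv ℂ c x e).re) ∧
      fderiv ℝ (fun y => ‖c y‖ ^ 2 * A y) x (Complex.I • e) =
        A x * (2 * ((starRingEnd ℂ) (c x) * (Complex.I * fderiv ℂ c x e)).re) ∧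
      Qf (ddc (fun y => ‖c y‖ ^ 2 * A y) x) e = A x * (4 * ‖fderiv ℂ c x e‖ ^ 2) := by
  have h1 : ∀ w, fderiv ℝ (fun y => ‖c y‖ ^ 2 * A y) x w =
      ‖c x‖ ^ 2 * fderiv ℝ A x w + A x * fderiv ℝ (fun y => ‖c y‖ ^ 2) x w := fun w => by
    rw [fderiv_fun_mul ((normSq_sm h).differentiableAt (by simp)) (hA.differentiableAt (by simp))]
    rfl
  refine ⟨?_, ?_, ?_⟩
  · rw [h1, kA.1, mul_zero, zero_add, fderiv_normSq h]
  · rw [h1, kA.2.1, mul_zero, zero_add, fderiv_normSq h, map_smul, smul_eq_mul]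
  · rw [ddc_mul (normSq_sm h) hA, kA.1, kA.2.1, kA.2.2, ddc_normSq h, Qf_smul, Qf_arC]
    ring

theorem Qf_fs {u v : V → ℂ} {A B : V → ℝ} (hu : AnalyticAt ℂ u x) (hv : AnalyticAt ℂ v x)
    (hA : ContDiffAt ℝ ∞ A x) (hB : ContDiffAt ℝ ∞ B x) {e : V}
    (kA : fderiv ℝ A x e = 0 ∧ fderiv ℝ A x (Complex.I • e) = 0 ∧ Qf (ddc A x) e = 0)
    (kB : fderiv ℝ B x e = 0 ∧ fderiv ℝ B x (Complex.I • e) = 0 ∧ Qf (ddc B x) e = 0)
    (hN : ‖u x‖ ^ 2 * A x + ‖v x‖ ^ 2 * B x ≠ 0) :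
    Qf (ddc (fun y => Real.log (‖u y‖ ^ 2 * A y + ‖v y‖ ^ 2 * B y)) x) e =
      4 * A x * B x * ‖u x * fderiv ℂ v x e - v x * fderiv ℂ u x e‖ ^ 2 /
        (‖u x‖ ^ 2 * A x + ‖v x‖ ^ 2 * B x) ^ 2 := by
  have su := (normSq_sm hu).mul hA
  have sv := (normSq_sm hv).mul hB
  have h1 := BDc2_log (su.add sv) hN
  have h2 : ∀ w, fderiv ℝ (fun y => ‖u y‖ ^ 2 * A y + ‖v y‖ ^ 2 * B y) x w =
      fderiv ℝ (fun y => ‖u y‖ ^ 2 * A y) x w + fderiv ℝ (fun y => ‖v y‖ ^ 2 * B y) x w :=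
    fun w => by
      rw [fderiv_fun_add (su.differentiableAt (by simp)) (sv.differentiableAt (by simp))]
      rfl
  obtain ⟨a1, a2, a3⟩ := BDc2_term hu hA kA
  obtain ⟨b1, b2, b3⟩ := BDc2_term hv hB kB
  rw [h1, Qf_add, Qf_smul, Qf_smul, ddc_add su sv, Qf_add, Qf_sqF, h2, h2, a1, a2, a3, b1, b2, b3]
  generalize fderiv ℂ u x e = p at *
  generalize fderiv ℂ v x e = q at *
  generalize u x = s at *
  generalize v x = t at *
  have key : (A x * (4 * ‖p‖ ^ 2) + B x * (4 * ‖q‖ ^ 2)) * (‖s‖ ^ 2 * A x + ‖t‖ ^ 2 * B x) -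
      ((A x * (2 * ((starRingEnd ℂ) s * p).re) + B x * (2 * ((starRingEnd ℂ) t * q).re)) ^ 2 +
        (A x * (2 * ((starRingEnd ℂ) s * (Complex.I * p)).re) +
          B x * (2 * ((starRingEnd ℂ) t * (Complex.I * q)).re)) ^ 2) =
      4 * A x * B x * ‖s * q - t * p‖ ^ 2 := by
    simp only [Complex.sq_norm, Complex.normSq_apply, Complex.mul_re, Complex.mul_im,
      Complex.sub_re, Complex.sub_im, Complex.conj_re, Complex.conj_im, Complex.I_re, Complex.I_im]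
    ring
  rw [← key]
  generalize ‖s‖ ^ 2 * A x + ‖t‖ ^ 2 * B x = N at *
  field_simp
  ring

theorem ddc_of_log (hf : ContDiffAt ℝ ∞ f x) (h0 : f x ≠ 0) :
    ddc f x = f x • ddc (fun y => Real.log (f y)) x + (f x)⁻¹ • sqF (fderiv ℝ f x) := by
  rw [BDc2_log hf h0, smul_add, smul_smul, smul_smul, mul_inv_cancel₀ h0, one_smul, add_assoc,
    ← add_smul]
  have e : f x * -(f x ^ 2)⁻¹ + (f x)⁻¹ = 0 := by
    field_simp
    ring
  rw [e, zero_smul, add_zero]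

end Pool.Agent.Work.MP_bf98aa_gt.Kg
end
end

-- merged part: Pool.Agent.Work.MP_bf98aa_gt.Kg.BKap
section
/-!
The curvature form and the pieces of the Kaehler form.

PLAN. `lam_gc`: `cl_ddc`, `lift_HL`, `ddc_inv` with `c x = (μ k (tP i.2 x k))⁻¹`, `RR_lw`. `lam_eq`: `ddc_rad` with `φ r = -(kk r / 2)`, `kk_lap`. `rho_eq`: `lam_eq`, `dy_eq`, `arC_smul`. `AA_d`: `isD_dc`, `ddc_add`, `ddc_sub`, `ddc_log`.
`sig_gc`: the terms are `pb (yk k i) (fun _ => ar)` on `W` (`pb_ar`, `Per.gc`).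
`N_mul`: `HL.scal`, `RR_wt`. `tauk_gc`: `ddc_inv`. `ta_pos`: `Qf sig e = 0` gives `dP k e = 0` for all `k` (`Qf_arC`, `dy_eq`, `Yd_ne`); `Qf_fs` with `ker_comp` (for `B` a product: `ddc_mul`); if all three terms vanish `tor_imm` gives `e = 0`.
-/

set_option autoImplicit false

noncomputable section

open scoped ContDiff Topology
open Set Filter

namespace Pool.Agent.Work.MP_bf98aa_gt.Kg

open Pool.Agent.Work.MP_bf98aa_gt.Th Pool.Agent.Work.MP_bf98aa_gt.Cp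

variable {i j : Jx} {p q : E3} {γ : E3 → E3} {μ : Fin 3 → ℂ → ℂ}

theorem gc_congr {n : ℕ} {a b : Jx → Fm E3 n} (h : PM.GC a) (e : ∀ i, ∀ y ∈ PM.W i, b i y = a i y) :
    PM.GC b := by
  refine ⟨fun i => ⟨(h.1 i).1.congr (e i), fun x hx => ?_⟩, fun i j y γ hl => ?_⟩
  · have e' : b i =ᶠ[𝓝 x] a i := eventually_of_mem ((isOpen_W i).mem_nhds hx) (e i)
    rw [e'.extDeriv_eq, (h.1 i).2 x hx]
  · rw [e i y (PM_good.mem hl.self), h.2 i j y γ hl]
    exact pb_congr' (e j _ (PM_good.mem' hl.self)).symm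

theorem BKap_lw (k : Fin 3) (i : Jx) (p : E3) : ContDiffAt ℝ ∞ (fun x => lw (tP i.2 x k)) p :=
  contDiff_lw.contDiffAt.comp p (an_sm (analyticAt_tP i.2 k p))

theorem lam_gc (k : Fin 3) : PM.GC (lam k) := by
  refine ⟨fun i => cl_ddc (isOpen_W i) fun p _ => (BKap_lw k i p).contDiffWithinAt,
    fun i j y γ hl => ?_⟩
  obtain ⟨μ, h⟩ := lift_HL hl
  have h0 : μ k (tP i.2 y k) ≠ 0 := h.2.2.2.self_of_nhds.ne k
  refine ddc_inv (c := fun x => (μ k (tP i.2 x k))⁻¹) h.1 (BKap_lw k i y) (BKap_lw k j _)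
    (((h.2.1 k).comp_of_eq (analyticAt_tP i.2 k y) rfl).inv h0) (inv_ne_zero h0) ?_
  filter_upwards [h.2.2.2] with x hx
  rw [(hx.2 k).1, RR_lw (fack k) (hx.1 k), norm_inv, inv_pow, Real.log_inv, sub_eq_add_neg]

theorem lam_eq (k : Fin 3) (i : Jx) (p : E3) :
    lam k i p = (-(2 * deriv psi (‖tP i.2 p k‖ ^ 2))) • arC (dP k i p) := by
  have hd : ∀ f : ℝ → ℝ, deriv (fun r => -(f r / 2)) = fun r => -(deriv f r / 2) := by
    intro f
    funext r
    rw [deriv.fun_neg, deriv_div_const]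
  have h := ddc_rad (φ := fun r => -(kk r / 2)) (analyticAt_tP i.2 k p)
    ((contDiff_kk.div_const 2).neg.contDiffAt)
  rw [hd, hd] at h
  refine h.trans ?_
  rw [← kk_lap]
  congr 1
  ring

theorem rho_gc : PM.GC rho := by
  exact (((lam_gc 0).add PM_good (lam_gc 1)).add PM_good (lam_gc 2)).smul PM_good _

theorem rho_eq (hp : p ∈ PM.W i) :
    rho i p = fd (tP i.2 p 0) • arC (dy 0 i p) + fd (tP i.2 p 1) • arC (dy 1 i p) +
      fd (tP i.2 p 2) • arC (dy 2 i p) := by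
  have e : ∀ k, (1 / (4 * Real.pi)) • lam k i p = fd (tP i.2 p k) • arC (dy k i p) := fun k => by
    have h0 : ‖Yd (tP i.2 p k)‖ ≠ 0 := norm_ne_zero_iff.2 (Yd_ne (W_DC hp k).1)
    have hπ := Real.pi_ne_zero
    rw [lam_eq, dy_eq hp, arC_smul, smul_smul, smul_smul, norm_mul, norm_sg, fd]
    congr 1
    field_simp
    ring
  rw [rho, smul_add, smul_add, e, e, e]

theorem fd_le (P : ℂ) : fd P ≤ 0 := by
  exact neg_nonpos.2 (div_nonneg (deriv_psi_nonneg _) (by positivity))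

theorem AA_d (i : Jx) : IsD (AA i) (fun y => (2 * Real.pi) • rho i y) (PM.W i) := by
  have h := isD_dc (isOpen_W i) fun p hp => (fA_sm hp).contDiffWithinAt
  refine ⟨ContDiffOn.const_smul _ h.1, fun x hx => ?_⟩
  have a : ∀ k, AnalyticAt ℂ (fun y => Yd (tP i.2 y k)) x := fun k =>
    (analyticAt_Yd (W_DC hx k).1).comp_of_eq (analyticAt_tP i.2 k x) rfl
  have n := fun k => Yd_ne (W_DC hx k).1
  have l := fun k => log_sm (a k) (n k)
  have s := fun k => (BKap_lw k i x).sub (l k)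
  have e : ddc (fA i) x = lam 0 i x + lam 1 i x + lam 2 i x := by
    unfold fA
    rw [ddc_add ((s 0).add (s 1)) (s 2), ddc_add (s 0) (s 1), ddc_sub (BKap_lw 0 i x) (l 0),
      ddc_sub (BKap_lw 1 i x) (l 1), ddc_sub (BKap_lw 2 i x) (l 2), ddc_log (a 0) (n 0),
      ddc_log (a 1) (n 1), ddc_log (a 2) (n 2), sub_zero, sub_zero, sub_zero]
    rfl
  have hπ := Real.pi_ne_zero
  change extDeriv ((1 / 2 : ℝ) • dc (fA i)) x = (2 * Real.pi) • rho i x
  rw [extDeriv_smul, h.2 x hx, e, rho, smul_smul]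
  congr 1
  field_simp
  ring

theorem sig_gc : PM.GC sig := by
  have h : ∀ k : Fin 3, PM.GC fun i => pb (yk k i) fun _ => ar := fun k =>
    (per_const ar).gc k (extDeriv_top _)
  refine gc_congr (((h 0).add PM_good (h 1)).add PM_good (h 2)) fun i y hy => ?_
  have e : ∀ k : Fin 3, pb (yk k i) (fun _ => ar) y = arC (dy k i y) := fun k => by
    simpa [dy] using pb_ar (yk_an hy).1 fun _ => 1
  rw [e 0, e 1, e 2]
  rfl

theorem sig_inv (i : Jx) (p : E3) : Inv11 (sig i p) := by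
  exact ((inv11_arC _).add (inv11_arC _)).add (inv11_arC _)

theorem sig_ge (i : Jx) (p v : E3) : ‖dy 1 i p v‖ ^ 2 ≤ Qf (sig i p) v := by
  rw [sig, Qf_add, Qf_add, Qf_arC, Qf_arC, Qf_arC]
  linarith only [sq_nonneg ‖dy 0 i p v‖, sq_nonneg ‖dy 2 i p v‖, sq_nonneg ‖(dy (2 : Fin (3 : ℕ)) i p) v‖, sq_nonneg ‖(dy (0 : Fin (3 : ℕ)) i p) v‖]

theorem BKap_wt (T : Fin 4) (k : Fin 3) (p : E3) : ContDiffAt ℝ ∞ (fun x => wt (tP T x k)) p :=
  contDiff_wt.contDiffAt.comp p (an_sm (analyticAt_tP T k p))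

theorem Na_sm (k : Fin 3) (i : Jx) (p : E3) :
    ContDiffAt ℝ ∞ (Na k i) p ∧ ContDiffAt ℝ ∞ (Nb k i) p := by
  exact ⟨(normSq_sm (analyticAt_tu i.2 k p)).mul (BKap_wt i.2 k p),
    (normSq_sm (analyticAt_tv i.2 k p)).mul ((BKap_wt i.2 _ p).mul (BKap_wt i.2 _ p))⟩

theorem N_pos (k : Fin 3) (i : Jx) (p : E3) :
    0 ≤ Na k i p ∧ 0 ≤ Nb k i p ∧ (0 < Na k i p ∨ 0 < Nb k i p) := by
  refine ⟨mul_nonneg (sq_nonneg _) (wt_pos _).le,
    mul_nonneg (sq_nonneg _) (mul_pos (wt_pos _) (wt_pos _)).le,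
    (tuv_ne i.2 p k).imp (fun h => ?_) fun h => ?_⟩
  · exact mul_pos (pow_pos (norm_pos_iff.2 h) 2) (wt_pos _)
  · exact mul_pos (pow_pos (norm_pos_iff.2 h) 2) (mul_pos (wt_pos _) (wt_pos _))

theorem N_mul (h : HL i j p γ μ) (k : Fin 3) : ∃ c : E3 → ℂ, AnalyticAt ℂ c p ∧ c p ≠ 0 ∧
    ∀ᶠ x in 𝓝 p, Na k j (γ x) = ‖c x‖ ^ 2 * Na k i x ∧ Nb k j (γ x) = ‖c x‖ ^ 2 * Nb k i x := by
  obtain ⟨c, hc, h0, H⟩ := h.scal k
  refine ⟨c, hc, h0, ?_⟩
  filter_upwards [H, h.2.2.2] with x hx hR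
  have w : ∀ l, wt (tP j.2 (γ x) l) * ‖μ l (tP i.2 x l)‖ ^ 2 = wt (tP i.2 x l) := fun l => by
    rw [(hR.2 l).1]
    exact RR_wt (fack l) (hR.1 l)
  simp only [Na, Nb]
  rw [hx.1, hx.2, ← w k, ← w (k + 1), ← w (k + 2)]
  simp only [norm_mul]
  exact ⟨by ring, by ring⟩

theorem BKap_N (k : Fin 3) (i : Jx) (p : E3) : 0 < Na k i p + Nb k i p := by
  obtain ⟨a, b, c | c⟩ := N_pos k i p <;> linarith only [b, c, a]

theorem BKap_log (k : Fin 3) (i : Jx) (p : E3) :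
    ContDiffAt ℝ ∞ (fun x => Real.log (Na k i x + Nb k i x)) p :=
  ((Na_sm k i p).1.add (Na_sm k i p).2).log (BKap_N k i p).ne'

theorem tauk_gc (k : Fin 3) : PM.GC (tauk k) := by
  refine ⟨fun i => cl_ddc (isOpen_W i) fun p _ => (BKap_log k i p).contDiffWithinAt,
    fun i j y γ h => ?_⟩
  obtain ⟨μ, H⟩ := lift_HL h
  obtain ⟨c, hc, h0, e⟩ := N_mul H k
  refine ddc_inv H.1 (BKap_log k i y) (BKap_log k j _) hc h0 ?_
  filter_upwards [e, hc.continuousAt.eventually_ne h0] with x hx h1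
  rw [hx.1, hx.2, ← mul_add, Real.log_mul (pow_ne_zero 2 (norm_ne_zero_iff.2 h1))
    (BKap_N k i x).ne', add_comm]

theorem ta_gc : PM.GC ta := by
  exact ((tauk_gc 0).add PM_good (tauk_gc 1)).add PM_good (tauk_gc 2)

theorem ta_inv (i : Jx) (p : E3) : Inv11 (ta i p) := by
  exact ((inv_ddc (BKap_log 0 i p)).add (inv_ddc (BKap_log 1 i p))).add (inv_ddc (BKap_log 2 i p))

theorem BKap_Qf {e : E3} (h : ∀ k, dP k i p e = 0) (k : Fin 3) : ∃ s : ℝ, 0 < s ∧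
    Qf (tauk k i p) e = s * ‖tu i.2 p k * fderiv ℂ (fun x => tv i.2 x k) p e -
      tv i.2 p k * fderiv ℂ (fun x => tu i.2 x k) p e‖ ^ 2 := by
  have K := fun l => ker_comp (analyticAt_tP i.2 l p) contDiff_wt.contDiffAt (h l)
  have S := fun l => BKap_wt i.2 l p
  have D := fun l => (S l).differentiableAt (by simp)
  have N := BKap_N k i p
  have e1 := Qf_fs (analyticAt_tu i.2 k p) (analyticAt_tv i.2 k p) (S k)
    ((S (k + 1)).mul (S (k + 2))) (K k) ⟨?_, ?_, ?_⟩ N.ne'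
  · refine ⟨4 * wt (tP i.2 p k) * (wt (tP i.2 p (k + 1)) * wt (tP i.2 p (k + 2))) /
      (Na k i p + Nb k i p) ^ 2, div_pos (mul_pos (mul_pos four_pos (wt_pos _))
        (mul_pos (wt_pos _) (wt_pos _))) (pow_pos N 2), e1.trans ?_⟩
    rw [mul_div_right_comm]
    rfl
  · rw [fderiv_fun_mul (D _) (D _)]
    simp [(K _).1]
  · rw [fderiv_fun_mul (D _) (D _)]
    simp only [ContinuousLinearMap.add_apply, ContinuousLinearMap.smul_apply, (K _).2.1, smul_zero,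
      add_zero]
  · rw [ddc_mul (S _) (S _), (K _).1, (K _).2.1, (K (k + 1)).2.2, (K (k + 2)).2.2]
    ring

theorem ta_pos (hp : p ∈ PM.W i) {e : E3} (he : e ≠ 0) (h : Qf (sig i p) e = 0) :
    0 < Qf (ta i p) e := by
  simp only [sig, Qf_add, Qf_arC] at h
  have a : ∀ k, ‖dy k i p e‖ ^ 2 = 0 := fun k => by
    have n0 := sq_nonneg ‖dy 0 i p e‖
    have n1 := sq_nonneg ‖dy 1 i p e‖
    have n2 := sq_nonneg ‖dy 2 i p e‖
    fin_cases k
    exacts [show ‖dy 0 i p e‖ ^ 2 = 0 by linarith only [n0, h, n1, n2], show ‖dy 1 i p e‖ ^ 2 = 0 by linarith only [n1, h, n0, n2],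
      show ‖dy 2 i p e‖ ^ 2 = 0 by linarith only [n2, h, n0, n1]]
  have hd : ∀ k, dP k i p e = 0 := fun k => by
    have := a k
    rw [dy_eq hp] at this
    simpa [BJac_sg, Yd_ne (W_DC hp k).1] using this
  choose s s0 hq using BKap_Qf hd
  have nn : ∀ k, 0 ≤ Qf (tauk k i p) e := fun k => by
    rw [hq]
    exact mul_nonneg (s0 k).le (sq_nonneg _)
  by_contra hn
  simp only [ta, Qf_add, not_lt] at hn
  refine he (tor_imm i.2 p e hd fun k => ?_)
  have z : Qf (tauk k i p) e = 0 := by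
    have n0 := nn 0
    have n1 := nn 1
    have n2 := nn 2
    fin_cases k
    exacts [show Qf (tauk 0 i p) e = 0 by linarith only [n0, hn, n1, n2], show Qf (tauk 1 i p) e = 0 by linarith,
      show Qf (tauk 2 i p) e = 0 by linarith]
  rw [hq, mul_eq_zero, sq_eq_zero_iff, norm_eq_zero, sub_eq_zero] at z
  exact z.resolve_left (s0 k).ne'

end Pool.Agent.Work.MP_bf98aa_gt.Kg
end
end
end

-- merged part: Pool.Agent.Work.MP_bf98aa_gt.Kg.BTh
section
/-!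
The Thom form.

PLAN. `The_gc`: `lH_sm`, `N_mul`, `lH_mul`, `ddc_inv`, `lam_gc`. `The_far`: near `p`, `lH = log ‖tu‖ ^ 2 + lw (tP 2) + c0` (`lH_far`, `tu ≠ 0`), `ddc_log`. `zone_small`: `tu_sq` gives
`Na * (‖P0‖ wt P0) * (‖P1‖ wt P1) = Nb * (‖P2‖ wt P2)`, then `wt_le`, `wt_small`. `The_near`: `tv ≠ 0`; near `p`, `lH = log ‖tv‖ ^ 2 + lw P0 + lw P1 + kk rr`, `lam 2 = 0` (`lam_eq`, `deriv_psi_zero`).
If `rr p < 1 / 20000` then `kk rr = 0` nearby and `psi`, `deriv psi` vanish. Else `rr p > 0`, `tu ≠ 0`, `log rr = log ‖tu‖ ^ 2 - log ‖tv‖ ^ 2 - lw P0 - lw P1` nearby (`lw_zero`), `ddc_comp`, `ddc_of_log`, `mul_deriv_kk`, `kk_lap`.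
`The_eq`: cases `Nb / 10000 < Na` (then `gg = gg' = 0`) or not. `The_zero`: `crs = 0` gives `tv = 0` (`dy_eq`, `crs_smul`, `tor_crs`), the condition of `The_far` is open.
`The_loc`: in the zone `rr = ‖tu / tv‖ ^ 2 / (wt P0 * wt P1)` and the derivative of `tu / tv` along `crs` is `1` (`tor_vu`).
`exists_pt`: chart `(fun _ => (false, false), 2)`, `p = (a, a, t)` with `a = sqrt r`, `t = sqrt r * wt a`, `r` from `exists_mid`; near `p`, `rr x = ‖x.2.2‖ ^ 2 / (wt x.1 * wt x.2.1)`; `crs = (0, 0, Yd a ^ 2)` (`tor_crs_two`) with `Yd a` a positive real.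
-/

set_option autoImplicit false

noncomputable section

open scoped ContDiff Topology
open Set Filter

namespace Pool.Agent.Work.MP_bf98aa_gt.Kg

open Pool.Agent.Work.MP_bf98aa_gt.Th Pool.Agent.Work.MP_bf98aa_gt.Cp

variable {i j : Jx} {p q : E3}

theorem BTh_lw (k : Fin 3) (i : Jx) (p : E3) : ContDiffAt ℝ ∞ (fun x => lw (tP i.2 x k)) p :=
  contDiff_lw.contDiffAt.comp p (an_sm (analyticAt_tP i.2 k p))

theorem BTh_logb (h : tv i.2 p 2 ≠ 0) :
    ddc (fun x => Real.log (Nb 2 i x)) p = lam 0 i p + lam 1 i p := by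
  have hv := analyticAt_tv i.2 2 p
  have e : (fun x => Real.log (Nb 2 i x)) =ᶠ[𝓝 p] fun x => Real.log (‖tv i.2 x 2‖ ^ 2) +
      (lw (tP i.2 x 0) + lw (tP i.2 x 1)) := by
    filter_upwards [hv.continuousAt.eventually_ne h] with x hx
    rw [Nb, Real.log_mul (pow_ne_zero _ (norm_ne_zero_iff.2 hx))
      (mul_pos (wt_pos _) (wt_pos _)).ne', Real.log_mul (wt_pos _).ne' (wt_pos _).ne', wt, wt,
      Real.log_exp, Real.log_exp]
    rfl
  rw [ddc_congr e, ddc_add (log_sm hv h) ((BTh_lw 0 i p).add (BTh_lw 1 i p)), ddc_log hv h,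
    ddc_add (BTh_lw 0 i p) (BTh_lw 1 i p), zero_add]
  rfl

theorem BTh_loga (h : tu i.2 p 2 ≠ 0) : ddc (fun x => Real.log (Na 2 i x)) p = lam 2 i p := by
  have hu := analyticAt_tu i.2 2 p
  have e : (fun x => Real.log (Na 2 i x)) =ᶠ[𝓝 p] fun x => Real.log (‖tu i.2 x 2‖ ^ 2) +
      lw (tP i.2 x 2) := by
    filter_upwards [hu.continuousAt.eventually_ne h] with x hx
    rw [Na, Real.log_mul (pow_ne_zero _ (norm_ne_zero_iff.2 hx)) (wt_pos _).ne', wt, Real.log_exp]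
  rw [ddc_congr e, ddc_add (log_sm hu h) (BTh_lw 2 i p), ddc_log hu h, zero_add]
  rfl

theorem BTh_sm (i : Jx) (p : E3) : ContDiffAt ℝ ∞ (fun x => lH (Na 2 i x) (Nb 2 i x)) p :=
  lH_sm (Na_sm 2 i p).1 (Na_sm 2 i p).2 (fun y => (N_pos 2 i y).2.1) (N_pos 2 i p).2.2

theorem The_gc : PM.GC The := by
  have h : PM.GC fun i : Jx => ddc fun x => lH (Na 2 i x) (Nb 2 i x) := by
    refine ⟨fun i => cl_ddc (isOpen_W i) fun p _ => (BTh_sm i p).contDiffWithinAt,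
      fun i j p γ hγ => ?_⟩
    obtain ⟨μ, hμ⟩ := lift_HL hγ
    obtain ⟨c, c1, c2, c3⟩ := N_mul hμ 2
    refine ddc_inv hμ.1 (BTh_sm i p) (BTh_sm j _) c1 c2 ?_
    filter_upwards [c3, c1.continuousAt.eventually_ne c2] with x hx h0
    rw [hx.1, hx.2, lH_mul (pow_pos (norm_pos_iff.2 h0) 2)
      ((N_pos 2 i x).2.2.imp ne_of_gt ne_of_gt)]
  refine gc_congr (h.add PM_good ((lam_gc 2).smul PM_good (-1))) fun i y _ => ?_
  exact (sub_eq_add_neg _ _).trans (congrArg _ (neg_one_smul ℝ _).symm)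

theorem The_far (h : Nb 2 i p / 10000 < Na 2 i p) : The i p = 0 := by
  obtain ⟨sa, sb⟩ := Na_sm 2 i p
  have ha : Na 2 i p ≠ 0 := (show 0 < Na 2 i p by linarith only [h, (N_pos 2 i p).2.1]).ne'
  have hu : tu i.2 p 2 ≠ 0 := fun e => ha (by simp [Na, e])
  have e : (fun x => lH (Na 2 i x) (Nb 2 i x)) =ᶠ[𝓝 p] fun x => Real.log (Na 2 i x) + c0 := by
    filter_upwards [(sb.continuousAt.div_const 10000).eventually_lt sa.continuousAt h] with x hx
    exact lH_far (N_pos 2 i x).2.1 hx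
  rw [The, ddc_congr e, ddc_add (sa.log ha) contDiffAt_const, ddc_const, BTh_loga hu, add_zero,
    sub_self]

theorem zone_small (h : Na 2 i p < Nb 2 i p / 5000) : ‖tP i.2 p 2‖ ^ 2 < 1 / 20000 := by
  have a0 := (N_pos 2 i p).1
  have hb : 0 < Nb 2 i p := by linarith only [h, a0]
  have e := congrArg norm (tu_sq i.2 p)
  simp only [norm_mul, norm_pow] at e
  have e2 : Nb 2 i p * (‖tP i.2 p 2‖ * wt (tP i.2 p 2)) = Na 2 i p *
      (‖tP i.2 p 0‖ * wt (tP i.2 p 0) * (‖tP i.2 p 1‖ * wt (tP i.2 p 1))) := by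
    have : Nb 2 i p = ‖tv i.2 p 2‖ ^ 2 * (wt (tP i.2 p 0) * wt (tP i.2 p 1)) := rfl
    rw [this, Na]
    linear_combination -(wt (tP i.2 p 0) * wt (tP i.2 p 1) * wt (tP i.2 p 2)) * e
  have h0 := wt_le (tP i.2 p 0)
  have h1 := wt_le (tP i.2 p 1)
  have h2 := (wt_pos (tP i.2 p 1)).le
  refine wt_small (lt_of_mul_lt_mul_left (a := Nb 2 i p) ?_ hb.le)
  rw [e2]
  calc _ ≤ Na 2 i p * (1 / 100 * (1 / 100)) := by gcongr
    _ < _ := by linarith only [h, a0]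

theorem The_near (h : Na 2 i p < Nb 2 i p / 5000) :
    The i p = gg i p • sqF (fderiv ℝ (rr i) p) + gg' i p • rho i p := by
  have hb : Nb 2 i p ≠ 0 := (show 0 < Nb 2 i p by linarith only [h, (N_pos 2 i p).1]).ne'
  have hv : tv i.2 p 2 ≠ 0 := fun e => hb (by simp [Nb, e])
  obtain ⟨sa, sb⟩ := Na_sm 2 i p
  have sr : ContDiffAt ℝ ∞ (rr i) p := sa.div sb hb
  have l2 : lam 2 i p = 0 := by
    rw [lam_eq, deriv_psi_zero (Or.inl (zone_small h))]
    simp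
  have e : (fun x => lH (Na 2 i x) (Nb 2 i x)) =ᶠ[𝓝 p]
      fun x => Real.log (Nb 2 i x) + kk (rr i x) := by
    filter_upwards [sb.continuousAt.eventually_ne hb] with x hx
    exact if_neg hx
  have e4 : ∀ c : ℝ, (4 * Real.pi * c) • rho i p = c • (lam 0 i p + lam 1 i p) := fun c => by
    rw [rho, l2, add_zero, smul_smul]
    congr 1
    field_simp
  have sk : ContDiffAt ℝ ∞ (fun x => kk (rr i x)) p := contDiff_kk.contDiffAt.comp p sr
  rw [The, l2, sub_zero, ddc_congr e, ddc_add (sb.log hb) sk, BTh_logb hv,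
    gg, gg', if_neg hb, if_neg hb, e4]
  by_cases h0 : rr i p = 0
  · have z : (fun x => kk (rr i x)) =ᶠ[𝓝 p] fun _ => 0 := by
      filter_upwards [sr.continuousAt.eventually_lt continuousAt_const
        (show rr i p < 1 / 20000 by rw [h0]; norm_num)] with x hx
      exact kk_zero hx.le
    rw [ddc_congr z, ddc_const, h0, ← mul_deriv_kk]
    simp
  have ha : Na 2 i p ≠ 0 := fun e => h0 (by rw [rr, e, zero_div])
  have hu : tu i.2 p 2 ≠ 0 := fun e => ha (by simp [Na, e])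
  have e2 : (fun x => Real.log (rr i x)) =ᶠ[𝓝 p]
      fun x => Real.log (Na 2 i x) - Real.log (Nb 2 i x) := by
    filter_upwards [sa.continuousAt.eventually_ne ha, sb.continuousAt.eventually_ne hb] with x h1 h2
    exact Real.log_div h1 h2
  rw [ddc_comp sr contDiff_kk.contDiffAt, ddc_of_log sr h0, ddc_congr e2,
    ddc_sub (sa.log ha) (sb.log hb), BTh_loga hu, BTh_logb hv, l2, ← kk_lap, ← mul_deriv_kk,
    add_div, mul_div_cancel_left₀ _ h0, div_eq_mul_inv]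
  module

theorem gg_far (h : Nb 2 i p / 10000 < Na 2 i p) : gg i p = 0 ∧ gg' i p = 0 := by
  rw [gg, gg']
  split_ifs with hb
  · exact ⟨rfl, rfl⟩
  · have : 1 / 10000 < rr i p := by
      rw [rr, lt_div_iff₀ (lt_of_le_of_ne (N_pos 2 i p).2.1 (Ne.symm hb))]
      linarith only [h]
    rw [deriv_psi_zero (Or.inr this), psi_one this.le]
    simp

theorem BTh_near (h : ¬ Nb 2 i p / 10000 < Na 2 i p) : Na 2 i p < Nb 2 i p / 5000 := by
  obtain ⟨a0, b0, ab | ab⟩ := N_pos 2 i p <;> linarith only [h, ab, not_lt.1 h]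

theorem The_eq (i : Jx) (p : E3) :
    The i p = gg i p • sqF (fderiv ℝ (rr i) p) + gg' i p • rho i p := by
  by_cases h : Nb 2 i p / 10000 < Na 2 i p
  · rw [The_far h, (gg_far h).1, (gg_far h).2, zero_smul, zero_smul, add_zero]
  · exact The_near (BTh_near h)

theorem The_dis (i : Jx) (p : E3) : fd (tP i.2 p 2) = 0 ∨ (gg i p = 0 ∧ gg' i p = 0) := by
  by_cases h : Nb 2 i p / 10000 < Na 2 i p
  · exact Or.inr (gg_far h)
  · exact Or.inl (BTr_fd0 (Or.inl (zone_small (BTh_near h))))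

theorem BTh_crs (hp : p ∈ PM.W i) :
    ∃ c : ℂ, c ≠ 0 ∧ crs (dy 0 i p) (dy 1 i p) = c • crs (dP 0 i p) (dP 1 i p) :=
  ⟨_, mul_ne_zero (mul_ne_zero (BJac_sg _) (Yd_ne (W_DC hp 0).1))
    (mul_ne_zero (BJac_sg _) (Yd_ne (W_DC hp 1).1)), by rw [dy_eq hp, dy_eq hp, crs_smul]⟩

theorem BTh_dr (h : Na 2 i p < Nb 2 i p / 5000) (ha : Na 2 i p ≠ 0) :
    ∃ z : ℂ, fderiv ℝ (rr i) p (z • crs (dP 0 i p) (dP 1 i p)) ≠ 0 := by
  have hb : Nb 2 i p ≠ 0 := (show 0 < Nb 2 i p by linarith only [h, (N_pos 2 i p).1]).ne'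
  have hv : tv i.2 p 2 ≠ 0 := fun e => hb (by simp [Nb, e])
  have hu : tu i.2 p 2 ≠ 0 := fun e => ha (by simp [Na, e])
  have au := analyticAt_tu i.2 2 p
  have av := analyticAt_tv i.2 2 p
  have as : AnalyticAt ℂ (fun x => tu i.2 x 2 / tv i.2 x 2) p := au.fun_div av hv
  have sw : ContDiff ℝ ∞ fun P => (wt P)⁻¹ := contDiff_wt.inv fun P => (wt_pos P).ne'
  have dw : ∀ k, DifferentiableAt ℝ (fun x => (wt (tP i.2 x k))⁻¹) p := fun k =>
    (sw.contDiffAt.comp p (an_sm (analyticAt_tP i.2 k p))).differentiableAt (by simp)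
  have e : rr i =ᶠ[𝓝 p] fun x => ‖tu i.2 x 2 / tv i.2 x 2‖ ^ 2 *
      ((wt (tP i.2 x 0))⁻¹ * (wt (tP i.2 x 1))⁻¹) := by
    filter_upwards [((analyticAt_tP i.2 2 p).continuousAt.norm.pow 2).eventually_lt
      continuousAt_const (zone_small h)] with x hx
    change ‖tu i.2 x 2‖ ^ 2 * wt (tP i.2 x 2) /
      (‖tv i.2 x 2‖ ^ 2 * (wt (tP i.2 x 0) * wt (tP i.2 x 1))) = _
    rw [wt, lw_zero hx.le, Real.exp_zero, norm_div]
    ring
  have ds : fderiv ℂ (fun x => tu i.2 x 2 / tv i.2 x 2) p (crs (dP 0 i p) (dP 1 i p)) = 1 := by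
    have k := tor_vu i.2 p
    simp only [div_eq_mul_inv]
    refine (DFunLike.congr_fun (au.differentiableAt.hasFDerivAt.fun_mul
      ((hasDerivAt_inv hv).comp_hasFDerivAt p av.differentiableAt.hasFDerivAt)).fderiv _).trans ?_
    simp only [add_apply, smul_apply, smul_eq_mul, Function.comp_def, dP]
    field_simp
    linear_combination k
  obtain ⟨k0, k1⟩ := crs_ker (dP 0 i p) (dP 1 i p)
  refine ⟨tu i.2 p 2 / tv i.2 p 2, ?_⟩
  rw [e.fderiv_eq, fderiv_fun_mul ((normSq_sm as).differentiableAt (by simp)) ((dw 0).fun_mul (dw 1)),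
    fderiv_fun_mul (dw 0) (dw 1)]
  simp only [add_apply, smul_apply, smul_eq_mul]
  rw [(ker_comp (analyticAt_tP i.2 0 p) sw.contDiffAt (by rw [map_smul]; exact smul_eq_zero_of_right _ k0)).1,
    (ker_comp (analyticAt_tP i.2 1 p) sw.contDiffAt (by rw [map_smul]; exact smul_eq_zero_of_right _ k1)).1,
    fderiv_normSq as, map_smul, ds, smul_eq_mul, mul_one, ← Complex.normSq_eq_conj_mul_self,
    Complex.ofReal_re]
  have := Complex.normSq_pos.2 (div_ne_zero hu hv)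
  have := wt_pos (tP i.2 p 0)
  have := wt_pos (tP i.2 p 1)
  rw [mul_zero, mul_zero, add_zero, mul_zero, zero_add]
  positivity

theorem The_loc (hp : p ∈ PM.W i) : (∀ᶠ x in 𝓝 p, gg i x = 0) ∨ (ContinuousAt (gg' i) p ∧
    ContinuousAt (fderiv ℝ (rr i)) p ∧
      ∃ z : ℂ, fderiv ℝ (rr i) p (z • crs (dy 0 i p) (dy 1 i p)) ≠ 0) := by
  obtain ⟨sa, sb⟩ := Na_sm 2 i p
  by_cases h : Nb 2 i p / 10000 < Na 2 i p
  · exact Or.inl (((sb.continuousAt.div_const 10000).eventually_lt sa.continuousAt h).mono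
      fun x hx => (gg_far hx).1)
  have h1 := BTh_near h
  have hb : Nb 2 i p ≠ 0 := (show 0 < Nb 2 i p by linarith only [h1, (N_pos 2 i p).1]).ne'
  have sr : ContDiffAt ℝ ∞ (rr i) p := sa.div sb hb
  by_cases ha : Na 2 i p = 0
  · refine Or.inl ((sr.continuousAt.eventually_lt continuousAt_const
      (show rr i p < 1 / 20000 by rw [rr, ha]; norm_num)).mono fun x hx => ?_)
    simp [gg, deriv_psi_zero (Or.inl hx)]
  refine Or.inr ⟨ContinuousAt.congr (f := fun x => 4 * Real.pi * (1 - psi (rr i x)))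
    ((continuousAt_const.sub (contDiff_psi.continuous.continuousAt.comp sr.continuousAt)).const_mul
      _) ((sb.continuousAt.eventually_ne hb).mono fun x hx => (if_neg hx).symm),
    sr.continuousAt_fderiv (by simp), ?_⟩
  obtain ⟨c, c0, hc⟩ := BTh_crs hp
  obtain ⟨z, hz⟩ := BTh_dr h1 ha
  exact ⟨z / c, by rwa [hc, smul_smul, div_mul_cancel₀ _ c0]⟩

theorem gg_ge (i : Jx) (p : E3) : 0 ≤ gg i p ∧ 0 ≤ gg' i p := by
  rw [gg, gg']
  split_ifs
  · exact ⟨le_rfl, le_rfl⟩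
  · exact ⟨div_nonneg (deriv_psi_nonneg _) (div_nonneg (N_pos 2 i p).1 (N_pos 2 i p).2.1),
      mul_nonneg (by positivity) (sub_nonneg.2 (psi_mem _).2)⟩

theorem The_zero (hp : p ∈ PM.W i) (h : crs (dy 0 i p) (dy 1 i p) = 0) :
    ∀ᶠ x in 𝓝 p, The i x = 0 := by
  have hv : tv i.2 p 2 = 0 := by
    by_contra hv
    obtain ⟨c, c0, hc⟩ := BTh_crs hp
    exact smul_ne_zero c0 (tor_crs i.2 hv) (hc ▸ h)
  have hb : Nb 2 i p = 0 := by simp [Nb, hv]
  have ha : Nb 2 i p / 10000 < Na 2 i p := by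
    rcases (N_pos 2 i p).2.2 with k | k <;> linarith only [hb, k]
  filter_upwards [((Na_sm 2 i p).2.continuousAt.div_const 10000).eventually_lt
    (Na_sm 2 i p).1.continuousAt ha] with x hx
  exact The_far hx

theorem exists_pt : ∃ i : Jx, ∃ y ∈ PM.W i, fd (tP i.2 y 0) < 0 ∧ fd (tP i.2 y 1) < 0 ∧ 0 < gg i y ∧
    0 < gg' i y ∧ fderiv ℝ (rr i) y (crs (dy 0 i y) (dy 1 i y)) ≠ 0 := by
  obtain ⟨r, r0, r1, r2, r3⟩ := exists_mid
  obtain ⟨a, a0, rfl⟩ : ∃ a : ℝ, 0 < a ∧ a ^ 2 = r :=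
    ⟨√r, Real.sqrt_pos.2 (by linarith only [r0, r1]), Real.sq_sqrt (by linarith only [r0, r1])⟩
  have a1 : a ≤ 1 / 100 := by (refine le_of_not_gt fun h_nl => ?_; linarith only [h_nl, a0, r1, mul_nonneg_of_nonpos_of_nonpos (Mathlib.Tactic.Linarith.sub_nonpos_of_le (sq_nonneg a)) (le_of_lt (Mathlib.Tactic.Linarith.sub_neg_of_lt h_nl)), mul_pos_of_neg_of_neg (Mathlib.Tactic.Linarith.sub_neg_of_lt a0) (Mathlib.Tactic.Linarith.sub_neg_of_lt r1), mul_pos_of_neg_of_neg (Mathlib.Tactic.Linarith.sub_neg_of_lt a0) (Mathlib.Tactic.Linarith.sub_neg_of_lt h_nl)])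
  have na : ‖(a : ℂ)‖ = a := by rw [Complex.norm_real, Real.norm_of_nonneg a0.le]
  have w0 := wt_pos a
  have w1 : a * wt a ≤ 1 / 100 := by simpa only [na] using wt_le a
  set t : ℝ := a * wt a with ht
  have t0' : 0 < t := mul_pos a0 w0
  have nt : ‖(t : ℂ)‖ = t := by rw [Complex.norm_real, Real.norm_of_nonneg t0'.le]
  let i : Jx := (fun _ => (false, false), 2)
  let y : E3 := (a, a, t)
  have hD := (DC_small (na.trans_le a1)).1
  have n2 : ‖tP 2 y 2‖ ≤ 1 / 200 := by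
    change ‖(t : ℂ) ^ 2 * a * a‖ ≤ _
    rw [norm_mul, norm_mul, norm_pow, na, nt]
    calc _ ≤ (1 / 100 : ℝ) ^ 2 * (1 / 100) * (1 / 100) := by gcongr
      _ ≤ _ := by norm_num
  have hy : y ∈ PM.W i := fun k => by
    fin_cases k
    · exact (DmC _).ge ⟨rfl, hD⟩
    · exact (DmC _).ge ⟨rfl, hD⟩
    · exact (DmC _).ge ⟨rfl, (DC_small (n2.trans (by norm_num))).1⟩
  have e : ∀ᶠ x in 𝓝 y, rr i x = ‖x.2.2‖ ^ 2 / (wt x.1 * wt x.2.1) := by
    filter_upwards [((analyticAt_tP 2 2 y).continuousAt.norm.pow 2).eventually_lt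
      continuousAt_const (show ‖tP 2 y 2‖ ^ 2 < 1 / 20000 by linarith only [n2, norm_nonneg (tP 2 y 2), mul_nonneg_of_nonpos_of_nonpos (Mathlib.Tactic.Linarith.sub_nonpos_of_le n2) (Mathlib.Tactic.Linarith.sub_nonpos_of_le (norm_nonneg (tP (2 : Fin (4 : ℕ)) y (2 : Fin (3 : ℕ)))))])]
      with x hx
    change ‖x.2.2‖ ^ 2 * wt (tP 2 x 2) / (‖(1 : ℂ)‖ ^ 2 * (wt x.1 * wt x.2.1)) = _
    rw [wt, lw_zero hx.le]
    simp
  have er : rr i y = a ^ 2 := by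
    rw [e.self_of_nhds]
    change ‖(t : ℂ)‖ ^ 2 / (wt a * wt a) = _
    rw [nt, ht]
    field_simp
  have hb : Nb 2 i y ≠ 0 := by
    change ‖(1 : ℂ)‖ ^ 2 * (wt a * wt a) ≠ 0
    simp [w0.ne']
  have hf : fd a < 0 := by
    have := norm_pos_iff.2 (Yd_ne hD.1)
    rw [fd, na, neg_lt_zero]
    positivity
  refine ⟨i, y, hy, hf, hf, by rw [gg, if_neg hb, er]; positivity,
    by rw [gg', if_neg hb, er]; exact mul_pos (by positivity) (sub_pos.2 r3), ?_⟩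
  obtain ⟨s, s0, hs⟩ : ∃ s : ℝ, 0 < s ∧ crs (dy 0 i y) (dy 1 i y) = (0, 0, (s : ℂ)) := by
    have : 0 < 1 - a := by linarith only [a0, a1]
    refine ⟨(1 / (5 * (1 - a) ^ 2)) ^ 2, by positivity, ?_⟩
    rw [dy_eq hy, dy_eq hy, crs_smul, dP, dP, tor_crs_two]
    change (sg false * Yd a * (sg false * Yd a)) • _ = _
    simp [sg, Yd, sq]
  have sr : DifferentiableAt ℝ (rr i) y :=
    ((Na_sm 2 i y).1.div (Na_sm 2 i y).2 hb).differentiableAt (by simp)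
  have c1 : HasDerivAt (fun z : ℝ => y + z • ((0, 0, (s : ℂ)) : E3)) (0, 0, (s : ℂ)) 0 := by
    simpa using ((hasDerivAt_id (0 : ℝ)).smul_const ((0, 0, (s : ℂ)) : E3)).const_add y
  have d1 := sr.hasFDerivAt.comp_hasDerivAt_of_eq (0 : ℝ) c1 (by simp)
  have d2 : HasDerivAt (fun z : ℝ => (t + z * s) ^ 2 / (wt a * wt a))
      (2 * t * s / (wt a * wt a)) 0 := by
    simpa using (((((hasDerivAt_id (0 : ℝ)).mul_const s).const_add t).pow 2).div_const
      (wt a * wt a))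
  have e3 : (rr i ∘ fun z : ℝ => y + z • ((0, 0, (s : ℂ)) : E3)) =ᶠ[𝓝 0]
      fun z : ℝ => (t + z * s) ^ 2 / (wt a * wt a) := by
    have c2 := c1.continuousAt.tendsto
    rw [zero_smul, add_zero] at c2
    filter_upwards [c2.eventually e] with z hz
    refine hz.trans ?_
    have : (y + z • ((0, 0, (s : ℂ)) : E3)).2.2 = ((t + z * s : ℝ) : ℂ) := by simp [y]
    rw [this, Complex.norm_real, Real.norm_eq_abs, sq_abs]
    simp [y]
  rw [hs, d1.unique (d2.congr_of_eventuallyEq e3)]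
  positivity

theorem exists_pt' : ∃ i : Jx, ∃ y ∈ PM.W i, fd (tP i.2 y 0) < 0 ∧ fd (tP i.2 y 1) < 0 ∧
    fd (tP i.2 y 2) < 0 ∧ dy 2 i y (crs (dy 0 i y) (dy 1 i y)) ≠ 0 := by
  obtain ⟨r, r0, r1, r2, -⟩ := exists_mid
  obtain ⟨a, a0, rfl⟩ : ∃ a : ℝ, 0 < a ∧ a ^ 2 = r :=
    ⟨√r, Real.sqrt_pos.2 (by linarith only [r0, r1]), Real.sq_sqrt (by linarith only [r0, r1])⟩
  have a1 : a ≤ 1 / 100 := by (refine le_of_not_gt fun h_nl => ?_; linarith only [h_nl, a0, r1, mul_nonneg_of_nonpos_of_nonpos (Mathlib.Tactic.Linarith.sub_nonpos_of_le (sq_nonneg a)) (le_of_lt (Mathlib.Tactic.Linarith.sub_neg_of_lt h_nl)), mul_pos_of_neg_of_neg (Mathlib.Tactic.Linarith.sub_neg_of_lt a0) (Mathlib.Tactic.Linarith.sub_neg_of_lt r1), mul_pos_of_neg_of_neg (Mathlib.Tactic.Linarith.sub_neg_of_lt a0) (Mathlib.Tactic.Linarith.sub_neg_of_lt h_nl)])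
  obtain ⟨b, b0, rfl⟩ : ∃ b : ℝ, 0 < b ∧ b * b = a := ⟨√a, Real.sqrt_pos.2 a0, Real.mul_self_sqrt a0.le⟩
  have na : ‖(b : ℂ) * b‖ = b * b := by rw [norm_mul, Complex.norm_real, Real.norm_of_nonneg b0.le]
  have hD := (DC_small (na.trans_le a1)).1
  have hy : ((b, b, b) : E3) ∈ PM.W (fun _ => (false, false), 3) := fun k => by
    fin_cases k <;> exact (DmC _).ge ⟨rfl, hD⟩
  have hf : fd ((b : ℂ) * b) < 0 := by
    have := norm_pos_iff.2 (Yd_ne hD.1)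
    rw [fd, na, neg_lt_zero]
    positivity
  refine ⟨_, _, hy, hf, hf, hf, ?_⟩
  obtain ⟨c, c0, hc⟩ := BTh_crs hy
  have b1 := Complex.ofReal_ne_zero.2 b0.ne'
  rw [hc, map_smul, dy_eq hy, smul_apply, dP, dP, dP, tor_det]
  exact mul_ne_zero c0 (mul_ne_zero (mul_ne_zero (BJac_sg _) (Yd_ne hD.1))
    (mul_ne_zero two_ne_zero (mul_ne_zero (mul_ne_zero b1 b1) b1)))

end Pool.Agent.Work.MP_bf98aa_gt.Kg
end
end

-- merged part: Pool.Agent.Work.MP_bf98aa_gt.Kg.BMain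
section
-- merged part: Pool.Agent.Work.MP_bf98aa_gt.Kg.BCpt
section
/-!
The quotient is compact and connected.

PLAN. `PM_cpt`: `RR_cpt` for the three factors gives `K k`; take `B ≥ 1` bounding all of them; `K' i = closedBall 0 B ∩ {p | ∀ k, tP i.2 p k ∈ K k (i.1 k)}`; `exists_den`, `TR_act`.
`W_two_pre`: `W (i, 2) = {(a, b, t) | a ∈ DC, b ∈ DC, t ^ 2 a b ∈ DC}` (or empty) by `DmC`; every point is joined to `(a, b, 0)` by the path of `DC_path`
(`isPreconnected_of_forall` with the sets `DC × DC × {0} ∪ segment`). `lnk_two`: `lnkC`, `RR_of`, the point `(x0 ^ 2, x1 ^ 2, x2 / (x0 x1))`, `denA_two`, `TR_act`.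
`PM_conn`: all points of the charts `(i, 2)` lie on the same side of `Z`; a point `p` of any chart lies in the open set `W ∩ Z` or `W \ Z`, which contains a point with `t0 ≠ 0` (`dense_t0`),
and that point is related to a point of the chart `(i.1, 2)` (`tv_ne`, `denA_two`, `TR_act`, `RR_refl`).
-/

set_option autoImplicit false

noncomputable section

open scoped ContDiff Topology
open Set Filter

namespace Pool.Agent.Work.MP_bf98aa_gt.Kg

open Pool.Agent.Work.MP_bf98aa_gt.Th Pool.Agent.Work.MP_bf98aa_gt.Cp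

theorem BCpt_r {i : Jx} {p : E3} {b : Fin 3 → Ix} {m : Fin 3 → ℂ} {S : Fin 4}
    (h : ∀ k, RR (rk k) (i.1 k) (tP i.2 p k) (b k) (m k)) (hd : DenA m i.2 S p) :
    Rm m i p (b, S) (act m i.2 S p) :=
  ⟨h, TR_act (fun k => (h k).ne) hd⟩

theorem PM_cpt : PM.Cpt := by
  choose K hK hK' using fun k => RR_cpt (fack k)
  have hc : IsCompact (⋃ k, ⋃ j, K k j) :=
    isCompact_iUnion fun k => isCompact_iUnion fun j => (hK k j).1
  obtain ⟨B, hB⟩ := hc.isBounded.exists_norm_le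
  refine ⟨fun i : Jx => Metric.closedBall 0 (max 1 B) ∩
    ⋂ k, (fun p => tP i.2 p k) ⁻¹' K k (i.1 k), fun i => ⟨?_, ?_⟩, fun i p hp => ?_⟩
  · refine (isCompact_closedBall _ _).inter_right (isClosed_iInter fun k => ?_)
    exact (hK k _).1.isClosed.preimage
      (continuous_iff_continuousAt.2 fun p => (analyticAt_tP _ k p).continuousAt)
  · exact fun p hp k => (hK k _).2 (mem_iInter.1 hp.2 k)
  · choose b m hm hm' using fun k => hK' k (i.1 k) _ (hp k)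
    obtain ⟨S, hS, hn⟩ := exists_den (fun k => (hm k).ne) i.2 p (le_max_left 1 B) fun k =>
      (hB _ (mem_iUnion.2 ⟨k, mem_iUnion.2 ⟨_, hm' k⟩⟩)).trans (le_max_right _ _)
    have hr := BCpt_r hm hS
    refine ⟨(b, S), act m i.2 S p, ⟨mem_closedBall_zero_iff.2 hn, mem_iInter.2 fun k => ?_⟩, m, hr⟩
    have := (hr.2 k).1
    rw [mem_preimage]
    exact this ▸ hm' k

theorem BCpt_mem (a : Fin 3 → Ix) (p : E3) : p ∈ PM.W (a, 2) ↔
    ((a 0).2 = false ∧ p.1 ∈ DC) ∧ ((a 1).2 = false ∧ p.2.1 ∈ DC) ∧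
      (a 2).2 = false ∧ p.2.2 ^ 2 * p.1 * p.2.1 ∈ DC := by
  have e : p ∈ PM.W (a, 2) ↔ p.1 ∈ Dm WC (a 0) ∧ p.2.1 ∈ Dm WC (a 1) ∧
      p.2.2 ^ 2 * p.1 * p.2.1 ∈ Dm WC (a 2) := by
    refine ⟨fun h => ⟨h 0, h 1, h 2⟩, fun h k => ?_⟩
    fin_cases k
    exacts [h.1, h.2.1, h.2.2]
  rw [e, DmC, DmC, DmC]
  rfl

theorem BCpt_zero : (0 : ℂ) ∈ DC := (DC_small (by norm_num)).1

theorem W_two_pre (a : Fin 3 → Ix) : IsPreconnected (PM.W (a, 2)) := by
  refine isPreconnected_of_forall (0 : E3) fun y hy => ?_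
  obtain ⟨h0, h1, h2, h3⟩ := (BCpt_mem a y).1 hy
  obtain ⟨c, c1, c2, c3, c4⟩ := DC_path h3
  refine ⟨DC ×ˢ DC ×ˢ {0} ∪ (fun t : ℝ => ((y.1, y.2.1, c t * y.2.2) : E3)) '' Icc 0 1, ?_,
    Or.inl ⟨BCpt_zero, BCpt_zero, rfl⟩, Or.inr ⟨1, by simp, by simp [c3]⟩, ?_⟩
  · rintro x (⟨a1, a2, a3⟩ | ⟨t, ht, rfl⟩) <;> rw [BCpt_mem]
    · refine ⟨⟨h0.1, a1⟩, ⟨h1.1, a2⟩, h2, ?_⟩
      rw [mem_singleton_iff.1 a3]
      simpa using BCpt_zero
    · refine ⟨h0, h1, h2, ?_⟩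
      have e : (c t * y.2.2) ^ 2 * y.1 * y.2.1 = c t ^ 2 * (y.2.2 ^ 2 * y.1 * y.2.1) := by ring
      rw [e]
      exact c4 t ht
  · refine IsPreconnected.union ((y.1, y.2.1, 0) : E3) ⟨h0.2, h1.2, rfl⟩
      ⟨0, by simp, by simp [c2]⟩ (DC_pre.prod (DC_pre.prod isPreconnected_singleton))
      (isPreconnected_Icc.image _ (continuousOn_const.prodMk
        (continuousOn_const.prodMk (c1.mul continuousOn_const))))

theorem lnk_two {a b : Fin 3 → Ix} (ha : ∀ k, (a k).2 = false) (hb : ∀ k, (b k).2 = false) :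
    ∃ p q, PM.r (a, 2) p (b, 2) q := by
  choose x z n r using fun k => lnkC (ha k) (hb k)
  choose m s _ using fun k => RR_of facC (r k)
  have e : x 2 ^ 2 = (x 2 / (x 0 * x 1)) ^ 2 * x 0 ^ 2 * x 1 ^ 2 := by
    have := n 0
    have := n 1
    field_simp
  have s2 := s 2
  rw [e] at s2
  have h : ∀ k, RR (rk k) (a k) (tP 2 (x 0 ^ 2, x 1 ^ 2, x 2 / (x 0 * x 1)) k) (b k) (m k) :=
    fun k => by
      fin_cases k
      exacts [s 0, s 1, s2]
  exact ⟨_, _, _, BCpt_r (i := (a, 2)) h (denA_two (fun k => (h k).ne) one_ne_zero)⟩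

theorem BCpt_two {i : Jx} {U : Set E3} (hU : IsOpen U) (hW : U ⊆ PM.W i) (hn : U.Nonempty) :
    ∃ p ∈ U, ∃ q ∈ PM.W (i.1, 2), PM.r i p (i.1, 2) q := by
  obtain ⟨p, hp, h0⟩ := dense_t0.inter_open_nonempty U hU hn
  have h := BCpt_r (i := i) (m := fun _ => 1) (fun k => RR_refl (fack k) (hW hp k))
    (denA_two (fun _ => one_ne_zero) (tv_ne i.2 h0))
  exact ⟨p, hp, _, h.mem.2, _, h⟩

theorem PM_conn : PM.Conn := by
  refine ⟨⟨(fun _ => (false, false), 2), 0, (BCpt_mem _ _).2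
    ⟨⟨rfl, BCpt_zero⟩, ⟨rfl, BCpt_zero⟩, rfl, by simpa using BCpt_zero⟩⟩, fun Z h1 h2 hZ i j y hy z hz hyZ => ?_⟩
  have s1 : ∀ a : Fin 3 → Ix, ∀ p ∈ PM.W (a, 2), ∀ q ∈ PM.W (a, 2),
      p ∈ Z (a, 2) → q ∈ Z (a, 2) := fun a p hp q hq hpZ =>
    ((W_two_pre a).subset_left_of_subset_union (h1 _) (h2 _)
      (disjoint_left.2 fun x hx hx' => hx'.2 hx.2) (inter_union_sdiff _ _).ge
      ⟨p, hp, hp, hpZ⟩ hq).2
  by_contra hzZ
  obtain ⟨p, hp, p', hp', rp⟩ := BCpt_two (h1 i) inter_subset_left ⟨y, hy, hyZ⟩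
  obtain ⟨q, hq, q', hq', rq⟩ := BCpt_two (h2 j) sdiff_subset ⟨z, hz, hzZ⟩
  obtain ⟨u, v, m, hm⟩ := lnk_two (a := i.1) (b := j.1) (fun k => ((DmC _).le (hp' k)).1)
    fun k => ((DmC _).le (hq' k)).1
  have t1 := s1 _ _ hp' _ hm.mem.1 (hZ _ _ _ _ rp hp.2)
  have t2 := s1 _ _ hm.mem.2 _ hq' (hZ _ _ _ _ ⟨m, hm⟩ t1)
  exact hq.2 (hZ _ _ _ _ (PM_good.symm rq) t2)

end Pool.Agent.Work.MP_bf98aa_gt.Kg
end
end

-- merged part: Pool.Agent.Work.MP_bf98aa_gt.Kg.BMain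
section
/-!
The theorem.
-/

set_option autoImplicit false

namespace Pool.Agent.Work.MP_bf98aa_gt.Kg

open Pool.Agent.Work.MP_bf98aa_gt.Th Pool.Agent.Work.MP_bf98aa_gt.Cp

theorem goal : Goal := by
  obtain ⟨b, hb, hb'⟩ := exists_b
  obtain ⟨a, ξ, ha, hξ, hd⟩ := exists_exact
  refine goal_of PM PM_good PM_cpt PM_conn
    ⟨dy 0, dy 1, dy 2, b, a, ξ, AA, sig, ta, rho, The, fun i y => fd (tP i.2 y 0),
      fun i y => fd (tP i.2 y 1), fun i y => fd (tP i.2 y 2), gg, gg',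
      fun i y => fderiv ℝ (rr i) y⟩
    ⟨hb, fun i y hy v => (hb' i y hy v).1, fun i y hy v => (hb' i y hy v).2.1,
      fun i y hy v => (hb' i y hy v).2.2.1, fun i y hy v => (hb' i y hy v).2.2.2, ha, hξ,
      fun i y hy u v => ?_, AA_d, fun _ _ _ _ => AA_cmp, sig_gc, ta_gc, rho_gc, The_gc,
      fun i y _ => sig_inv i y, fun i y _ => ta_inv i y, fun i y _ => sig_ge i y,
      fun _ _ hy _ hv => ta_pos hy hv, fun _ _ => rho_eq, fun _ _ _ => ⟨fd_le _, fd_le _, fd_le _⟩,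
      fun i y _ => The_eq i y, fun i y _ => gg_ge i y, fun i y _ => The_dis i y,
      fun _ _ => The_loc, fun _ _ => The_zero, exists_pt, exists_pt'⟩
  exact (hd i y hy u v).trans (by rw [← rho_eq hy])

end Pool.Agent.Work.MP_bf98aa_gt.Kg
end
end
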